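import Pool.Agent.Lib.MP_242fd5_gt.Unimodal

set_option autoImplicit false

namespace Pool.Agent.Lib.MP_242fd5_gt

open MeasureTheory Set Real

/-- the invariant class -/
structure Adm (Λ F : ℝ) (u : ℝ → ℝ) (a : ℝ) : Prop where
  pos : ∀ s, 0 < u s
  even : ∀ s, u (-s) = u s
  lip : ∀ s t, u s ≤ exp |s - t| * u t
  nonneg : 0 ≤ a
  top : u a = 1
  mono : MonotoneOn u (Icc 0 a)
  anti : AntitoneOn u (Ici a)
  tail : ∀ s, u s ≤ Λ * exp (a - |s|)
  energy : F * V u ^ 5 ≤ V (T u)

variable {Λ F : ℝ} {u : ℝ → ℝ} {a : ℝ}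

lemma even_abs (he : ∀ s, u (-s) = u s) (s : ℝ) : u |s| = u s := by
  rcases abs_choice s with h | h <;> rw [h]
  exact he s

lemma le_top_of_unimodal (he : ∀ s, u (-s) = u s) (ha : 0 ≤ a) (hm : MonotoneOn u (Icc 0 a))
    (hn : AntitoneOn u (Ici a)) (s : ℝ) : u s ≤ u a := by
  rw [← even_abs he s]
  rcases le_total |s| a with h | h
  · exact hm ⟨abs_nonneg s, h⟩ ⟨ha, le_rfl⟩ h
  · exact hn self_mem_Ici h h

lemma Adm.base (h : Adm Λ F u a) : Base u :=
  ⟨h.pos, cont_of_lip h.pos h.lip, Λ * exp a, fun s => by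
    rw [mul_assoc, ← exp_add]; exact h.tail s⟩

lemma Adm.le_one (h : Adm Λ F u a) (s : ℝ) : u s ≤ 1 :=
  h.top ▸ le_top_of_unimodal h.even h.nonneg h.mono h.anti s

lemma Adm.lower (h : Adm Λ F u a) (s : ℝ) : exp (-|a - s|) ≤ u s := by
  have h1 := h.lip a s
  rw [h.top] at h1
  rw [exp_neg, inv_le_iff_one_le_mul₀' (exp_pos _)]
  exact h1

lemma T_top_lower (hb : Base u) (hl : ∀ s, exp (-|a - s|) ≤ u s) : 1 / 3 ≤ T u a := by
  have h1 := integral_exp_abs (c := 6) (by norm_num) a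
  rw [show (2:ℝ) / 6 = 1 / 3 by norm_num] at h1
  rw [← h1]
  refine integral_mono (integrable_exp_abs (by norm_num) a) (hb.int_T a) fun t => ?_
  have h2 : exp (-|a - t|) ^ 5 ≤ u t ^ 5 := pow_le_pow_left₀ (exp_pos _).le (hl t) 5
  simp only
  calc exp (-(6 * |a - t|)) = exp (-|a - t|) * exp (-|a - t|) ^ 5 := by
        rw [← exp_nat_mul, ← exp_add]; congr 1; push_cast; ring
    _ ≤ _ := by gcongr

lemma Adm.V_le (h : Adm Λ F u a) (hF : 0 < F) : V u ≤ max 1 (64 / F) := by
  have h1 := h.energy.trans (V_T_le h.base h.le_one)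
  have h2 := h.base.V_pos
  rcases le_total (V u) 1 with h3 | h3
  · exact le_max_of_le_left h3
  · refine le_max_of_le_right ?_
    rw [le_div_iff₀ hF]
    have h4 : V u * (F * V u ^ 4) ≤ V u * 64 := by nlinarith
    have h5 := le_of_mul_le_mul_left h4 h2
    have h6 : V u ≤ V u ^ 4 := le_self_pow₀ h3 (by norm_num)
    nlinarith

lemma Adm.width (h : Adm Λ F u a) (t : ℝ) : u t ^ 6 * |(|t| - a)| ≤ V u := by
  rw [← even_abs h.even t]
  set s := |t|
  have hs : 0 ≤ s := abs_nonneg t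
  have hi := h.base.int_pow 5
  have hnn : ∀ x, 0 ≤ u x ^ 6 := fun x => by have := h.pos x; positivity
  have key : ∀ x y, x ≤ y → (∀ z ∈ Ioc x y, u s ≤ u z) → u s ^ 6 * (y - x) ≤ V u := by
    intro x y hxy hz
    calc u s ^ 6 * (y - x) = ∫ _ in Ioc x y, u s ^ 6 := by
          simp [hxy, mul_comm]
      _ ≤ ∫ z in Ioc x y, u z ^ 6 := by
          refine setIntegral_mono_on (by simp) hi.integrableOn measurableSet_Ioc fun z hz' => ?_
          exact pow_le_pow_left₀ (h.pos s).le (hz z hz') 6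
      _ ≤ V u := setIntegral_le_integral hi (Filter.Eventually.of_forall hnn)
  rcases le_total s a with h1 | h1
  · rw [abs_of_nonpos (by linarith), neg_sub]
    exact key s a h1 fun z hz => h.mono ⟨hs, h1⟩ ⟨hs.trans hz.1.le, hz.2⟩ hz.1.le
  · rw [abs_of_nonneg (by linarith)]
    exact key a s h1 fun z hz => h.anti (show a ≤ z from hz.1.le) (show a ≤ s from h1) hz.2

lemma Adm.small (h : Adm Λ F u a) {Wd η : ℝ} (hW : V u ≤ Wd) (hη : 0 < η) {t : ℝ}
    (ht : Wd / η ^ 6 ≤ |(|t| - a)|) : u t ≤ η := by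
  have h0 : 0 < Wd := h.base.V_pos.trans_le hW
  have h1 : 0 < |(|t| - a)| := lt_of_lt_of_le (by positivity) ht
  rw [div_le_iff₀ (by positivity)] at ht
  have h2 : u t ^ 6 * |(|t| - a)| ≤ η ^ 6 * |(|t| - a)| := by
    have := h.width t
    linarith
  have h3 := le_of_mul_le_mul_right h2 h1
  exact (pow_le_pow_iff_left₀ (h.pos t).le hη.le (by norm_num)).1 h3

lemma Adm.speed (h : Adm Λ F u a) {Wd : ℝ} (hW : V u ≤ Wd) {b : ℝ} (hb : 0 ≤ b)
    (hab : T u a ≤ T u b) : |b - a| ≤ 128 * Wd := by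
  by_contra hc
  have hc := not_le.1 hc
  have h0 : 0 < Wd := h.base.V_pos.trans_le hW
  set δ := |b - a|
  have h1 := (T_top_lower h.base h.lower).trans hab
  have h2 : T u b ≤ ∫ t, (1 / 32 * exp (-|b - t|) + 2 * exp (-(δ / 2)) * u t ^ 6) := by
    refine integral_mono (h.base.int_T b)
      (((integrable_G b).const_mul _).add ((h.base.int_pow 5).const_mul _)) fun t => ?_
    have hp := h.pos t
    have he := exp_pos (-|b - t|)
    have he2 := exp_pos (-(δ / 2))
    simp only
    have hsmall : u t ≤ 1 / 2 → exp (-|b - t|) * u t ^ 5 ≤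
        1 / 32 * exp (-|b - t|) + 2 * exp (-(δ / 2)) * u t ^ 6 := by
      intro h3
      have h4 : u t ^ 5 ≤ (1 / 2) ^ 5 := pow_le_pow_left₀ hp.le h3 5
      have h5 : 0 ≤ 2 * exp (-(δ / 2)) * u t ^ 6 := by positivity
      nlinarith
    rcases le_total (u t) (1 / 2) with h3 | h3
    · exact hsmall h3
    · rcases le_total |b - t| (δ / 2) with h4 | h4
      · refine hsmall (h.small hW (by norm_num) ?_)
        have h5 : |b - (|t|)| ≤ |b - t| := by
          have := abs_abs_sub_abs_le_abs_sub b t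
          rwa [abs_of_nonneg hb] at this
        have h6 : δ ≤ |b - (|t|)| + |(|t| - a)| := abs_sub_le b (|t|) a
        have : Wd / (1 / 2) ^ 6 = 64 * Wd := by ring
        linarith
      · have h5 : exp (-|b - t|) ≤ exp (-(δ / 2)) := exp_le_exp.2 (by linarith)
        have h6 : u t ^ 5 ≤ 2 * u t ^ 6 := by
          have : 0 < u t ^ 5 := by positivity
          nlinarith
        have h7 : exp (-|b - t|) * u t ^ 5 ≤ exp (-(δ / 2)) * (2 * u t ^ 6) := by gcongr
        nlinarith
  rw [integral_add ((integrable_G b).const_mul _) ((h.base.int_pow 5).const_mul _),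
    integral_const_mul, integral_const_mul, integral_G] at h2
  change _ ≤ _ + 2 * exp (-(δ / 2)) * V u at h2
  have h3 : δ / 2 + 1 ≤ exp (δ / 2) := add_one_le_exp _
  have h4 : exp (δ / 2) * exp (-(δ / 2)) = 1 := by rw [← exp_add]; simp
  have h5 := exp_pos (-(δ / 2))
  have h6 : 64 * Wd * exp (-(δ / 2)) ≤ 1 := by nlinarith
  have h7 : exp (-(δ / 2)) * V u ≤ exp (-(δ / 2)) * Wd := by gcongr
  nlinarith

lemma Base.T_le' (h : Base u) (he : ∀ s, u (-s) = u s) (s : ℝ) :
    T u s ≤ (∫ t, exp t * u t ^ 5) * exp (-|s|) := by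
  rw [← even_abs (T_even he) s]
  unfold T
  rw [← integral_mul_const]
  refine integral_mono (h.int_T _) (h.int_A.mul_const _) fun t => ?_
  have := h.pos t
  simp only
  rw [mul_right_comm, ← exp_add]
  gcongr
  have := le_abs_self (|s| - t)
  linarith

lemma Adm.tail_int (h : Adm Λ F u a) {Wd η : ℝ} (hW : V u ≤ Wd) (hη : 0 < η) :
    ∫ t, exp t * u t ^ 5 ≤ 2 * exp (a + Wd / η ^ 6) + 2 * (η ^ 4 * (Λ * exp a)) := by
  have h0 : 0 < Wd := h.base.V_pos.trans_le hW
  set l := Wd / η ^ 6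
  have hl : 0 < l := by positivity
  have hΛ : 0 < Λ := by
    have := (h.pos a).trans_le (h.tail a)
    exact (mul_pos_iff_of_pos_right (exp_pos _)).1 this
  set B := Λ * exp a with hBdef
  have hB : 0 < B := by positivity
  set t0 := Real.log (B / η)
  have ht0 : exp t0 = B / η := Real.exp_log (by positivity)
  have h1 : ∫ t, exp t * u t ^ 5 ≤
      ∫ t, (exp (a + l) * exp (-|a + l - t|) + η ^ 4 * B * exp (-|t0 - t|)) := by
    refine integral_mono h.base.int_A
      (((integrable_G _).const_mul _).add ((integrable_G _).const_mul _)) fun t => ?_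
    have hp := h.pos t
    simp only
    rcases le_total t (a + l) with h2 | h2
    · have h3 : exp (a + l) * exp (-|a + l - t|) = exp t := by
        rw [← exp_add, abs_of_nonneg (by linarith)]; congr 1; ring
      have h4 : exp t * u t ^ 5 ≤ exp t :=
        mul_le_of_le_one_right (exp_pos _).le (pow_le_one₀ hp.le (h.le_one t))
      have h5 : 0 ≤ η ^ 4 * B * exp (-|t0 - t|) := by positivity
      linarith
    · have ha := h.nonneg
      have ht : |t| = t := abs_of_nonneg (by linarith)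
      have h3 : u t ≤ η := h.small hW hη (by rw [ht, abs_of_nonneg (by linarith)]; linarith)
      have h4 : u t ≤ B * exp (-t) := by
        have := h.tail t
        rwa [ht, sub_eq_add_neg, exp_add, ← mul_assoc] at this
      have h5 : 0 ≤ exp (a + l) * exp (-|a + l - t|) := by positivity
      suffices exp t * u t ^ 5 ≤ η ^ 4 * B * exp (-|t0 - t|) by linarith
      have h6 : exp t * exp (-t) = 1 := by rw [← exp_add]; simp
      rcases le_total t t0 with h7 | h7
      · rw [abs_of_nonneg (by linarith), neg_sub, exp_sub, ht0]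
        calc exp t * u t ^ 5 ≤ exp t * η ^ 5 := by gcongr
          _ = η ^ 4 * B * (exp t / (B / η)) := by field_simp
      · rw [abs_of_nonpos (by linarith), neg_neg, sub_eq_add_neg, exp_add, ht0]
        calc exp t * u t ^ 5 = exp t * (u t ^ 3 * u t ^ 2) := by ring
          _ ≤ exp t * (η ^ 3 * (B * exp (-t)) ^ 2) := by gcongr
          _ = η ^ 3 * B ^ 2 * exp (-t) * (exp t * exp (-t)) := by ring
          _ = η ^ 4 * B * (B / η * exp (-t)) := by rw [h6]; field_simp
  rw [integral_add ((integrable_G _).const_mul _) ((integrable_G _).const_mul _),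
    integral_const_mul, integral_const_mul, integral_G, integral_G] at h1
  linarith

theorem adm_step (hF : 0 < F) : ∃ D Λ : ℝ, 0 ≤ D ∧ 2 ≤ Λ ∧ ∀ (u : ℝ → ℝ) (a : ℝ), Adm Λ F u a →
    ∃ b κ : ℝ, 1 / 2 ≤ κ ∧ κ ≤ 3 ∧ |b - a| ≤ D ∧ Adm Λ F (fun s => κ * T u s) b := by
  set Wd := max 1 (64 / F)
  have hWd : 1 ≤ Wd := le_max_left _ _
  set D := 128 * Wd
  have hD : 0 ≤ D := by positivity
  set η := exp (-D) / 2 with hηdef
  have hη : 0 < η := by positivity
  set l := Wd / η ^ 6
  have hl : 0 ≤ l := by positivity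
  refine ⟨D, 12 * exp (D + l), hD, ?_, fun u a h => ?_⟩
  · have := one_le_exp (add_nonneg hD hl)
    linarith
  set Λ := 12 * exp (D + l) with hΛdef
  have hW := h.V_le hF
  have hv := h.base.T_base
  obtain ⟨b, hb, hm, hn⟩ := unimodal_step h.base h.even h.mono h.anti
  have htop := le_top_of_unimodal (T_even h.even) hb hm hn
  have h1 : 1 / 3 ≤ T u b := (T_top_lower h.base h.lower).trans (htop a)
  have h2 : T u b ≤ 2 := T_le_two h.base h.le_one b
  have h3 : 0 < T u b := hv.pos b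
  have hsp := h.speed hW hb (htop a)
  have hκ : 0 < (T u b)⁻¹ := inv_pos.2 h3
  have hκ3 : (T u b)⁻¹ ≤ 3 := by rw [inv_le_comm₀ h3 (by norm_num)]; linarith
  refine ⟨b, (T u b)⁻¹, ?_, hκ3, hsp, ?_⟩
  · rw [le_inv_comm₀ (by norm_num) h3]; linarith
  refine ⟨fun s => mul_pos hκ (hv.pos s), fun s => by rw [T_even h.even], fun s t => ?_, hb,
    inv_mul_cancel₀ h3.ne', fun x hx y hy hxy => mul_le_mul_of_nonneg_left (hm hx hy hxy) hκ.le,
    fun x hx y hy hxy => mul_le_mul_of_nonneg_left (hn hx hy hxy) hκ.le, fun s => ?_, ?_⟩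
  · rw [mul_left_comm]
    exact mul_le_mul_of_nonneg_left (h.base.T_lip s t) hκ.le
  · have h4 := h.base.T_le' h.even s
    have h5 := h.tail_int hW hη
    have hab : a ≤ b + D := by
      have := neg_abs_le (b - a)
      linarith
    have h6 : exp a ≤ exp D * exp b := by rw [← exp_add]; exact exp_le_exp.2 (by linarith)
    have h7 : exp (a + l) ≤ exp (D + l) * exp b := by
      rw [← exp_add]; exact exp_le_exp.2 (by linarith)
    have h8 : η ^ 4 * exp D ≤ 1 / 16 := by
      have e1 : exp D * exp (-D) = 1 := by rw [← exp_add]; simp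
      have e2 : exp (-D) ≤ 1 := exp_le_one_iff.2 (by linarith)
      have e3 := exp_pos (-D)
      calc η ^ 4 * exp D = (exp D * exp (-D)) * exp (-D) ^ 3 / 16 := by rw [hηdef]; ring
        _ ≤ 1 * 1 / 16 := by
            gcongr
            · exact e1.le
            · exact pow_le_one₀ e3.le e2
        _ = 1 / 16 := by norm_num
    have hΛ : 0 < Λ := by positivity
    have h9 : η ^ 4 * (Λ * exp a) ≤ 1 / 16 * (Λ * exp b) := by
      calc η ^ 4 * (Λ * exp a) ≤ η ^ 4 * (Λ * (exp D * exp b)) := by gcongr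
        _ = (η ^ 4 * exp D) * (Λ * exp b) := by ring
        _ ≤ _ := by gcongr
    have h10 : exp (D + l) * exp b = 1 / 12 * (Λ * exp b) := by rw [hΛdef]; ring
    have h11 : 0 < Λ * exp b := by positivity
    have h12 : ∫ t, exp t * u t ^ 5 ≤ 1 / 3 * (Λ * exp b) := by linarith
    calc (T u b)⁻¹ * T u s ≤ 3 * ((1 / 3 * (Λ * exp b)) * exp (-|s|)) := by
          gcongr
          · exact (hv.pos s).le
          · exact h4.trans (by gcongr)
      _ = Λ * exp (b - |s|) := by rw [sub_eq_add_neg, exp_add]; ring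
  · have h4 : T (fun s => (T u b)⁻¹ * T u s) = fun s => (T u b)⁻¹ ^ 5 * T (T u) s :=
      funext (T_smul _ _)
    rw [h4, V_smul, V_smul]
    have h5 := energy_step h.base h.energy
    calc F * ((T u b)⁻¹ ^ 6 * V (T u)) ^ 5 = ((T u b)⁻¹ ^ 5) ^ 6 * (F * V (T u) ^ 5) := by ring
      _ ≤ _ := by gcongr

end Pool.Agent.Lib.MP_242fd5_gt
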