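import Pool.Agent.Lib.MP_242fd5_gt.Osc

set_option autoImplicit false

namespace Pool.Agent.Lib.MP_242fd5_gt

open MeasureTheory Set Real Filter Topology

lemma init_cmp {R : ℝ} (hR : 0 ≤ R) : Cmp (init R) := by
  obtain ⟨F, _, h⟩ := init_adm
  exact (h 2 R le_rfl hR).cmp

lemma iter_q (hq : ∃ c, ∀ s, T q s = c * q s) (N : ℕ) :
    ∃ c, 0 < c ∧ T^[N] q = fun s => c * q s := by
  obtain ⟨c, hc⟩ := hq
  have hc0 : 0 < c := by
    have := q_base.T_pos 0
    rwa [hc, q_zero, mul_one] at this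
  induction N with
  | zero => exact ⟨1, one_pos, by ext s; simp⟩
  | succ N ih =>
    obtain ⟨d, hd, h⟩ := ih
    refine ⟨d ^ 5 * c, by positivity, ?_⟩
    rw [Function.iterate_succ_apply', h]
    ext s; rw [T_smul, hc, mul_assoc]

/-- finite backward orbits with prescribed oscillation and uniform bounds -/
theorem finite_orbits (hq : ∃ c, ∀ s, T q s = c * q s) {γ : ℝ} (hγ : 0 ≤ γ) :
    ∃ Λ F D : ℝ, 0 ≤ D ∧ ∀ N : ℕ, ∃ (x : ℕ → ℝ → ℝ) (a κ : ℕ → ℝ),
      (∀ m, Adm Λ F (x m) (a m) ∧ a m ≤ γ + 1 + m * D ∧ κ m ∈ Icc (1 / 2 : ℝ) 3) ∧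
      (∀ m < N, ∀ s, x m s = κ m * T (x (m + 1)) s) ∧ osc (x 0) = γ := by
  obtain ⟨F, hF, hinit⟩ := init_adm
  obtain ⟨D, Λ, hD, hΛ, hstep⟩ := adm_step hF
  refine ⟨Λ, F, D, hD, fun N => ?_⟩
  let S := {p : (ℝ → ℝ) × ℝ // Adm Λ F p.1 p.2}
  have hs : ∀ p : S, ∃ p' : S, ∃ κ : ℝ, κ ∈ Icc (1 / 2 : ℝ) 3 ∧ |p'.1.2 - p.1.2| ≤ D ∧
      ∀ s, p'.1.1 s = κ * T p.1.1 s := by
    rintro ⟨⟨u, a⟩, h⟩
    obtain ⟨b, κ, h1, h2, h3, h4⟩ := hstep u a h
    exact ⟨⟨(fun s => κ * T u s, b), h4⟩, κ, ⟨h1, h2⟩, h3, fun s => rfl⟩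
  choose st κ hκ hd hst using hs
  have hmode : ∀ (p : S) (k : ℕ), p.1.2 ≤ (st^[k] p).1.2 + k * D := by
    intro p k
    induction k with
    | zero => simp
    | succ k ih =>
      rw [Function.iterate_succ_apply']
      have := hd (st^[k] p)
      have := neg_abs_le ((st (st^[k] p)).1.2 - (st^[k] p).1.2)
      push_cast; linarith
  have hiter : ∀ (p : S) (k : ℕ), ∃ c, 0 < c ∧ (st^[k] p).1.1 = fun s => c * T^[k] p.1.1 s := by
    intro p k
    induction k with
    | zero => exact ⟨1, one_pos, by ext s; simp⟩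
    | succ k ih =>
      obtain ⟨c, hc, h⟩ := ih
      have h1 := (hκ (st^[k] p)).1
      refine ⟨κ (st^[k] p) * c ^ 5, by have : 0 < κ (st^[k] p) := by linarith
                                       positivity, ?_⟩
      ext s
      rw [Function.iterate_succ_apply', Function.iterate_succ_apply', hst, h, T_smul, mul_assoc]
  have hosc : ∀ (p : S) (k : ℕ), osc (st^[k] p).1.1 = osc (T^[k] p.1.1) := by
    intro p k
    obtain ⟨c, hc, h⟩ := hiter p k
    rw [h, osc_smul (p.2.base.iter k).pos hc]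
  let g : ℝ → ℝ := fun R => osc (T^[N] (init R))
  have hg : ContinuousOn g (Icc 0 (γ + 1 + N * D)) := by
    have : LipschitzOnWith (2 * 5 ^ N) g (Icc 0 (γ + 1 + N * D)) := by
      refine LipschitzOnWith.of_le_add_mul _ fun R hR R' hR' => ?_
      have h1 := init_cmp hR.1
      have h2 := init_cmp hR'.1
      have := osc_le_add (h1.base.iter N).pos (h2.iter N)
        (iter_le h1.base h2.base (init_lip2 R R') N)
        (iter_le h2.base h1.base (fun s => by rw [abs_sub_comm]; exact init_lip2 R' R s) N)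
      rw [Real.dist_eq]
      push_cast
      simp only [g]
      linarith
    exact this.continuousOn
  have hg0 : g 0 = 0 := by
    have h1 : init 0 = q := by ext s; unfold init; rw [sub_zero, even_abs q_even]
    obtain ⟨c, hc, h⟩ := iter_q hq N
    simp only [g]
    rw [h1, h, osc_smul q_pos hc, osc_q]
  have hR1 : 0 ≤ γ + 1 + N * D := by positivity
  have hg1 : γ ≤ g (γ + 1 + N * D) := by
    let p : S := ⟨(init (γ + 1 + N * D), γ + 1 + N * D), hinit Λ _ hΛ hR1⟩
    have h1 := hmode p N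
    have h2 := (st^[N] p).2.mode_le
    rw [hosc p N] at h2
    simp only [p] at h1 h2
    simp only [g]
    linarith
  obtain ⟨R, hR, hgR⟩ := intermediate_value_Icc hR1 hg (show γ ∈ Icc (g 0) _ from
    ⟨by rw [hg0]; exact hγ, hg1⟩)
  let p : S := ⟨(init R, R), hinit Λ _ hΛ hR.1⟩
  have hfin : osc (st^[N] p).1.1 = γ := by rw [hosc p N]; exact hgR
  refine ⟨fun m => (st^[N - m] p).1.1, fun m => (st^[N - m] p).1.2,
    fun m => κ (st^[N - (m + 1)] p), fun m => ⟨(st^[N - m] p).2, ?_, hκ _⟩, fun m hm s => ?_, ?_⟩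
  · have h1 := hmode (st^[N - m] p) (N - (N - m))
    rw [← Function.iterate_add_apply, show N - (N - m) + (N - m) = N by omega] at h1
    have h2 := (st^[N] p).2.mode_le
    have h3 : ((N - (N - m) : ℕ) : ℝ) ≤ m := by exact_mod_cast (by omega : N - (N - m) ≤ m)
    have h4 : ((N - (N - m) : ℕ) : ℝ) * D ≤ m * D := by gcongr
    simp only
    linarith
  · simp only
    rw [show N - m = (N - (m + 1)) + 1 by omega, Function.iterate_succ_apply', hst]
  · simpa using hfin

lemma cauchy_of_rat (f : ℕ → ℝ → ℝ) (hl : ∀ k s t, f k s - f k t ≤ |s - t|)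
    (hq : ∀ r : ℚ, CauchySeq fun k => f k r) (s : ℝ) : CauchySeq fun k => f k s := by
  rw [Metric.cauchySeq_iff]
  intro ε hε
  obtain ⟨r, hr⟩ := exists_rat_near s (show 0 < ε / 3 by positivity)
  obtain ⟨N, hN⟩ := Metric.cauchySeq_iff.1 (hq r) (ε / 3) (by positivity)
  refine ⟨N, fun m hm n hn => ?_⟩
  have h1 := hN m hm n hn
  rw [Real.dist_eq, abs_lt] at h1 ⊢
  have h2 := hl m s r
  have h3 := hl m r s
  have h4 := hl n s r
  have h5 := hl n r s
  rw [abs_sub_comm] at h3 h5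
  constructor <;> linarith [h1.1, h1.2]

theorem ancient_aux (hq : ∃ c, ∀ s, T q s = c * q s) {γ : ℝ} (hγ : 0 ≤ γ) :
    ∃ (w : ℕ → ℝ → ℝ) (κ : ℕ → ℝ), (∀ m, Cmp (w m) ∧ (∀ s, w m (-s) = w m s) ∧ 0 < κ m) ∧
      (∀ m s, w m s = κ m * T (w (m + 1)) s) ∧ osc (w 0) = γ := by
  obtain ⟨Λ, F, D, hD, H⟩ := finite_orbits hq hγ
  choose x a κ h1 h2 h3 using H
  set A : ℕ → ℝ := fun m => γ + 1 + m * D with hA
  have hadm : ∀ N m, Adm Λ F (x N m) (a N m) := fun N m => (h1 N m).1
  have hΛ : 0 < Λ := by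
    have := ((hadm 0 0).pos 0).trans_le ((hadm 0 0).tail 0)
    exact (mul_pos_iff_of_pos_right (exp_pos _)).1 this
  have hlow : ∀ N m s, exp (-(A m) - |s|) ≤ x N m s := by
    intro N m s
    rw [← even_abs (hadm N m).even s]
    refine le_trans (exp_le_exp.2 ?_) ((hadm N m).lower |s|)
    have h4 := (h1 N m).2.1
    have h5 := (hadm N m).nonneg
    have h6 : |a N m - (|s|)| ≤ a N m + |s| := by
      rw [abs_le]; constructor <;> linarith [abs_nonneg s]
    simp only [hA]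
    linarith
  have hup : ∀ N m s, x N m s ≤ Λ * exp (A m) * exp (-|s|) := by
    intro N m s
    refine ((hadm N m).tail s).trans ?_
    rw [mul_assoc, ← exp_add]
    gcongr
    have h4 := (h1 N m).2.1
    simp only [hA]
    linarith
  let K : Set ((ℕ → ℝ) × (ℕ × ℚ → ℝ)) := (Set.pi univ fun _ => Icc (1 / 2 : ℝ) 3) ×ˢ
    (Set.pi univ fun p => Icc (-(A p.1) - |(p.2 : ℝ)|) 0)
  have hK : IsCompact K :=
    (isCompact_univ_pi fun _ => isCompact_Icc).prod (isCompact_univ_pi fun _ => isCompact_Icc)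
  have hmem : ∀ N, ((κ N, fun p => Real.log (x N p.1 p.2)) : (ℕ → ℝ) × (ℕ × ℚ → ℝ)) ∈ K := by
    intro N
    refine ⟨fun m _ => (h1 N m).2.2, fun p _ => ⟨?_, ?_⟩⟩
    · have := Real.log_le_log (exp_pos _) (hlow N p.1 p.2)
      rwa [Real.log_exp] at this
    · exact Real.log_nonpos ((hadm N p.1).pos _).le ((hadm N p.1).le_one _)
  obtain ⟨⟨κl, yl⟩, hlim, φ, hφ, hconv⟩ := hK.tendsto_subseq hmem
  have hκ : ∀ m, Tendsto (fun k => κ (φ k) m) atTop (𝓝 (κl m)) := fun m =>
    tendsto_pi_nhds.1 ((continuous_fst.tendsto _).comp hconv) m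
  have hy : ∀ m (r : ℚ), Tendsto (fun k => Real.log (x (φ k) m r)) atTop (𝓝 (yl (m, r))) :=
    fun m r => tendsto_pi_nhds.1 ((continuous_snd.tendsto _).comp hconv) (m, r)
  have hc : ∀ m s, ∃ l, Tendsto (fun k => Real.log (x (φ k) m s)) atTop (𝓝 l) := by
    intro m s
    refine cauchySeq_tendsto_of_complete (cauchy_of_rat (fun k s => Real.log (x (φ k) m s))
      (fun k s t => ?_) (fun r => (hy m r).cauchySeq) s)
    have := Real.log_le_log ((hadm (φ k) m).pos s) ((hadm (φ k) m).lip s t)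
    rw [Real.log_mul (exp_pos _).ne' ((hadm (φ k) m).pos t).ne', Real.log_exp] at this
    linarith
  choose l hl using hc
  let w : ℕ → ℝ → ℝ := fun m s => exp (l m s)
  have hw : ∀ m s, Tendsto (fun k => x (φ k) m s) atTop (𝓝 (w m s)) := by
    intro m s
    have := (Real.continuous_exp.tendsto _).comp (hl m s)
    refine this.congr fun k => ?_
    simp only [Function.comp]
    exact Real.exp_log ((hadm (φ k) m).pos s)
  have wpos : ∀ m s, 0 < w m s := fun m s => exp_pos _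
  have wlip : ∀ m s t, w m s ≤ exp |s - t| * w m t := fun m s t =>
    le_of_tendsto_of_tendsto' (hw m s) ((hw m t).const_mul _) fun k => (hadm (φ k) m).lip s t
  have weven : ∀ m s, w m (-s) = w m s := fun m s =>
    tendsto_nhds_unique (hw m (-s)) ((hw m s).congr fun k => ((hadm (φ k) m).even s).symm)
  have wup : ∀ m s, w m s ≤ Λ * exp (A m) * exp (-|s|) := fun m s =>
    le_of_tendsto' (hw m s) fun k => hup _ m s
  have wlow : ∀ m s, exp (-(A m) - |s|) ≤ w m s := fun m s =>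
    ge_of_tendsto' (hw m s) fun k => hlow _ m s
  have wbase : ∀ m, Base (w m) := fun m => ⟨wpos m, cont_of_lip (wpos m) (wlip m), _, wup m⟩
  have κpos : ∀ m, 1 / 2 ≤ κl m ∧ κl m ≤ 3 := fun m => hlim.1 m (mem_univ _)
  -- weighted convergence of the densities
  have hε : ∀ m, Tendsto (fun k => ∫ t, exp |t| *
      |κ (φ k) m * x (φ k) (m + 1) t ^ 5 - κl m * w (m + 1) t ^ 5|) atTop (𝓝 0) := by
    intro m
    have h0 : (0:ℝ) = ∫ t : ℝ, (0:ℝ) := by simp
    rw [h0]
    refine tendsto_integral_of_dominated_convergence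
      (fun t => 6 * (Λ * exp (A (m + 1))) ^ 5 * exp (-|t|)) (fun k => ?_)
      (integrable_G0.const_mul _) (fun k => Eventually.of_forall fun t => ?_)
      (Eventually.of_forall fun t => ?_)
    · have := (hadm (φ k) (m + 1)).base.cont
      have := (wbase (m + 1)).cont
      exact Continuous.aestronglyMeasurable (by fun_prop)
    · have e1 := (hadm (φ k) (m + 1)).base.exp_mul_le (hup (φ k) (m + 1)) t
      have e2 := (wbase (m + 1)).exp_mul_le (wup (m + 1)) t
      have p1 := (hadm (φ k) (m + 1)).pos t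
      have p2 := wpos (m + 1) t
      have k1 := (h1 (φ k) m).2.2
      have k2 := κpos m
      rw [Real.norm_of_nonneg (by positivity)]
      have b1 : |κ (φ k) m * x (φ k) (m + 1) t ^ 5 - κl m * w (m + 1) t ^ 5| ≤
          3 * x (φ k) (m + 1) t ^ 5 + 3 * w (m + 1) t ^ 5 := by
        have q1 : 0 < x (φ k) (m + 1) t ^ 5 := by positivity
        have q2 : 0 < w (m + 1) t ^ 5 := by positivity
        rw [abs_le]; constructor <;> nlinarith [k1.1, k1.2, k2.1, k2.2]
      calc exp |t| * |κ (φ k) m * x (φ k) (m + 1) t ^ 5 - κl m * w (m + 1) t ^ 5|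
          ≤ exp |t| * (3 * x (φ k) (m + 1) t ^ 5 + 3 * w (m + 1) t ^ 5) := by gcongr
        _ ≤ _ := by linarith
    · have := ((((hκ m).mul ((hw (m + 1) t).pow 5)).sub_const
        (κl m * w (m + 1) t ^ 5)).abs).const_mul (exp |t|)
      simpa using this
  have hdiff : ∀ m k, m < φ k → ∀ s, |x (φ k) m s - κl m * T (w (m + 1)) s| ≤
      (∫ t, exp |t| * |κ (φ k) m * x (φ k) (m + 1) t ^ 5 - κl m * w (m + 1) t ^ 5|) *
        exp (-|s|) := by
    intro m k hk s
    have b1 := (hadm (φ k) (m + 1)).base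
    have b2 := wbase (m + 1)
    rw [h2 (φ k) m hk s]
    unfold T
    rw [← integral_const_mul, ← integral_const_mul, ← integral_sub ((b1.int_T s).const_mul _)
      ((b2.int_T s).const_mul _), ← integral_mul_const]
    refine abs_integral_le_integral_abs.trans (integral_mono
      (((b1.int_T s).const_mul _).sub ((b2.int_T s).const_mul _)).abs ?_ fun t => ?_)
    · refine Integrable.mul_const ?_ _
      refine ((b1.int_exp.const_mul (κ (φ k) m)).sub (b2.int_exp.const_mul (κl m))).abs.congr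
        (Eventually.of_forall fun t => ?_)
      simp only [Pi.sub_apply]
      rw [← abs_of_pos (exp_pos |t|), ← abs_mul, abs_of_pos (exp_pos |t|)]
      congr 1; ring
    · simp only
      rw [show κ (φ k) m * (exp (-|s - t|) * x (φ k) (m + 1) t ^ 5) -
          κl m * (exp (-|s - t|) * w (m + 1) t ^ 5) = exp (-|s - t|) *
          (κ (φ k) m * x (φ k) (m + 1) t ^ 5 - κl m * w (m + 1) t ^ 5) by ring, abs_mul,
        abs_of_pos (exp_pos _), mul_right_comm, ← exp_add]
      gcongr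
      have : |s| ≤ |s - t| + |t| := by simpa using abs_add_le (s - t) t
      linarith
  have hev : ∀ m, ∀ᶠ k in atTop, m < φ k := fun m => hφ.tendsto_atTop.eventually_gt_atTop m
  have hrel : ∀ m s, w m s = κl m * T (w (m + 1)) s := by
    intro m s
    refine tendsto_nhds_unique (hw m s) ?_
    rw [tendsto_iff_norm_sub_tendsto_zero]
    have := (hε m).mul_const (exp (-|s|))
    rw [zero_mul] at this
    exact squeeze_zero' (Eventually.of_forall fun k => norm_nonneg _)
      ((hev m).mono fun k hk => hdiff m k hk s) this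
  have wcmp : ∀ m, Cmp (w m) := fun m => ⟨wbase m, wlip m⟩
  refine ⟨w, κl, fun m => ⟨wcmp m, weven m, by linarith [(κpos m).1]⟩, hrel, ?_⟩
  set ε : ℕ → ℝ := fun k => ∫ t, exp |t| *
      |κ (φ k) 0 * x (φ k) (0 + 1) t ^ 5 - κl 0 * w (0 + 1) t ^ 5| with hεdef
  have hε0 : ∀ k, 0 ≤ ε k := fun k => integral_nonneg fun t => by positivity
  have hclose : ∀ᶠ k in atTop, |osc (w 0) - γ| ≤ 2 * (ε k * exp (A 0)) := by
    refine (hev 0).mono fun k hk => ?_
    have key : ∀ (y z s : ℝ), |y - z| ≤ ε k * exp (-|s|) → exp (-(A 0) - |s|) ≤ z →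
        y ≤ exp (ε k * exp (A 0)) * z := by
      intro y z s h5 h6
      have h7 : exp (-|s|) ≤ exp (A 0) * z := by
        calc exp (-|s|) = exp (A 0) * exp (-(A 0) - |s|) := by rw [← exp_add]; congr 1; ring
          _ ≤ _ := by gcongr
      have h8 := add_one_le_exp (ε k * exp (A 0))
      have h9 : 0 < z := (exp_pos _).trans_le h6
      have h10 : ε k * exp (-|s|) ≤ ε k * (exp (A 0) * z) :=
        mul_le_mul_of_nonneg_left h7 (hε0 k)
      have h11 := le_abs_self (y - z)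
      nlinarith
    have d1 : ∀ s, |x (φ k) 0 s - w 0 s| ≤ ε k * exp (-|s|) := fun s => by
      rw [hrel 0 s]; exact hdiff 0 k hk s
    have e1 : ∀ s, x (φ k) 0 s ≤ exp (ε k * exp (A 0)) * w 0 s := fun s =>
      key _ _ s (d1 s) (wlow 0 s)
    have e2 : ∀ s, w 0 s ≤ exp (ε k * exp (A 0)) * x (φ k) 0 s := fun s =>
      key _ _ s (by rw [abs_sub_comm]; exact d1 s) (hlow _ 0 s)
    have f1 := osc_le_add (hadm (φ k) 0).pos (wcmp 0) e1 e2
    have f2 := osc_le_add (wpos 0) (hadm (φ k) 0).cmp e2 e1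
    rw [h3] at f1 f2
    rw [abs_le]; constructor <;> linarith
  have hlim2 := ((hε 0).mul_const (exp (A 0))).const_mul 2
  rw [zero_mul, mul_zero] at hlim2
  have := ge_of_tendsto hlim2 hclose
  have := abs_nonpos_iff.1 this
  linarith

/-- backward orbits of the one-dimensional model with prescribed oscillation -/
theorem ancient (hq : ∃ c, ∀ s, T q s = c * q s) {γ : ℝ} (hγ : 0 ≤ γ) {κ0 : ℝ} (hκ0 : 0 < κ0) :
    ∃ w : ℕ → ℝ → ℝ, (∀ m, Cmp (w m) ∧ ∀ s, w m (-s) = w m s) ∧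
      (∀ m s, w m s = κ0 * T (w (m + 1)) s) ∧ osc (w 0) = γ := by
  obtain ⟨w, κ, h1, h2, h3⟩ := ancient_aux hq hγ
  have hs : ∀ (m : ℕ) (y : {y : ℝ // 0 < y}), ∃ z : {y : ℝ // 0 < y},
      z.1 ^ 5 = y.1 * κ m / κ0 := by
    intro m y
    have := y.2
    have := (h1 m).2.2
    obtain ⟨z, hz, hz5⟩ := exists_fifth_root (x := y.1 * κ m / κ0) (by positivity)
    exact ⟨⟨z, hz⟩, hz5⟩
  choose nx hnx using hs
  let lam : ℕ → {y : ℝ // 0 < y} := fun m => Nat.rec ⟨1, one_pos⟩ nx m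
  have hlam : ∀ m, (lam (m + 1)).1 ^ 5 = (lam m).1 * κ m / κ0 := fun m => hnx m (lam m)
  refine ⟨fun m s => (lam m).1 * w m s, fun m => ⟨⟨(h1 m).1.base.smul (lam m).2,
    fun s t => ?_⟩, fun s => by simp only [(h1 m).2.1]⟩, fun m s => ?_, ?_⟩
  · rw [mul_left_comm]
    exact mul_le_mul_of_nonneg_left ((h1 m).1.lip s t) (lam m).2.le
  · rw [T_smul, hlam]
    show (lam m).1 * w m s = _
    rw [h2]; field_simp
  · rw [osc_smul (h1 0).1.base.pos (lam 0).2, h3]

end Pool.Agent.Lib.MP_242fd5_gt
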