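import Pool.Agent.Lib.MP_242fd5_gt.Defs

set_option autoImplicit false

namespace Pool.Agent.Lib.MP_242fd5_gt

open MeasureTheory Set Real Metric

/-- the star-shaped set with a given radial function -/
def starSet {n : ℕ} (ρ : EuclideanSpace ℝ (Fin n) → ℝ) : Set (EuclideanSpace ℝ (Fin n)) :=
  {x | ∃ u ∈ sphere (0 : EuclideanSpace ℝ (Fin n)) 1, ∃ c : ℝ, 0 ≤ c ∧ c ≤ ρ u ∧ x = c • u}

variable {n : ℕ} {ρ ρ' : EuclideanSpace ℝ (Fin n) → ℝ}

lemma interBody_eq (L : Set (EuclideanSpace ℝ (Fin n))) : interBody L = starSet (sectionVol L) :=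
  rfl

lemma starSet_congr (h : ∀ u ∈ sphere (0 : EuclideanSpace ℝ (Fin n)) 1, ρ u = ρ' u) :
    starSet ρ = starSet ρ' := by
  ext x
  constructor
  · rintro ⟨u, hu, c, h0, h1, rfl⟩
    exact ⟨u, hu, c, h0, h u hu ▸ h1, rfl⟩
  · rintro ⟨u, hu, c, h0, h1, rfl⟩
    exact ⟨u, hu, c, h0, (h u hu).symm ▸ h1, rfl⟩

lemma smul_mem_starSet (hp : ∀ u ∈ sphere (0 : EuclideanSpace ℝ (Fin n)) 1, 0 < ρ u)
    {u : EuclideanSpace ℝ (Fin n)} (hu : u ∈ sphere (0 : EuclideanSpace ℝ (Fin n)) 1)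
    {c : ℝ} (hc : 0 ≤ c) : c • u ∈ starSet ρ ↔ c ≤ ρ u := by
  constructor
  · rintro ⟨u', hu', c', h0, h1, h2⟩
    have e1 : ‖u‖ = 1 := by simpa using hu
    have e2 : ‖u'‖ = 1 := by simpa using hu'
    have h3 : c = c' := by
      have := congrArg norm h2
      rwa [norm_smul, norm_smul, e1, e2, mul_one, mul_one, Real.norm_of_nonneg hc,
        Real.norm_of_nonneg h0] at this
    subst h3
    rcases hc.eq_or_lt with h | h
    · rw [← h]; exact (hp u hu).le
    · have : u = u' := smul_right_injective _ h.ne' h2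
      rw [this]; exact h1
  · intro h
    exact ⟨u, hu, c, hc, h, rfl⟩

lemma radial_starSet (hp : ∀ u ∈ sphere (0 : EuclideanSpace ℝ (Fin n)) 1, 0 < ρ u)
    {u : EuclideanSpace ℝ (Fin n)} (hu : u ∈ sphere (0 : EuclideanSpace ℝ (Fin n)) 1) :
    radial (starSet ρ) u = ρ u := by
  unfold radial
  have : {c : ℝ | 0 ≤ c ∧ c • u ∈ starSet ρ} = Icc 0 (ρ u) := by
    ext c
    exact ⟨fun h => ⟨h.1, (smul_mem_starSet hp hu h.1).1 h.2⟩,
      fun h => ⟨h.1, (smul_mem_starSet hp hu h.1).2 h.2⟩⟩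
  rw [this, csSup_Icc (hp u hu).le]

lemma isStarBody_starSet (hp : ∀ u ∈ sphere (0 : EuclideanSpace ℝ (Fin n)) 1, 0 < ρ u)
    (hc : ContinuousOn ρ (sphere (0 : EuclideanSpace ℝ (Fin n)) 1)) :
    IsStarBody (starSet ρ) := by
  refine ⟨?_, ?_, fun u hu => ?_, hc.congr fun u hu => radial_starSet hp hu⟩
  · have h1 : starSet ρ = (fun p : EuclideanSpace ℝ (Fin n) × ℝ => (p.2 * ρ p.1) • p.1) ''
        (sphere 0 1 ×ˢ Icc 0 1) := by
      ext x
      constructor
      · rintro ⟨u, hu, c, h0, h1, rfl⟩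
        have := hp u hu
        refine ⟨(u, c / ρ u), ⟨hu, by positivity, (div_le_one this).2 h1⟩, ?_⟩
        simp only
        rw [div_mul_cancel₀ _ this.ne']
      · rintro ⟨⟨u, τ⟩, ⟨hu, h0, h1⟩, rfl⟩
        have := hp u hu
        exact ⟨u, hu, τ * ρ u, mul_nonneg h0 this.le, mul_le_of_le_one_left this.le h1, rfl⟩
    rw [h1]
    refine ((isCompact_sphere _ _).prod isCompact_Icc).image_of_continuousOn ?_
    exact (continuousOn_snd.mul (hc.comp continuousOn_fst fun p hp => hp.1)).smul continuousOn_fst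
  · rw [starConvex_zero_iff]
    rintro x ⟨u, hu, c, h0, h1, rfl⟩ a ha0 ha1
    exact ⟨u, hu, a * c, mul_nonneg ha0 h0, (mul_le_of_le_one_left h0 ha1).trans h1,
      smul_smul _ _ _⟩
  · rw [radial_starSet hp hu]; exact hp u hu

lemma hasPropertyP_of_chain (M : ℕ → Set (EuclideanSpace ℝ (Fin n))) (hM : ∀ m, IsStarBody (M m))
    (hI : ∀ m, interBody (M (m + 1)) = M m) (k : ℕ) : HasPropertyP (M k) := by
  have : ∀ m, interBody^[m] (M (k + m)) = M k := by
    intro m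
    induction m with
    | zero => rfl
    | succ m ih => rw [Function.iterate_succ_apply, ← add_assoc, hI, ih]
  exact fun m _ => ⟨M (k + m), hM _, this m⟩

end Pool.Agent.Lib.MP_242fd5_gt
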