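import Pool.Agent.Lib.MP_242fd5_gt.Section2
import Pool.Agent.Lib.MP_242fd5_gt.Star
import Pool.Agent.Lib.MP_242fd5_gt.Ancient

set_option autoImplicit false

namespace Pool.Agent.Lib.MP_242fd5_gt

open MeasureTheory Set Real Metric Filter Topology

noncomputable def k0 : ℝ := 16 * π ^ 2 / 5

lemma k0_pos : 0 < k0 := by unfold k0; positivity

noncomputable def P (v : ℝ → ℝ) (a b : ℝ) : ℝ := k0 * ∫ t, v t ^ 5 / mx a b t

noncomputable def rho (v : ℝ → ℝ) (x : E 6) : ℝ := P v (√(sqA x)) (√(sqB x))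

variable {v : ℝ → ℝ}

lemma P_smul {c : ℝ} (hc : 0 < c) (a b : ℝ) : P v (c * a) (c * b) = P v a b / c := by
  unfold P
  rw [mul_div_assoc, ← integral_div]
  congr 2; ext t
  unfold mx
  rw [mul_assoc, mul_assoc, ← mul_max_of_nonneg _ _ hc.le, div_div, mul_comm c]

lemma P_exp (s : ℝ) : P v (exp s) (exp (-s)) = k0 * T v s := by
  unfold P T
  congr 2; ext t
  have : mx (exp s) (exp (-s)) t = exp |s - t| := by
    unfold mx
    rw [← exp_add, ← exp_add, abs_eq_max_neg, ← exp_monotone.map_max]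
    congr 2; ring
  rw [this, exp_neg]; field_simp

lemma P_symm (he : ∀ s, v (-s) = v s) (a b : ℝ) : P v a b = P v b a := by
  unfold P
  rw [← integral_neg_eq_self]
  congr 2; ext t
  unfold mx
  rw [he, neg_neg, max_comm]

lemma mx_lower {a b : ℝ} (h : 1 / 2 ≤ max a b) (t : ℝ) : exp (-|t|) / 2 ≤ mx a b t := by
  unfold mx
  have h1 : exp (-|t|) ≤ exp (-t) := exp_le_exp.2 (by linarith [le_abs_self t])
  have h2 : exp (-|t|) ≤ exp t := exp_le_exp.2 (neg_abs_le t)
  have h3 := exp_pos (-|t|)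
  rcases le_max_iff.1 h with h | h
  · exact le_max_of_le_left (by nlinarith)
  · exact le_max_of_le_right (by nlinarith)

lemma P_integrand_le (hv : Base v) {a b : ℝ} (h : 1 / 2 ≤ max a b) (t : ℝ) :
    ‖v t ^ 5 / mx a b t‖ ≤ 2 * (exp |t| * v t ^ 5) := by
  have h1 := mx_lower h t
  have h2 := exp_pos (-|t|)
  have h3 := hv.pos t
  have h4 : 0 < mx a b t := lt_of_lt_of_le (by positivity) h1
  rw [Real.norm_of_nonneg (by positivity)]
  calc v t ^ 5 / mx a b t ≤ v t ^ 5 / (exp (-|t|) / 2) := by gcongr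
    _ = _ := by rw [exp_neg]; field_simp

lemma P_continuousOn (hv : Base v) :
    ContinuousOn (fun p : ℝ × ℝ => P v p.1 p.2) {p | 1 / 2 ≤ max p.1 p.2} := by
  unfold P
  refine continuousOn_const.mul (continuousOn_of_dominated (bound := fun t => 2 * (exp |t| * v t ^ 5))
    (fun p _ => ?_) (fun p hp => Eventually.of_forall fun t => P_integrand_le hv hp t)
    (hv.int_exp.const_mul 2) (Eventually.of_forall fun t => ?_))
  · exact ((hv.cont.measurable.pow_const 5).div (measurable_mx _ _).measurable).aestronglyMeasurable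
  · refine continuousOn_const.div (by unfold mx; fun_prop) fun p hp => ?_
    have h1 := mx_lower hp t
    have h2 := exp_pos (-|t|)
    exact (lt_of_lt_of_le (by positivity) h1).ne'

lemma P_pos (hv : Base v) {a b : ℝ} (h : 1 / 2 ≤ max a b) : 0 < P v a b := by
  refine mul_pos k0_pos ?_
  have hp : ∀ t, 0 < v t ^ 5 / mx a b t := fun t => by
    have h1 := mx_lower h t
    have h2 := exp_pos (-|t|)
    have h3 := hv.pos t
    have h4 : 0 < mx a b t := lt_of_lt_of_le (by positivity) h1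
    positivity
  have hi : Integrable fun t => v t ^ 5 / mx a b t :=
    (hv.int_exp.const_mul 2).mono'
      ((hv.cont.measurable.pow_const 5).div (measurable_mx _ _).measurable).aestronglyMeasurable
      (Eventually.of_forall fun t => P_integrand_le hv h t)
  rw [integral_pos_iff_support_of_nonneg (fun t => (hp t).le) hi]
  have : Function.support (fun t => v t ^ 5 / mx a b t) = univ := by
    ext t; simp only [Function.mem_support, mem_univ, iff_true]; exact (hp t).ne'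
  rw [this]; simp

lemma half_le_max {a b : ℝ} (ha : 0 ≤ a) (hb : 0 ≤ b) (h : a ^ 2 + b ^ 2 = 1) :
    1 / 2 ≤ max a b := by
  by_contra hc
  rw [not_le, max_lt_iff] at hc
  nlinarith [hc.1, hc.2]

lemma sphere_sq {u : E 6} (hu : u ∈ sphere (0 : E 6) 1) : √(sqA u) ^ 2 + √(sqB u) ^ 2 = 1 := by
  have : ‖u‖ = 1 := by simpa using hu
  rw [Real.sq_sqrt (sqA_nonneg u), Real.sq_sqrt (sqB_nonneg u), ← norm_sq_six, this]; norm_num

lemma sphere_half {u : E 6} (hu : u ∈ sphere (0 : E 6) 1) : 1 / 2 ≤ max √(sqA u) √(sqB u) :=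
  half_le_max (Real.sqrt_nonneg _) (Real.sqrt_nonneg _) (sphere_sq hu)

lemma rho_pos (hv : Base v) : ∀ u ∈ sphere (0 : E 6) 1, 0 < rho v u := fun _ hu =>
  P_pos hv (sphere_half hu)

lemma rho_cont (hv : Base v) : ContinuousOn (rho v) (sphere (0 : E 6) 1) := by
  have h1 : Continuous fun x : E 6 => (√(sqA x), √(sqB x)) := by
    have := continuous_sqA
    have := continuous_sqB
    fun_prop
  exact (P_continuousOn hv).comp h1.continuousOn fun u hu => sphere_half hu

lemma rho_smul {c : ℝ} (hc : 0 < c) (x : E 6) : rho v (c • x) = rho v x / c := by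
  unfold rho
  have h1 : sqA (c • x) = c ^ 2 * sqA x := by simp [sqA]; ring
  have h2 : sqB (c • x) = c ^ 2 * sqB x := by simp [sqB]; ring
  rw [h1, h2, Real.sqrt_mul (sq_nonneg c), Real.sqrt_mul (sq_nonneg c), Real.sqrt_sq hc.le,
    P_smul hc]

def Dset (v : ℝ → ℝ) : Set (ℝ × ℝ) := {p | p.1 + p.2 = 0 ∨ 1 ≤ P v √p.1 √p.2}

lemma measurable_Dset (hv : Base v) : MeasurableSet (Dset v) := by
  have h1 : Measurable fun p : ℝ × ℝ => P v √p.1 √p.2 := by
    unfold P
    refine Measurable.const_mul ?_ _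
    have h2 : Measurable fun z : (ℝ × ℝ) × ℝ => v z.2 ^ 5 / mx √z.1.1 √z.1.2 z.2 := by
      have := hv.cont.measurable
      unfold mx
      fun_prop
    exact (h2.stronglyMeasurable.integral_prod_right' (ν := volume)).measurable
  exact MeasurableSet.union (s₁ := {p : ℝ × ℝ | p.1 + p.2 = 0})
    (s₂ := {p : ℝ × ℝ | 1 ≤ P v √p.1 √p.2})
    (measurableSet_eq_fun (by fun_prop) measurable_const) (measurableSet_le measurable_const h1)

lemma unit0 : (EuclideanSpace.single 0 1 : E 6) ∈ sphere (0 : E 6) 1 := by simp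

lemma starSet_rho (hv : Base v) : starSet (rho v) = {x : E 6 | (sqA x, sqB x) ∈ Dset v} := by
  ext x
  have h0 : sqA x + sqB x = 0 ↔ x = 0 := by rw [← norm_sq_six]; simp
  show _ ↔ sqA x + sqB x = 0 ∨ 1 ≤ rho v x
  rw [h0]
  by_cases hx : x = 0
  · simp only [hx, true_or, iff_true]
    exact ⟨_, unit0, 0, le_rfl, (rho_pos hv _ unit0).le, by simp⟩
  · have hn : 0 < ‖x‖ := norm_pos_iff.2 hx
    have hu : ‖x‖⁻¹ • x ∈ sphere (0 : E 6) 1 := by simp [norm_smul, hn.ne']
    have hx2 : x = ‖x‖ • (‖x‖⁻¹ • x) := by rw [smul_smul, mul_inv_cancel₀ hn.ne', one_smul]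
    simp only [hx, false_or]
    conv_lhs => rw [hx2]
    conv_rhs => rw [hx2]
    rw [smul_mem_starSet (rho_pos hv) hu hn.le, rho_smul hn, one_le_div hn]

lemma sqrt_sq_exp {r : ℝ} (hr : 0 < r) (s : ℝ) : √(r ^ 2 * exp (2 * s)) = r * exp s := by
  rw [show r ^ 2 * exp (2 * s) = (r * exp s) ^ 2 by rw [mul_pow, ← exp_nat_mul]; norm_num,
    Real.sqrt_sq (by positivity)]

lemma interBody_rho {w : ℝ → ℝ} (hv : Base v) (hw : Base w) (he : ∀ s, w (-s) = w s)
    (h : ∀ s, w s = k0 * T v s) : interBody (starSet (rho v)) = starSet (rho w) := by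
  rw [interBody_eq]
  refine starSet_congr fun u hu => ?_
  rw [starSet_rho hv, sectionVol_eq (Dset v) (measurable_Dset hv) w hw.cont.measurable
    (fun s => (hw.pos s).le) ?_ u (by simpa using hu)]
  · exact P_symm he _ _
  · intro r hr s
    show r ^ 2 * exp (2 * s) + r ^ 2 * exp (-(2 * s)) = 0 ∨
      1 ≤ P v √(r ^ 2 * exp (2 * s)) √(r ^ 2 * exp (-(2 * s))) ↔ _
    have h1 : 0 < r ^ 2 * exp (2 * s) + r ^ 2 * exp (-(2 * s)) := by positivity
    rw [show -(2 * s) = 2 * (-s) by ring] at h1 ⊢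
    rw [sqrt_sq_exp hr, sqrt_sq_exp hr, P_smul hr, P_exp, ← h, one_le_div hr]
    exact or_iff_right h1.ne'

/-- the unit vector with blocks of lengths `a`, `b` -/
noncomputable def vec (i j : Fin 6) (a b : ℝ) : E 6 :=
  EuclideanSpace.single i a + EuclideanSpace.single j b

lemma norm_exp_pair (s : ℝ) : √(exp s ^ 2 + exp (-s) ^ 2) = √2 * (q s)⁻¹ := by
  unfold q
  rw [inv_inv, ← Real.sqrt_mul (by norm_num), cosh_eq, ← exp_nat_mul, ← exp_nat_mul]
  congr 1
  push_cast
  rw [mul_neg]; ring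

lemma T_q : ∃ c, ∀ s, T q s = c * q s := by
  let D : Set (ℝ × ℝ) := {p | p.1 + p.2 ≤ 2}
  have hD : MeasurableSet D := measurableSet_le (by fun_prop) measurable_const
  have hL : MeasurableSet {x : E 6 | (sqA x, sqB x) ∈ D} :=
    hD.preimage (continuous_sqA.prodMk continuous_sqB).measurable
  let c0 : ℝ := (volume {y : E 5 | ‖y‖ ^ 2 ≤ 2}).toReal
  have h1 : ∀ ξ : E 6, ‖ξ‖ = 1 → P q √(sqA ξ) √(sqB ξ) = c0 := by
    intro ξ hξ
    rw [P_symm q_even]
    have h2 := sectionVol_eq D hD q q_base.cont.measurable (fun s => (q_pos s).le) ?_ ξ hξ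
    · rw [show P q √(sqB ξ) √(sqA ξ) = _ from h2.symm]
      have hAB : sqA ξ + sqB ξ = 1 := by rw [← norm_sq_six, hξ]; norm_num
      obtain ⟨Ψ, hΨ, -⟩ := exists_iso ξ hAB
      unfold sectionVol
      rw [section_eq_preimage _ hL ξ (by rintro rfl; simp at hξ) Ψ hΨ]
      congr 2
      ext y
      show sqA (Ψ y) + sqB (Ψ y) ≤ 2 ↔ ‖y‖ ^ 2 ≤ 2
      rw [← norm_sq_six, Ψ.norm_map]
    · intro r hr s
      show r ^ 2 * exp (2 * s) + r ^ 2 * exp (-(2 * s)) ≤ 2 ↔ _
      unfold q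
      rw [← one_div, le_div_iff₀ (sqrt_cosh_pos _),
        ← pow_le_one_iff_of_nonneg (by have := sqrt_cosh_pos (2 * s); positivity) two_ne_zero,
        mul_pow, Real.sq_sqrt (cosh_pos _).le, cosh_eq]
      constructor <;> intro h <;> linarith
  refine ⟨c0 / (k0 * √2), fun s => ?_⟩
  set n := √(exp s ^ 2 + exp (-s) ^ 2) with hn
  have hn0 : 0 < n := Real.sqrt_pos.2 (by positivity)
  have hn2 : n ^ 2 = exp s ^ 2 + exp (-s) ^ 2 := Real.sq_sqrt (by positivity)
  have hA : sqA (vec 0 3 (n⁻¹ * exp s) (n⁻¹ * exp (-s))) = (n⁻¹ * exp s) ^ 2 := by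
    simp [sqA, vec]
  have hB : sqB (vec 0 3 (n⁻¹ * exp s) (n⁻¹ * exp (-s))) = (n⁻¹ * exp (-s)) ^ 2 := by
    simp [sqB, vec]
  have h3 := h1 (vec 0 3 (n⁻¹ * exp s) (n⁻¹ * exp (-s))) (by
    have : ‖vec 0 3 (n⁻¹ * exp s) (n⁻¹ * exp (-s))‖ ^ 2 = 1 ^ 2 := by
      rw [norm_sq_six, hA, hB, mul_pow, mul_pow, ← mul_add, ← hn2]; field_simp
    exact (pow_left_inj₀ (norm_nonneg _) zero_le_one two_ne_zero).1 this)
  rw [hA, hB, Real.sqrt_sq (by positivity), Real.sqrt_sq (by positivity), P_smul (inv_pos.2 hn0),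
    P_exp, hn, norm_exp_pair] at h3
  have := q_pos s
  have := k0_pos
  rw [← h3]; field_simp

end Pool.Agent.Lib.MP_242fd5_gt
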