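import Pool.Agent.Lib.MP_242fd5_gt.TypeDefs

set_option autoImplicit false

namespace Pool.Agent.Lib.MP_242fd5_gt

open MeasureTheory
open scoped symmDiff RealInnerProductSpace

variable {n k : ℕ}

/-- `k` centred ellipsoids whose volumes agree up to the factor `1 + r` and whose pairwise
intersections have relative volume at most `r`. -/
def Apart (r : ℝ) (E : Fin k → Set (EuclideanSpace ℝ (Fin n))) : Prop :=
  (∀ i, IsEllipsoid (E i)) ∧
    (∀ i j, (volume (E i)).toReal ≤ (1 + r) * (volume (E j)).toReal) ∧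
    ∀ i j, i ≠ j → (volume (E i ∩ E j)).toReal ≤ r * (volume (E i)).toReal

/-- `L` differs from the union of the `E i` by a relative volume at most `ε`. -/
def Near (ε : ℝ) (L : Set (EuclideanSpace ℝ (Fin n)))
    (E : Fin k → Set (EuclideanSpace ℝ (Fin n))) : Prop :=
  (volume (L ∆ ⋃ i, E i)).toReal ≤ ε * (volume (⋃ i, E i)).toReal

/-- The moment conditions: for every `i` the function `ρ_L - ∑ j, ρ_(E j)` on the unit sphere is
orthogonal, with weight `ρ_(E i) ^ (n + 1)`, to all quadratic forms. The integral over the sphere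
is written as an integral over the unit ball of a function of `x / ‖x‖`. -/
def Centred (L : Set (EuclideanSpace ℝ (Fin n)))
    (E : Fin k → Set (EuclideanSpace ℝ (Fin n))) : Prop :=
  ∀ (i : Fin k) (a : EuclideanSpace ℝ (Fin n)),
    ∫ x in Metric.ball (0 : EuclideanSpace ℝ (Fin n)) 1,
      (radial L (‖x‖⁻¹ • x) - ∑ j, radial (E j) (‖x‖⁻¹ • x)) *
        radial (E i) (‖x‖⁻¹ • x) ^ (n + 1) * ⟪a, ‖x‖⁻¹ • x⟫ ^ 2 = 0

end Pool.Agent.Lib.MP_242fd5_gt
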