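import Mathlib

set_option autoImplicit false

namespace Pool.Agent.Lib.MP_242fd5_gt

open MeasureTheory Set Real

/-- the one-dimensional model of the intersection body operator -/
noncomputable def T (u : ℝ → ℝ) (s : ℝ) : ℝ := ∫ t, exp (-|s - t|) * u t ^ 5

/-- the one-dimensional model of the volume -/
noncomputable def V (u : ℝ → ℝ) : ℝ := ∫ s, u s ^ 6

structure Base (u : ℝ → ℝ) : Prop where
  pos : ∀ s, 0 < u s
  cont : Continuous u
  decay : ∃ C, ∀ s, u s ≤ C * exp (-|s|)

lemma integral_exp_abs {c : ℝ} (hc : 0 < c) (x : ℝ) :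
    ∫ t, exp (-(c * |x - t|)) = 2 / c := by
  have h1 : ∫ t, exp (-(c * |x - t|)) = ∫ t, exp (-(c * |t|)) :=
    integral_sub_left_eq_self (fun t => exp (-(c * |t|))) volume x
  rw [h1, integral_comp_abs (f := fun t => exp (-(c * t)))]
  have h2 := integral_exp_mul_Ioi (a := -c) (by linarith) 0
  simp only [neg_mul, mul_zero, exp_zero] at h2
  rw [h2]; field_simp

lemma integrable_exp_abs {c : ℝ} (hc : 0 < c) (x : ℝ) :
    Integrable fun t => exp (-(c * |x - t|)) :=
  Integrable.of_integral_ne_zero (by rw [integral_exp_abs hc]; positivity)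

lemma integral_G (x : ℝ) : ∫ t, exp (-|x - t|) = 2 := by
  simpa using integral_exp_abs one_pos x

lemma integrable_G (x : ℝ) : Integrable fun t => exp (-|x - t|) := by
  simpa using integrable_exp_abs one_pos x

lemma integrable_G0 : Integrable fun t : ℝ => exp (-|t|) := by
  simpa using integrable_G 0

lemma G_le_one (x : ℝ) : exp (-|x|) ≤ 1 := exp_le_one_iff.2 (by simp)

lemma Base.decay' {u : ℝ → ℝ} (h : Base u) : ∃ C, 0 < C ∧ ∀ s, u s ≤ C * exp (-|s|) := by
  obtain ⟨C, hC⟩ := h.decay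
  refine ⟨C, ?_, hC⟩
  have := (h.pos 0).trans_le (hC 0)
  simpa using this

lemma Base.bdd {u : ℝ → ℝ} (h : Base u) : ∃ C, 0 < C ∧ ∀ s, u s ≤ C := by
  obtain ⟨C, hC0, hC⟩ := h.decay'
  exact ⟨C, hC0, fun s => (hC s).trans (mul_le_of_le_one_right hC0.le (G_le_one s))⟩

/-- `e^{|t|} u^5` is dominated -/
lemma Base.exp_mul_le {u : ℝ → ℝ} (h : Base u) {C : ℝ} (hC : ∀ s, u s ≤ C * exp (-|s|)) (t : ℝ) :
    exp |t| * u t ^ 5 ≤ C ^ 5 * exp (-|t|) := by
  have hC0 : 0 < C := by simpa using (h.pos 0).trans_le (hC 0)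
  have h1 : u t ^ 5 ≤ (C * exp (-|t|)) ^ 5 := pow_le_pow_left₀ (h.pos t).le (hC t) 5
  have h2 : exp |t| * exp (-|t|) = 1 := by rw [← exp_add]; simp
  have h3 := G_le_one t
  have h4 := exp_pos (-|t|)
  calc exp |t| * u t ^ 5 ≤ exp |t| * (C * exp (-|t|)) ^ 5 := by gcongr
    _ = C ^ 5 * exp (-|t|) * ((exp |t| * exp (-|t|)) * exp (-|t|) ^ 3) := by ring
    _ ≤ C ^ 5 * exp (-|t|) * 1 := by
        gcongr
        rw [h2, one_mul]; exact pow_le_one₀ h4.le h3
    _ = _ := mul_one _

lemma Base.int_exp {u : ℝ → ℝ} (h : Base u) : Integrable fun t => exp |t| * u t ^ 5 := by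
  obtain ⟨C, hC0, hC⟩ := h.decay'
  refine (integrable_G0.const_mul (C ^ 5)).mono' ?_ (Filter.Eventually.of_forall fun t => ?_)
  · have := h.cont
    exact Continuous.aestronglyMeasurable (by fun_prop)
  · have := h.pos t
    rw [Real.norm_of_nonneg (by positivity)]
    exact h.exp_mul_le hC t

lemma Base.int_of_le {u : ℝ → ℝ} (h : Base u) {g : ℝ → ℝ} (hg : Continuous g)
    (h0 : ∀ t, 0 ≤ g t) (h1 : ∀ t, g t ≤ exp |t|) : Integrable fun t => g t * u t ^ 5 := by
  refine h.int_exp.mono' ?_ (Filter.Eventually.of_forall fun t => ?_)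
  · have := h.cont
    exact Continuous.aestronglyMeasurable (by fun_prop)
  · have := h.pos t
    have := h0 t
    rw [Real.norm_of_nonneg (by positivity)]
    gcongr
    exact h1 t

lemma Base.int_pow {u : ℝ → ℝ} (h : Base u) (k : ℕ) : Integrable fun t => u t ^ (k + 1) := by
  obtain ⟨C, hC0, hC⟩ := h.decay'
  obtain ⟨B, hB0, hB⟩ := h.bdd
  refine (integrable_G0.const_mul (B ^ k * C)).mono' ?_ (Filter.Eventually.of_forall fun t => ?_)
  · have := h.cont
    exact Continuous.aestronglyMeasurable (by fun_prop)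
  · have := h.pos t
    rw [Real.norm_of_nonneg (by positivity), pow_succ, mul_assoc]
    gcongr
    · exact hB t
    · exact hC t

lemma Base.int_T {u : ℝ → ℝ} (h : Base u) (s : ℝ) :
    Integrable fun t => exp (-|s - t|) * u t ^ 5 :=
  h.int_of_le (by fun_prop) (fun t => (exp_pos _).le)
    (fun t => (G_le_one _).trans (one_le_exp (abs_nonneg t)))

lemma Base.T_pos {u : ℝ → ℝ} (h : Base u) (s : ℝ) : 0 < T u s := by
  unfold T
  have hp : ∀ t, 0 < exp (-|s - t|) * u t ^ 5 := fun t => by have := h.pos t; positivity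
  rw [integral_pos_iff_support_of_nonneg (fun t => (hp t).le) (h.int_T s)]
  have : Function.support (fun t => exp (-|s - t|) * u t ^ 5) = univ := by
    ext t; simp only [Function.mem_support, mem_univ, iff_true]; exact (hp t).ne'
  rw [this]; simp

lemma Base.T_lip {u : ℝ → ℝ} (h : Base u) (s s' : ℝ) : T u s ≤ exp |s - s'| * T u s' := by
  unfold T
  rw [← integral_const_mul]
  refine integral_mono (h.int_T s) ((h.int_T s').const_mul _) fun t => ?_
  have := h.pos t
  simp only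
  rw [← mul_assoc, ← exp_add]
  gcongr
  have : |s' - t| ≤ |s - s'| + |s - t| := by
    have := abs_sub_le s' s t
    rw [abs_sub_comm s' s] at this; exact this
  linarith

lemma Base.T_le {u : ℝ → ℝ} (h : Base u) (s : ℝ) :
    T u s ≤ (∫ t, exp |t| * u t ^ 5) * exp (-|s|) := by
  unfold T
  rw [← integral_mul_const]
  refine integral_mono (h.int_T s) (h.int_exp.mul_const _) fun t => ?_
  have := h.pos t
  simp only
  rw [mul_right_comm, ← exp_add]
  gcongr
  have : |s| ≤ |s - t| + |t| := by simpa using abs_add_le (s - t) t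
  linarith

lemma cont_of_lip {u : ℝ → ℝ} (hp : ∀ s, 0 < u s) (hl : ∀ s t, u s ≤ exp |s - t| * u t) :
    Continuous u := by
  have h1 : LipschitzWith 1 (fun s => Real.log (u s)) := by
    refine LipschitzWith.of_le_add fun s t => ?_
    have := Real.log_le_log (hp s) (hl s t)
    rw [Real.log_mul (exp_pos _).ne' (hp t).ne', Real.log_exp] at this
    rw [Real.dist_eq]; linarith
  have : u = fun s => exp (Real.log (u s)) := by ext s; rw [Real.exp_log (hp s)]
  rw [this]
  exact Real.continuous_exp.comp h1.continuous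

lemma Base.T_base {u : ℝ → ℝ} (h : Base u) : Base (T u) :=
  ⟨h.T_pos, cont_of_lip h.T_pos h.T_lip, ⟨_, h.T_le⟩⟩

lemma T_even {u : ℝ → ℝ} (he : ∀ s, u (-s) = u s) (s : ℝ) : T u (-s) = T u s := by
  unfold T
  rw [← integral_neg_eq_self (fun t => exp (-|s - t|) * u t ^ 5)]
  congr 1; ext t
  rw [he, show -s - t = -(s - -t) by ring, abs_neg]

lemma T_smul (c : ℝ) (u : ℝ → ℝ) (s : ℝ) : T (fun t => c * u t) s = c ^ 5 * T u s := by
  unfold T
  rw [← integral_const_mul]
  congr 1; ext t; ring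

lemma V_smul (c : ℝ) (u : ℝ → ℝ) : V (fun t => c * u t) = c ^ 6 * V u := by
  unfold V
  rw [← integral_const_mul]
  congr 1; ext t; ring

lemma Base.smul {u : ℝ → ℝ} (h : Base u) {c : ℝ} (hc : 0 < c) : Base fun t => c * u t := by
  obtain ⟨C, hC⟩ := h.decay
  refine ⟨fun s => mul_pos hc (h.pos s), continuous_const.mul h.cont, c * C, fun s => ?_⟩
  rw [mul_assoc]; gcongr; exact hC s

lemma T_mono {u v : ℝ → ℝ} (hu : Base u) (hv : Base v) (h : ∀ t, u t ≤ v t) (s : ℝ) :
    T u s ≤ T v s := by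
  refine integral_mono (hu.int_T s) (hv.int_T s) fun t => ?_
  have := (hu.pos t).le
  simp only
  gcongr
  exact h t

lemma Base.V_pos {u : ℝ → ℝ} (h : Base u) : 0 < V u := by
  unfold V
  have hp : ∀ t, 0 < u t ^ 6 := fun t => by have := h.pos t; positivity
  rw [integral_pos_iff_support_of_nonneg (fun t => (hp t).le) (h.int_pow 5)]
  have : Function.support (fun t => u t ^ 6) = univ := by
    ext t; simp only [Function.mem_support, mem_univ, iff_true]; exact (hp t).ne'
  rw [this]; simp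

/-- Fubini for the kernel -/
lemma int_prod {f g : ℝ → ℝ} (hf : Integrable f) (hg : Integrable g) :
    Integrable (Function.uncurry fun s t => f s * (exp (-|s - t|) * g t))
      (volume.prod volume) := by
  refine (hf.mul_prod hg).norm.mono' ?_ (Filter.Eventually.of_forall fun p => ?_)
  · have h1 := (hf.mul_prod hg).aestronglyMeasurable
    have h2 : AEStronglyMeasurable (fun p : ℝ × ℝ => exp (-|p.1 - p.2|)) (volume.prod volume) :=
      Continuous.aestronglyMeasurable (by fun_prop)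
    refine (h2.mul h1).congr (Filter.Eventually.of_forall fun p => ?_)
    simp [Function.uncurry]; ring
  · simp only [Function.uncurry, norm_mul, Real.norm_eq_abs, abs_of_pos (exp_pos _)]
    gcongr
    exact mul_le_of_le_one_left (abs_nonneg _) (G_le_one _)

lemma duality {u v : ℝ → ℝ} (hu : Base u) (hv : Base v) :
    ∫ s, v s ^ 5 * T u s = ∫ t, u t ^ 5 * T v t := by
  unfold T
  simp_rw [← integral_const_mul]
  rw [integral_integral_swap (int_prod (hv.int_pow 4) (hu.int_pow 4))]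
  congr 1; ext t; congr 1; ext s
  rw [abs_sub_comm]; ring

lemma amgm {x y : ℝ} (hx : 0 ≤ x) (hy : 0 ≤ y) : 6 * (x ^ 5 * y) ≤ 5 * x ^ 6 + y ^ 6 := by
  have : 5 * x ^ 6 + y ^ 6 - 6 * (x ^ 5 * y) =
      (x - y) ^ 2 * (5 * x ^ 4 + 4 * x ^ 3 * y + 3 * x ^ 2 * y ^ 2 + 2 * x * y ^ 3 + y ^ 4) := by
    ring
  have h2 : 0 ≤ (x - y) ^ 2 *
      (5 * x ^ 4 + 4 * x ^ 3 * y + 3 * x ^ 2 * y ^ 2 + 2 * x * y ^ 3 + y ^ 4) := by positivity
  linarith

lemma exists_sixth_root {x : ℝ} (hx : 0 < x) : ∃ y, 0 < y ∧ y ^ 6 = x :=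
  ⟨x ^ ((6:ℕ)⁻¹ : ℝ), Real.rpow_pos_of_pos hx _, Real.rpow_inv_natCast_pow hx.le (by norm_num)⟩

lemma exists_fifth_root {x : ℝ} (hx : 0 < x) : ∃ y, 0 < y ∧ y ^ 5 = x :=
  ⟨x ^ ((5:ℕ)⁻¹ : ℝ), Real.rpow_pos_of_pos hx _, Real.rpow_inv_natCast_pow hx.le (by norm_num)⟩

lemma holder {u w : ℝ → ℝ} (hu : Base u) (hw : Base w) :
    (∫ t, u t ^ 5 * w t) ^ 6 ≤ V u ^ 5 * V w := by
  obtain ⟨a, ha, ha6⟩ := exists_sixth_root hu.V_pos
  obtain ⟨b, hb, hb6⟩ := exists_sixth_root hw.V_pos
  obtain ⟨B, hB0, hB⟩ := hw.bdd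
  have hint : Integrable fun t => u t ^ 5 * w t := by
    refine ((hu.int_pow 4).mul_const B).mono' ?_ (Filter.Eventually.of_forall fun t => ?_)
    · have := hu.cont
      have := hw.cont
      exact Continuous.aestronglyMeasurable (by fun_prop)
    · have := hu.pos t
      have := hw.pos t
      rw [Real.norm_of_nonneg (by positivity)]
      gcongr
      exact hB t
  have h1 : ∫ t, 6 / (a ^ 5 * b) * (u t ^ 5 * w t) ≤
      ∫ t, (5 / a ^ 6 * u t ^ 6 + 1 / b ^ 6 * w t ^ 6) := by
    refine integral_mono (hint.const_mul _)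
      (((hu.int_pow 5).const_mul _).add ((hw.int_pow 5).const_mul _)) fun t => ?_
    have h := amgm (div_pos (hu.pos t) ha).le (div_pos (hw.pos t) hb).le
    simp only
    calc 6 / (a ^ 5 * b) * (u t ^ 5 * w t) = 6 * ((u t / a) ^ 5 * (w t / b)) := by
          field_simp
      _ ≤ 5 * (u t / a) ^ 6 + (w t / b) ^ 6 := h
      _ = _ := by field_simp
  rw [integral_const_mul, integral_add ((hu.int_pow 5).const_mul _) ((hw.int_pow 5).const_mul _),
    integral_const_mul, integral_const_mul] at h1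
  have e1 : ∫ t, u t ^ 6 = a ^ 6 := ha6.symm
  have e2 : ∫ t, w t ^ 6 = b ^ 6 := hb6.symm
  rw [e1, e2] at h1
  have h2 : ∫ t, u t ^ 5 * w t ≤ a ^ 5 * b := by
    have h3 : 5 / a ^ 6 * a ^ 6 + 1 / b ^ 6 * b ^ 6 = 6 := by field_simp; norm_num
    rw [h3, div_mul_eq_mul_div, div_le_iff₀ (by positivity)] at h1
    linarith
  have h0 : 0 ≤ ∫ t, u t ^ 5 * w t := integral_nonneg fun t => by
    have := hu.pos t
    have := hw.pos t
    positivity
  calc (∫ t, u t ^ 5 * w t) ^ 6 ≤ (a ^ 5 * b) ^ 6 := pow_le_pow_left₀ h0 h2 6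
    _ = V u ^ 5 * V w := by rw [← ha6, ← hb6]; ring

/-- monotonicity of the Busemann ratio along the iteration -/
lemma energy_step {u : ℝ → ℝ} (hu : Base u) {F : ℝ} (h : F * V u ^ 5 ≤ V (T u)) :
    F * V (T u) ^ 5 ≤ V (T (T u)) := by
  have hv := hu.T_base
  have hw := hv.T_base
  have h1 : V (T u) = ∫ t, u t ^ 5 * T (T u) t := by
    rw [← duality hu hv]; unfold V; simp_rw [pow_succ _ 5]
  have h2 : V (T u) ^ 6 ≤ V u ^ 5 * V (T (T u)) := by
    conv_lhs => rw [h1]
    exact holder hu hw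
  have h3 := hu.V_pos
  have h4 := hv.V_pos
  have h5 : F * V u ^ 5 * V (T u) ^ 5 ≤ V u ^ 5 * V (T (T u)) :=
    calc F * V u ^ 5 * V (T u) ^ 5 ≤ V (T u) * V (T u) ^ 5 := by gcongr
      _ = V (T u) ^ 6 := by ring
      _ ≤ _ := h2
  have h6 : V u ^ 5 * (F * V (T u) ^ 5) ≤ V u ^ 5 * V (T (T u)) := by linarith
  exact le_of_mul_le_mul_left h6 (by positivity)

lemma T_le_two {u : ℝ → ℝ} (hu : Base u) (h1 : ∀ t, u t ≤ 1) (s : ℝ) : T u s ≤ 2 := by
  rw [← integral_G s]
  refine integral_mono (hu.int_T s) (integrable_G s) fun t => ?_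
  exact mul_le_of_le_one_right (exp_pos _).le (pow_le_one₀ (hu.pos t).le (h1 t))

lemma V_T_le {u : ℝ → ℝ} (hu : Base u) (h1 : ∀ t, u t ≤ 1) : V (T u) ≤ 64 * V u := by
  have hv := hu.T_base
  have hi : ∀ s, Integrable fun t => exp (-|s - t|) * u t ^ 6 := fun s => by
    refine (integrable_G s).mono' ?_ (Filter.Eventually.of_forall fun t => ?_)
    · have := hu.cont
      exact Continuous.aestronglyMeasurable (by fun_prop)
    · have := hu.pos t
      rw [Real.norm_of_nonneg (by positivity)]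
      exact mul_le_of_le_one_right (exp_pos _).le (pow_le_one₀ (hu.pos t).le (h1 t))
  have hpt : ∀ s, T u s ^ 6 ≤ 32 * ∫ t, exp (-|s - t|) * u t ^ 6 := by
    intro s
    have hx := hv.pos s
    have h2 : ∫ t, (6 / 32 * T u s ^ 5) * (exp (-|s - t|) * u t ^ 5) ≤
        ∫ t, (5 / 64 * T u s ^ 6 * exp (-|s - t|) + exp (-|s - t|) * u t ^ 6) := by
      refine integral_mono ((hu.int_T s).const_mul _)
        (((integrable_G s).const_mul _).add (hi s)) fun t => ?_
      have ht := hu.pos t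
      have h := amgm (x := T u s / 2) (y := u t ^ 5) (by positivity) (by positivity)
      have h3 : (u t ^ 5) ^ 6 ≤ u t ^ 6 := by
        rw [← pow_mul]; exact pow_le_pow_of_le_one ht.le (h1 t) (by norm_num)
      have he := exp_pos (-|s - t|)
      simp only
      have h4 : 6 / 32 * T u s ^ 5 * u t ^ 5 ≤ 5 / 64 * T u s ^ 6 + u t ^ 6 := by
        have : 6 * ((T u s / 2) ^ 5 * u t ^ 5) = 6 / 32 * T u s ^ 5 * u t ^ 5 := by ring
        have : 5 * (T u s / 2) ^ 6 = 5 / 64 * T u s ^ 6 := by ring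
        linarith
      nlinarith [mul_le_mul_of_nonneg_left h4 he.le]
    rw [integral_const_mul, integral_add ((integrable_G s).const_mul _) (hi s),
      integral_const_mul, integral_G] at h2
    change 6 / 32 * T u s ^ 5 * T u s ≤ _ at h2
    nlinarith
  have hconv : Integrable (Function.uncurry fun s t : ℝ => exp (-|s - t|) * u t ^ 6)
      (volume.prod volume) := by
    have := (hu.int_pow 5).convolution_integrand (ContinuousLinearMap.mul ℝ ℝ) integrable_G0
    refine this.congr (Filter.Eventually.of_forall fun p => ?_)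
    simp [Function.uncurry, mul_comm]
  calc V (T u) ≤ ∫ s, 32 * ∫ t, exp (-|s - t|) * u t ^ 6 :=
        integral_mono (hv.int_pow 5) (hconv.integral_prod_left.const_mul _) hpt
    _ = 32 * ∫ t, ∫ s, exp (-|s - t|) * u t ^ 6 := by
        rw [integral_const_mul, integral_integral_swap hconv]
    _ = 32 * ∫ t, 2 * u t ^ 6 := by
        congr 2; ext t
        rw [integral_mul_const]
        simp_rw [abs_sub_comm _ t]
        rw [integral_G]
    _ = 64 * V u := by rw [integral_const_mul]; unfold V; ring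

end Pool.Agent.Lib.MP_242fd5_gt
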