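import Mathlib

set_option autoImplicit false

namespace Pool.Agent.Lib.MP_242fd5_gt

open MeasureTheory

section
variable {E : Type} [NormedAddCommGroup E] [InnerProductSpace ℝ E]

/-- The radial function `ρ_L(u) = max {c ≥ 0 : c u ∈ L}`. -/
noncomputable def radial (L : Set E) (u : E) : ℝ :=
  sSup {c : ℝ | 0 ≤ c ∧ c • u ∈ L}

/-- A star body: compact, star-shaped with respect to the origin, with radial function
positive and continuous on the unit sphere. -/
def IsStarBody (L : Set E) : Prop :=
  IsCompact L ∧ StarConvex ℝ 0 L ∧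
    (∀ u ∈ Metric.sphere (0 : E) 1, 0 < radial L u) ∧
    ContinuousOn (radial L) (Metric.sphere (0 : E) 1)

/-- The numbers `C` such that some invertible linear image of `L` lies between the closed unit
ball and the closed ball of radius `C`. Its least element is the Banach-Mazur distance from `L`
to the ball. -/
def ballRatios (L : Set E) : Set ℝ :=
  {C : ℝ | ∃ S : E ≃L[ℝ] E, Metric.closedBall 0 1 ⊆ S '' L ∧ S '' L ⊆ Metric.closedBall 0 C}

variable [FiniteDimensional ℝ E] [MeasurableSpace E] [BorelSpace E]

/-- The Lebesgue measure of the section `L ∩ u^⊥`, computed in the hyperplane `u^⊥` with its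
own Euclidean volume. -/
noncomputable def sectionVol (L : Set E) (u : E) : ℝ :=
  (volume {x : (ℝ ∙ u)ᗮ | (x : E) ∈ L}).toReal

/-- The intersection body `I L`: the star-shaped set whose radial function in the unit
direction `u` is the measure of `L ∩ u^⊥`. -/
def interBody (L : Set E) : Set E :=
  {x | ∃ u ∈ Metric.sphere (0 : E) 1, ∃ c : ℝ, 0 ≤ c ∧ c ≤ sectionVol L u ∧ x = c • u}

/-- Property (P): for every `m ≥ 1`, `L` is the `m`-fold iterated intersection body of some
star body. -/
def HasPropertyP (L : Set E) : Prop :=
  ∀ m : ℕ, 1 ≤ m → ∃ M : Set E, IsStarBody M ∧ interBody^[m] M = L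

end

end Pool.Agent.Lib.MP_242fd5_gt
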