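import Pool.Agent.Lib.MP_242fd5_gt.Defs

set_option autoImplicit false

namespace Pool.Agent.Lib.MP_242fd5_gt

open MeasureTheory Set Real

abbrev E (n : ℕ) := EuclideanSpace ℝ (Fin n)

/-- squared norm of the first block -/
def sqA (x : E 6) : ℝ := x 0 ^ 2 + x 1 ^ 2 + x 2 ^ 2
/-- squared norm of the second block -/
def sqB (x : E 6) : ℝ := x 3 ^ 2 + x 4 ^ 2 + x 5 ^ 2

lemma sqA_nonneg (x : E 6) : 0 ≤ sqA x := by unfold sqA; positivity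
lemma sqB_nonneg (x : E 6) : 0 ≤ sqB x := by unfold sqB; positivity

lemma norm_sq_six (x : E 6) : ‖x‖ ^ 2 = sqA x + sqB x := by
  rw [EuclideanSpace.real_norm_sq_eq, Fin.sum_univ_six]; unfold sqA sqB; ring

lemma norm_sq_three (x : E 3) : ‖x‖ ^ 2 = x 0 ^ 2 + x 1 ^ 2 + x 2 ^ 2 := by
  rw [EuclideanSpace.real_norm_sq_eq, Fin.sum_univ_three]

lemma norm_sq_five (x : E 5) : ‖x‖ ^ 2 = x 0 ^ 2 + x 1 ^ 2 + x 2 ^ 2 + x 3 ^ 2 + x 4 ^ 2 := by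
  rw [EuclideanSpace.real_norm_sq_eq, Fin.sum_univ_five]

lemma inner_three (x y : E 3) : inner ℝ x y = x 0 * y 0 + x 1 * y 1 + x 2 * y 2 := by
  rw [PiLp.inner_apply, Fin.sum_univ_three]; simp; ring

lemma inner_six (x y : E 6) :
    inner ℝ x y = x 0 * y 0 + x 1 * y 1 + x 2 * y 2 + x 3 * y 3 + x 4 * y 4 + x 5 * y 5 := by
  rw [PiLp.inner_apply, Fin.sum_univ_six]; simp; ring

lemma section_eq_preimage (L : Set (E 6)) (hL : MeasurableSet L) (ξ : E 6) (hξ : ξ ≠ 0)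
    (Ψ : E 5 →ₗᵢ[ℝ] E 6) (h : ∀ y, inner ℝ ξ (Ψ y) = 0) :
    volume {x : (ℝ ∙ ξ)ᗮ | (x : E 6) ∈ L} = volume (Ψ ⁻¹' L) := by
  have hmem : ∀ y, Ψ y ∈ (ℝ ∙ ξ)ᗮ := fun y =>
    Submodule.mem_orthogonal_singleton_iff_inner_right.2 (h y)
  let Ψ' : E 5 →ₗᵢ[ℝ] (ℝ ∙ ξ)ᗮ :=
    { toLinearMap := Ψ.toLinearMap.codRestrict _ hmem
      norm_map' := fun y => by simp [Ψ.norm_map] }
  have : Fact (Module.finrank ℝ (E 6) = 5 + 1) := ⟨by simp⟩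
  have hr : Module.finrank ℝ (E 5) = Module.finrank ℝ (ℝ ∙ ξ)ᗮ := by
    rw [Submodule.finrank_orthogonal_span_singleton (n := 5) hξ]; simp
  let e := Ψ'.toLinearIsometryEquiv hr
  have hm : MeasurableSet {x : (ℝ ∙ ξ)ᗮ | (x : E 6) ∈ L} :=
    hL.preimage (continuous_subtype_val.measurable)
  rw [← e.measurePreserving.measure_preimage hm.nullMeasurableSet]
  rfl

lemma exists_rot (v : E 3) : ∃ U : E 3 ≃ₗᵢ[ℝ] E 3, U !₂[‖v‖, 0, 0] = v := by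
  refine ⟨Submodule.reflection (ℝ ∙ ((!₂[‖v‖, 0, 0] : E 3) - v))ᗮ, Submodule.reflection_sub ?_⟩
  have : ‖(!₂[‖v‖, 0, 0] : E 3)‖ ^ 2 = ‖v‖ ^ 2 := by rw [norm_sq_three]; simp
  exact (pow_left_inj₀ (norm_nonneg _) (norm_nonneg _) two_ne_zero).1 this

lemma exists_iso (ξ : E 6) (hξ : sqA ξ + sqB ξ = 1) :
    ∃ Ψ : E 5 →ₗᵢ[ℝ] E 6, (∀ y, inner ℝ ξ (Ψ y) = 0) ∧
      ∀ y, sqA (Ψ y) = sqB ξ * y 0 ^ 2 + y 1 ^ 2 + y 2 ^ 2 ∧
        sqB (Ψ y) = sqA ξ * y 0 ^ 2 + y 3 ^ 2 + y 4 ^ 2 := by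
  set v1 : E 3 := !₂[ξ 0, ξ 1, ξ 2] with hv1
  set v2 : E 3 := !₂[ξ 3, ξ 4, ξ 5] with hv2
  obtain ⟨U1, hU1⟩ := exists_rot v1
  obtain ⟨U2, hU2⟩ := exists_rot v2
  have ha : ‖v1‖ ^ 2 = sqA ξ := by rw [norm_sq_three]; simp [hv1, sqA]
  have hb : ‖v2‖ ^ 2 = sqB ξ := by rw [norm_sq_three]; simp [hv2, sqB]
  let p1 : E 5 →ₗ[ℝ] E 3 :=
    { toFun := fun y => !₂[‖v2‖ * y 0, y 1, y 2]
      map_add' := fun x y => by ext i; fin_cases i <;> simp; ring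
      map_smul' := fun c x => by ext i; fin_cases i <;> simp; ring }
  let p2 : E 5 →ₗ[ℝ] E 3 :=
    { toFun := fun y => !₂[-(‖v1‖ * y 0), y 3, y 4]
      map_add' := fun x y => by ext i; fin_cases i <;> simp; ring
      map_smul' := fun c x => by ext i; fin_cases i <;> simp; ring }
  let Ψ0 : E 5 →ₗ[ℝ] E 6 :=
    { toFun := fun y => !₂[U1 (p1 y) 0, U1 (p1 y) 1, U1 (p1 y) 2,
        U2 (p2 y) 0, U2 (p2 y) 1, U2 (p2 y) 2]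
      map_add' := fun x y => by ext i; fin_cases i <;> simp
      map_smul' := fun c x => by ext i; fin_cases i <;> simp }
  have hA : ∀ y, sqA (Ψ0 y) = sqB ξ * y 0 ^ 2 + y 1 ^ 2 + y 2 ^ 2 := by
    intro y
    have h1 : sqA (Ψ0 y) = ‖U1 (p1 y)‖ ^ 2 := by rw [norm_sq_three]; simp [sqA, Ψ0]
    rw [h1, U1.norm_map, norm_sq_three, ← hb]; simp [p1]; ring
  have hB : ∀ y, sqB (Ψ0 y) = sqA ξ * y 0 ^ 2 + y 3 ^ 2 + y 4 ^ 2 := by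
    intro y
    have h1 : sqB (Ψ0 y) = ‖U2 (p2 y)‖ ^ 2 := by rw [norm_sq_three]; simp [sqB, Ψ0]
    rw [h1, U2.norm_map, norm_sq_three, ← ha]; simp [p2]; ring
  refine ⟨{ toLinearMap := Ψ0, norm_map' := fun y => ?_ }, fun y => ?_, fun y => ⟨hA y, hB y⟩⟩
  · have : ‖Ψ0 y‖ ^ 2 = ‖y‖ ^ 2 := by
      rw [norm_sq_six, hA, hB, norm_sq_five]
      have : sqB ξ = 1 - sqA ξ := by linarith
      rw [this]; ring
    exact (pow_left_inj₀ (norm_nonneg _) (norm_nonneg _) two_ne_zero).1 this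
  · have h1 : inner ℝ ξ (Ψ0 y) = inner ℝ v1 (U1 (p1 y)) + inner ℝ v2 (U2 (p2 y)) := by
      rw [inner_six, inner_three, inner_three]; simp [Ψ0, hv1, hv2]; ring
    show inner ℝ ξ (Ψ0 y) = 0
    rw [h1]
    have e1 : inner ℝ v1 (U1 (p1 y)) = ‖v1‖ * (‖v2‖ * y 0) := by
      conv_lhs => rw [← hU1]
      rw [U1.inner_map_map, inner_three]; simp [p1]
    have e2 : inner ℝ v2 (U2 (p2 y)) = ‖v2‖ * (-(‖v1‖ * y 0)) := by
      conv_lhs => rw [← hU2]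
      rw [U2.inner_map_map, inner_three]; simp [p2]
    rw [e1, e2]; ring

end Pool.Agent.Lib.MP_242fd5_gt
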