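import Mathlib

set_option autoImplicit false

/-! Components of vertical chords of an open set. -/

namespace Pool.Agent.Lib.MP_242fd5_gt.M4

open Set Filter Topology MeasureTheory

variable {Y : Type}

/-- the component of the vertical chord of `U` through `x` -/
def J (U : Set (ℝ × Y)) (x : ℝ × Y) : Set ℝ := {σ | ∀ τ ∈ uIcc x.1 σ, (τ, x.2) ∈ U}

/-- upper end of the component -/
noncomputable def up (U : Set (ℝ × Y)) (x : ℝ × Y) : ℝ := sSup (J U x)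

/-- lower end of the component -/
noncomputable def dn (U : Set (ℝ × Y)) (x : ℝ × Y) : ℝ := sInf (J U x)

/-- centre of the component -/
noncomputable def cc (U : Set (ℝ × Y)) (x : ℝ × Y) : ℝ := (up U x + dn U x) / 2

/-- half length of the component -/
noncomputable def ll (U : Set (ℝ × Y)) (x : ℝ × Y) : ℝ := (up U x - dn U x) / 2

variable {U : Set (ℝ × Y)} {x : ℝ × Y} {σ D : ℝ}

lemma J_mem (h : σ ∈ J U x) : (σ, x.2) ∈ U := h σ right_mem_uIcc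

lemma J_base (h : σ ∈ J U x) : x ∈ U := h x.1 left_mem_uIcc

lemma self_mem_J (h : x ∈ U) : x.1 ∈ J U x := by
  intro τ hτ
  rw [uIcc_self, mem_singleton_iff] at hτ
  rw [hτ]; exact h

lemma J_symm (h : σ ∈ J U x) : x.1 ∈ J U (σ, x.2) := by
  intro τ hτ
  exact h τ (by rw [uIcc_comm]; exact hτ)

lemma J_trans {τ : ℝ} (h : σ ∈ J U x) (h2 : τ ∈ J U (σ, x.2)) : τ ∈ J U x := by
  intro s hs
  rcases uIcc_subset_uIcc_union_uIcc (b := σ) hs with h3 | h3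
  · exact h s h3
  · exact h2 s h3

lemma J_eq (h : σ ∈ J U x) : J U (σ, x.2) = J U x := by
  ext τ
  exact ⟨fun h2 => J_trans h h2, fun h2 => J_trans (x := (σ, x.2)) (J_symm h) h2⟩

lemma J_between {σ1 σ2 τ : ℝ} (h1 : σ1 ∈ J U x) (h2 : σ2 ∈ J U x) (h3 : σ1 ≤ τ) (h4 : τ ≤ σ2) :
    τ ∈ J U x := by
  refine J_trans h1 ?_
  rw [← J_eq h1] at h2
  intro s hs
  refine h2 s ?_
  simp only [uIcc_of_le h3, uIcc_of_le (h3.trans h4), mem_Icc] at hs ⊢
  exact ⟨hs.1, hs.2.trans h4⟩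

lemma cc_eq (h : σ ∈ J U x) : cc U (σ, x.2) = cc U x := by
  unfold cc up dn; rw [J_eq h]

lemma ll_eq (h : σ ∈ J U x) : ll U (σ, x.2) = ll U x := by
  unfold ll up dn; rw [J_eq h]

lemma J_empty (h : x ∉ U) : J U x = ∅ :=
  eq_empty_of_forall_notMem fun _ h2 => h (J_base h2)

lemma J_bddAbove (hD : ∀ x ∈ U, |x.1| ≤ D) (x : ℝ × Y) : BddAbove (J U x) :=
  ⟨D, fun _ h => (abs_le.1 (hD _ (J_mem h))).2⟩

lemma J_bddBelow (hD : ∀ x ∈ U, |x.1| ≤ D) (x : ℝ × Y) : BddBelow (J U x) :=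
  ⟨-D, fun _ h => (abs_le.1 (hD _ (J_mem h))).1⟩

lemma up_le (hD : ∀ x ∈ U, |x.1| ≤ D) (h : x ∈ U) : up U x ≤ D :=
  csSup_le ⟨_, self_mem_J h⟩ fun _ h => (abs_le.1 (hD _ (J_mem h))).2

lemma le_dn (hD : ∀ x ∈ U, |x.1| ≤ D) (h : x ∈ U) : -D ≤ dn U x :=
  le_csInf ⟨_, self_mem_J h⟩ fun _ h => (abs_le.1 (hD _ (J_mem h))).1

lemma le_up (hD : ∀ x ∈ U, |x.1| ≤ D) (h : σ ∈ J U x) : σ ≤ up U x :=
  le_csSup (J_bddAbove hD x) h

lemma dn_le (hD : ∀ x ∈ U, |x.1| ≤ D) (h : σ ∈ J U x) : dn U x ≤ σ :=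
  csInf_le (J_bddBelow hD x) h

variable [TopologicalSpace Y]

lemma isOpen_rel (hU : IsOpen U) : IsOpen {z : (ℝ × Y) × ℝ | z.2 ∈ J U z.1} := by
  have key : ∀ z : (ℝ × Y) × ℝ, z.2 ∈ J U z.1 ↔
      ∀ θ ∈ Icc (0:ℝ) 1, (z.1.1 + θ * (z.2 - z.1.1), z.1.2) ∈ U := by
    intro z
    constructor
    · intro h θ hθ
      refine h _ ?_
      rcases le_total z.1.1 z.2 with h1 | h1
      · rw [uIcc_of_le h1]
        constructor <;> nlinarith [hθ.1, hθ.2]
      · rw [uIcc_of_ge h1]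
        constructor <;> nlinarith [hθ.1, hθ.2]
    · intro h τ hτ
      rw [← segment_eq_uIcc, segment_eq_image'] at hτ
      obtain ⟨θ, hθ, rfl⟩ := hτ
      exact h θ hθ
  rw [isOpen_iff_eventually]
  intro z hz
  have hz2 := (key z).1 hz
  have := isCompact_Icc.eventually_forall_of_forall_eventually (x₀ := z)
    (P := fun (w : (ℝ × Y) × ℝ) (θ : ℝ) => (w.1.1 + θ * (w.2 - w.1.1), w.1.2) ∈ U)
    (fun θ hθ => by
      have hc : Continuous fun v : ((ℝ × Y) × ℝ) × ℝ =>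
          ((v.1.1.1 + v.2 * (v.1.2 - v.1.1.1), v.1.1.2) : ℝ × Y) := by fun_prop
      exact hc.continuousAt.preimage_mem_nhds (hU.mem_nhds (hz2 θ hθ)))
  filter_upwards [this] with w hw using (key w).2 hw

lemma isOpen_J (hU : IsOpen U) (x : ℝ × Y) : IsOpen (J U x) :=
  (isOpen_rel hU).preimage (f := fun σ : ℝ => (x, σ)) (by fun_prop)

lemma lt_up (hU : IsOpen U) (hD : ∀ x ∈ U, |x.1| ≤ D) (h : σ ∈ J U x) : σ < up U x := by
  obtain ⟨ε, hε, h2⟩ := Metric.isOpen_iff.1 (isOpen_J hU x) σ h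
  have : σ + ε / 2 ∈ J U x := h2 (by
    rw [Metric.mem_ball, Real.dist_eq, add_sub_cancel_left, abs_of_pos (by linarith)]; linarith)
  linarith [le_up hD this]

lemma dn_lt (hU : IsOpen U) (hD : ∀ x ∈ U, |x.1| ≤ D) (h : σ ∈ J U x) : dn U x < σ := by
  obtain ⟨ε, hε, h2⟩ := Metric.isOpen_iff.1 (isOpen_J hU x) σ h
  have : σ - ε / 2 ∈ J U x := h2 (by
    rw [Metric.mem_ball, Real.dist_eq, sub_sub_cancel_left, abs_neg, abs_of_pos (by linarith)]
    linarith)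
  linarith [dn_le hD this]

lemma J_eq_Ioo (hU : IsOpen U) (hD : ∀ x ∈ U, |x.1| ≤ D) (h : x ∈ U) :
    J U x = Ioo (dn U x) (up U x) := by
  ext σ
  refine ⟨fun h2 => ⟨dn_lt hU hD h2, lt_up hU hD h2⟩, fun h2 => ?_⟩
  obtain ⟨a, ha, ha2⟩ := exists_lt_of_csInf_lt ⟨_, self_mem_J h⟩ h2.1
  obtain ⟨b, hb, hb2⟩ := exists_lt_of_lt_csSup ⟨_, self_mem_J h⟩ h2.2
  exact J_between ha hb ha2.le hb2.le

lemma mem_J_iff (hU : IsOpen U) (hD : ∀ x ∈ U, |x.1| ≤ D) (h : x ∈ U) :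
    σ ∈ J U x ↔ |σ - cc U x| < ll U x := by
  rw [J_eq_Ioo hU hD h, abs_lt, mem_Ioo]
  unfold cc ll
  constructor <;> rintro ⟨h1, h2⟩ <;> constructor <;> linarith

lemma ll_pos (hU : IsOpen U) (hD : ∀ x ∈ U, |x.1| ≤ D) (h : x ∈ U) : 0 < ll U x :=
  (abs_nonneg _).trans_lt ((mem_J_iff hU hD h).1 (self_mem_J h))

omit [TopologicalSpace Y] in
lemma ll_le (hD : ∀ x ∈ U, |x.1| ≤ D) (h : x ∈ U) : ll U x ≤ D := by
  unfold ll; linarith [up_le hD h, le_dn hD h]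

omit [TopologicalSpace Y] in
lemma abs_cc_le (hD : ∀ x ∈ U, |x.1| ≤ D) (h : x ∈ U) : |cc U x| ≤ D := by
  have h1 := le_up hD (self_mem_J h)
  have h2 := dn_le hD (self_mem_J h)
  unfold cc; rw [abs_le]
  constructor <;> linarith [up_le hD h, le_dn hD h]

lemma vol_J (hU : IsOpen U) (hD : ∀ x ∈ U, |x.1| ≤ D) (h : x ∈ U) :
    volume (J U x) = ENNReal.ofReal (2 * ll U x) := by
  rw [J_eq_Ioo hU hD h, Real.volume_Ioo]; unfold ll; congr 1; ring

variable [MeasurableSpace Y] [OpensMeasurableSpace Y]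

lemma measurable_up (hU : IsOpen U) (hD : ∀ x ∈ U, |x.1| ≤ D) : Measurable (up U) := by
  refine measurable_of_Ioi fun r => ?_
  have ho : IsOpen (Prod.fst '' ({z : (ℝ × Y) × ℝ | z.2 ∈ J U z.1} ∩ {z | r < z.2})) :=
    isOpenMap_fst _ ((isOpen_rel hU).inter (isOpen_lt continuous_const continuous_snd))
  have : up U ⁻¹' Ioi r = Prod.fst '' ({z : (ℝ × Y) × ℝ | z.2 ∈ J U z.1} ∩ {z | r < z.2}) ∪
      (Uᶜ ∩ {_x | r < 0}) := by
    ext x
    by_cases hx : x ∈ U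
    · constructor
      · intro h
        obtain ⟨b, hb, hb2⟩ := exists_lt_of_lt_csSup ⟨_, self_mem_J hx⟩ h
        exact Or.inl ⟨(x, b), ⟨hb, hb2⟩, rfl⟩
      · rintro (⟨z, ⟨h1, h2⟩, rfl⟩ | h)
        · exact lt_of_lt_of_le h2 (le_up hD h1)
        · exact absurd hx h.1
    · have h0 : up U x = 0 := by unfold up; rw [J_empty hx, Real.sSup_empty]
      constructor
      · intro h
        exact Or.inr ⟨hx, by simpa [h0] using h⟩
      · rintro (⟨z, ⟨h1, _⟩, rfl⟩ | h)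
        · exact absurd (J_base h1) hx
        · simpa [h0] using h.2
  rw [this]
  exact ho.measurableSet.union (hU.measurableSet.compl.inter (MeasurableSet.const _))

lemma measurable_dn (hU : IsOpen U) (hD : ∀ x ∈ U, |x.1| ≤ D) : Measurable (dn U) := by
  refine measurable_of_Iio fun r => ?_
  have ho : IsOpen (Prod.fst '' ({z : (ℝ × Y) × ℝ | z.2 ∈ J U z.1} ∩ {z | z.2 < r})) :=
    isOpenMap_fst _ ((isOpen_rel hU).inter (isOpen_lt continuous_snd continuous_const))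
  have : dn U ⁻¹' Iio r = Prod.fst '' ({z : (ℝ × Y) × ℝ | z.2 ∈ J U z.1} ∩ {z | z.2 < r}) ∪
      (Uᶜ ∩ {_x | 0 < r}) := by
    ext x
    by_cases hx : x ∈ U
    · constructor
      · intro h
        obtain ⟨b, hb, hb2⟩ := exists_lt_of_csInf_lt ⟨_, self_mem_J hx⟩ h
        exact Or.inl ⟨(x, b), ⟨hb, hb2⟩, rfl⟩
      · rintro (⟨z, ⟨h1, h2⟩, rfl⟩ | h)
        · exact lt_of_le_of_lt (dn_le hD h1) h2
        · exact absurd hx h.1
    · have h0 : dn U x = 0 := by unfold dn; rw [J_empty hx, Real.sInf_empty]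
      constructor
      · intro h
        exact Or.inr ⟨hx, by simpa [h0] using h⟩
      · rintro (⟨z, ⟨h1, _⟩, rfl⟩ | h)
        · exact absurd (J_base h1) hx
        · simpa [h0] using h.2
  rw [this]
  exact ho.measurableSet.union (hU.measurableSet.compl.inter (MeasurableSet.const _))

lemma measurable_cc (hU : IsOpen U) (hD : ∀ x ∈ U, |x.1| ≤ D) : Measurable (cc U) :=
  ((measurable_up hU hD).add (measurable_dn hU hD)).div_const 2

lemma measurable_ll (hU : IsOpen U) (hD : ∀ x ∈ U, |x.1| ≤ D) : Measurable (ll U) :=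
  ((measurable_up hU hD).sub (measurable_dn hU hD)).div_const 2

end Pool.Agent.Lib.MP_242fd5_gt.M4
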