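import Pool.Agent.Lib.MP_242fd5_gt.M4a

set_option autoImplicit false

/-! The flow that moves long components of chords towards the horizontal hyperplane. -/

namespace Pool.Agent.Lib.MP_242fd5_gt.M4

open Set Filter Topology MeasureTheory
open scoped ENNReal

variable {Y : Type}

open Classical in
/-- weight of a point lying in a component of half length larger than `d` -/
noncomputable def wt (U : Set (ℝ × Y)) (d : ℝ) (x : ℝ × Y) : ℝ≥0∞ :=
  if x ∈ U ∧ d < ll U x then ENNReal.ofReal (1 / (2 * ll U x)) else 0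

/-- indicator of the moved component -/
noncomputable def hit (U : Set (ℝ × Y)) (θ s : ℝ) (x : ℝ × Y) : ℝ≥0∞ :=
  if |s - θ * cc U x| < ll U x then 1 else 0

/-- the density of the moved long components -/
noncomputable def fl (U : Set (ℝ × Y)) (θ d : ℝ) (x : ℝ × Y) : ℝ≥0∞ :=
  ∫⁻ q, wt U d (q, x.2) * hit U θ x.1 (q, x.2)

variable {U : Set (ℝ × Y)} {D d θ : ℝ}

lemma hit_le (s : ℝ) (x : ℝ × Y) : hit U θ s x ≤ 1 := by
  unfold hit; split_ifs <;> simp

lemma lint_hit (x : ℝ × Y) : ∫⁻ s, hit U θ s x = ENNReal.ofReal (2 * ll U x) := by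
  have : (fun s => hit U θ s x) =
      (Ioo (θ * cc U x - ll U x) (θ * cc U x + ll U x)).indicator 1 := by
    funext s
    unfold hit
    by_cases h : |s - θ * cc U x| < ll U x
    · rw [if_pos h, indicator_of_mem]
      · rfl
      · rw [abs_lt] at h; constructor <;> linarith [h.1, h.2]
    · rw [if_neg h, indicator_of_notMem]
      intro h2; apply h; rw [abs_lt]; constructor <;> linarith [h2.1, h2.2]
  rw [this, lintegral_indicator_one measurableSet_Ioo, Real.volume_Ioo]
  congr 1; ring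

variable [TopologicalSpace Y]

lemma comp_one (hU : IsOpen U) (hD : ∀ x ∈ U, |x.1| ≤ D) {x : ℝ × Y} (hx : x ∈ U) :
    ∫⁻ q, (J U x).indicator (fun q => ENNReal.ofReal (1 / (2 * ll U (q, x.2)))) q = 1 := by
  have hm : MeasurableSet (J U x) := (isOpen_J hU x).measurableSet
  rw [lintegral_indicator hm,
    setLIntegral_congr_fun hm (g := fun _ => ENNReal.ofReal (1 / (2 * ll U x)))
      (fun q hq => by simp only [ll_eq hq]),
    setLIntegral_const, vol_J hU hD hx]
  have := ll_pos hU hD hx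
  rw [← ENNReal.ofReal_mul (by positivity), one_div_mul_cancel (by positivity)]
  simp

lemma comp_le (hU : IsOpen U) (hD : ∀ x ∈ U, |x.1| ≤ D) (x : ℝ × Y) :
    ∫⁻ q, (J U x).indicator (fun q => ENNReal.ofReal (1 / (2 * ll U (q, x.2)))) q ≤ 1 := by
  by_cases hx : x ∈ U
  · exact (comp_one hU hD hx).le
  · simp [J_empty hx]

omit [TopologicalSpace Y] in
lemma shift_le (hD : ∀ x ∈ U, |x.1| ≤ D) (h1 : θ ≤ 1) (hd : (1 - θ) * D ≤ d) {x : ℝ × Y}
    (hx : x ∈ U) : |cc U x - θ * cc U x| ≤ d := by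
  rw [← one_sub_mul, abs_mul, abs_of_nonneg (by linarith)]
  exact (mul_le_mul_of_nonneg_left (abs_cc_le hD hx) (by linarith)).trans hd

lemma counted (hU : IsOpen U) (hD : ∀ x ∈ U, |x.1| ≤ D) (h1 : θ ≤ 1) (hd : (1 - θ) * D ≤ d)
    {s q : ℝ} {y : Y} (h : wt U d (q, y) * hit U θ s (q, y) ≠ 0) :
    wt U d (q, y) * hit U θ s (q, y) = ENNReal.ofReal (1 / (2 * ll U (q, y))) ∧
      (q ∈ J U (s - d, y) ∨ q ∈ J U (s + d, y)) := by
  unfold wt hit at h ⊢
  by_cases a1 : (q, y) ∈ U ∧ d < ll U (q, y)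
  · by_cases a2 : |s - θ * cc U (q, y)| < ll U (q, y)
    · rw [if_pos a1, if_pos a2, mul_one]
      refine ⟨rfl, ?_⟩
      have a3 := abs_le.1 (shift_le hD h1 hd a1.1)
      rw [abs_lt] at a2
      by_cases a4 : cc U (q, y) ≤ s
      · refine Or.inl (J_symm (x := (q, y)) ((mem_J_iff hU hD a1.1).2 ?_))
        rw [abs_lt]; constructor <;> linarith [a1.2, a2.1, a2.2, a3.1, a3.2]
      · refine Or.inr (J_symm (x := (q, y)) ((mem_J_iff hU hD a1.1).2 ?_))
        rw [abs_lt]; constructor <;> linarith [a1.2, a2.1, a2.2, a3.1, a3.2]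
    · rw [if_neg a2, mul_zero] at h; exact absurd rfl h
  · rw [if_neg a1, zero_mul] at h; exact absurd rfl h

lemma fl_zero (hU : IsOpen U) (hD : ∀ x ∈ U, |x.1| ≤ D) (h1 : θ ≤ 1) (hd : (1 - θ) * D ≤ d)
    (hd0 : 0 ≤ d) {x : ℝ × Y} (hx : ∀ s, |s - x.1| ≤ 3 * d → (s, x.2) ∉ U) : fl U θ d x = 0 := by
  unfold fl
  have : ∀ q, wt U d (q, x.2) * hit U θ x.1 (q, x.2) = 0 := by
    intro q
    by_contra h
    rcases (counted hU hD h1 hd h).2 with h2 | h2
    · exact hx _ (by rw [abs_le]; constructor <;> linarith) (J_base h2)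
    · exact hx _ (by rw [abs_le]; constructor <;> linarith) (J_base h2)
  simp [this]

lemma fl_one (hU : IsOpen U) (hD : ∀ x ∈ U, |x.1| ≤ D) (h1 : θ ≤ 1) (hd : (1 - θ) * D ≤ d)
    (hd0 : 0 < d) {x : ℝ × Y} (hx : ∀ s, |s - x.1| ≤ 3 * d → (s, x.2) ∈ U) : fl U θ d x = 1 := by
  have hxU : x ∈ U := hx x.1 (by simp; positivity)
  have hJ : ∀ s, |s - x.1| ≤ 3 * d → s ∈ J U x := by
    intro s hs τ hτ
    refine hx τ (le_trans ?_ hs)
    exact abs_sub_left_of_mem_uIcc hτ
  have b1 := abs_lt.1 ((mem_J_iff hU hD hxU).1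
    (hJ (x.1 + 3 * d) (by rw [abs_le]; constructor <;> linarith)))
  have b2 := abs_lt.1 ((mem_J_iff hU hD hxU).1
    (hJ (x.1 - 3 * d) (by rw [abs_le]; constructor <;> linarith)))
  have a3 := abs_le.1 (shift_le hD h1 hd hxU)
  rw [← comp_one hU hD hxU]
  unfold fl
  refine lintegral_congr fun q => ?_
  by_cases hq : q ∈ J U x
  · rw [indicator_of_mem hq]
    unfold wt hit
    rw [if_pos ⟨J_mem hq, by rw [ll_eq hq]; linarith [b1.2, b2.1]⟩, if_pos, mul_one]
    rw [ll_eq hq, cc_eq hq, abs_lt]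
    constructor <;> linarith [b1.2, b2.1, a3.1, a3.2]
  · rw [indicator_of_notMem hq]
    by_contra h
    rcases (counted hU hD h1 hd h).2 with h2 | h2
    · exact hq (J_trans (hJ _ (by rw [abs_le]; constructor <;> linarith)) h2)
    · exact hq (J_trans (hJ _ (by rw [abs_le]; constructor <;> linarith)) h2)

variable [MeasurableSpace Y] [OpensMeasurableSpace Y]

lemma measurable_wt (hU : IsOpen U) (hD : ∀ x ∈ U, |x.1| ≤ D) : Measurable (wt U d) := by
  have h := measurable_ll hU hD
  unfold wt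
  refine Measurable.ite (hU.measurableSet.inter (measurableSet_lt measurable_const h)) ?_
    measurable_const
  fun_prop

lemma measurable_hit (hU : IsOpen U) (hD : ∀ x ∈ U, |x.1| ≤ D) {Z : Type} [MeasurableSpace Z]
    {f : Z → ℝ} {g : Z → ℝ × Y} (hf : Measurable f) (hg : Measurable g) :
    Measurable fun z => hit U θ (f z) (g z) := by
  have h := measurable_ll hU hD
  have h2 := measurable_cc hU hD
  unfold hit
  refine Measurable.ite (measurableSet_lt ?_ (h.comp hg)) measurable_const measurable_const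
  exact (hf.sub ((h2.comp hg).const_mul θ)).abs

lemma measurable_fl (hU : IsOpen U) (hD : ∀ x ∈ U, |x.1| ≤ D) : Measurable (fl U θ d) := by
  unfold fl
  refine Measurable.lintegral_prod_right
    (f := fun (x : ℝ × Y) (q : ℝ) => wt U d (q, x.2) * hit U θ x.1 (q, x.2)) ?_
  exact ((measurable_wt hU hD).comp (by fun_prop)).mul
    (measurable_hit hU hD (by fun_prop) (by fun_prop))

lemma fl_le_two (hU : IsOpen U) (hD : ∀ x ∈ U, |x.1| ≤ D) (h1 : θ ≤ 1) (hd : (1 - θ) * D ≤ d)
    (x : ℝ × Y) : fl U θ d x ≤ 2 := by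
  have hm : ∀ z : ℝ × Y, Measurable
      ((J U z).indicator fun q => ENNReal.ofReal (1 / (2 * ll U (q, z.2)))) := by
    intro z
    have h := measurable_ll hU hD
    exact Measurable.indicator (by fun_prop) (isOpen_J hU z).measurableSet
  calc fl U θ d x ≤ ∫⁻ q,
        ((J U (x.1 - d, x.2)).indicator (fun q => ENNReal.ofReal (1 / (2 * ll U (q, x.2)))) q +
        (J U (x.1 + d, x.2)).indicator (fun q => ENNReal.ofReal (1 / (2 * ll U (q, x.2)))) q) := by
        refine lintegral_mono fun q => ?_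
        by_cases h : wt U d (q, x.2) * hit U θ x.1 (q, x.2) = 0
        · simp only [h, zero_le]
        · obtain ⟨h2, h3 | h3⟩ := counted hU hD h1 hd h
          · simp only [h2, indicator_of_mem h3]; exact le_self_add
          · simp only [h2, indicator_of_mem h3]; exact le_add_self
    _ ≤ 1 + 1 := by
        rw [lintegral_add_left (hm (x.1 - d, x.2))]
        exact add_le_add (comp_le hU hD (x.1 - d, x.2)) (comp_le hU hD (x.1 + d, x.2))
    _ = 2 := one_add_one_eq_two

lemma lint_fl_graph (hU : IsOpen U) (hD : ∀ x ∈ U, |x.1| ≤ D) (μ : Measure Y) [SFinite μ]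
    {g : Y → ℝ} (hg : Measurable g) :
    ∫⁻ y, fl U θ d (g y, y) ∂μ =
      ∫⁻ x, wt U d x * hit U θ (g x.2) x ∂((volume : Measure ℝ).prod μ) := by
  exact (lintegral_prod_symm' (fun x => wt U d x * hit U θ (g x.2) x) ((measurable_wt hU hD).mul
    (measurable_hit hU hD (hg.comp measurable_snd) measurable_id))).symm

lemma mass_fl (hU : IsOpen U) (hD : ∀ x ∈ U, |x.1| ≤ D) (μ : Measure Y) [SFinite μ] :
    ∫⁻ x, fl U θ d x ∂((volume : Measure ℝ).prod μ) =
      ∫⁻ x, wt U d x * ENNReal.ofReal (2 * ll U x) ∂((volume : Measure ℝ).prod μ) := by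
  rw [lintegral_prod _ (measurable_fl hU hD).aemeasurable]
  have : ∀ s : ℝ, ∫⁻ y, fl U θ d (s, y) ∂μ =
      ∫⁻ x, wt U d x * hit U θ s x ∂((volume : Measure ℝ).prod μ) :=
    fun s => lint_fl_graph hU hD μ (g := fun _ => s) measurable_const
  simp_rw [this]
  rw [lintegral_lintegral_swap]
  · refine lintegral_congr fun x => ?_
    rw [lintegral_const_mul _ (measurable_hit hU hD measurable_id' measurable_const), lint_hit]
  · exact (((measurable_wt hU hD).comp measurable_snd).mul
      (measurable_hit hU hD measurable_fst measurable_snd)).aemeasurable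

end Pool.Agent.Lib.MP_242fd5_gt.M4
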