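import Pool.Agent.Lib.MP_242fd5_gt.M4b
import Pool.Agent.Lib.MP_fedf83_gt.PL

set_option autoImplicit false

/-! First variation of the chart functional along the flow. -/

namespace Pool.Agent.Lib.MP_242fd5_gt.M4

open Set Filter Topology MeasureTheory
open scoped ENNReal NNReal RealInnerProductSpace

/-- the horizontal space -/
abbrev YY (N : ℕ) : Type := EuclideanSpace ℝ (Fin N)

variable {N : ℕ}

/-- the functional in the chart -/
noncomputable def Gc (F : ℝ × YY N → ℝ≥0∞) : ℝ≥0∞ :=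
  ∫⁻ a : YY N, (∫⁻ y : YY N, F (⟪a, y⟫, y)) ^ (N + 1)

/-- densities squeezed between the inner and the outer vertical `3 d`-neighbourhoods -/
def Adm (U : Set (ℝ × YY N)) (d : ℝ) (F : ℝ × YY N → ℝ≥0∞) : Prop :=
  Measurable F ∧ (∀ x, F x ≤ 2) ∧
    (∀ x, (∀ s, |s - x.1| ≤ 3 * d → (s, x.2) ∈ U) → F x = 1) ∧
    (∀ x, (∀ s, |s - x.1| ≤ 3 * d → (s, x.2) ∉ U) → F x = 0)

/-- stationarity of the chart functional up to order three halves -/
def Stat (U : Set (ℝ × YY N)) : Prop :=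
  ∃ (C : ℝ≥0) (d0 : ℝ), 0 < d0 ∧ ∀ d, 0 < d → d < d0 → ∀ F F', Adm U d F → Adm U d F' →
    ∫⁻ x, F x = ∫⁻ x, F' x → Gc F' ≠ ∞ ∧ Gc F ≤ Gc F' + C * ENNReal.ofReal (d ^ (3 / 2 : ℝ))

/-- slopes of the hyperplanes meeting all moved segments -/
def slab (p : Fin (N + 1) → YY N × ℝ × ℝ) (θ : ℝ) : Set (YY N) :=
  {a | ∀ i, |⟪a, (p i).1⟫ - θ * (p i).2.1| < (p i).2.2}

/-- volume of the set of slopes -/
noncomputable def AA (p : Fin (N + 1) → YY N × ℝ × ℝ) (θ : ℝ) : ℝ≥0∞ := volume (slab p θ)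

/-- foot point, centre and half length -/
noncomputable def Ph (U : Set (ℝ × YY N)) (x : ℝ × YY N) : YY N × ℝ × ℝ := (x.2, cc U x, ll U x)

theorem lintegral_fin_prod {n : ℕ} {E : Type} [MeasurableSpace E] {μ : Measure E}
    [SigmaFinite μ] (f : Fin n → E → ℝ≥0∞) (hf : ∀ i, Measurable (f i)) :
    ∫⁻ x : Fin n → E, ∏ i, f i (x i) ∂(Measure.pi fun _ => μ) = ∏ i, ∫⁻ x, f i x ∂μ := by
  induction n with
  | zero => simp
  | succ n ih =>
    rw [Fin.prod_univ_succ, ← ih _ fun i => hf _, ← lintegral_prod_mul (hf 0).aemeasurable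
      (g := fun x : Fin n → E => ∏ i, f i.succ (x i))
      (Finset.measurable_fun_prod _ fun i _ => (hf _).comp (measurable_pi_apply i)).aemeasurable,
      ((measurePreserving_piFinSuccAbove (fun _ => μ) 0).symm).lintegral_map_equiv]
    refine lintegral_congr fun x => ?_
    rw [Fin.prod_univ_succ]
    rfl

lemma isOpen_slab_joint (θ : ℝ) :
    IsOpen {z : (Fin (N + 1) → YY N × ℝ × ℝ) × YY N | z.2 ∈ slab z.1 θ} := by
  have : {z : (Fin (N + 1) → YY N × ℝ × ℝ) × YY N | z.2 ∈ slab z.1 θ} =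
      ⋂ i, {z | |⟪z.2, (z.1 i).1⟫ - θ * (z.1 i).2.1| < (z.1 i).2.2} := by
    ext z; simp [slab]
  rw [this]
  exact isOpen_iInter_of_finite fun i => isOpen_lt (by fun_prop) (by fun_prop)

lemma isOpen_slab (p : Fin (N + 1) → YY N × ℝ × ℝ) (θ : ℝ) : IsOpen (slab p θ) :=
  (isOpen_slab_joint θ).preimage (f := fun a : YY N => (p, a)) (by fun_prop)

lemma measurable_AA (θ : ℝ) : Measurable fun p : Fin (N + 1) → YY N × ℝ × ℝ => AA p θ :=
  measurable_measure_prodMk_left (ν := (volume : Measure (YY N)))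
    (isOpen_slab_joint θ).measurableSet

lemma AA_pl (p : Fin (N + 1) → YY N × ℝ × ℝ) (α β : ℝ) {θ : ℝ} (h0 : 0 < θ) (h1 : θ < 1) :
    AA p α ^ (1 - θ) * AA p β ^ θ ≤ AA p ((1 - θ) * α + θ * β) := by
  have hm : ∀ γ, MeasurableSet (slab p γ) := fun γ => (isOpen_slab p γ).measurableSet
  have := Pool.Agent.Lib.MP_fedf83_gt.B.pl_euclidean N θ h0 h1 ((slab p α).indicator 1)
    ((slab p β).indicator 1) ((slab p ((1 - θ) * α + θ * β)).indicator 1)
    (measurable_one.indicator (hm _)) (measurable_one.indicator (hm _))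
    (measurable_one.indicator (hm _)) (fun x y => by
      by_cases hx : x ∈ slab p α
      · by_cases hy : y ∈ slab p β
        · have : (1 - θ) • x + θ • y ∈ slab p ((1 - θ) * α + θ * β) := by
            intro i
            have a1 := abs_lt.1 (hx i)
            have a2 := abs_lt.1 (hy i)
            rw [inner_add_left, real_inner_smul_left, real_inner_smul_left, abs_lt]
            constructor <;> nlinarith [a1.1, a1.2, a2.1, a2.2]
          simp [indicator_of_mem hx, indicator_of_mem hy, indicator_of_mem this]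
        · simp [indicator_of_notMem hy, ENNReal.zero_rpow_of_pos h0]
      · simp [indicator_of_notMem hx, ENNReal.zero_rpow_of_pos (sub_pos.2 h1)])
  simpa only [lintegral_indicator_one (hm _), AA] using this

lemma AA_neg (p : Fin (N + 1) → YY N × ℝ × ℝ) (θ : ℝ) : AA p (-θ) = AA p θ := by
  have : slab p (-θ) = -slab p θ := by
    ext a
    simp only [slab, mem_ofPred_eq, Set.mem_neg, inner_neg_left]
    refine forall_congr' fun i => ?_
    rw [← abs_neg]; ring_nf
  unfold AA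
  rw [this, Measure.measure_neg]

lemma rpow_split (x : ℝ≥0∞) {θ : ℝ} (h0 : 0 ≤ θ) (h1 : θ ≤ 1) : x ^ (1 - θ) * x ^ θ = x := by
  rw [← ENNReal.rpow_add_of_nonneg _ _ (by linarith) h0]; simp

lemma AA_one_le (p : Fin (N + 1) → YY N × ℝ × ℝ) {θ : ℝ} (h0 : 0 ≤ θ) (h1 : θ < 1) :
    AA p 1 ≤ AA p θ := by
  have := AA_pl p (-1) 1 (θ := (1 + θ) / 2) (by linarith) (by linarith)
  rw [AA_neg, rpow_split _ (by linarith) (by linarith)] at this
  convert this using 2; ring

lemma AA_gain (p : Fin (N + 1) → YY N × ℝ × ℝ) {κ t : ℝ} (hκ : 0 < κ) (h0 : 0 < t) (h1 : t < 1)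
    (a1 : ENNReal.ofReal κ ≤ AA p 1) (a2 : ENNReal.ofReal (1 + κ) * AA p 1 ≤ AA p 0) :
    AA p 1 + ENNReal.ofReal (t * Real.log (1 + κ) * κ) ≤ AA p (1 - t) := by
  have hl : 0 ≤ Real.log (1 + κ) := Real.log_nonneg (by linarith)
  have h2 := AA_pl p 1 0 h0 h1
  rw [mul_one, mul_zero, add_zero] at h2
  refine le_trans ?_ h2
  have h3 : 1 + t * Real.log (1 + κ) ≤ (1 + κ) ^ t := by
    rw [Real.rpow_def_of_pos (by linarith), mul_comm (Real.log _)]
    linarith [Real.add_one_le_exp (t * Real.log (1 + κ))]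
  calc AA p 1 + ENNReal.ofReal (t * Real.log (1 + κ) * κ)
      ≤ AA p 1 + ENNReal.ofReal (t * Real.log (1 + κ)) * AA p 1 := by
        rw [ENNReal.ofReal_mul (by positivity)]; gcongr
    _ = ENNReal.ofReal (1 + t * Real.log (1 + κ)) * AA p 1 := by
        rw [ENNReal.ofReal_add zero_le_one (by positivity), add_mul]; simp
    _ ≤ ENNReal.ofReal (1 + κ) ^ t * AA p 1 := by
        rw [ENNReal.ofReal_rpow_of_pos (by linarith)]
        gcongr
    _ = AA p 1 ^ (1 - t) * (ENNReal.ofReal (1 + κ) * AA p 1) ^ t := by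
        rw [ENNReal.mul_rpow_of_nonneg _ _ h0.le, mul_left_comm, rpow_split _ h0.le h1.le]
    _ ≤ _ := by gcongr

variable {U : Set (ℝ × YY N)} {D : ℝ}

lemma measurable_Ph (hU : IsOpen U) (hD : ∀ x ∈ U, |x.1| ≤ D) : Measurable (Ph U) :=
  measurable_snd.prodMk ((measurable_cc hU hD).prodMk (measurable_ll hU hD))

lemma measurable_PhX (hU : IsOpen U) (hD : ∀ x ∈ U, |x.1| ≤ D) :
    Measurable fun (X : Fin (N + 1) → ℝ × YY N) (i : Fin (N + 1)) => Ph U (X i) :=
  measurable_pi_lambda _ fun i => (measurable_Ph hU hD).comp (measurable_pi_apply i)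

lemma Gc_fl (hU : IsOpen U) (hD : ∀ x ∈ U, |x.1| ≤ D) (θ d : ℝ) :
    Gc (fl U θ d) = ∫⁻ X : Fin (N + 1) → ℝ × YY N,
      (∏ i, wt U d (X i)) * AA (fun i => Ph U (X i)) θ := by
  unfold Gc
  have hm : ∀ a : YY N, Measurable fun x : ℝ × YY N => wt U d x * hit U θ ⟪a, x.2⟫ x :=
    fun a => (measurable_wt hU hD).mul (measurable_hit hU hD (by fun_prop) measurable_id)
  have h1 : ∀ a : YY N, (∫⁻ y : YY N, fl U θ d (⟪a, y⟫, y)) ^ (N + 1) =
      ∫⁻ X : Fin (N + 1) → ℝ × YY N, ∏ i, (wt U d (X i) * hit U θ ⟪a, (X i).2⟫ (X i)) := by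
    intro a
    rw [lint_fl_graph hU hD volume (g := fun y => ⟪a, y⟫) (by fun_prop), volume_pi,
      lintegral_fin_prod (fun _ x => wt U d x * hit U θ ⟪a, x.2⟫ x) fun _ => hm a]
    simp [Measure.volume_eq_prod]
  simp_rw [h1]
  rw [lintegral_lintegral_swap]
  · refine lintegral_congr fun X => ?_
    simp_rw [Finset.prod_mul_distrib]
    have h2 : (fun a : YY N => ∏ i, hit U θ ⟪a, (X i).2⟫ (X i)) =
        (slab (fun i => Ph U (X i)) θ).indicator 1 := by
      funext a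
      by_cases ha : a ∈ slab (fun i => Ph U (X i)) θ
      · rw [indicator_of_mem ha]
        exact Finset.prod_eq_one fun i _ => if_pos (ha i)
      · rw [indicator_of_notMem ha]
        obtain ⟨i, hi⟩ := not_forall.1 ha
        exact Finset.prod_eq_zero (Finset.mem_univ i) (if_neg hi)
    have hs := (isOpen_slab (fun i => Ph U (X i)) θ).measurableSet
    rw [lintegral_const_mul _ (by rw [h2]; exact measurable_one.indicator hs), h2,
      lintegral_indicator_one hs]
    rfl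
  · refine Measurable.aemeasurable (Finset.measurable_fun_prod _ fun i _ => ?_)
    exact ((measurable_wt hU hD).comp (by fun_prop)).mul
      (measurable_hit hU hD (by fun_prop) (by fun_prop))

lemma adm_fl (hU : IsOpen U) (hD : ∀ x ∈ U, |x.1| ≤ D) {θ d : ℝ} (h1 : θ ≤ 1)
    (hd : (1 - θ) * D ≤ d) (hd0 : 0 < d) : Adm U d (fl U θ d) :=
  ⟨measurable_fl hU hD, fl_le_two hU hD h1 hd, fun _ hx => fl_one hU hD h1 hd hd0 hx,
    fun _ hx => fl_zero hU hD h1 hd hd0.le hx⟩

lemma null_bad (hU : IsOpen U) (hD : ∀ x ∈ U, |x.1| ≤ D) (hD0 : 0 < D) (hS : Stat U) {κ : ℝ}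
    (hκ : 0 < κ) :
    volume {X : Fin (N + 1) → ℝ × YY N | (∀ i, X i ∈ U ∧ κ < ll U (X i)) ∧
      ENNReal.ofReal κ ≤ AA (fun i => Ph U (X i)) 1 ∧
      ENNReal.ofReal (1 + κ) * AA (fun i => Ph U (X i)) 1 ≤ AA (fun i => Ph U (X i)) 0} = 0 := by
  set B := {X : Fin (N + 1) → ℝ × YY N | (∀ i, X i ∈ U ∧ κ < ll U (X i)) ∧
      ENNReal.ofReal κ ≤ AA (fun i => Ph U (X i)) 1 ∧
      ENNReal.ofReal (1 + κ) * AA (fun i => Ph U (X i)) 1 ≤ AA (fun i => Ph U (X i)) 0} with hB
  have hA : ∀ θ, Measurable fun X : Fin (N + 1) → ℝ × YY N => AA (fun i => Ph U (X i)) θ :=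
    fun θ => (measurable_AA θ).comp (measurable_PhX hU hD)
  have hBm : MeasurableSet B := by
    refine MeasurableSet.inter ?_ ((measurableSet_le measurable_const (hA 1)).inter
      (measurableSet_le ((hA 1).const_mul _) (hA 0)))
    show MeasurableSet {X : Fin (N + 1) → ℝ × YY N | ∀ i, X i ∈ U ∧ κ < ll U (X i)}
    rw [ofPred_forall]
    refine MeasurableSet.iInter fun i => ?_
    exact (hU.measurableSet.inter
      (measurableSet_lt measurable_const (measurable_ll hU hD))).preimage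
      (f := fun X : Fin (N + 1) → ℝ × YY N => X i) (measurable_pi_apply i)
  obtain ⟨C, d0, hd0, hC⟩ := hS
  have hl : 0 < Real.log (1 + κ) := Real.log_pos (by linarith)
  set c : ℝ := (1 / (2 * D)) ^ (N + 1) * (Real.log (1 + κ) * κ / D) with hc
  have hc0 : 0 < c := by positivity
  have key : ∀ d, 0 < d → d < d0 → d < κ → d < D →
      ENNReal.ofReal (c * d) * volume B ≤ C * ENNReal.ofReal (d ^ (3 / 2 : ℝ)) := by
    intro d h0 h1 h2 h3
    have t0 : 0 < d / D := by positivity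
    have t1 : d / D < 1 := (div_lt_one hD0).2 h3
    obtain ⟨g1, g2⟩ := hC d h0 h1 (fl U (1 - d / D) d) (fl U 1 d)
      (adm_fl hU hD (by linarith) (by rw [sub_sub_cancel, div_mul_cancel₀ _ hD0.ne']) h0)
      (adm_fl hU hD le_rfl (by simpa using h0.le) h0)
      (by rw [Measure.volume_eq_prod, mass_fl hU hD, mass_fl hU hD])
    refine (ENNReal.add_le_add_iff_left g1).1 (le_trans ?_ g2)
    rw [Gc_fl hU hD, Gc_fl hU hD, ← lintegral_indicator_const hBm, ← lintegral_add_right _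
      (measurable_const.indicator hBm)]
    refine lintegral_mono fun X => ?_
    by_cases hX : X ∈ B
    · rw [indicator_of_mem hX]
      refine le_trans ?_ (mul_le_mul_right (AA_gain _ hκ t0 t1 hX.2.1 hX.2.2) _)
      rw [mul_add]
      refine add_le_add le_rfl ?_
      have e : c * d = (1 / (2 * D)) ^ (N + 1) * (d / D * Real.log (1 + κ) * κ) := by
        rw [hc]; field_simp
      rw [e, ENNReal.ofReal_mul (by positivity), ENNReal.ofReal_pow (by positivity)]
      refine mul_le_mul_left ?_ _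
      calc ENNReal.ofReal (1 / (2 * D)) ^ (N + 1)
          = ∏ _i : Fin (N + 1), ENNReal.ofReal (1 / (2 * D)) := by simp
        _ ≤ _ := by
          refine Finset.prod_le_prod' fun i _ => ?_
          unfold wt
          rw [if_pos ⟨(hX.1 i).1, h2.trans (hX.1 i).2⟩]
          refine ENNReal.ofReal_le_ofReal (one_div_le_one_div_of_le ?_ ?_)
          · linarith [ll_pos hU hD (hX.1 i).1]
          · linarith [ll_le hD (hX.1 i).1]
    · rw [indicator_of_notMem hX, add_zero]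
      exact mul_le_mul_right (AA_one_le _ (by linarith) (by linarith)) _
  by_contra hne
  obtain ⟨b, hb0, hb⟩ : ∃ b : ℝ, 0 < b ∧ ENNReal.ofReal b ≤ volume B := by
    obtain ⟨r, -, hr1, hr2⟩ := ENNReal.lt_iff_exists_real_btwn.1 (pos_iff_ne_zero.2 hne)
    exact ⟨r, ENNReal.ofReal_pos.1 hr1, hr2.le⟩
  have ht : Tendsto (fun d : ℝ => (C : ℝ) * d ^ (1 / 2 : ℝ)) (𝓝[>] 0) (𝓝 0) := by
    have : ContinuousAt (fun d : ℝ => (C : ℝ) * d ^ (1 / 2 : ℝ)) 0 :=
      continuousAt_const.mul (Real.continuousAt_rpow_const _ _ (Or.inr (by norm_num)))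
    have h2 := this.tendsto
    rw [Real.zero_rpow (by norm_num), mul_zero] at h2
    exact h2.mono_left nhdsWithin_le_nhds
  have hle : c * b ≤ 0 := by
    refine ge_of_tendsto ht ?_
    filter_upwards [Ioo_mem_nhdsGT (show (0:ℝ) < min d0 (min κ D) by positivity)] with d hd
    obtain ⟨h0, h1⟩ := hd
    rw [lt_min_iff, lt_min_iff] at h1
    have h2 := le_trans (mul_le_mul_right hb _) (key d h0 h1.1 h1.2.1 h1.2.2)
    rw [← ENNReal.ofReal_mul (by positivity), ← ENNReal.ofReal_coe_nnreal,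
      ← ENNReal.ofReal_mul (by positivity), ENNReal.ofReal_le_ofReal_iff (by positivity)] at h2
    have e : d ^ (3 / 2 : ℝ) = d ^ (1 / 2 : ℝ) * d := by
      rw [← Real.rpow_add_one h0.ne']; norm_num
    rw [e] at h2
    exact le_of_mul_le_mul_right (by linarith) h0
  exact absurd (mul_pos hc0 hb0) (not_lt.2 hle)

/-- for almost every tuple of points of `U` the slope volume has no strict drop -/
theorem ae_not_bad (hU : IsOpen U) (hD : ∀ x ∈ U, |x.1| ≤ D) (hD0 : 0 < D) (hS : Stat U) :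
    ∀ᵐ X : Fin (N + 1) → ℝ × YY N, (∀ i, X i ∈ U) →
      ¬ (0 < AA (fun i => Ph U (X i)) 1 ∧
        AA (fun i => Ph U (X i)) 1 < AA (fun i => Ph U (X i)) 0) := by
  have h1 := fun k : ℕ => measure_eq_zero_iff_ae_notMem.1
    (null_bad hU hD hD0 hS (κ := 1 / ((k : ℝ) + 1)) (by positivity))
  filter_upwards [ae_all_iff.2 h1] with X hX hXU ⟨a1, a2⟩
  have t0 : Tendsto (fun k : ℕ => 1 / ((k : ℝ) + 1)) atTop (𝓝 0) :=
    tendsto_one_div_add_atTop_nhds_zero_nat
  have e1 : ∀ᶠ k : ℕ in atTop, ∀ i, 1 / ((k : ℝ) + 1) < ll U (X i) :=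
    eventually_all.2 fun i => t0.eventually (gt_mem_nhds (ll_pos hU hD (hXU i)))
  have e2 : ∀ᶠ k : ℕ in atTop,
      ENNReal.ofReal (1 / ((k : ℝ) + 1)) < AA (fun i => Ph U (X i)) 1 := by
    have := (ENNReal.continuous_ofReal.tendsto 0).comp t0
    rw [ENNReal.ofReal_zero] at this
    exact this.eventually (gt_mem_nhds a1)
  have e3 : ∀ᶠ k : ℕ in atTop, ENNReal.ofReal (1 + 1 / ((k : ℝ) + 1)) *
      AA (fun i => Ph U (X i)) 1 < AA (fun i => Ph U (X i)) 0 := by
    have t1 := (ENNReal.continuous_ofReal.tendsto _).comp (t0.const_add 1)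
    rw [add_zero, ENNReal.ofReal_one] at t1
    have t2 := ENNReal.Tendsto.mul_const (b := AA (fun i => Ph U (X i)) 1) t1 (Or.inl one_ne_zero)
    rw [one_mul] at t2
    exact t2.eventually (gt_mem_nhds a2)
  obtain ⟨k, k1, k2, k3⟩ := (e1.and (e2.and e3)).exists
  exact hX k ⟨fun i => ⟨hXU i, k1 i⟩, k2.le, k3.le⟩

end Pool.Agent.Lib.MP_242fd5_gt.M4
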