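import Pool.Agent.Lib.MP_242fd5_gt.M4c

set_option autoImplicit false

/-! Sections of a box by a moving slab. -/

namespace Pool.Agent.Lib.MP_242fd5_gt.M4

open Set Filter Topology MeasureTheory
open scoped ENNReal NNReal RealInnerProductSpace

/-- length of the intersection of two intervals -/
noncomputable def chi (a l x : ℝ) : ℝ := max 0 (min (2 * min a l) (a + l - |x|))

/-- area of the section of a rectangle by a diagonal strip -/
noncomputable def psi (a b l w : ℝ) : ℝ := ∫ x in (w - b)..(w + b), chi a l x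

variable {a b l : ℝ}

lemma continuous_chi (a l : ℝ) : Continuous (chi a l) := by unfold chi; fun_prop

lemma chi_nonneg (a l x : ℝ) : 0 ≤ chi a l x := le_max_left _ _

lemma chi_neg (a l x : ℝ) : chi a l (-x) = chi a l x := by unfold chi; rw [abs_neg]

lemma chi_anti {x y : ℝ} (h : |x| ≤ |y|) : chi a l y ≤ chi a l x := by
  unfold chi; gcongr

lemma vol_chi (a l x : ℝ) :
    volume {u : ℝ | |u| < a ∧ |u - x| < l} = ENNReal.ofReal (chi a l x) := by
  have : {u : ℝ | |u| < a ∧ |u - x| < l} = Ioo (max (-a) (x - l)) (min a (x + l)) := by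
    ext u
    simp only [mem_ofPred_eq, abs_lt, mem_Ioo, max_lt_iff, lt_min_iff]
    constructor
    · rintro ⟨⟨h1, h2⟩, h3, h4⟩; exact ⟨⟨h1, by linarith⟩, h2, by linarith⟩
    · rintro ⟨⟨h1, h2⟩, h3, h4⟩; exact ⟨⟨h1, h3⟩, by linarith, by linarith⟩
  rw [this, Real.volume_Ioo]
  unfold chi
  rw [ENNReal.ofReal_max, ENNReal.ofReal_zero, max_eq_right zero_le]
  congr 1
  rcases abs_cases x with h | h <;> rw [h.1] <;> simp only [max_def, min_def] <;>
    split_ifs <;> linarith [h.2]

lemma chi_strict (h1 : |l - a| < b) (h2 : b < l + a) {r : ℝ} (h3 : 0 < r) (h4 : r < a + l + b) :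
    chi a l (r + b) < chi a l (r - b) := by
  have hb : 0 < b := (abs_nonneg _).trans_lt h1
  rw [abs_lt] at h1
  have e1 : |r + b| = r + b := abs_of_pos (by linarith)
  have e2 : |r - b| < r + b := by rw [abs_lt]; constructor <;> linarith
  have e3 : |r - b| < a + l := by rw [abs_lt]; constructor <;> linarith
  unfold chi
  rw [e1, max_lt_iff]
  simp only [max_def, min_def]
  constructor <;> split_ifs <;> linarith [h1.1, h1.2]

lemma psi_sub (a b l w w' : ℝ) :
    psi a b l w - psi a b l w' = ∫ r in w..w', (chi a l (r - b) - chi a l (r + b)) := by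
  have hc := continuous_chi a l
  unfold psi
  rw [intervalIntegral.integral_interval_sub_interval_comm (hc.intervalIntegrable _ _)
    (hc.intervalIntegrable _ _) (hc.intervalIntegrable _ _), intervalIntegral.integral_sub
    (Continuous.intervalIntegrable (by fun_prop) _ _)
    (Continuous.intervalIntegrable (by fun_prop) _ _),
    intervalIntegral.integral_comp_sub_right, intervalIntegral.integral_comp_add_right]

lemma psi_neg (a b l w : ℝ) : psi a b l (-w) = psi a b l w := by
  unfold psi
  rw [show -w - b = -(w + b) by ring, show -w + b = -(w - b) by ring,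
    ← intervalIntegral.integral_comp_neg]
  simp only [chi_neg]

lemma psi_abs (a b l w : ℝ) : psi a b l |w| = psi a b l w := by
  rcases abs_cases w with h | h <;> rw [h.1]
  exact psi_neg _ _ _ _

lemma psi_nonneg (hb : 0 ≤ b) (w : ℝ) : 0 ≤ psi a b l w :=
  intervalIntegral.integral_nonneg (by linarith) fun _ _ => chi_nonneg _ _ _

lemma psi_anti (hb : 0 ≤ b) {w w' : ℝ} (h : |w| ≤ |w'|) : psi a b l w' ≤ psi a b l w := by
  rw [← psi_abs a b l w, ← psi_abs a b l w', ← sub_nonneg, psi_sub]
  refine intervalIntegral.integral_nonneg h fun r hr => sub_nonneg.2 (chi_anti ?_)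
  have : 0 ≤ r := (abs_nonneg _).trans hr.1
  rw [abs_of_nonneg (show 0 ≤ r + b by linarith), abs_le]
  constructor <;> linarith

lemma psi_strict (h1 : |l - a| < b) (h2 : b < l + a) {w w' : ℝ} (h3 : 0 ≤ w) (h4 : w < w')
    (h5 : w' ≤ a + l + b) : psi a b l w' < psi a b l w := by
  have hc := continuous_chi a l
  rw [← sub_pos, psi_sub]
  refine intervalIntegral.intervalIntegral_pos_of_pos_on
    (Continuous.intervalIntegrable (by fun_prop) _ _) (fun r hr => ?_) h4
  exact sub_pos.2 (chi_strict h1 h2 (by linarith [hr.1]) (by linarith [hr.2]))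

lemma lint_psi (hb : 0 ≤ b) (w : ℝ) :
    ∫⁻ u in Ioo (-b) b, ENNReal.ofReal (chi a l (w - u)) = ENNReal.ofReal (psi a b l w) := by
  have hc := continuous_chi a l
  have hc2 : Continuous fun u => chi a l (w - u) := by fun_prop
  rw [← ofReal_integral_eq_lintegral_ofReal
    (hc2.integrableOn_Icc.mono_set Ioo_subset_Icc_self)
    (Eventually.of_forall fun _ => chi_nonneg _ _ _), ← integral_Ioc_eq_integral_Ioo,
    ← intervalIntegral.integral_of_le (by linarith), intervalIntegral.integral_comp_sub_left]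
  unfold psi
  rw [sub_neg_eq_add]

lemma lint_cons {n : ℕ} {f : (Fin (n + 1) → ℝ) → ℝ≥0∞} (hf : Measurable f) :
    ∫⁻ v, f v = ∫⁻ v : Fin n → ℝ, ∫⁻ t : ℝ, f (Fin.cons t v) := by
  rw [(volume_preserving_piFinSuccAbove (fun _ : Fin (n + 1) => ℝ) 0).symm.lintegral_map_equiv,
    Measure.volume_eq_prod, lintegral_prod_symm']
  · refine lintegral_congr fun v => lintegral_congr fun t => ?_
    congr 1
    ext i
    refine Fin.cases ?_ (fun i => ?_) i <;> simp [Fin.insertNthEquiv]
  · exact hf.comp (MeasurableEquiv.measurable _)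

variable {m : ℕ}

/-- a box cut by a slab -/
def box (l : Fin (m + 2) → ℝ) (α : Fin m → ℝ) (ls w : ℝ) : Set (Fin (m + 2) → ℝ) :=
  {v | (∀ j, |v j| < l j) ∧ |v 0 + v 1 + ∑ j, α j * v j.succ.succ - w| < ls}

lemma isOpen_box (l : Fin (m + 2) → ℝ) (α : Fin m → ℝ) (ls w : ℝ) : IsOpen (box l α ls w) := by
  have : box l α ls w = (⋂ j, {v | |v j| < l j}) ∩
      {v | |v 0 + v 1 + ∑ j, α j * v j.succ.succ - w| < ls} := by
    ext v; simp [box]
  rw [this]
  exact (isOpen_iInter_of_finite fun j => isOpen_lt (by fun_prop) (by fun_prop)).inter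
    (isOpen_lt (by fun_prop) (by fun_prop))

lemma measurable_cons {n : ℕ} (v : Fin n → ℝ) :
    Measurable fun t : ℝ => (Fin.cons t v : Fin (n + 1) → ℝ) :=
  measurable_pi_lambda _ fun i => by
    refine Fin.cases ?_ (fun i => ?_) i
    · simpa using measurable_id'
    · simp

lemma vol_box (l : Fin (m + 2) → ℝ) (hl : 0 ≤ l 1) (α : Fin m → ℝ) (ls w : ℝ) :
    volume (box l α ls w) = ∫⁻ v in {v : Fin m → ℝ | ∀ j, |v j| < l j.succ.succ},
      ENNReal.ofReal (psi (l 0) (l 1) ls (w - ∑ j, α j * v j)) := by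
  have hm := (isOpen_box l α ls w).measurableSet
  have hs : MeasurableSet {v : Fin m → ℝ | ∀ j, |v j| < l j.succ.succ} := by
    rw [ofPred_forall]
    exact MeasurableSet.iInter fun j => measurableSet_lt (by fun_prop) measurable_const
  have h1 : ∀ v : Fin (m + 1) → ℝ, ∫⁻ t : ℝ, (box l α ls w).indicator 1 (Fin.cons t v) =
      volume ((fun t : ℝ => (Fin.cons t v : Fin (m + 2) → ℝ)) ⁻¹' box l α ls w) := by
    intro v
    rw [← lintegral_indicator_one (hm.preimage (measurable_cons v))]
    rfl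
  have h2 : Measurable fun v : Fin (m + 1) → ℝ =>
      ∫⁻ t : ℝ, (box l α ls w).indicator (1 : (Fin (m + 2) → ℝ) → ℝ≥0∞) (Fin.cons t v) := by
    refine Measurable.lintegral_prod_right (f := fun (v : Fin (m + 1) → ℝ) (t : ℝ) =>
      (box l α ls w).indicator (1 : (Fin (m + 2) → ℝ) → ℝ≥0∞) (Fin.cons t v)) ?_
    refine (measurable_one.indicator hm).comp (measurable_pi_lambda _ fun i => ?_)
    refine Fin.cases ?_ (fun i => ?_) i
    · simpa using measurable_snd
    · simp only [Fin.cons_succ]; fun_prop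
  rw [← lintegral_indicator_one hm, lint_cons (measurable_one.indicator hm), lint_cons h2,
    ← lintegral_indicator hs]
  refine lintegral_congr fun v => ?_
  simp_rw [h1]
  by_cases hv : v ∈ {v : Fin m → ℝ | ∀ j, |v j| < l j.succ.succ}
  · rw [indicator_of_mem hv, ← lint_psi hl, ← lintegral_indicator measurableSet_Ioo]
    refine lintegral_congr fun u => ?_
    by_cases hu : u ∈ Ioo (-l 1) (l 1)
    · rw [indicator_of_mem hu, ← vol_chi]
      congr 1
      ext t
      simp only [box, mem_preimage, mem_ofPred_eq, Fin.forall_fin_succ, Fin.cons_zero,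
        Fin.cons_succ, Fin.cons_one, Fin.succ_zero_eq_one]
      rw [show t + u + ∑ j, α j * v j - w = t - (w - ∑ j, α j * v j - u) by ring]
      exact ⟨fun h => ⟨h.1.1, h.2⟩, fun h => ⟨⟨h.1, abs_lt.2 hu, hv⟩, h.2⟩⟩
    · rw [indicator_of_notMem hu]
      convert measure_empty (μ := (volume : Measure ℝ))
      refine eq_empty_of_forall_notMem fun t ht => hu ?_
      have := ht.1 1
      simp only [Fin.cons_one, Fin.cons_zero] at this
      exact abs_lt.1 this
  · rw [indicator_of_notMem hv]
    have : ∀ u : ℝ, (fun t : ℝ => (Fin.cons t (Fin.cons u v : Fin (m + 1) → ℝ) :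
        Fin (m + 2) → ℝ)) ⁻¹' box l α ls w = ∅ := fun u =>
      eq_empty_of_forall_notMem fun t ht => hv fun j => by
        simpa using ht.1 j.succ.succ
    simp [this]

lemma box_strict (l : Fin (m + 2) → ℝ) (hl : ∀ j, 0 < l j) (α : Fin m → ℝ) {ls w : ℝ}
    (h1 : |ls - l 0| < l 1) (h2 : l 1 < ls + l 0) (h3 : |w| < ls + l 0 + l 1)
    (h4 : 2 * ∑ j, |α j| * l j.succ.succ < |w|) :
    0 < volume (box l α ls w) ∧ volume (box l α ls w) < volume (box l α ls 0) := by
  have hls : 0 < ls := by
    rw [abs_lt] at h1; linarith [h1.1]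
  have l0 := hl 0
  have l1 := hl 1
  constructor
  · refine (isOpen_box l α ls w).measure_pos _ ⟨Fin.cons (l 0 * (w / (ls + l 0 + l 1)))
      (Fin.cons (l 1 * (w / (ls + l 0 + l 1))) 0), ?_, ?_⟩
    all_goals
      have hq : |w / (ls + l 0 + l 1)| < 1 := by
        rw [abs_div, abs_of_pos (show 0 < ls + l 0 + l 1 by positivity)]
        exact (div_lt_one (by positivity)).2 h3
    · simp only [Fin.forall_fin_succ, Fin.cons_zero, Fin.cons_succ, Fin.succ_zero_eq_one,
        Pi.zero_apply, abs_zero, abs_mul, abs_of_pos l0, abs_of_pos l1]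
      exact ⟨mul_lt_of_lt_one_right l0 hq, mul_lt_of_lt_one_right l1 hq, fun j => hl _⟩
    · simp only [Fin.cons_zero, Fin.cons_succ, Fin.cons_one, Pi.zero_apply, mul_zero,
        Finset.sum_const_zero, add_zero]
      rw [show l 0 * (w / (ls + l 0 + l 1)) + l 1 * (w / (ls + l 0 + l 1)) - w =
        -(ls * (w / (ls + l 0 + l 1))) by field_simp; ring, abs_neg, abs_mul, abs_of_pos hls]
      exact mul_lt_of_lt_one_right hls hq
  · set Z := ∑ j, |α j| * l j.succ.succ with hZ
    set S := {v : Fin m → ℝ | ∀ j, |v j| < l j.succ.succ} with hS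
    have hZ0 : 0 ≤ Z := Finset.sum_nonneg fun j _ => mul_nonneg (abs_nonneg _) (hl _).le
    have hS2 : S = Set.pi univ fun j => Ioo (-l j.succ.succ) (l j.succ.succ) := by
      ext v; simp [hS, abs_lt]
    have hs : MeasurableSet S := by
      rw [hS2]; exact MeasurableSet.univ_pi fun _ => measurableSet_Ioo
    have hV : volume S = ∏ j : Fin m, ENNReal.ofReal (l j.succ.succ - -l j.succ.succ) := by
      rw [hS2, Real.volume_pi_Ioo]
    have hV0 : volume S ≠ 0 := by
      rw [hV, Finset.prod_ne_zero_iff]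
      exact fun j _ => (ENNReal.ofReal_pos.2 (by linarith [hl j.succ.succ])).ne'
    have hV1 : volume S ≠ ∞ := by
      rw [hV]; exact ENNReal.prod_ne_top fun _ _ => ENNReal.ofReal_ne_top
    have hζ : ∀ v ∈ S, |∑ j, α j * v j| ≤ Z := fun v hv =>
      (Finset.abs_sum_le_sum_abs _ _).trans (Finset.sum_le_sum fun j _ => by
        rw [abs_mul]; exact mul_le_mul_of_nonneg_left (hv j).le (abs_nonneg _))
    have hp := psi_strict h1 h2 hZ0 (w' := |w| - Z) (by linarith) (by linarith)
    rw [vol_box l l1.le, vol_box l l1.le]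
    calc ∫⁻ v in S, ENNReal.ofReal (psi (l 0) (l 1) ls (w - ∑ j, α j * v j))
        ≤ ∫⁻ _v in S, ENNReal.ofReal (psi (l 0) (l 1) ls (|w| - Z)) := by
          refine setLIntegral_mono' hs fun v hv => ENNReal.ofReal_le_ofReal (psi_anti l1.le ?_)
          rw [abs_of_nonneg (show 0 ≤ |w| - Z by linarith)]
          linarith [abs_sub_abs_le_abs_sub w (∑ j, α j * v j), hζ v hv]
      _ < ∫⁻ _v in S, ENNReal.ofReal (psi (l 0) (l 1) ls Z) := by
          rw [setLIntegral_const, setLIntegral_const]
          exact ENNReal.mul_lt_mul_left hV0 hV1 ((ENNReal.ofReal_lt_ofReal_iff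
            ((psi_nonneg l1.le _).trans_lt hp)).2 hp)
      _ ≤ _ := by
          refine setLIntegral_mono' hs fun v hv => ENNReal.ofReal_le_ofReal (psi_anti l1.le ?_)
          rw [zero_sub, abs_neg, abs_of_nonneg hZ0]
          exact hζ v hv

end Pool.Agent.Lib.MP_242fd5_gt.M4
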