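import Pool.Agent.Lib.MP_242fd5_gt.M4d

set_option autoImplicit false

/-! The three point rule for centres of chords. -/

namespace Pool.Agent.Lib.MP_242fd5_gt.M4

open Set Filter Topology MeasureTheory Matrix
open scoped ENNReal NNReal RealInnerProductSpace

variable {m : ℕ}

/-- matrix of the foot points -/
def Mx (p : Fin (m + 3) → YY (m + 2) × ℝ × ℝ) : Matrix (Fin (m + 2)) (Fin (m + 2)) ℝ :=
  Matrix.of fun j k => (p j.succ).1 k

/-- scaling factors -/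
def bet (α : Fin (m + 2) → ℝ) : Fin (m + 2) → ℝ := Fin.cons (α 0) (Fin.cons (α 1) 1)

lemma bet_ne {α : Fin (m + 2) → ℝ} (h0 : α 0 ≠ 0) (h1 : α 1 ≠ 0) (j : Fin (m + 2)) :
    bet α j ≠ 0 := by
  refine Fin.cases ?_ (fun j => Fin.cases ?_ (fun j => ?_) j) j
  · simpa [bet] using h0
  · simpa [bet] using h1
  · simp [bet]

lemma AA_box (p : Fin (m + 3) → YY (m + 2) × ℝ × ℝ) (α : Fin (m + 2) → ℝ)
    (hdet : (Mx p).det ≠ 0) (h0 : α 0 ≠ 0) (h1 : α 1 ≠ 0)
    (hy : (p 0).1 = ∑ j, α j • (p j.succ).1) :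
    ∃ κ : ℝ≥0∞, κ ≠ 0 ∧ κ ≠ ∞ ∧ ∀ θ, AA p θ = κ * volume (box (fun j => |bet α j| * (p j.succ).2.2)
      (fun j => α j.succ.succ) (p 0).2.2 (θ * ((p 0).2.1 - ∑ j, α j * (p j.succ).2.1))) := by
  have hb := bet_ne h0 h1
  set L := Matrix.toLin' (Matrix.diagonal (bet α) * Mx p) with hL
  have hLd : LinearMap.det L ≠ 0 := by
    rw [hL, LinearMap.det_toLin', Matrix.det_mul, Matrix.det_diagonal]
    exact mul_ne_zero (Finset.prod_ne_zero_iff.2 fun j _ => hb j) hdet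
  have hLa : ∀ (a : Fin (m + 2) → ℝ) j,
      L a j = bet α j * ⟪(WithLp.toLp 2 a : YY (m + 2)), (p j.succ).1⟫ := by
    intro a j
    rw [hL, Matrix.toLin'_apply, ← Matrix.mulVec_mulVec, Matrix.mulVec_diagonal]
    simp [Mx, Matrix.mulVec, dotProduct, PiLp.inner_apply]
  refine ⟨ENNReal.ofReal |(LinearMap.det L)⁻¹|,
    (ENNReal.ofReal_pos.2 (abs_pos.2 (inv_ne_zero hLd))).ne', ENNReal.ofReal_ne_top, fun θ => ?_⟩
  unfold AA
  rw [← (PiLp.volume_preserving_toLp (Fin (m + 2))).measure_preimage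
    (isOpen_slab p θ).measurableSet.nullMeasurableSet,
    ← measure_preimage_add_right volume (fun j => -(bet α j * (θ * (p j.succ).2.1))) (box _ _ _ _),
    ← Measure.addHaar_preimage_linearMap _ hLd]
  congr 1
  ext a
  simp only [mem_preimage, slab, box, mem_ofPred_eq, Pi.add_apply, hLa]
  rw [Fin.forall_fin_succ, and_comm]
  refine and_congr (forall_congr' fun j => ?_) ?_
  · rw [← sub_eq_add_neg, ← mul_sub, abs_mul, mul_lt_mul_iff_right₀ (abs_pos.2 (hb j))]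
  · rw [hy, inner_sum]
    simp only [real_inner_smul_right, Fin.sum_univ_succ, bet, Fin.cons_zero, Fin.cons_one,
      Fin.cons_succ, Pi.one_apply, one_mul, Fin.succ_zero_eq_one, mul_add, mul_neg,
      Finset.sum_add_distrib, Finset.sum_neg_distrib, mul_sub, Finset.mul_sum]
    have : ∑ j : Fin m, α j.succ.succ * (θ * (p j.succ.succ.succ).2.1) =
        ∑ j : Fin m, θ * (α j.succ.succ * (p j.succ.succ.succ).2.1) :=
      Finset.sum_congr rfl fun j _ => by ring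
    rw [this]
    ring_nf

lemma bad_of (p : Fin (m + 3) → YY (m + 2) × ℝ × ℝ) (α : Fin (m + 2) → ℝ)
    (hdet : (Mx p).det ≠ 0) (hy : (p 0).1 = ∑ j, α j • (p j.succ).1) (hl : ∀ j, 0 < (p j).2.2)
    (h1 : |(p 0).2.2 - |α 0| * (p 1).2.2| < |α 1| * (p 2).2.2)
    (h2 : |α 1| * (p 2).2.2 < (p 0).2.2 + |α 0| * (p 1).2.2)
    (h3 : |(p 0).2.1 - ∑ j, α j * (p j.succ).2.1| <
      (p 0).2.2 + |α 0| * (p 1).2.2 + |α 1| * (p 2).2.2)
    (h4 : 2 * ∑ j : Fin m, |α j.succ.succ| * (p j.succ.succ.succ).2.2 <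
      |(p 0).2.1 - ∑ j, α j * (p j.succ).2.1|) :
    0 < AA p 1 ∧ AA p 1 < AA p 0 := by
  have a1 : α 1 ≠ 0 := by
    rintro h
    rw [h, abs_zero, zero_mul] at h1
    exact absurd h1 (not_lt.2 (abs_nonneg _))
  have a0 : α 0 ≠ 0 := by
    rintro h
    rw [h, abs_zero, zero_mul, sub_zero, abs_of_pos (hl 0)] at h1
    rw [h, abs_zero, zero_mul, add_zero] at h2
    linarith
  obtain ⟨κ, k0, k1, hk⟩ := AA_box p α hdet a0 a1 hy
  have := box_strict (fun j => |bet α j| * (p j.succ).2.2)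
    (fun j => mul_pos (abs_pos.2 (bet_ne a0 a1 j)) (hl _)) (fun j => α j.succ.succ)
    (ls := (p 0).2.2) (w := (p 0).2.1 - ∑ j, α j * (p j.succ).2.1)
    (by simpa [bet] using h1) (by simpa [bet] using h2) (by simpa [bet] using h3)
    (by simpa [bet] using h4)
  rw [hk, hk, one_mul, zero_mul]
  exact ⟨ENNReal.mul_pos k0 this.1.ne', ENNReal.mul_lt_mul_right k0 k1 this.2⟩

lemma sum_smul_eq (p : Fin (m + 3) → YY (m + 2) × ℝ × ℝ) (α : Fin (m + 2) → ℝ) :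
    (p 0).1 = ∑ j, α j • (p j.succ).1 ↔ (fun k => (p 0).1 k) = α ᵥ* Mx p := by
  constructor
  · intro h
    funext k
    rw [h]
    simp [Mx, Matrix.vecMul, dotProduct]
  · intro h
    ext k
    have := congrFun h k
    simp only at this
    rw [this]
    simp [Mx, Matrix.vecMul, dotProduct]

lemma bad_near (p : Fin (m + 3) → YY (m + 2) × ℝ × ℝ) (α : Fin (m + 2) → ℝ)
    (hdet : (Mx p).det ≠ 0) (hy : (p 0).1 = ∑ j, α j • (p j.succ).1)
    (hα : ∀ j : Fin m, α j.succ.succ = 0)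
    (h1 : |(p 0).2.2 - |α 0| * (p 1).2.2| < |α 1| * (p 2).2.2)
    (h2 : |α 1| * (p 2).2.2 < (p 0).2.2 + |α 0| * (p 1).2.2)
    (h3 : |(p 0).2.1 - ∑ j, α j * (p j.succ).2.1| <
      (p 0).2.2 + |α 0| * (p 1).2.2 + |α 1| * (p 2).2.2)
    (h4 : (p 0).2.1 - ∑ j, α j * (p j.succ).2.1 ≠ 0) :
    ∀ᶠ q in 𝓝 p, (∀ j, 0 < (q j).2.2) → 0 < AA q 1 ∧ AA q 1 < AA q 0 := by
  have hM : Continuous (Mx : (Fin (m + 3) → YY (m + 2) × ℝ × ℝ) → _) :=
    continuous_matrix fun j k => by simp only [Mx, Matrix.of_apply]; fun_prop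
  have hI : ContinuousAt (fun q => (Mx q)⁻¹) p := by
    refine ContinuousAt.comp (continuousAt_matrix_inv _ ?_) hM.continuousAt
    rw [Ring.inverse_eq_inv']
    exact continuousAt_inv₀ hdet
  have ca : ∀ j k, ContinuousAt (fun q : Fin (m + 3) → YY (m + 2) × ℝ × ℝ => (q j).1 k) p :=
    fun j k => Continuous.continuousAt (by fun_prop)
  have cb : ∀ j, ContinuousAt (fun q : Fin (m + 3) → YY (m + 2) × ℝ × ℝ => (q j).2.1) p :=
    fun j => Continuous.continuousAt (by fun_prop)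
  have cl : ∀ j, ContinuousAt (fun q : Fin (m + 3) → YY (m + 2) × ℝ × ℝ => (q j).2.2) p :=
    fun j => Continuous.continuousAt (by fun_prop)
  set al : (Fin (m + 3) → YY (m + 2) × ℝ × ℝ) → Fin (m + 2) → ℝ :=
    fun q => (fun k => (q 0).1 k) ᵥ* (Mx q)⁻¹ with hal
  have hc : ∀ j, ContinuousAt (fun q => al q j) p := by
    intro j
    simp only [hal, Matrix.vecMul, dotProduct]
    refine tendsto_finsetSum _ fun k _ => ContinuousAt.mul (ca 0 k) ?_
    exact (continuous_apply_apply k j).continuousAt.comp hI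
  have hp : al p = α := by
    simp only [hal]
    rw [(sum_smul_eq p α).1 hy, Matrix.vecMul_vecMul, Matrix.mul_nonsing_inv _ hdet.isUnit,
      Matrix.vecMul_one]
  have c0 := hc 0
  have c1 := hc 1
  have cz : ContinuousAt (fun q => (q 0).2.1 - ∑ j, al q j * (q j.succ).2.1) p :=
    ContinuousAt.sub (cb 0)
      (tendsto_finsetSum _ fun j _ => ContinuousAt.mul (hc j) (cb _))
  have cs : ContinuousAt
      (fun q => 2 * ∑ j : Fin m, |al q j.succ.succ| * (q j.succ.succ.succ).2.2) p :=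
    continuousAt_const.mul
      (tendsto_finsetSum _ fun j _ => ContinuousAt.mul (hc _).abs (cl _))
  have e0 : ∀ᶠ q in 𝓝 p, (Mx q).det ≠ 0 :=
    hM.matrix_det.continuousAt.eventually_ne hdet
  have e1 : ∀ᶠ q in 𝓝 p, |(q 0).2.2 - |al q 0| * (q 1).2.2| < |al q 1| * (q 2).2.2 :=
    ContinuousAt.eventually_lt ((cl 0).sub (c0.abs.mul (cl 1))).abs (c1.abs.mul (cl 2))
      (by simpa only [hp, Pi.mul_apply, Pi.sub_apply] using h1)
  have e2 : ∀ᶠ q in 𝓝 p, |al q 1| * (q 2).2.2 < (q 0).2.2 + |al q 0| * (q 1).2.2 :=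
    ContinuousAt.eventually_lt (c1.abs.mul (cl 2)) ((cl 0).add (c0.abs.mul (cl 1)))
      (by simpa only [hp, Pi.mul_apply, Pi.add_apply] using h2)
  have e3 : ∀ᶠ q in 𝓝 p, |(q 0).2.1 - ∑ j, al q j * (q j.succ).2.1| <
      (q 0).2.2 + |al q 0| * (q 1).2.2 + |al q 1| * (q 2).2.2 :=
    ContinuousAt.eventually_lt cz.abs (((cl 0).add (c0.abs.mul (cl 1))).add (c1.abs.mul (cl 2)))
      (by simpa only [hp, Pi.mul_apply, Pi.add_apply] using h3)
  have e4 : ∀ᶠ q in 𝓝 p, 2 * ∑ j : Fin m, |al q j.succ.succ| * (q j.succ.succ.succ).2.2 <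
      |(q 0).2.1 - ∑ j, al q j * (q j.succ).2.1| :=
    ContinuousAt.eventually_lt cs cz.abs (by simpa [hp, hα] using h4)
  filter_upwards [e0, e1, e2, e3, e4] with q q0 q1 q2 q3 q4 hl
  refine bad_of q (al q) q0 ((sum_smul_eq q _).2 ?_) hl q1 q2 q3 q4
  simp only [hal]
  rw [Matrix.vecMul_vecMul, Matrix.nonsing_inv_mul _ q0.isUnit, Matrix.vecMul_one]

variable {N : ℕ} {U : Set (ℝ × YY N)} {D : ℝ}

/-- essential range of (foot point, centre, half length) -/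
def Sig (U : Set (ℝ × YY N)) : Set (YY N × ℝ × ℝ) :=
  (Measure.map (Ph U) (volume.restrict U)).support

lemma isClosed_Sig (U : Set (ℝ × YY N)) : IsClosed (Sig U) := Measure.isClosed_support

lemma ae_mem_Sig (hU : IsOpen U) (hD : ∀ x ∈ U, |x.1| ≤ D) :
    ∀ᵐ x : ℝ × YY N, x ∈ U → Ph U x ∈ Sig U := by
  rw [← ae_restrict_iff' hU.measurableSet]
  exact ae_of_ae_map (measurable_Ph hU hD).aemeasurable Measure.support_mem_ae

lemma no_bad (hU : IsOpen U) (hD : ∀ x ∈ U, |x.1| ≤ D) (hD0 : 0 < D) (hS : Stat U)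
    {p : Fin (N + 1) → YY N × ℝ × ℝ} (hp : ∀ i, p i ∈ Sig U)
    (h : ∀ᶠ q in 𝓝 p, (∀ j, 0 < (q j).2.2) → 0 < AA q 1 ∧ AA q 1 < AA q 0) : False := by
  obtain ⟨ε, hε, hb⟩ := Metric.eventually_nhds_iff_ball.1 h
  have h0 := ae_not_bad hU hD hD0 hS
  have h1 : volume (Set.pi univ fun i => Ph U ⁻¹' Metric.ball (p i) ε ∩ U) = 0 := by
    refine measure_mono_null (fun X hX => ?_) h0
    intro hc
    refine hc (fun i => (hX i trivial).2) (hb _ ?_ fun j => ll_pos hU hD (hX j trivial).2)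
    rw [ball_pi _ hε]
    exact fun i _ => (hX i trivial).1
  rw [volume_pi_pi, Finset.prod_eq_zero_iff] at h1
  obtain ⟨i, -, hi⟩ := h1
  have h2 := (Measure.mem_support_iff_forall _).1 (hp i) _ (Metric.ball_mem_nhds (p i) hε)
  rw [Measure.map_apply (measurable_Ph hU hD) Metric.isOpen_ball.measurableSet,
    Measure.restrict_apply (measurable_Ph hU hD Metric.isOpen_ball.measurableSet)] at h2
  exact h2.ne' hi

lemma exists_completion {y0 y1 : YY (m + 2)} (h : LinearIndependent ℝ ![y0, y1]) {r : ℝ}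
    (hr : 0 < r) (k : ℕ) (hk : k ≤ m) : ∃ b : Fin (k + 2) → YY (m + 2), LinearIndependent ℝ b ∧
      b 0 = y0 ∧ b 1 = y1 ∧ ∀ j : Fin k, ‖b j.succ.succ‖ < r := by
  induction k with
  | zero => exact ⟨![y0, y1], h, rfl, rfl, fun j => j.elim0⟩
  | succ k ih =>
    obtain ⟨b, hb, b0, b1, b2⟩ := ih (by omega)
    obtain ⟨x, hx⟩ := exists_linearIndependent_snoc_of_lt_finrank hb (by simp; omega)
    rw [linearIndependent_finSnoc] at hx
    have hx0 : x ≠ 0 := fun h0 => hx.2 (h0 ▸ Submodule.zero_mem _)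
    have hn : 0 < ‖x‖ := norm_pos_iff.2 hx0
    refine ⟨Fin.snoc b ((r / 2 / ‖x‖) • x), ?_, ?_, ?_, fun j => ?_⟩
    · rw [linearIndependent_finSnoc]
      exact ⟨hb, fun h2 => hx.2 ((Submodule.smul_mem_iff _ (by positivity)).1 h2)⟩
    · rw [← b0]; exact Fin.snoc_castSucc (α := fun _ => YY (m + 2)) _ _ 0
    · rw [← b1]; exact Fin.snoc_castSucc (α := fun _ => YY (m + 2)) _ _ 1
    · refine Fin.lastCases ?_ (fun j => ?_) j
      · rw [Fin.succ_last, Fin.succ_last, Fin.snoc_last, norm_smul, Real.norm_of_nonneg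
          (by positivity), div_mul_cancel₀ _ hn.ne']
        linarith
      · rw [Fin.succ_castSucc, Fin.succ_castSucc, Fin.snoc_castSucc]
        exact b2 j

/-- the three point rule -/
theorem three_point {U : Set (ℝ × YY (m + 2))} (hU : IsOpen U) (hD : ∀ x ∈ U, |x.1| ≤ D)
    (hD0 : 0 < D) (hS : Stat U) {r : ℝ} (hr : 0 < r)
    (hcov : ∀ y : YY (m + 2), ‖y‖ < r → ∃ c, (y, c) ∈ Sig U)
    {p p0 p1 : YY (m + 2) × ℝ × ℝ} (hp : p ∈ Sig U) (hp0 : p0 ∈ Sig U) (hp1 : p1 ∈ Sig U)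
    (hi : LinearIndependent ℝ ![p0.1, p1.1]) {α0 α1 : ℝ} (hy : p.1 = α0 • p0.1 + α1 • p1.1)
    (h1 : |p.2.2 - |α0| * p0.2.2| < |α1| * p1.2.2) (h2 : |α1| * p1.2.2 < p.2.2 + |α0| * p0.2.2)
    (h3 : |p.2.1 - (α0 * p0.2.1 + α1 * p1.2.1)| < p.2.2 + |α0| * p0.2.2 + |α1| * p1.2.2) :
    p.2.1 = α0 * p0.2.1 + α1 * p1.2.1 := by
  obtain ⟨b, hb, b0, b1, b2⟩ := exists_completion hi hr m le_rfl
  choose c hc using fun j => hcov _ (b2 j)
  by_contra hne
  set q : Fin (m + 3) → YY (m + 2) × ℝ × ℝ :=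
    Fin.cons p (Fin.cons p0 (Fin.cons p1 fun j => (b j.succ.succ, c j))) with hq
  set α : Fin (m + 2) → ℝ := Fin.cons α0 (Fin.cons α1 0) with hα
  have hqb : ∀ j : Fin (m + 2), (q j.succ).1 = b j := by
    intro j
    refine Fin.cases ?_ (fun j => Fin.cases ?_ (fun j => ?_) j) j
    · simp [hq, b0]
    · simp only [hq, Fin.cons_succ, Fin.cons_zero]; exact b1.symm
    · simp [hq]
  have hdet : (Mx q).det ≠ 0 := by
    rw [← isUnit_iff_ne_zero, ← Matrix.isUnit_iff_isUnit_det,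
      ← Matrix.linearIndependent_rows_iff_isUnit]
    have := hb.map' (WithLp.linearEquiv 2 ℝ (Fin (m + 2) → ℝ)).toLinearMap (LinearEquiv.ker _)
    have e : (Mx q).row = (WithLp.linearEquiv 2 ℝ (Fin (m + 2) → ℝ)).toLinearMap ∘ b := by
      funext j k
      simp [Mx, hqb]
    rw [e]
    exact this
  have hz : ∑ j, α j * (q j.succ).2.1 = α0 * p0.2.1 + α1 * p1.2.1 := by
    simp [hα, hq, Fin.sum_univ_succ]
  have q0 : q 0 = p := rfl
  have q1 : q 1 = p0 := rfl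
  have q2 : q 2 = p1 := rfl
  have α0' : α 0 = α0 := rfl
  have α1' : α 1 = α1 := rfl
  refine no_bad hU hD hD0 hS (p := q) (fun i => ?_) (bad_near q α hdet ?_ (fun j => ?_) ?_ ?_ ?_ ?_)
  · refine Fin.cases hp (fun j => Fin.cases hp0 (fun j => Fin.cases hp1 (fun j => ?_) j) j) i
    exact hc j
  · simp [hα, hq, Fin.sum_univ_succ, hy]
  · simp [hα]
  · rwa [q0, q1, q2, α0', α1']
  · rwa [q0, q1, q2, α0', α1']
  · rwa [hz, q0, q1, q2, α0', α1']
  · rw [hz, q0]; exact sub_ne_zero.2 hne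

end Pool.Agent.Lib.MP_242fd5_gt.M4
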