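import Pool.Agent.Lib.MP_242fd5_gt.M4e

set_option autoImplicit false

/-! Local additivity gives linearity; symmetric points in measurable sets. -/

namespace Pool.Agent.Lib.MP_242fd5_gt.M4

open Set Filter Topology MeasureTheory Metric
open scoped ENNReal

section
variable {V : Type} [NormedAddCommGroup V] [NormedSpace ℝ V]

lemma ind_comb {x y : V} (h : LinearIndependent ℝ ![x, y]) {a b c d : ℝ}
    (hd : a * d - b * c ≠ 0) {u v : V} (hu : u = a • x + b • y) (hv : v = c • x + d • y) :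
    LinearIndependent ℝ ![u, v] := by
  rw [LinearIndependent.pair_iff] at h ⊢
  intro s t hst
  obtain ⟨h1, h2⟩ := h (s * a + t * c) (s * b + t * d) (by
    rw [← hst, hu, hv]; module)
  constructor
  · have : s * (a * d - b * c) = 0 := by linear_combination d * h1 - c * h2
    exact (mul_eq_zero.1 this).resolve_right hd
  · have : t * (a * d - b * c) = 0 := by linear_combination a * h2 - b * h1
    exact (mul_eq_zero.1 this).resolve_right hd

lemma ind_ne {x y : V} (h : LinearIndependent ℝ ![x, y]) : x ≠ 0 ∧ y ≠ 0 ∧ x + y ≠ 0 := by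
  rw [LinearIndependent.pair_iff] at h
  refine ⟨fun h0 => ?_, fun h0 => ?_, fun h0 => ?_⟩
  · exact one_ne_zero (h 1 0 (by simp [h0])).1
  · exact one_ne_zero (h 0 1 (by simp [h0])).2
  · exact one_ne_zero (h 1 1 (by simpa using h0)).1

lemma exists_small_smul (y : V) {δ : ℝ} (hδ : 0 < δ) :
    ∃ γ0 : ℝ, 0 < γ0 ∧ ∀ γ, 0 < γ → γ ≤ γ0 → ‖γ • y‖ < δ := by
  refine ⟨δ / (‖y‖ + 1), by positivity, fun γ h0 h1 => ?_⟩
  rw [norm_smul, Real.norm_of_nonneg h0.le]
  rw [le_div_iff₀ (by positivity)] at h1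
  nlinarith

lemma exists_small_ind (hV : 1 < Module.finrank ℝ V) {y : V} (hy : y ≠ 0) {δ : ℝ} (hδ : 0 < δ) :
    ∃ w, ‖w‖ < δ ∧ LinearIndependent ℝ ![y, w] := by
  obtain ⟨w, hw⟩ := exists_linearIndependent_pair_of_one_lt_finrank hV hy
  obtain ⟨γ, h0, h1⟩ := exists_small_smul w hδ
  exact ⟨γ • w, h1 γ h0 le_rfl, ind_comb hw (a := 1) (b := 0) (c := 0) (d := γ)
    (by simpa using h0.ne') (by simp) (by simp)⟩

theorem lin_of_local (hV : 1 < Module.finrank ℝ V) (g : V → ℝ) {r : ℝ} (hr : 0 < r)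
    (H : ∀ (y0 y1 : V) (α : ℝ), LinearIndependent ℝ ![y0, y1] → ‖y0‖ < r → ‖y1‖ < r →
      ‖α • y0 + y1‖ < r → 2 / 3 ≤ α → α ≤ 1 → g (α • y0 + y1) = α * g y0 + g y1) :
    ∃ L : V →ₗ[ℝ] ℝ, ∀ y, y ≠ 0 → ‖y‖ < r / 2 → g y = L y := by
  have nle : ∀ (α : ℝ) (y : V), 0 ≤ α → α ≤ 1 → ‖α • y‖ ≤ ‖y‖ := fun α y h0 h1 => by
    rw [norm_smul, Real.norm_of_nonneg h0]
    exact mul_le_of_le_one_left (norm_nonneg _) h1
  have add : ∀ y0 y1 : V, LinearIndependent ℝ ![y0, y1] → ‖y0‖ < r → ‖y1‖ < r → ‖y0 + y1‖ < r →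
      g (y0 + y1) = g y0 + g y1 := fun y0 y1 hi h0 h1 h2 => by
    simpa using H y0 y1 1 hi h0 h1 (by simpa using h2) (by norm_num) le_rfl
  have h1 : ∀ (y : V) (α : ℝ), y ≠ 0 → ‖y‖ < r / 2 → 2 / 3 ≤ α → α ≤ 1 → g (α • y) = α * g y := by
    intro y α hy hn a0 a1
    obtain ⟨w, hw, hi⟩ := exists_small_ind hV hy (δ := r / 4) (by positivity)
    have n1 := nle α y (by linarith) a1
    have n2 : ‖α • y + w‖ < r := (norm_add_le _ _).trans_lt (by linarith)
    have e1 := H y w α hi (by linarith) (by linarith) n2 a0 a1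
    have e2 := add (α • y) w (ind_comb hi (a := α) (b := 0) (c := 0) (d := 1)
      (by simp; linarith) (by simp) (by simp)) (by linarith) (by linarith) n2
    linarith
  have h2 : ∀ (k : ℕ) (y : V) (α : ℝ), y ≠ 0 → ‖y‖ < r / 2 → (2 / 3) ^ k ≤ α → α ≤ 1 →
      g (α • y) = α * g y := by
    intro k
    induction k with
    | zero =>
      intro y α hy hn a0 a1
      exact h1 y α hy hn (by rw [pow_zero] at a0; linarith) a1
    | succ k ih =>
      intro y α hy hn a0 a1
      by_cases h : 2 / 3 ≤ α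
      · exact h1 y α hy hn h a1
      · have p0 : (0:ℝ) < (2 / 3) ^ k := by positivity
        rw [pow_succ] at a0
        have e1 := ih y (3 / 2 * α) hy hn (by linarith) (by linarith)
        have e2 := h1 ((3 / 2 * α) • y) (2 / 3) (smul_ne_zero (by linarith) hy)
          ((nle _ y (by linarith) (by linarith)).trans_lt hn) le_rfl (by norm_num)
        rw [smul_smul, e1, show 2 / 3 * (3 / 2 * α) = α by ring] at e2
        rw [e2]; ring
  have h3 : ∀ (y : V) (α : ℝ), y ≠ 0 → ‖y‖ < r / 2 → 0 < α → α ≤ 1 → g (α • y) = α * g y := by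
    intro y α hy hn a0 a1
    obtain ⟨k, hk⟩ := exists_pow_lt_of_lt_one a0 (show (2 / 3 : ℝ) < 1 by norm_num)
    exact h2 k y α hy hn hk.le a1
  have h4 : ∀ y : V, y ≠ 0 → ‖y‖ < r / 2 → g (-y) = -g y := by
    intro y hy hn
    obtain ⟨w, hw, hi⟩ := exists_small_ind hV hy (δ := r / 4) (by positivity)
    have n2 : ‖y + w‖ < r := (norm_add_le _ _).trans_lt (by linarith)
    have e1 := add y w hi (by linarith) (by linarith) n2
    have e2 := add (y + w) (-y) (ind_comb hi (a := 1) (b := 1) (c := -1) (d := 0)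
      (by simp) (by simp) (by simp)) n2 (by rw [norm_neg]; linarith)
      (by rw [show y + w + -y = w by abel]; linarith)
    rw [show y + w + -y = w by abel] at e2
    linarith
  classical
  set G : V → ℝ := fun y => if y = 0 then 0 else g ((r / (4 * ‖y‖)) • y) * (4 * ‖y‖ / r) with hG
  have g1 : ∀ (y : V) (β : ℝ), y ≠ 0 → 0 < β → ‖β • y‖ < r / 2 → g (β • y) = β * G y := by
    intro y β hy b0 hn
    have hy0 : 0 < ‖y‖ := norm_pos_iff.2 hy
    have t0 : 0 < r / (4 * ‖y‖) := by positivity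
    have tn : ‖(r / (4 * ‖y‖)) • y‖ < r / 2 := by
      rw [norm_smul, Real.norm_of_nonneg t0.le, show r / (4 * ‖y‖) * ‖y‖ = r / 4 by field_simp]
      linarith
    simp only [hG, if_neg hy]
    rcases le_total β (r / (4 * ‖y‖)) with h | h
    · have := h3 _ (β / (r / (4 * ‖y‖))) (smul_ne_zero t0.ne' hy) tn (by positivity)
        ((div_le_one t0).2 h)
      rw [smul_smul, div_mul_cancel₀ _ t0.ne'] at this
      rw [this]; field_simp
    · have := h3 _ (r / (4 * ‖y‖) / β) (smul_ne_zero b0.ne' hy) hn (by positivity)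
        ((div_le_one b0).2 h)
      rw [smul_smul, div_mul_cancel₀ _ b0.ne'] at this
      rw [this]; field_simp
  have g0 : G 0 = 0 := by simp [hG]
  have g2 : ∀ (y : V) (β : ℝ), 0 < β → G (β • y) = β * G y := by
    intro y β b0
    by_cases hy : y = 0
    · simp [hy, g0]
    obtain ⟨γ, c0, c1⟩ := exists_small_smul (β • y) (δ := r / 2) (by positivity)
    have e1 := g1 (β • y) γ (smul_ne_zero b0.ne' hy) c0 (c1 γ c0 le_rfl)
    have e2 := g1 y (γ * β) hy (by positivity) (by rw [← smul_smul]; exact c1 γ c0 le_rfl)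
    rw [smul_smul, e2] at e1
    exact mul_left_cancel₀ c0.ne' (by linarith)
  have g3 : ∀ y : V, G (-y) = -G y := by
    intro y
    by_cases hy : y = 0
    · simp [hy, g0]
    obtain ⟨γ, c0, c1⟩ := exists_small_smul y (δ := r / 2) (by positivity)
    have e1 := g1 y γ hy c0 (c1 γ c0 le_rfl)
    have e2 := g1 (-y) γ (neg_ne_zero.2 hy) c0 (by rw [smul_neg, norm_neg]; exact c1 γ c0 le_rfl)
    rw [smul_neg, h4 _ (smul_ne_zero c0.ne' hy) (c1 γ c0 le_rfl), e1] at e2
    exact mul_left_cancel₀ c0.ne' (by linarith)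
  have g4 : ∀ (c : ℝ) (y : V), G (c • y) = c * G y := by
    intro c y
    rcases lt_trichotomy c 0 with h | h | h
    · rw [show c • y = (-c) • (-y) by simp, g2 _ _ (by linarith), g3]; ring
    · simp [h, g0]
    · exact g2 y c h
  have g5 : ∀ x y : V, G (x + y) = G x + G y := by
    intro x y
    by_cases hx : x = 0
    · simp [hx, g0]
    by_cases hi : LinearIndependent ℝ ![x, y]
    · obtain ⟨-, hy, hxy⟩ := ind_ne hi
      obtain ⟨γ1, a0, a1⟩ := exists_small_smul x (δ := r / 2) (by positivity)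
      obtain ⟨γ2, b0, b1⟩ := exists_small_smul y (δ := r / 2) (by positivity)
      obtain ⟨γ3, c0, c1⟩ := exists_small_smul (x + y) (δ := r / 2) (by positivity)
      set γ := min γ1 (min γ2 γ3) with hγ
      have p0 : 0 < γ := by positivity
      have n1 := a1 γ p0 (min_le_left _ _)
      have n2 := b1 γ p0 ((min_le_right _ _).trans (min_le_left _ _))
      have n3 := c1 γ p0 ((min_le_right _ _).trans (min_le_right _ _))
      have e := add (γ • x) (γ • y) (ind_comb hi (a := γ) (b := 0) (c := 0) (d := γ)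
        (by simpa using p0.ne') (by simp) (by simp)) (by linarith) (by linarith)
        (by rw [← smul_add]; linarith)
      rw [← smul_add, g1 _ _ hxy p0 n3, g1 _ _ hx p0 n1, g1 _ _ hy p0 n2] at e
      exact mul_left_cancel₀ p0.ne' (by linarith)
    · rw [LinearIndependent.pair_iff' hx] at hi
      push Not at hi
      obtain ⟨a, rfl⟩ := hi
      rw [show x + a • x = (1 + a) • x by module, g4, g4]; ring
  refine ⟨⟨⟨G, g5⟩, g4⟩, fun y hy hn => ?_⟩
  have := g1 y 1 hy one_pos (by simpa using hn)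
  simpa using this

end

variable {N : ℕ}

lemma sym_pts (hN : 2 ≤ N) {E : Set (YY N)} (hE : MeasurableSet E) :
    ∀ᵐ m : YY N, m ∈ E → ∃ w, LinearIndependent ℝ ![m + w, m - w] ∧ m + w ∈ E ∧ m - w ∈ E := by
  have : Nonempty (Fin N) := ⟨⟨0, by omega⟩⟩
  have h0 : ∀ᵐ m : YY N, m ≠ 0 := by
    simp only [ae_iff, not_not]
    exact measure_singleton (0 : YY N)
  have h1 := (ae_restrict_iff' hE).1 (Besicovitch.ae_tendsto_measure_inter_div volume E)
  filter_upwards [h0, h1] with m hm h hmE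
  obtain ⟨δ, hδ, hδ0⟩ := (((h hmE).eventually
    (lt_mem_nhds (show (2⁻¹ : ℝ≥0∞) < 1 from ENNReal.inv_lt_one.2 ENNReal.one_lt_two))).and
    self_mem_nhdsWithin).exists
  have hδ0' : 0 < δ := hδ0
  set B := closedBall m δ with hB
  have hB0 : volume B ≠ 0 := (measure_closedBall_pos _ _ hδ0').ne'
  have hB1 : volume B ≠ ∞ := measure_closedBall_lt_top.ne
  have hA : MeasurableSet (E ∩ B) := hE.inter measurableSet_closedBall
  have hp := (volume : Measure (YY N)).measurePreserving_sub_left (m + m)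
  have hA2 : MeasurableSet ((fun t => m + m - t) ⁻¹' (E ∩ B)) := hp.measurable hA
  have hv : volume ((fun t => m + m - t) ⁻¹' (E ∩ B)) = volume (E ∩ B) :=
    hp.measure_preimage hA.nullMeasurableSet
  have hsub : E ∩ B ∪ (fun t => m + m - t) ⁻¹' (E ∩ B) ⊆ B := by
    rintro t (ht | ht)
    · exact ht.2
    · have := ht.2
      rw [hB, mem_closedBall, dist_eq_norm] at this ⊢
      rwa [show m + m - t - m = -(t - m) by abel, norm_neg] at this
  have hpos : volume (E ∩ B ∩ (fun t => m + m - t) ⁻¹' (E ∩ B)) ≠ 0 := by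
    intro hz
    have e := measure_union_add_inter (μ := volume) (E ∩ B) hA2
    rw [hz, add_zero, hv] at e
    have l1 : volume (E ∩ B) + volume (E ∩ B) ≤ volume B := e ▸ measure_mono hsub
    rw [ENNReal.lt_div_iff_mul_lt (Or.inl hB0) (Or.inl hB1)] at hδ
    have l2 := ENNReal.add_lt_add hδ hδ
    rw [← add_mul, ENNReal.inv_two_add_inv_two, one_mul] at l2
    exact absurd l1 (not_le.2 l2)
  have hs : volume ((Submodule.span ℝ {m} : Submodule ℝ (YY N)) : Set (YY N)) = 0 := by
    refine Measure.addHaar_submodule _ _ fun ht => ?_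
    have := finrank_span_singleton (K := ℝ) hm
    rw [ht, finrank_top, finrank_euclideanSpace_fin] at this
    omega
  obtain ⟨y, hy, hy2⟩ := Measure.exists_mem_of_measure_ne_zero_of_ae hpos
    (ae_restrict_of_ae (measure_eq_zero_iff_ae_notMem.1 hs))
  have hi : LinearIndependent ℝ ![m, y] := (LinearIndependent.pair_iff' hm).2 fun a ha =>
    hy2 (Submodule.mem_span_singleton.2 ⟨a, ha⟩)
  refine ⟨y - m, ind_comb hi (a := 0) (b := 1) (c := 2) (d := -1) (by norm_num) (by module)
    (by module), by simpa using hy.1.1, ?_⟩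
  rw [show m - (y - m) = m + m - y by abel]
  exact hy.2.1

end Pool.Agent.Lib.MP_242fd5_gt.M4
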