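import Pool.Agent.Lib.MP_242fd5_gt.M4f

set_option autoImplicit false

/-! A stationary open set is invariant under an oblique reflection along the vertical axis. -/

namespace Pool.Agent.Lib.MP_242fd5_gt.M4

open Set Filter Topology MeasureTheory Metric
open scoped ENNReal

variable {N : ℕ} {U : Set (ℝ × YY N)} {D ρ ε r : ℝ}

/-- essential values on the main components near the axis -/
def S0 (U : Set (ℝ × YY N)) (ρ ε r : ℝ) : Set (YY N × ℝ × ℝ) :=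
  Sig U ∩ closedBall 0 r ×ˢ (Icc (-ε) ε ×ˢ Icc (ρ - ε) (ρ + ε))

lemma isCompact_S0 (U : Set (ℝ × YY N)) (ρ ε r : ℝ) : IsCompact (S0 U ρ ε r) :=
  ((isCompact_closedBall _ _).prod (isCompact_Icc.prod isCompact_Icc)).inter_left (isClosed_Sig U)

lemma main_comp (hD : ∀ x ∈ U, |x.1| ≤ D) {x : ℝ × YY N}
    (h1 : ∀ s, |s| ≤ ρ - ε → (s, x.2) ∈ U) (h2 : ∀ s, (s, x.2) ∈ U → |s| < ρ + ε)
    (hx : |x.1| ≤ ρ - ε) : cc U x ∈ Icc (-ε) ε ∧ ll U x ∈ Icc (ρ - ε) (ρ + ε) := by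
  have hJ : ∀ σ, |σ| ≤ ρ - ε → σ ∈ J U x := by
    intro σ hσ τ hτ
    refine h1 τ ?_
    rw [abs_le] at hx hσ ⊢
    rcases mem_uIcc.1 hτ with h | h <;> constructor <;> linarith [h.1, h.2, hx.1, hx.2, hσ.1, hσ.2]
  have h0 : 0 ≤ ρ - ε := (abs_nonneg _).trans hx
  have a1 := le_up hD (hJ (ρ - ε) (abs_of_nonneg h0).le)
  have a2 := dn_le hD (hJ (-(ρ - ε)) (by rw [abs_neg, abs_of_nonneg h0]))
  have a3 : up U x ≤ ρ + ε :=
    csSup_le ⟨_, hJ _ hx⟩ fun _ h => (abs_lt.1 (h2 _ (J_mem h))).2.le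
  have a4 : -(ρ + ε) ≤ dn U x :=
    le_csInf ⟨_, hJ _ hx⟩ fun _ h => (abs_lt.1 (h2 _ (J_mem h))).1.le
  unfold cc ll
  refine ⟨⟨?_, ?_⟩, ?_, ?_⟩ <;> linarith

lemma cover (hU : IsOpen U) (hD : ∀ x ∈ U, |x.1| ≤ D) (hε : ε < ρ)
    (hax : ∀ y : YY N, ‖y‖ < r → (∀ s, |s| ≤ ρ - ε → (s, y) ∈ U) ∧
      (∀ s, (s, y) ∈ U → |s| < ρ + ε)) {r' : ℝ} (hr : r' ≤ r) {y : YY N} (hy : ‖y‖ < r') :
    ∃ c, (y, c) ∈ S0 U ρ ε r' := by
  have hc : IsClosed (Prod.fst '' S0 U ρ ε r') :=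
    ((isCompact_S0 U ρ ε r').image continuous_fst).isClosed
  have : y ∈ Prod.fst '' S0 U ρ ε r' := by
    rw [← hc.closure_eq, Metric.mem_closure_iff]
    intro δ hδ
    have ho : IsOpen (Ioo (-(ρ - ε)) (ρ - ε) ×ˢ (ball y δ ∩ ball (0 : YY N) r')) :=
      isOpen_Ioo.prod (isOpen_ball.inter isOpen_ball)
    obtain ⟨x, hx, hx2⟩ := Measure.exists_mem_of_measure_ne_zero_of_ae
      (ho.measure_ne_zero volume ⟨(0, y), ⟨by linarith, by linarith⟩, mem_ball_self hδ,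
        by simpa using hy⟩) (ae_restrict_of_ae (ae_mem_Sig hU hD))
    have n1 : ‖x.2‖ < r' := by simpa using hx.2.2
    have n2 : |x.1| ≤ ρ - ε := (abs_lt.2 hx.1).le
    obtain ⟨b1, b2⟩ := hax x.2 (n1.trans_le hr)
    obtain ⟨c1, c2⟩ := main_comp hD b1 b2 n2
    refine ⟨x.2, ⟨Ph U x, ⟨hx2 (b1 _ n2), ?_, c1, c2⟩, rfl⟩, ?_⟩
    · simpa [Ph] using n1.le
    · rw [dist_comm]; exact hx.2.1
  obtain ⟨p, hp, rfl⟩ := this
  exact ⟨p.2, hp⟩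

theorem centre_linear {m : ℕ} {U : Set (ℝ × YY (m + 2))} (hU : IsOpen U)
    (hD : ∀ x ∈ U, |x.1| ≤ D) (hD0 : 0 < D) (hS : Stat U) (hρ : 0 < ρ) (hr : 0 < r)
    (hax : ∀ y : YY (m + 2), ‖y‖ < r → (∀ s, |s| ≤ ρ - ρ / 100 → (s, y) ∈ U) ∧
      (∀ s, (s, y) ∈ U → |s| < ρ + ρ / 100)) :
    ∃ L : YY (m + 2) →ₗ[ℝ] ℝ, ∀ p ∈ S0 U ρ (ρ / 100) r, p.1 ≠ 0 → ‖p.1‖ < r / 2 →
      p.2.1 = L p.1 := by
  have hV : 1 < Module.finrank ℝ (YY (m + 2)) := by rw [finrank_euclideanSpace_fin]; omega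
  have hcov : ∀ y : YY (m + 2), ‖y‖ < r → ∃ c, (y, c) ∈ S0 U ρ (ρ / 100) r :=
    fun y hy => cover hU hD (by linarith) hax le_rfl hy
  have H : ∀ p p0 p1 : YY (m + 2) × ℝ × ℝ, p ∈ S0 U ρ (ρ / 100) r → p0 ∈ S0 U ρ (ρ / 100) r →
      p1 ∈ S0 U ρ (ρ / 100) r → LinearIndependent ℝ ![p0.1, p1.1] → ∀ α : ℝ, 2 / 3 ≤ α → α ≤ 1 →
      p.1 = α • p0.1 + p1.1 → p.2.1 = α * p0.2.1 + p1.2.1 := by
    intro p p0 p1 hp hp0 hp1 hi α a0 a1 hy
    obtain ⟨s, -, ⟨c1, c2⟩, l1, l2⟩ := hp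
    obtain ⟨s0, -, ⟨c01, c02⟩, l01, l02⟩ := hp0
    obtain ⟨s1, -, ⟨c11, c12⟩, l11, l12⟩ := hp1
    have b1 : 2 / 3 * (ρ - ρ / 100) ≤ α * p0.2.2 :=
      mul_le_mul a0 l01 (by linarith) (by linarith)
    have b2 : α * p0.2.2 ≤ ρ + ρ / 100 := by nlinarith
    have b3 : α * p0.2.1 ≤ ρ / 100 := by nlinarith
    have b4 : -(ρ / 100) ≤ α * p0.2.1 := by nlinarith
    have := three_point hU hD hD0 hS hr (fun y hy => (hcov y hy).imp fun c hc => hc.1) s s0 s1 hi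
      (α0 := α) (α1 := 1) (by simpa using hy)
      (by rw [abs_one, abs_of_pos (show 0 < α by linarith), abs_lt]; constructor <;> linarith)
      (by rw [abs_one, abs_of_pos (show 0 < α by linarith)]; linarith)
      (by rw [abs_one, abs_of_pos (show 0 < α by linarith), abs_lt]; constructor <;> linarith)
    linarith
  choose! c hc using hcov
  obtain ⟨L, hL⟩ := lin_of_local hV (fun y => (c y).1) hr fun y0 y1 α hi n0 n1 n2 a0 a1 =>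
    H _ _ _ (hc _ n2) (hc _ n0) (hc _ n1) hi α a0 a1 rfl
  refine ⟨L, fun p hp h0 hn => ?_⟩
  obtain ⟨w, hw, hi⟩ := exists_small_ind hV h0 (δ := r / 4) (by positivity)
  have n1 : ‖p.1 - w‖ < r := (norm_sub_le _ _).trans_lt (by linarith)
  have hi2 : LinearIndependent ℝ ![p.1 - w, w] :=
    ind_comb hi (a := 1) (b := -1) (c := 0) (d := 1) (by simp) (by module) (by simp)
  have e1 := H p _ _ hp (hc _ n1) (hc w (by linarith)) hi2 1 (by norm_num) le_rfl (by simp)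
  have e2 := H _ _ _ (hc p.1 (by linarith)) (hc _ n1) (hc w (by linarith)) hi2 1 (by norm_num)
    le_rfl (by simp)
  rw [← hL p.1 h0 hn]
  exact e1.trans e2.symm

theorem ae_centre {m : ℕ} {U : Set (ℝ × YY (m + 2))} (hU : IsOpen U)
    (hD : ∀ x ∈ U, |x.1| ≤ D) (hD0 : 0 < D) {R : ℝ} (hR : ∀ x ∈ U, ‖x.2‖ ≤ R) (hS : Stat U)
    (hρ : 0 < ρ) (hr : 0 < r)
    (hax : ∀ y : YY (m + 2), ‖y‖ < r → (∀ s, |s| ≤ ρ - ρ / 100 → (s, y) ∈ U) ∧
      (∀ s, (s, y) ∈ U → |s| < ρ + ρ / 100)) :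
    ∃ L : YY (m + 2) →ₗ[ℝ] ℝ, ∀ᵐ x : ℝ × YY (m + 2), x ∈ U → cc U x = L x.2 := by
  obtain ⟨L, hL⟩ := centre_linear hU hD hD0 hS hρ hr hax
  refine ⟨L, ?_⟩
  set E : ℚ × ℕ → Set (YY (m + 2)) := fun k => Prod.fst ''
    (S0 U ρ (ρ / 100) (r / 4) ∩ {p | |p.2.2 - k.1| ≤ 1 / ((k.2 : ℝ) + 1)}) with hE
  have hEm : ∀ k, MeasurableSet (E k) := fun k =>
    (((isCompact_S0 U ρ _ _).inter_right (isClosed_le (by fun_prop) continuous_const)).image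
      continuous_fst).isClosed.measurableSet
  have h1 := ae_all_iff.2 fun k => sym_pts (by omega) (hEm k)
  set α : ℝ := 2 * D / ρ + 4 * |R| / r with hα
  have a0 : 0 < α := by positivity
  have a1 : 2 * D ≤ α * ρ := by
    rw [hα, add_mul, div_mul_cancel₀ _ hρ.ne']
    have : 0 ≤ 4 * |R| / r * ρ := by positivity
    linarith
  have a2 : 4 * |R| < α * r := by
    rw [hα, add_mul, div_mul_cancel₀ _ hr.ne']
    have : 0 < 2 * D / ρ * r := by positivity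
    linarith
  have h2 := ((Measure.quasiMeasurePreserving_smul (volume : Measure (YY (m + 2)))
    (r := (2 * α)⁻¹) (by positivity)).comp
    (Measure.quasiMeasurePreserving_snd (μ := (volume : Measure ℝ)))).ae h1
  filter_upwards [h2, ae_mem_Sig hU hD] with x hx hs hxU
  have l0 := ll_pos hU hD hxU
  have l1 := ll_le hD hxU
  have c0 := abs_le.1 (abs_cc_le hD hxU)
  have hn : ‖(2 * α)⁻¹ • x.2‖ < r / 4 := by
    rw [norm_smul, Real.norm_of_nonneg (by positivity), inv_mul_lt_iff₀ (by positivity)]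
    linarith [hR x hxU, le_abs_self R, abs_nonneg R]
  obtain ⟨c, hc⟩ := cover hU hD (by linarith) hax (by linarith) hn
  obtain ⟨j, hj⟩ := exists_nat_one_div_lt (show 0 < ll U x / (2 * α) by positivity)
  obtain ⟨q, hq⟩ := exists_rat_near c.2 (show (0:ℝ) < 1 / ((j : ℝ) + 1) by positivity)
  obtain ⟨w, hi, ⟨p0, ⟨hp0, q0⟩, e0⟩, ⟨p1, ⟨hp1, q1⟩, e1⟩⟩ := hx (q, j) ⟨(_, c), ⟨hc, hq.le⟩, rfl⟩
  simp only [Function.comp_apply] at hi e0 e1
  rw [← e0, ← e1] at hi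
  have up : ∀ p ∈ S0 U ρ (ρ / 100) (r / 4), p ∈ S0 U ρ (ρ / 100) r ∧ ‖p.1‖ < r / 2 := by
    intro p hp
    have : ‖p.1‖ ≤ r / 4 := by simpa using hp.2.1
    exact ⟨⟨hp.1, by simp only [mem_closedBall, dist_zero_right]; linarith, hp.2.2⟩, by linarith⟩
  have f0 := hL p0 (up p0 hp0).1 (ind_ne hi).1 (up p0 hp0).2
  have f1 := hL p1 (up p1 hp1).1 (ind_ne hi).2.1 (up p1 hp1).2
  have hy : x.2 = α • p0.1 + α • p1.1 := by
    rw [e0, e1, ← smul_add, add_add_sub_cancel, ← two_smul ℝ, smul_smul, smul_smul,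
      show α * 2 * (2 * α)⁻¹ = 1 by field_simp, one_smul]
  obtain ⟨s0, -, ⟨c01, c02⟩, l01, l02⟩ := hp0
  obtain ⟨s1, -, ⟨c11, c12⟩, l11, l12⟩ := hp1
  have q0' := abs_le.1 (show |p0.2.2 - q| ≤ 1 / ((j : ℝ) + 1) from q0)
  have q1' := abs_le.1 (show |p1.2.2 - q| ≤ 1 / ((j : ℝ) + 1) from q1)
  rw [lt_div_iff₀ (by positivity)] at hj
  have b0 : α * (ρ - ρ / 100) ≤ α * p0.2.2 := mul_le_mul_of_nonneg_left l01 a0.le
  have b1 : α * (ρ - ρ / 100) ≤ α * p1.2.2 := mul_le_mul_of_nonneg_left l11 a0.le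
  have b2 : α * (p0.2.2 - p1.2.2) ≤ α * (2 * (1 / ((j : ℝ) + 1))) :=
    mul_le_mul_of_nonneg_left (by linarith [q0'.2, q1'.1]) a0.le
  have b3 : α * (p1.2.2 - p0.2.2) ≤ α * (2 * (1 / ((j : ℝ) + 1))) :=
    mul_le_mul_of_nonneg_left (by linarith [q0'.1, q1'.2]) a0.le
  have b4 : α * (p0.2.1 + p1.2.1) ≤ α * (ρ / 50) :=
    mul_le_mul_of_nonneg_left (by linarith) a0.le
  have b5 : α * (-(ρ / 50)) ≤ α * (p0.2.1 + p1.2.1) :=
    mul_le_mul_of_nonneg_left (by linarith) a0.le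
  have := three_point hU hD hD0 hS hr
    (fun y hy => (cover hU hD (by linarith) hax le_rfl hy).imp fun c hc => hc.1) (hs hxU) s0 s1 hi
    (α0 := α) (α1 := α) hy
    (by simp only [Ph]; rw [abs_of_pos a0, abs_lt]; constructor <;> linarith)
    (by simp only [Ph]; rw [abs_of_pos a0]; linarith)
    (by simp only [Ph]; rw [abs_of_pos a0, abs_lt]; constructor <;> linarith)
  rw [hy, map_add, map_smul, map_smul, ← f0, ← f1]
  exact this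

/-- A bounded open set whose chord through the origin is stable and at which the chart functional
is stationary is mapped into its closure by an oblique reflection along the vertical axis. -/
theorem msyCore (hN : 2 ≤ N) (hU : IsOpen U) (hb : Bornology.IsBounded U) (hρ : 0 < ρ)
    (hax : ∀ ε, 0 < ε → ∃ r, 0 < r ∧ ∀ y : YY N, ‖y‖ < r →
      (∀ s, |s| ≤ ρ - ε → (s, y) ∈ U) ∧ (∀ s, (s, y) ∈ U → |s| < ρ + ε))
    (hS : Stat U) :
    ∃ L : YY N →ₗ[ℝ] ℝ, (∀ᵐ x : ℝ × YY N, x ∈ U → (2 * L x.2 - x.1, x.2) ∈ U) ∧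
      ∀ x ∈ U, (2 * L x.2 - x.1, x.2) ∈ closure U := by
  obtain ⟨m, rfl⟩ : ∃ m, N = m + 2 := ⟨N - 2, by omega⟩
  obtain ⟨D, hD0, hB⟩ := hb.exists_pos_norm_le
  have hD : ∀ x ∈ U, |x.1| ≤ D := fun x hx => (norm_fst_le x).trans (hB x hx)
  obtain ⟨r, hr, hax⟩ := hax (ρ / 100) (by positivity)
  obtain ⟨L, hL⟩ := ae_centre hU hD hD0 (fun x hx => (norm_snd_le x).trans (hB x hx)) hS hρ hr hax
  have h1 : ∀ᵐ x : ℝ × YY (m + 2), x ∈ U → (2 * L x.2 - x.1, x.2) ∈ U := by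
    filter_upwards [hL] with x hx hxU
    refine J_mem ((mem_J_iff hU hD hxU).2 ?_)
    rw [← hx hxU, show 2 * cc U x - x.1 - cc U x = -(x.1 - cc U x) by ring, abs_neg]
    exact (mem_J_iff hU hD hxU).1 (self_mem_J hxU)
  refine ⟨L, h1, fun x hx => ?_⟩
  by_contra hc
  have hLc := L.continuous_of_finiteDimensional
  have ho : IsOpen (U ∩ (fun z : ℝ × YY (m + 2) => (2 * L z.2 - z.1, z.2)) ⁻¹' (closure U)ᶜ) :=
    hU.inter (isClosed_closure.isOpen_compl.preimage (by fun_prop))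
  obtain ⟨z, hz, hz2⟩ := Measure.exists_mem_of_measure_ne_zero_of_ae
    (ho.measure_ne_zero volume ⟨x, hx, hc⟩) (ae_restrict_of_ae h1)
  exact hz.2 (subset_closure (hz2 hz.1))

end Pool.Agent.Lib.MP_242fd5_gt.M4
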