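import Mathlib

set_option autoImplicit false

/-! A star body invariant under an oblique reflection along every direction is an ellipsoid. -/

namespace Pool.Agent.Lib.MP_242fd5_gt.M4

open Set Filter Topology MeasureTheory Metric
open scoped ENNReal RealInnerProductSpace

variable {n : ℕ}

lemma refl_integral {K : Set (EuclideanSpace ℝ (Fin n))}
    (σ : EuclideanSpace ℝ (Fin n) →ₗ[ℝ] EuclideanSpace ℝ (Fin n)) (h2 : ∀ x, σ (σ x) = x)
    (hσ : ∀ x, σ x ∈ K ↔ x ∈ K) (F : EuclideanSpace ℝ (Fin n) → ℝ) :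
    ∫ x in K, F (σ x) = ∫ x in K, F x := by
  have hd : LinearMap.det σ * LinearMap.det σ = 1 := by
    rw [← LinearMap.det_comp, show σ ∘ₗ σ = LinearMap.id from LinearMap.ext h2, LinearMap.det_id]
  have hd0 : LinearMap.det σ ≠ 0 := left_ne_zero_of_mul_eq_one hd
  have hd1 : |(LinearMap.det σ)⁻¹| = 1 := by
    rcases mul_self_eq_one_iff.1 hd with h | h <;> simp [h]
  have hm : Measurable σ := σ.continuous_of_finiteDimensional.measurable
  have hp : MeasurePreserving σ volume volume :=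
    ⟨hm, by rw [Measure.map_linearMap_addHaar_eq_smul_addHaar _ hd0, hd1]; simp⟩
  let e : EuclideanSpace ℝ (Fin n) ≃ᵐ EuclideanSpace ℝ (Fin n) := ⟨⟨σ, σ, h2, h2⟩, hm, hm⟩
  have := hp.setIntegral_preimage_emb e.measurableEmbedding F K
  rwa [show σ ⁻¹' K = K from Set.ext hσ] at this

theorem ell_of_refl (f : EuclideanSpace ℝ (Fin n) → ℝ) (hc : ContinuousOn f {0}ᶜ)
    (hp : ∀ x, x ≠ 0 → 0 < f x) (hh : ∀ t : ℝ, 0 < t → ∀ x, f (t • x) = t⁻¹ * f x)
    (hr : ∀ e, e ≠ 0 → ∃ φ : EuclideanSpace ℝ (Fin n) →ₗ[ℝ] ℝ, φ e = 2 ∧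
      ∀ x, f (x - φ x • e) = f x) :
    ∃ g : EuclideanSpace ℝ (Fin n) ≃L[ℝ] EuclideanSpace ℝ (Fin n),
      ∀ x, x ≠ 0 → f x = ‖g.symm x‖⁻¹ := by
  by_cases hne : ∀ x : EuclideanSpace ℝ (Fin n), x = 0
  · exact ⟨ContinuousLinearEquiv.refl _ _, fun x hx => absurd (hne x) hx⟩
  push Not at hne
  obtain ⟨x0, hx0⟩ := hne
  have hsph : ∀ x : EuclideanSpace ℝ (Fin n), x ≠ 0 → ‖x‖⁻¹ • x ∈ sphere
      (0 : EuclideanSpace ℝ (Fin n)) 1 := fun x hx => by
    rw [mem_sphere_zero_iff_norm, norm_smul, norm_inv, norm_norm,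
      inv_mul_cancel₀ (norm_ne_zero_iff.2 hx)]
  have hsub : sphere (0 : EuclideanSpace ℝ (Fin n)) 1 ⊆ {0}ᶜ := fun x hx h0 => by
    rw [mem_singleton_iff.1 h0] at hx; simp at hx
  obtain ⟨u, hu, hmax⟩ := (isCompact_sphere _ 1).exists_isMaxOn ⟨_, hsph x0 hx0⟩ (hc.mono hsub)
  obtain ⟨u', hu', hmin⟩ := (isCompact_sphere _ 1).exists_isMinOn ⟨_, hsph x0 hx0⟩ (hc.mono hsub)
  have hf : ∀ x : EuclideanSpace ℝ (Fin n), x ≠ 0 → f (‖x‖⁻¹ • x) = ‖x‖ * f x := fun x hx => by
    rw [hh _ (inv_pos.2 (norm_pos_iff.2 hx)), inv_inv]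
  set K : Set (EuclideanSpace ℝ (Fin n)) := {x | 1 ≤ f x} with hKd
  have hKb : K ⊆ closedBall 0 (f u) := by
    intro x hx
    by_cases h0 : x = 0
    · rw [h0]; exact mem_closedBall_self (hp u (hsub hu)).le
    have h1 : f (‖x‖⁻¹ • x) ≤ f u := hmax (hsph x h0)
    rw [hf x h0] at h1
    rw [mem_closedBall_zero_iff]
    exact (le_mul_of_one_le_right (norm_nonneg _) hx).trans h1
  have hbK : ∀ x, x ≠ 0 → ‖x‖ < f u' → x ∈ K := by
    intro x h0 hx
    have h1 : f u' ≤ f (‖x‖⁻¹ • x) := hmin (hsph x h0)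
    rw [hf x h0] at h1
    by_contra h
    have := mul_lt_of_lt_one_right (norm_pos_iff.2 h0) (not_le.1 h)
    linarith
  have hI : ∀ F : EuclideanSpace ℝ (Fin n) → ℝ, Continuous F → IntegrableOn F K := fun F hF =>
    (hF.continuousOn.integrableOn_compact (isCompact_closedBall _ _)).mono_set hKb
  let Q : LinearMap.BilinForm ℝ (EuclideanSpace ℝ (Fin n)) :=
    LinearMap.mk₂ ℝ (fun a b => ∫ x in K, ⟪x, a⟫ * ⟪x, b⟫)
      (fun a a' b => by
        simp only [inner_add_right, add_mul]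
        exact integral_add (hI _ (by fun_prop)) (hI _ (by fun_prop)))
      (fun c a b => by simp only [real_inner_smul_right, mul_assoc, integral_const_mul, smul_eq_mul])
      (fun a b b' => by
        simp only [inner_add_right, mul_add]
        exact integral_add (hI _ (by fun_prop)) (hI _ (by fun_prop)))
      (fun c a b => by
        simp only [real_inner_smul_right, mul_left_comm _ c, integral_const_mul, smul_eq_mul])
  have hQ : ∀ a b, Q a b = ∫ x in K, ⟪x, a⟫ * ⟪x, b⟫ := fun _ _ => rfl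
  have hQp : ∀ a, a ≠ 0 → 0 < Q a a := by
    intro a ha
    rw [hQ, setIntegral_pos_iff_support_of_nonneg_ae
      (Eventually.of_forall fun x => mul_self_nonneg _) (hI _ (by fun_prop))]
    have ho : IsOpen ({x : EuclideanSpace ℝ (Fin n) | ⟪x, a⟫ ≠ 0} ∩ ball 0 (f u')) :=
      (isOpen_ne_fun (by fun_prop) continuous_const).inter isOpen_ball
    have c0 := hp u' (hsub hu')
    have a0 := norm_pos_iff.2 ha
    refine (ho.measure_pos volume ⟨(f u' / 2 / ‖a‖) • a, ?_, ?_⟩).trans_le (measure_mono ?_)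
    · show ⟪(f u' / 2 / ‖a‖) • a, a⟫ ≠ 0
      rw [real_inner_smul_left, real_inner_self_eq_norm_sq]; positivity
    · rw [mem_ball_zero_iff, norm_smul, Real.norm_of_nonneg (by positivity),
        div_mul_cancel₀ _ a0.ne']
      linarith
    · rintro x ⟨h1, h2⟩
      refine ⟨mul_ne_zero h1 h1, hbK x ?_ (mem_ball_zero_iff.1 h2)⟩
      rintro rfl
      exact h1 (inner_zero_left _)
  obtain ⟨v0, hv0⟩ := LinearMap.BilinForm.exists_orthogonal_basis (B := Q)
    ⟨fun a b => by simp only [hQ, mul_comm, RingHom.id_apply]⟩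
  let v := v0.reindex (finCongr (finrank_euclideanSpace_fin (𝕜 := ℝ) (n := n)))
  have hv : ∀ i j, i ≠ j → Q (v i) (v j) = 0 := fun i j hij => by
    simp only [v, Module.Basis.reindex_apply]
    exact hv0 (fun h => hij ((finCongr _).symm.injective h))
  have hq : ∀ i, 0 < Q (v i) (v i) := fun i => hQp _ (v.ne_zero i)
  let h : EuclideanSpace ℝ (Fin n) →ₗ[ℝ] EuclideanSpace ℝ (Fin n) :=
    { toFun := fun x => WithLp.toLp 2 fun i => ⟪x, v i⟫ / √(Q (v i) (v i))
      map_add' := fun x y => by ext i; simp [inner_add_left, add_div]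
      map_smul' := fun c x => by ext i; simp [real_inner_smul_left, mul_div_assoc] }
  have hhi : ∀ x y, ⟪h x, h y⟫ = ∑ i, ⟪x, v i⟫ * ⟪y, v i⟫ / Q (v i) (v i) := by
    intro x y
    rw [PiLp.inner_apply]
    refine Finset.sum_congr rfl fun i _ => ?_
    show ⟪⟪x, v i⟫ / √(Q (v i) (v i)), ⟪y, v i⟫ / √(Q (v i) (v i))⟫ = _
    rw [RCLike.inner_apply, conj_trivial, div_mul_div_comm, Real.mul_self_sqrt (hq i).le, mul_comm]
  have hinj : Function.Injective h := by
    rw [injective_iff_map_eq_zero]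
    intro x hx
    have h1 : ∀ i, ⟪x, v i⟫ = 0 := fun i => by
      have : ⟪x, v i⟫ / √(Q (v i) (v i)) = 0 := congrArg (fun z => z.ofLp i) hx
      exact (div_eq_zero_iff.1 this).resolve_right (Real.sqrt_pos.2 (hq i)).ne'
    rw [← inner_self_eq_zero (𝕜 := ℝ)]
    nth_rewrite 2 [← v.sum_repr x]
    rw [inner_sum]
    exact Finset.sum_eq_zero fun i _ => by rw [real_inner_smul_right, h1, mul_zero]
  have key : ∀ x y, ‖h x‖ = ‖h y‖ → f x = f y := by
    intro x y hxy
    by_cases he : x - y = 0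
    · rw [sub_eq_zero.1 he]
    obtain ⟨φ, φe, hφ⟩ := hr _ he
    set e := x - y with hedef
    have hφc := φ.continuous_of_finiteDimensional
    let σ : EuclideanSpace ℝ (Fin n) →ₗ[ℝ] EuclideanSpace ℝ (Fin n) :=
      LinearMap.id - φ.smulRight e
    have hσ : ∀ z, σ z = z - φ z • e := fun _ => rfl
    have hφσ : ∀ z, φ (σ z) = -φ z := fun z => by
      rw [hσ, map_sub, map_smul, φe, smul_eq_mul]; ring
    have h1 : ∀ b, ∫ z in K, φ z * ⟪z, b⟫ = (∫ z in K, φ z * φ z) / 2 * ⟪e, b⟫ := by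
      intro b
      have := refl_integral (K := K) σ (fun z => by rw [hσ (σ z), hφσ, hσ]; module)
        (fun z => by simp only [hKd, mem_ofPred_eq, hσ, hφ]) fun z => φ z * ⟪z, b⟫
      have e2 : ∀ z, φ (σ z) * ⟪σ z, b⟫ = φ z * φ z * ⟪e, b⟫ - φ z * ⟪z, b⟫ := fun z => by
        rw [hφσ, hσ, inner_sub_left, real_inner_smul_left]; ring
      simp only [e2] at this
      rw [integral_sub (hI _ (by fun_prop)) (hI _ (by fun_prop)), integral_mul_const] at this
      linarith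
    set c := (∫ z in K, φ z * φ z) / 2
    set a := (InnerProductSpace.toDual ℝ _).symm (LinearMap.toContinuousLinearMap φ) with ha
    have ha2 : ∀ z, φ z = ⟪z, a⟫ := fun z => by
      rw [real_inner_comm, ha, InnerProductSpace.toDual_symm_apply]; rfl
    have h2 : ∀ j, v.repr a j * Q (v j) (v j) = c * ⟪e, v j⟫ := by
      intro j
      rw [← h1]
      simp only [ha2]
      rw [← hQ]
      nth_rewrite 2 [← v.sum_repr a]
      rw [map_sum, LinearMap.sum_apply, Finset.sum_eq_single j]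
      · simp
      · intro i _ hij; simp [hv i j hij]
      · simp
    have h3 : ∀ z, φ z = c * ⟪h e, h z⟫ := by
      intro z
      rw [ha2, hhi, Finset.mul_sum]
      nth_rewrite 1 [← v.sum_repr a]
      rw [inner_sum]
      refine Finset.sum_congr rfl fun i _ => ?_
      rw [real_inner_smul_right, ← mul_div_assoc, ← mul_assoc, ← h2, eq_div_iff (hq i).ne']
      ring
    have h4 : φ x = 1 := by
      have b1 := h3 e
      have b2 := h3 x
      have b3 : ⟪h e, h e⟫ = 2 * ⟪h e, h x⟫ := by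
        simp only [hedef, map_sub, inner_sub_left, inner_sub_right, real_inner_self_eq_norm_sq,
          hxy, real_inner_comm (h x) (h y)]
        ring
      rw [φe, b3] at b1
      linarith
    rw [← hφ x, h4, one_smul, hedef, sub_sub_cancel]
  have hn : ∀ x, x ≠ 0 → 0 < ‖h x‖ := fun x hx =>
    norm_pos_iff.2 fun h0 => hx (hinj (by rw [h0, map_zero]))
  have κ0 : 0 < f x0 * ‖h x0‖ := mul_pos (hp _ hx0) (hn _ hx0)
  have hinj2 : Function.Injective ((f x0 * ‖h x0‖)⁻¹ • h) := fun x y hxy =>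
    hinj (smul_right_injective _ (inv_ne_zero κ0.ne') hxy)
  refine ⟨(LinearEquiv.ofInjectiveEndo _ hinj2).toContinuousLinearEquiv.symm, fun x hx => ?_⟩
  show f x = ‖(f x0 * ‖h x0‖)⁻¹ • h x‖⁻¹
  have a1 := hn x hx
  have a2 := hn x0 hx0
  have t0 : 0 < ‖h x‖ / ‖h x0‖ := by positivity
  rw [key x ((‖h x‖ / ‖h x0‖) • x0) (by
    rw [map_smul, norm_smul, Real.norm_of_nonneg t0.le, div_mul_cancel₀ _ a2.ne']), hh _ t0,
    norm_smul, Real.norm_of_nonneg (inv_pos.2 κ0).le]
  have := (hp _ hx0).ne'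
  field_simp

end Pool.Agent.Lib.MP_242fd5_gt.M4
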