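import Pool.Agent.Lib.MP_242fd5_gt.Body

set_option autoImplicit false

namespace Pool.Agent.Lib.MP_242fd5_gt

open MeasureTheory Set Real Metric Filter Topology

variable {v w : ℝ → ℝ}

lemma P_norm (h : ∀ s, w s = k0 * T v s) {a b : ℝ} (ha : 0 < a) (hb : 0 < b) :
    ∃ s, √(a ^ 2 + b ^ 2) * P v a b = √2 * (w s / q s) := by
  set s := Real.log (a / b) / 2 with hs
  set r := b * exp s with hr
  have hr0 : 0 < r := by positivity
  have h1 : exp s * exp s = a / b := by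
    rw [← exp_add, hs, add_halves, Real.exp_log (by positivity)]
  have h2 : exp s * exp (-s) = 1 := by rw [← exp_add]; simp
  have ha' : a = r * exp s := by rw [hr, mul_assoc, h1]; field_simp
  have hb' : b = r * exp (-s) := by rw [hr, mul_assoc, h2, mul_one]
  refine ⟨s, ?_⟩
  clear_value r s
  have h3 : √(a ^ 2 + b ^ 2) = r * (√2 * (q s)⁻¹) := by
    rw [← norm_exp_pair, ha', hb', mul_pow r, mul_pow r, ← mul_add, Real.sqrt_mul (sq_nonneg r),
      Real.sqrt_sq hr0.le]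
  have h4 : P v a b = w s / r := by
    rw [ha', hb', P_smul hr0, P_exp, h]
  rw [h3, h4]; field_simp

lemma P_unit (h : ∀ s, w s = k0 * T v s) (s : ℝ) : ∃ a b : ℝ, 0 ≤ a ∧ 0 ≤ b ∧ a ^ 2 + b ^ 2 = 1 ∧
    P v a b = √2 * (w s / q s) := by
  set n := √(exp s ^ 2 + exp (-s) ^ 2) with hn
  have hn0 : 0 < n := Real.sqrt_pos.2 (by positivity)
  have hn2 : n ^ 2 = exp s ^ 2 + exp (-s) ^ 2 := Real.sq_sqrt (by positivity)
  refine ⟨n⁻¹ * exp s, n⁻¹ * exp (-s), by positivity, by positivity, ?_, ?_⟩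
  · rw [mul_pow, mul_pow, ← mul_add, ← hn2]; field_simp
  · rw [P_smul (inv_pos.2 hn0), P_exp, ← h, hn, norm_exp_pair]; field_simp

lemma P_bounds (hv : Base v) {lo hi : ℝ}
    (h : ∀ a b : ℝ, 0 < a → 0 < b → √(a ^ 2 + b ^ 2) * P v a b ∈ Icc lo hi)
    {a b : ℝ} (ha : 0 ≤ a) (hb : 0 ≤ b) (hab : a ^ 2 + b ^ 2 = 1) : P v a b ∈ Icc lo hi := by
  have h0 := half_le_max ha hb hab
  have h1 : Tendsto (fun e : ℝ => (a + e, b + e)) (𝓝[>] 0)
      (𝓝[{p : ℝ × ℝ | 1 / 2 ≤ max p.1 p.2}] (a, b)) := by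
    refine tendsto_nhdsWithin_iff.2 ⟨?_, ?_⟩
    · have : Continuous fun e : ℝ => (a + e, b + e) := by fun_prop
      have := (this.tendsto 0).mono_left (nhdsWithin_le_nhds (s := Ioi 0))
      simpa using this
    · refine eventually_nhdsWithin_of_forall fun e he => ?_
      have he' : 0 < e := he
      exact h0.trans (max_le_max (by linarith) (by linarith))
  have h2 := ((P_continuousOn hv) (a, b) h0).tendsto.comp h1
  have h3 : Tendsto (fun e : ℝ => √((a + e) ^ 2 + (b + e) ^ 2)) (𝓝[>] 0) (𝓝 1) := by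
    have : Continuous fun e : ℝ => √((a + e) ^ 2 + (b + e) ^ 2) := by fun_prop
    have := (this.tendsto 0).mono_left (nhdsWithin_le_nhds (s := Ioi 0))
    simpa [hab] using this
  have h4 := h3.mul h2
  rw [one_mul] at h4
  refine isClosed_Icc.mem_of_tendsto h4 (eventually_nhdsWithin_of_forall fun e he => ?_)
  have he' : 0 < e := he
  exact h _ _ (by linarith) (by linarith)

lemma parallelogram (x y : E 6) (a b : ℝ) :
    ‖a • x + b • y‖ ^ 2 + ‖a • x + (-b) • y‖ ^ 2 = 2 * a ^ 2 * ‖x‖ ^ 2 + 2 * b ^ 2 * ‖y‖ ^ 2 := by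
  rw [neg_smul, ← sub_eq_add_neg]
  have := parallelogram_law_with_norm ℝ (a • x) (b • y)
  rw [norm_smul, norm_smul, Real.norm_eq_abs, Real.norm_eq_abs] at this
  have h1 := sq_abs a
  have h2 := sq_abs b
  nlinarith

lemma sandwich (hv : Base v) (he : ∀ s, v (-s) = v s) (S : E 6 ≃L[ℝ] E 6) {C : ℝ}
    (h1 : closedBall 0 1 ⊆ S '' starSet (rho v)) (h2 : S '' starSet (rho v) ⊆ closedBall 0 C)
    {a b : ℝ} (ha : 0 ≤ a) (hb : 0 ≤ b) (hab : a ^ 2 + b ^ 2 = 1) :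
    6 ≤ P v a b ^ 2 * ∑ i : Fin 6, ‖S (EuclideanSpace.single i 1)‖ ^ 2 ∧
    P v a b ^ 2 * ∑ i : Fin 6, ‖S (EuclideanSpace.single i 1)‖ ^ 2 ≤ 6 * C ^ 2 := by
  have key : ∀ ξ : E 6, ξ ∈ sphere (0 : E 6) 1 →
      1 ≤ rho v ξ ^ 2 * ‖S ξ‖ ^ 2 ∧ rho v ξ ^ 2 * ‖S ξ‖ ^ 2 ≤ C ^ 2 := by
    intro ξ hξ
    have hp := rho_pos hv ξ hξ
    have hne : ξ ≠ 0 := by rintro rfl; simp at hξ
    have hS : 0 < ‖S ξ‖ := norm_pos_iff.2 (by simpa using hne)
    rw [← mul_pow]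
    constructor
    · have h3 : ‖S ξ‖⁻¹ • S ξ ∈ closedBall (0 : E 6) 1 := by simp [norm_smul, hS.ne']
      obtain ⟨y, hy, hy2⟩ := h1 h3
      rw [← map_smul] at hy2
      rw [S.injective hy2, smul_mem_starSet (rho_pos hv) hξ (by positivity),
        inv_le_iff_one_le_mul₀ hS] at hy
      exact one_le_pow₀ hy
    · have h3 := h2 ⟨_, (smul_mem_starSet (rho_pos hv) hξ hp.le).2 le_rfl, rfl⟩
      rw [mem_closedBall_zero_iff, map_smul, norm_smul, Real.norm_of_nonneg hp.le] at h3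
      exact pow_le_pow_left₀ (by positivity) h3 2
  have pair : ∀ (i j : Fin 6) (a b : ℝ), 0 ≤ a → 0 ≤ b → a ^ 2 + b ^ 2 = 1 →
      (∀ x y : ℝ, sqA (vec i j x y) = x ^ 2 ∧ sqB (vec i j x y) = y ^ 2) →
      2 ≤ P v a b ^ 2 * (2 * a ^ 2 * ‖S (EuclideanSpace.single i 1)‖ ^ 2 +
        2 * b ^ 2 * ‖S (EuclideanSpace.single j 1)‖ ^ 2) ∧
      P v a b ^ 2 * (2 * a ^ 2 * ‖S (EuclideanSpace.single i 1)‖ ^ 2 +
        2 * b ^ 2 * ‖S (EuclideanSpace.single j 1)‖ ^ 2) ≤ 2 * C ^ 2 := by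
    intro i j a b ha hb hab hij
    have hvec : ∀ x y : ℝ, S (vec i j x y) = x • S (EuclideanSpace.single i 1) +
        y • S (EuclideanSpace.single j 1) := by
      intro x y
      rw [← map_smul, ← map_smul, ← map_add]
      congr 1
      ext k; simp [vec]
    have hs : ∀ y : ℝ, y ^ 2 = b ^ 2 → vec i j a y ∈ sphere (0 : E 6) 1 ∧
        rho v (vec i j a y) = P v a b := by
      intro y hy
      constructor
      · have : ‖vec i j a y‖ ^ 2 = 1 ^ 2 := by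
          rw [norm_sq_six, (hij a y).1, (hij a y).2, hy, hab]; norm_num
        simpa using (pow_left_inj₀ (norm_nonneg _) zero_le_one two_ne_zero).1 this
      · unfold rho
        rw [(hij a y).1, (hij a y).2, hy, Real.sqrt_sq ha, Real.sqrt_sq hb]
    have k1 := key _ (hs b rfl).1
    have k2 := key _ (hs (-b) (by ring)).1
    rw [(hs b rfl).2, hvec] at k1
    rw [(hs (-b) (by ring)).2, hvec] at k2
    rw [← parallelogram, mul_add]
    constructor <;> linarith [k1.1, k1.2, k2.1, k2.2]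
  have e1 : ∀ x y : ℝ, sqA (vec 0 3 x y) = x ^ 2 ∧ sqB (vec 0 3 x y) = y ^ 2 := fun x y => by
    simp [sqA, sqB, vec]
  have e2 : ∀ x y : ℝ, sqA (vec 1 4 x y) = x ^ 2 ∧ sqB (vec 1 4 x y) = y ^ 2 := fun x y => by
    simp [sqA, sqB, vec]
  have e3 : ∀ x y : ℝ, sqA (vec 2 5 x y) = x ^ 2 ∧ sqB (vec 2 5 x y) = y ^ 2 := fun x y => by
    simp [sqA, sqB, vec]
  have hba : b ^ 2 + a ^ 2 = 1 := by linarith
  have p1 := pair 0 3 a b ha hb hab e1
  have p2 := pair 1 4 a b ha hb hab e2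
  have p3 := pair 2 5 a b ha hb hab e3
  have p4 := pair 0 3 b a hb ha hba e1
  have p5 := pair 1 4 b a hb ha hba e2
  have p6 := pair 2 5 b a hb ha hba e3
  rw [P_symm he b a] at p4 p5 p6
  rw [Fin.sum_univ_six]
  have hb2 : b ^ 2 = 1 - a ^ 2 := by linarith
  rw [hb2] at p1 p2 p3 p4 p5 p6
  constructor
  · nlinarith [p1.1, p2.1, p3.1, p4.1, p5.1, p6.1]
  · nlinarith [p1.2, p2.2, p3.2, p4.2, p5.2, p6.2]

theorem main6 (c : ℝ) (hc : 1 ≤ c) : ∃ L : Set (E 6), IsStarBody L ∧ HasPropertyP L ∧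
    IsLeast (ballRatios L) c := by
  obtain ⟨w, h1, h2, h3⟩ := ancient T_q (Real.log_nonneg hc) k0_pos
  have hb : ∀ m, Base (w m) := fun m => (h1 m).1.base
  have hM : ∀ m, IsStarBody (starSet (rho (w m))) := fun m =>
    isStarBody_starSet (rho_pos (hb m)) (rho_cont (hb m))
  have hI : ∀ m, interBody (starSet (rho (w (m + 1)))) = starSet (rho (w m)) := fun m =>
    interBody_rho (hb _) (hb _) (h1 m).2 (h2 m)
  refine ⟨starSet (rho (w 1)), hM 1,
    hasPropertyP_of_chain (fun m => starSet (rho (w m))) hM hI 1, ?_, ?_⟩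
  · obtain ⟨A, B, hA, hAB⟩ := (h1 0).1.bounds
    have hφ : ∀ s, 0 < w 0 s / q s := fun s => div_pos ((hb 0).pos s) (q_pos s)
    have hbd : BddBelow (range fun s => w 0 s / q s) := ⟨A, by rintro _ ⟨s, rfl⟩; exact (hAB s).1⟩
    set lo := ⨅ s, w 0 s / q s with hlo
    have hlo0 : 0 < lo := hA.trans_le (le_ciInf fun s => (hAB s).1)
    have hc0 : 0 < c := by linarith
    have hl1 : ∀ s, lo ≤ w 0 s / q s := fun s => ciInf_le hbd s
    have hl2 : ∀ s, w 0 s / q s ≤ c * lo := by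
      intro s
      rw [← div_le_iff₀' hc0]
      refine le_ciInf fun t => ?_
      have h4 := (h1 0).1.le_osc s t
      rw [h3, ← Real.log_div (hφ s).ne' (hφ t).ne', Real.log_le_log_iff (div_pos (hφ s) (hφ t)) hc0,
        div_le_iff₀ (hφ t)] at h4
      rwa [div_le_iff₀' hc0]
    have s2 : 0 < √2 := by positivity
    have hρ : ∀ u ∈ sphere (0 : E 6) 1, rho (w 1) u ∈ Icc (√2 * lo) (√2 * (c * lo)) := by
      intro u hu
      refine P_bounds (hb 1) (fun a b ha hb' => ?_) (Real.sqrt_nonneg _) (Real.sqrt_nonneg _)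
        (sphere_sq hu)
      obtain ⟨s, hs⟩ := P_norm (h2 0) ha hb'
      rw [hs]
      exact ⟨by gcongr; exact hl1 s, by gcongr; exact hl2 s⟩
    set σ := √2 * lo with hσ
    have hσ0 : 0 < σ := by positivity
    refine ⟨(LinearEquiv.smulOfNeZero ℝ (E 6) σ⁻¹ (inv_pos.2 hσ0).ne').toContinuousLinearEquiv,
      fun y hy => ⟨σ • y, ?_, ?_⟩, ?_⟩
    · by_cases hy0 : y = 0
      · exact ⟨_, unit0, 0, le_rfl, (rho_pos (hb 1) _ unit0).le, by simp [hy0]⟩
      · have hn : 0 < ‖y‖ := norm_pos_iff.2 hy0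
        have hu : ‖y‖⁻¹ • y ∈ sphere (0 : E 6) 1 := by simp [norm_smul, hn.ne']
        refine ⟨_, hu, σ * ‖y‖, by positivity, ?_, ?_⟩
        · exact (mul_le_of_le_one_right hσ0.le (mem_closedBall_zero_iff.1 hy)).trans (hρ _ hu).1
        · rw [smul_smul, mul_assoc, mul_inv_cancel₀ hn.ne', mul_one]
    · simp [smul_smul, hσ0.ne']
    · rintro _ ⟨_, ⟨u, hu, t, ht0, ht1, rfl⟩, rfl⟩
      have e1 : ‖u‖ = 1 := by simpa using hu
      have h4 := ht1.trans (hρ u hu).2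
      rw [mem_closedBall_zero_iff]
      simp only [LinearEquiv.coe_toContinuousLinearEquiv', LinearEquiv.smulOfNeZero_apply,
        norm_smul, e1, mul_one, Real.norm_of_nonneg ht0, Real.norm_of_nonneg (inv_pos.2 hσ0).le]
      rw [inv_mul_le_iff₀ hσ0, hσ]
      linarith
  · rintro C ⟨S, hS1, hS2⟩
    have hC : 0 < C := by
      have := hS2 (hS1 (sphere_subset_closedBall unit0))
      simp at this
      linarith
    rw [← Real.log_le_log_iff (by linarith) hC, ← h3]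
    refine ciSup_le fun p => ?_
    have hφ : ∀ s, 0 < w 0 s / q s := fun s => div_pos ((hb 0).pos s) (q_pos s)
    obtain ⟨a, b, ha, hb1, hab, hP⟩ := P_unit (h2 0) p.1
    obtain ⟨a', b', ha', hb1', hab', hP'⟩ := P_unit (h2 0) p.2
    have k1 := (sandwich (hb 1) (h1 1).2 S hS1 hS2 ha hb1 hab).2
    have k2 := (sandwich (hb 1) (h1 1).2 S hS1 hS2 ha' hb1' hab').1
    rw [hP] at k1
    rw [hP'] at k2
    rw [← Real.log_div (hφ _).ne' (hφ _).ne', Real.log_le_log_iff (div_pos (hφ _) (hφ _)) hC,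
      div_le_iff₀ (hφ _)]
    set x := w 0 p.1 / q p.1
    set y := w 0 p.2 / q p.2
    set τ := ∑ i : Fin 6, ‖S (EuclideanSpace.single i 1)‖ ^ 2
    have hx : 0 < x := hφ _
    have hy : 0 < y := hφ _
    rw [mul_pow, Real.sq_sqrt (by norm_num)] at k1 k2
    have hτ : 0 < τ := by
      by_contra h
      have : 2 * y ^ 2 * τ ≤ 0 := mul_nonpos_of_nonneg_of_nonpos (by positivity) (not_lt.1 h)
      linarith
    have k3 : x ^ 2 * τ ≤ (C * y) ^ 2 * τ := by
      have : 6 * C ^ 2 ≤ 2 * y ^ 2 * τ * C ^ 2 := by gcongr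
      nlinarith
    exact (pow_le_pow_iff_left₀ hx.le (by positivity) two_ne_zero).1 (le_of_mul_le_mul_right k3 hτ)

end Pool.Agent.Lib.MP_242fd5_gt
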