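import Pool.Agent.Lib.MP_242fd5_gt.Adm

set_option autoImplicit false

namespace Pool.Agent.Lib.MP_242fd5_gt

open MeasureTheory Set Real

/-- the profile of the ball -/
noncomputable def q (s : ℝ) : ℝ := (√(cosh (2 * s)))⁻¹

lemma sqrt_cosh_pos (x : ℝ) : 0 < √(cosh x) := Real.sqrt_pos.2 (cosh_pos x)
lemma q_pos (s : ℝ) : 0 < q s := inv_pos.2 (sqrt_cosh_pos _)
lemma q_even (s : ℝ) : q (-s) = q s := by unfold q; rw [mul_neg, cosh_neg]
lemma q_zero : q 0 = 1 := by simp [q]

lemma cosh_le_exp_mul (x y : ℝ) : cosh x ≤ exp |x - y| * cosh y := by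
  rw [cosh_eq, cosh_eq]
  have h1 : exp x ≤ exp |x - y| * exp y := by
    rw [← exp_add]; exact exp_le_exp.2 (by linarith [le_abs_self (x - y)])
  have h2 : exp (-x) ≤ exp |x - y| * exp (-y) := by
    rw [← exp_add]; exact exp_le_exp.2 (by linarith [neg_le_abs (x - y)])
  linarith

lemma q_lip (s t : ℝ) : q s ≤ exp |s - t| * q t := by
  unfold q
  rw [← div_eq_mul_inv, le_div_iff₀ (sqrt_cosh_pos _), inv_mul_le_iff₀ (sqrt_cosh_pos _),
    Real.sqrt_le_left (by have := sqrt_cosh_pos (2 * s); positivity), mul_pow,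
    Real.sq_sqrt (cosh_pos _).le, ← exp_nat_mul, mul_comm]
  have := cosh_le_exp_mul (2 * t) (2 * s)
  rw [← mul_sub, abs_mul, abs_sub_comm, abs_of_pos (show (0:ℝ) < 2 by norm_num)] at this
  simpa [mul_comm] using this

lemma q_anti {s t : ℝ} (h : |s| ≤ |t|) : q t ≤ q s := by
  unfold q
  refine inv_anti₀ (sqrt_cosh_pos _) (Real.sqrt_le_sqrt (cosh_le_cosh.2 ?_))
  rw [abs_mul, abs_mul]; gcongr

lemma q_ge (s : ℝ) : exp (-|s|) ≤ q s := by
  have h1 := q_lip 0 s
  rw [q_zero, zero_sub, abs_neg] at h1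
  rw [exp_neg, inv_le_iff_one_le_mul₀' (exp_pos _)]
  exact h1

lemma q_le (s : ℝ) : q s ≤ 2 * exp (-|s|) := by
  unfold q
  rw [exp_neg, ← div_eq_mul_inv, le_div_iff₀ (exp_pos _), inv_mul_le_iff₀ (sqrt_cosh_pos _),
    ← div_le_iff₀ (by norm_num), Real.le_sqrt (by positivity) (cosh_pos _).le, div_pow,
    ← exp_nat_mul, ← cosh_abs, abs_mul, abs_of_pos (show (0:ℝ) < 2 by norm_num), cosh_eq]
  have := exp_pos (-(2 * |s|))
  have := exp_pos (2 * |s|)
  push_cast
  linarith

lemma q_base : Base q := ⟨q_pos, cont_of_lip q_pos q_lip, 2, q_le⟩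

/-- union of two ellipsoids -/
noncomputable def init (R : ℝ) (s : ℝ) : ℝ := q (|s| - R)

lemma init_lip2 (R R' s : ℝ) : init R s ≤ exp |R - R'| * init R' s := by
  have := q_lip (|s| - R) (|s| - R')
  rwa [show |s| - R - (|s| - R') = -(R - R') by ring, abs_neg] at this

lemma init_adm : ∃ F, 0 < F ∧ ∀ Λ R : ℝ, 2 ≤ Λ → 0 ≤ R → Adm Λ F (init R) R := by
  refine ⟨(1 / 3) ^ 7 / 256 ^ 5, by positivity, fun Λ R hΛ hR => ?_⟩
  have hpos : ∀ s, 0 < init R s := fun s => q_pos _
  have hlip : ∀ s t, init R s ≤ exp |s - t| * init R t := by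
    intro s t
    refine (q_lip (|s| - R) (|t| - R)).trans ?_
    refine mul_le_mul_of_nonneg_right (exp_le_exp.2 ?_) (hpos t).le
    rw [sub_sub_sub_cancel_right]
    exact abs_abs_sub_abs_le_abs_sub s t
  have htail : ∀ s, init R s ≤ 2 * exp (R - |s|) := fun s => (q_le _).trans (by
    gcongr
    linarith [le_abs_self (|s| - R)])
  have hb : Base (init R) := ⟨hpos, cont_of_lip hpos hlip, 2 * exp R, fun s => by
    rw [mul_assoc, ← exp_add]; exact htail s⟩
  have htop : init R R = 1 := by unfold init; rw [abs_of_nonneg hR, sub_self, q_zero]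
  refine ⟨hpos, fun s => by unfold init; rw [abs_neg], hlip, hR, htop, ?_, ?_,
    fun s => (htail s).trans (by gcongr), ?_⟩
  · intro x hx y hy hxy
    refine q_anti ?_
    rw [abs_of_nonneg hx.1, abs_of_nonneg hy.1, abs_of_nonpos (by linarith [hy.2]),
      abs_of_nonpos (by linarith [hx.2])]
    linarith
  · intro x hx y hy hxy
    have hx' : R ≤ x := hx
    have hy' : R ≤ y := hy
    refine q_anti ?_
    rw [abs_of_nonneg (hR.trans hx'), abs_of_nonneg (hR.trans hy'), abs_of_nonneg (by linarith),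
      abs_of_nonneg (by linarith)]
    linarith
  · have h1 : V (init R) ≤ 256 := by
      have h2 : V (init R) ≤ ∫ s, (64 * exp (-|R - s|) + 64 * exp (-|-R - s|)) := by
        refine integral_mono (hb.int_pow 5)
          (((integrable_G _).const_mul _).add ((integrable_G _).const_mul _)) fun s => ?_
        have h3 : init R s ^ 6 ≤ (2 * exp (-|(|s| - R)|)) ^ 6 :=
          pow_le_pow_left₀ (hpos s).le (q_le _) 6
        have h4 : exp (-|(|s| - R)|) ^ 6 ≤ exp (-|(|s| - R)|) :=
          pow_le_of_le_one (exp_pos _).le (G_le_one _) (by norm_num)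
        have h5 : exp (-|(|s| - R)|) ≤ exp (-|R - s|) + exp (-|-R - s|) := by
          have := exp_pos (-|R - s|)
          have := exp_pos (-|-R - s|)
          rcases abs_choice s with h | h <;> rw [h]
          · rw [abs_sub_comm]; linarith
          · rw [show -s - R = -R - s by ring]; linarith
        simp only
        nlinarith
      rw [integral_add ((integrable_G _).const_mul _) ((integrable_G _).const_mul _),
        integral_const_mul, integral_const_mul, integral_G, integral_G] at h2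
      linarith
    have hv := hb.T_base
    have h2 : 1 / 3 ≤ T (init R) R := T_top_lower hb fun s => by
      have h1 := hlip R s
      rw [htop] at h1
      rw [exp_neg, inv_le_iff_one_le_mul₀' (exp_pos _)]
      exact h1
    have h3 : (1 / 3) ^ 7 ≤ V (T (init R)) := by
      have h4 := integral_exp_abs (c := 6) (by norm_num) R
      have h5 : ∫ s, (1 / 3) ^ 6 * exp (-(6 * |R - s|)) ≤ V (T (init R)) := by
        refine integral_mono ((integrable_exp_abs (by norm_num) R).const_mul _) (hv.int_pow 5)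
          fun s => ?_
        have h6 : 1 / 3 * exp (-|R - s|) ≤ T (init R) s := by
          have h7 := h2.trans (hb.T_lip R s)
          rw [exp_neg, ← div_eq_mul_inv, div_le_iff₀ (exp_pos _)]
          linarith
        simp only
        calc (1 / 3) ^ 6 * exp (-(6 * |R - s|)) = (1 / 3 * exp (-|R - s|)) ^ 6 := by
              rw [mul_pow, ← exp_nat_mul]; congr 2; push_cast; ring
          _ ≤ _ := pow_le_pow_left₀ (by positivity) h6 6
      rw [integral_const_mul, h4] at h5
      linarith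
    have h4 := hb.V_pos
    calc (1 / 3) ^ 7 / 256 ^ 5 * V (init R) ^ 5 ≤ (1 / 3) ^ 7 / 256 ^ 5 * 256 ^ 5 := by gcongr
      _ = (1 / 3) ^ 7 := by field_simp
      _ ≤ _ := h3

/-- logarithmic oscillation of `u / q` -/
noncomputable def osc (u : ℝ → ℝ) : ℝ :=
  ⨆ p : ℝ × ℝ, (Real.log (u p.1 / q p.1) - Real.log (u p.2 / q p.2))

/-- functions comparable with `q` -/
structure Cmp (u : ℝ → ℝ) : Prop where
  base : Base u
  lip : ∀ s t, u s ≤ exp |s - t| * u t

lemma Cmp.bounds {u : ℝ → ℝ} (h : Cmp u) :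
    ∃ A B, 0 < A ∧ ∀ s, A ≤ u s / q s ∧ u s / q s ≤ B := by
  obtain ⟨C, hC0, hC⟩ := h.base.decay'
  have h0 := h.base.pos 0
  refine ⟨u 0 / 2, C, by positivity, fun s => ⟨?_, ?_⟩⟩
  · rw [le_div_iff₀ (q_pos s)]
    have h1 := h.lip 0 s
    rw [zero_sub, abs_neg] at h1
    have h2 : exp |s| * exp (-|s|) = 1 := by rw [← exp_add]; simp
    have h3 := exp_pos (-|s|)
    calc u 0 / 2 * q s ≤ u 0 / 2 * (2 * exp (-|s|)) := by gcongr; exact q_le s
      _ = u 0 * exp (-|s|) := by ring
      _ ≤ exp |s| * u s * exp (-|s|) := by gcongr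
      _ = u s := by rw [mul_right_comm, h2, one_mul]
  · rw [div_le_iff₀ (q_pos s)]
    exact (hC s).trans (by gcongr; exact q_ge s)

lemma Cmp.bdd {u : ℝ → ℝ} (h : Cmp u) : BddAbove (range fun p : ℝ × ℝ =>
    Real.log (u p.1 / q p.1) - Real.log (u p.2 / q p.2)) := by
  obtain ⟨A, B, hA, hAB⟩ := h.bounds
  refine ⟨Real.log B - Real.log A, ?_⟩
  rintro _ ⟨p, rfl⟩
  have h1 := Real.log_le_log (div_pos (h.base.pos p.1) (q_pos p.1)) (hAB p.1).2
  have h2 := Real.log_le_log hA (hAB p.2).1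
  simp only
  linarith

lemma Cmp.le_osc {u : ℝ → ℝ} (h : Cmp u) (s t : ℝ) :
    Real.log (u s / q s) - Real.log (u t / q t) ≤ osc u :=
  le_ciSup h.bdd (s, t)

lemma osc_le_add {u v : ℝ → ℝ} (hu : ∀ s, 0 < u s) (hv : Cmp v) {ε : ℝ}
    (h1 : ∀ s, u s ≤ exp ε * v s) (h2 : ∀ s, v s ≤ exp ε * u s) : osc u ≤ osc v + 2 * ε := by
  refine ciSup_le fun p => ?_
  have h3 := hv.le_osc p.1 p.2
  have key : ∀ (f g : ℝ → ℝ) (s : ℝ), 0 < f s → 0 < g s → f s ≤ exp ε * g s →
      Real.log (f s / q s) ≤ ε + Real.log (g s / q s) := by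
    intro f g s hf hg hfg
    have hq := q_pos s
    have : f s / q s ≤ exp ε * (g s / q s) := by rw [← mul_div_assoc]; gcongr
    have h4 := Real.log_le_log (by positivity) this
    rwa [Real.log_mul (exp_pos _).ne' (by positivity), Real.log_exp] at h4
  have h4 := key u v p.1 (hu _) (hv.base.pos _) (h1 _)
  have h5 := key v u p.2 (hv.base.pos _) (hu _) (h2 _)
  linarith

lemma osc_smul {u : ℝ → ℝ} (hu : ∀ s, 0 < u s) {c : ℝ} (hc : 0 < c) :
    osc (fun s => c * u s) = osc u := by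
  unfold osc
  congr 1; ext p
  have h1 := q_pos p.1
  have h2 := q_pos p.2
  have h3 := hu p.1
  have h4 := hu p.2
  rw [mul_div_assoc, mul_div_assoc, Real.log_mul hc.ne' (by positivity),
    Real.log_mul hc.ne' (by positivity)]
  ring

lemma osc_q : osc q = 0 := by
  unfold osc
  simp [(q_pos _).ne']

lemma Adm.cmp {Λ F : ℝ} {u : ℝ → ℝ} {a : ℝ} (h : Adm Λ F u a) : Cmp u := ⟨h.base, h.lip⟩

lemma Adm.mode_le {Λ F : ℝ} {u : ℝ → ℝ} {a : ℝ} (h : Adm Λ F u a) : a ≤ osc u + 1 := by
  have h1 := h.cmp.le_osc a 0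
  rw [h.top, q_zero, div_one, one_div, Real.log_inv] at h1
  have h2 : Real.log (u 0) ≤ 0 := Real.log_nonpos (h.pos 0).le (h.le_one 0)
  have h3 := Real.log_le_log (q_pos a) (q_le a)
  rw [Real.log_mul (by norm_num) (exp_pos _).ne', Real.log_exp, abs_of_nonneg h.nonneg] at h3
  have h4 : Real.log 2 ≤ 2 - 1 := Real.log_le_sub_one_of_pos (by norm_num)
  linarith

lemma Base.iter {u : ℝ → ℝ} (h : Base u) (N : ℕ) : Base (T^[N] u) := by
  induction N with
  | zero => exact h
  | succ N ih => rw [Function.iterate_succ_apply']; exact ih.T_base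

lemma Cmp.iter {u : ℝ → ℝ} (h : Cmp u) (N : ℕ) : Cmp (T^[N] u) := by
  induction N with
  | zero => exact h
  | succ N ih => rw [Function.iterate_succ_apply']; exact ⟨ih.base.T_base, ih.base.T_lip⟩

lemma iter_le {u v : ℝ → ℝ} (hu : Base u) (hv : Base v) {ε : ℝ} (h : ∀ s, u s ≤ exp ε * v s)
    (N : ℕ) (s : ℝ) : T^[N] u s ≤ exp (5 ^ N * ε) * T^[N] v s := by
  induction N generalizing s with
  | zero => simpa using h s
  | succ N ih =>
    rw [Function.iterate_succ_apply', Function.iterate_succ_apply']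
    refine (T_mono (hu.iter N) ((hv.iter N).smul (exp_pos _)) ih s).trans ?_
    rw [T_smul, ← exp_nat_mul]
    refine le_of_eq ?_
    congr 2; push_cast; ring

end Pool.Agent.Lib.MP_242fd5_gt
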