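import Pool.Agent.Lib.MP_242fd5_gt.Iso

set_option autoImplicit false

namespace Pool.Agent.Lib.MP_242fd5_gt

open MeasureTheory Set Real
open scoped ENNReal

lemma mp_four : MeasurePreserving
    (fun z : Fin 4 → ℝ => (((z 0, z 1), (z 2, z 3)) : (ℝ × ℝ) × (ℝ × ℝ))) := by
  have h1 := volume_preserving_piFinSuccAbove (fun _ : Fin 4 => ℝ) 0
  have h2 := volume_preserving_piFinSuccAbove (fun _ : Fin 3 => ℝ) 0
  have h3 := volume_preserving_finTwoArrow ℝ
  have h4 : MeasurePreserving (Prod.map id (MeasurableEquiv.finTwoArrow (α := ℝ)) :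
      ℝ × (Fin 2 → ℝ) → ℝ × (ℝ × ℝ)) := (MeasurePreserving.id volume).prod h3
  have h5 := h4.comp h2
  have h6 := ((MeasurePreserving.id (volume : Measure ℝ)).prod h5).comp h1
  have h7 := (volume_preserving_prodAssoc (α₁ := ℝ) (β₁ := ℝ) (γ₁ := ℝ × ℝ)).symm
  have h8 := h7.comp h6
  exact h8

lemma mp_five : MeasurePreserving
    (fun y : E 5 => ((y 0, ((y 1, y 2), (y 3, y 4))) : ℝ × ((ℝ × ℝ) × (ℝ × ℝ)))) := by
  have h0 := PiLp.volume_preserving_ofLp (Fin 5)
  have h1 := volume_preserving_piFinSuccAbove (fun _ : Fin 5 => ℝ) 0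
  have h2 := (((MeasurePreserving.id (volume : Measure ℝ)).prod mp_four).comp h1).comp h0
  exact h2

lemma polar_sq (g : ℝ → ℝ≥0∞) (hg : Measurable g) (c : ℝ) :
    ∫⁻ y : ℝ × ℝ, g (c + y.1 ^ 2 + y.2 ^ 2) = ENNReal.ofReal π * ∫⁻ p in Ioi c, g p := by
  rw [← lintegral_comp_polarCoord_symm, polarCoord_target]
  have h1 : ∀ p : ℝ × ℝ, ENNReal.ofReal p.1 • g (c + (polarCoord.symm p).1 ^ 2 +
      (polarCoord.symm p).2 ^ 2) = (ENNReal.ofReal p.1 * g (c + p.1 ^ 2)) * 1 := by
    intro p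
    rw [polarCoord_symm_apply, smul_eq_mul, mul_one]
    congr 2
    simp only
    nlinarith [sin_sq_add_cos_sq p.2]
  simp_rw [h1]
  have hm : Measurable fun r : ℝ => ENNReal.ofReal r * g (c + r ^ 2) := by fun_prop
  rw [Measure.volume_eq_prod, ← Measure.prod_restrict,
    lintegral_prod_mul hm.aemeasurable aemeasurable_const]
  have himg : (fun r : ℝ => c + r ^ 2) '' Ioi 0 = Ioi c := by
    ext p; constructor
    · rintro ⟨r, hr, rfl⟩
      have : (0:ℝ) < r := hr
      show c < c + r ^ 2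
      nlinarith [sq_pos_of_pos this]
    · intro hp
      have hp' : 0 < p - c := sub_pos.2 hp
      refine ⟨√(p - c), Real.sqrt_pos.2 hp', ?_⟩
      show c + √(p - c) ^ 2 = p
      rw [Real.sq_sqrt hp'.le]; ring
  have hder : ∀ r ∈ Ioi (0:ℝ), HasDerivWithinAt (fun r : ℝ => c + r ^ 2) (2 * r) (Ioi 0) r := by
    intro r _
    have := ((hasDerivAt_pow 2 r).const_add c)
    simpa using this.hasDerivWithinAt
  have hinj : InjOn (fun r : ℝ => c + r ^ 2) (Ioi 0) := by
    intro x hx y hy h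
    have h' : x ^ 2 = y ^ 2 := by simpa using h
    exact (pow_left_inj₀ (le_of_lt hx) (le_of_lt hy) two_ne_zero).1 h'
  rw [← himg, lintegral_image_eq_lintegral_abs_deriv_mul measurableSet_Ioi hder hinj]
  have h2 : ∫⁻ r in Ioi (0:ℝ), ENNReal.ofReal |2 * r| * g (c + r ^ 2) =
      2 * ∫⁻ r in Ioi (0:ℝ), ENNReal.ofReal r * g (c + r ^ 2) := by
    rw [← lintegral_const_mul _ hm]
    refine setLIntegral_congr_fun measurableSet_Ioi fun r hr => ?_
    have hr' : (0:ℝ) < r := hr
    rw [abs_of_pos (by positivity), ENNReal.ofReal_mul (by norm_num), mul_assoc]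
    simp
  rw [h2]
  simp only [lintegral_const, one_mul, MeasurableSet.univ, Measure.restrict_apply, univ_inter,
    Real.volume_Ioo]
  rw [show π - -π = 2 * π by ring, ENNReal.ofReal_mul (by norm_num)]
  simp only [ENNReal.ofReal_ofNat]
  ring

lemma quad_subst (G : ℝ × ℝ → ℝ≥0∞) (hG : Measurable G) :
    ∫⁻ P in Ioi (0:ℝ), ∫⁻ Q in Ioi (0:ℝ), G (P, Q) =
      ∫⁻ s : ℝ, ∫⁻ r in Ioi (0:ℝ), ENNReal.ofReal (8 * r ^ 3) *
        G (r ^ 2 * exp (2 * s), r ^ 2 * exp (-(2 * s))) := by
  have step1 : ∀ P ∈ Ioi (0:ℝ), ∫⁻ Q in Ioi (0:ℝ), G (P, Q) =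
      ∫⁻ s : ℝ, ENNReal.ofReal (4 * P * exp (-(4 * s))) * G (P, P * exp (-(4 * s))) := by
    intro P hP
    have hP' : (0:ℝ) < P := hP
    have himg : (fun s : ℝ => P * exp (-(4 * s))) '' univ = Ioi 0 := by
      ext q; constructor
      · rintro ⟨s, -, rfl⟩
        show 0 < P * exp (-(4 * s))
        positivity
      · intro hq
        have hq' : (0:ℝ) < q := hq
        refine ⟨-(Real.log (q / P)) / 4, mem_univ _, ?_⟩
        show P * exp (-(4 * (-(Real.log (q / P)) / 4))) = q
        rw [show -(4 * (-(Real.log (q / P)) / 4)) = Real.log (q / P) by ring,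
          Real.exp_log (by positivity)]
        field_simp
    have hder : ∀ s ∈ (univ : Set ℝ), HasDerivWithinAt (fun s : ℝ => P * exp (-(4 * s)))
        (P * (exp (-(4 * s)) * (-4))) univ s := by
      intro s _
      have h1 : HasDerivAt (fun s : ℝ => -(4 * s)) (-4) s := by
        have := ((hasDerivAt_id s).const_mul (4:ℝ)).fun_neg
        simpa using this
      exact (h1.exp.const_mul P).hasDerivWithinAt
    have hinj : InjOn (fun s : ℝ => P * exp (-(4 * s))) univ := by
      intro x _ y _ h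
      have h1 : exp (-(4 * x)) = exp (-(4 * y)) := mul_left_cancel₀ hP'.ne' h
      have := Real.exp_injective h1
      linarith
    rw [← himg, lintegral_image_eq_lintegral_abs_deriv_mul MeasurableSet.univ hder hinj,
      Measure.restrict_univ]
    refine lintegral_congr fun s => ?_
    congr 2
    rw [abs_of_neg (by have := exp_pos (-(4 * s)); nlinarith [mul_pos hP' this])]
    ring
  rw [setLIntegral_congr_fun measurableSet_Ioi step1, lintegral_lintegral_swap (by
    apply Measurable.aemeasurable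
    unfold Function.uncurry
    fun_prop)]
  refine lintegral_congr fun s => ?_
  have himg : (fun r : ℝ => r ^ 2 * exp (2 * s)) '' Ioi 0 = Ioi 0 := by
    ext p; constructor
    · rintro ⟨r, hr, rfl⟩
      have : (0:ℝ) < r := hr
      show 0 < r ^ 2 * exp (2 * s)
      positivity
    · intro hp
      have hp' : (0:ℝ) < p := hp
      refine ⟨√(p / exp (2 * s)), Real.sqrt_pos.2 (by positivity), ?_⟩
      show √(p / exp (2 * s)) ^ 2 * exp (2 * s) = p
      rw [Real.sq_sqrt (by positivity)]; field_simp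
  have hder : ∀ r ∈ Ioi (0:ℝ), HasDerivWithinAt (fun r : ℝ => r ^ 2 * exp (2 * s))
      (2 * r * exp (2 * s)) (Ioi 0) r := by
    intro r _
    have := ((hasDerivAt_pow 2 r).mul_const (exp (2 * s)))
    simpa using this.hasDerivWithinAt
  have hinj : InjOn (fun r : ℝ => r ^ 2 * exp (2 * s)) (Ioi 0) := by
    intro x hx y hy h
    have h' : x ^ 2 = y ^ 2 := mul_right_cancel₀ (exp_pos _).ne' h
    exact (pow_left_inj₀ (le_of_lt hx) (le_of_lt hy) two_ne_zero).1 h'
  conv_lhs => rw [← himg]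
  rw [lintegral_image_eq_lintegral_abs_deriv_mul measurableSet_Ioi hder hinj]
  refine setLIntegral_congr_fun measurableSet_Ioi fun r hr => ?_
  have hr' : (0:ℝ) < r := hr
  have he : exp (2 * s) * exp (-(4 * s)) = exp (-(2 * s)) := by
    rw [← Real.exp_add]; congr 1; ring
  have he2 : exp (2 * s) * exp (-(2 * s)) = 1 := by
    rw [← Real.exp_add]; simp
  rw [← mul_assoc, ← ENNReal.ofReal_mul (abs_nonneg _), abs_of_pos (by positivity),
    mul_assoc (r ^ 2) (exp (2 * s)), he]
  congr 2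
  calc 2 * r * exp (2 * s) * (4 * (r ^ 2 * exp (2 * s)) * exp (-(4 * s)))
      = 8 * r ^ 3 * (exp (2 * s) * (exp (2 * s) * exp (-(4 * s)))) := by ring
    _ = 8 * r ^ 3 := by rw [he, he2, mul_one]

end Pool.Agent.Lib.MP_242fd5_gt
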