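import Pool.Agent.Lib.MP_242fd5_gt.Section

set_option autoImplicit false

namespace Pool.Agent.Lib.MP_242fd5_gt

open MeasureTheory Set Real
open scoped ENNReal

/-- the denominator of the kernel -/
noncomputable def mx (a b t : ℝ) : ℝ := max (a * exp (-t)) (b * exp t)

lemma mx_pos {a b : ℝ} (ha : 0 ≤ a) (_hb : 0 ≤ b) (hab : 0 < a + b) (t : ℝ) : 0 < mx a b t := by
  unfold mx
  rcases ha.eq_or_lt with h | h
  · have : 0 < b := by linarith
    exact lt_max_of_lt_right (by positivity)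
  · exact lt_max_of_lt_left (by positivity)

lemma continuous_sqA : Continuous sqA := by unfold sqA; fun_prop
lemma continuous_sqB : Continuous sqB := by unfold sqB; fun_prop

lemma slab_volume {A B r s : ℝ} (hA : 0 ≤ A) (hB : 0 ≤ B) (hAB : A + B = 1) (hr : 0 < r) :
    volume {t : ℝ | B * t ^ 2 < r ^ 2 * exp (2 * s) ∧ A * t ^ 2 < r ^ 2 * exp (-(2 * s))} =
      ENNReal.ofReal (2 * r / mx (√B) (√A) s) := by
  have hab : 0 < √B + √A := by
    rcases hA.eq_or_lt with h | h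
    · have : 0 < B := by linarith
      have := Real.sqrt_pos.2 this
      have := Real.sqrt_nonneg A
      linarith
    · have := Real.sqrt_pos.2 h
      have := Real.sqrt_nonneg B
      linarith
  have hM := mx_pos (Real.sqrt_nonneg B) (Real.sqrt_nonneg A) hab s
  have key : ∀ (C e t : ℝ), 0 ≤ C → (C * t ^ 2 < r ^ 2 * exp (2 * e) ↔
      |t| * (√C * exp (-e)) < r) := by
    intro C e t hC
    have h1 : C * t ^ 2 = (√C * |t|) ^ 2 := by rw [mul_pow, Real.sq_sqrt hC, sq_abs]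
    have h2 : r ^ 2 * exp (2 * e) = (r * exp e) ^ 2 := by
      rw [mul_pow, ← Real.exp_nat_mul]; norm_num
    rw [h1, h2, pow_lt_pow_iff_left₀ (by positivity) (by positivity) two_ne_zero, Real.exp_neg,
      ← div_eq_mul_inv, ← mul_div_assoc, div_lt_iff₀ (exp_pos e), mul_comm]
  have : {t : ℝ | B * t ^ 2 < r ^ 2 * exp (2 * s) ∧ A * t ^ 2 < r ^ 2 * exp (-(2 * s))} =
      Ioo (-(r / mx (√B) (√A) s)) (r / mx (√B) (√A) s) := by
    ext t
    rw [mem_ofPred_eq, key B s t hB, show -(2 * s) = 2 * (-s) by ring, key A (-s) t hA, neg_neg,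
      mem_Ioo, ← abs_lt, lt_div_iff₀ hM, mx, mul_max_of_nonneg _ _ (abs_nonneg t), max_lt_iff]
  rw [this, Real.volume_Ioo]
  congr 1; ring

lemma section_lintegral (D : Set (ℝ × ℝ)) (hD : MeasurableSet D) (ξ : E 6) (hξ : ‖ξ‖ = 1) :
    volume {x : (ℝ ∙ ξ)ᗮ | (x : E 6) ∈ {x : E 6 | (sqA x, sqB x) ∈ D}} =
      ENNReal.ofReal π * ENNReal.ofReal π * ∫⁻ P in Ioi (0:ℝ), ∫⁻ Q in Ioi (0:ℝ),
        D.indicator 1 (P, Q) * volume {t : ℝ | sqB ξ * t ^ 2 < P ∧ sqA ξ * t ^ 2 < Q} := by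
  have hAB : sqA ξ + sqB ξ = 1 := by rw [← norm_sq_six, hξ]; norm_num
  obtain ⟨Ψ, hΨ, hΨ2⟩ := exists_iso ξ hAB
  have hL : MeasurableSet {x : E 6 | (sqA x, sqB x) ∈ D} :=
    hD.preimage (continuous_sqA.prodMk continuous_sqB).measurable
  have hne : ξ ≠ 0 := by rintro rfl; simp at hξ
  rw [section_eq_preimage _ hL ξ hne Ψ hΨ]
  set A := sqA ξ
  set B := sqB ξ
  have hA : 0 ≤ A := sqA_nonneg ξ
  have hB : 0 ≤ B := sqB_nonneg ξ
  let S : Set (ℝ × ((ℝ × ℝ) × (ℝ × ℝ))) := {w | (B * w.1 ^ 2 + w.2.1.1 ^ 2 + w.2.1.2 ^ 2,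
    A * w.1 ^ 2 + w.2.2.1 ^ 2 + w.2.2.2 ^ 2) ∈ D}
  have hS : MeasurableSet S := hD.preimage (by fun_prop)
  have h1 : Ψ ⁻¹' {x : E 6 | (sqA x, sqB x) ∈ D} =
      (fun y : E 5 => ((y 0, ((y 1, y 2), (y 3, y 4))) : ℝ × ((ℝ × ℝ) × (ℝ × ℝ)))) ⁻¹' S := by
    ext y
    simp only [mem_preimage, mem_ofPred_eq, S, (hΨ2 y).1, (hΨ2 y).2]
  rw [h1, mp_five.measure_preimage hS.nullMeasurableSet, ← lintegral_indicator_one hS,
    Measure.volume_eq_prod, lintegral_prod _ (measurable_one.indicator hS).aemeasurable]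
  have hDi : Measurable (D.indicator (1 : ℝ × ℝ → ℝ≥0∞)) := measurable_one.indicator hD
  have h2 : ∀ t : ℝ, ∫⁻ y : (ℝ × ℝ) × (ℝ × ℝ), S.indicator (1 : ℝ × ((ℝ × ℝ) × (ℝ × ℝ)) → ℝ≥0∞) (t, y) =
      ENNReal.ofReal π * ENNReal.ofReal π * ∫⁻ P, ∫⁻ Q,
        D.indicator 1 (P, Q) * {t : ℝ | B * t ^ 2 < P ∧ A * t ^ 2 < Q}.indicator 1 t := by
    intro t
    have h3 : ∀ y : (ℝ × ℝ) × (ℝ × ℝ), S.indicator (1 : ℝ × ((ℝ × ℝ) × (ℝ × ℝ)) → ℝ≥0∞) (t, y) =
        D.indicator 1 (B * t ^ 2 + y.1.1 ^ 2 + y.1.2 ^ 2, A * t ^ 2 + y.2.1 ^ 2 + y.2.2 ^ 2) :=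
      fun y => rfl
    simp_rw [h3]
    rw [Measure.volume_eq_prod, lintegral_prod _ (Measurable.aemeasurable (by fun_prop))]
    have h4 : ∀ P : ℝ, ∫⁻ z : ℝ × ℝ, D.indicator (1 : ℝ × ℝ → ℝ≥0∞)
        (P, A * t ^ 2 + z.1 ^ 2 + z.2 ^ 2) =
        ENNReal.ofReal π * ∫⁻ Q in Ioi (A * t ^ 2), D.indicator 1 (P, Q) := fun P =>
      polar_sq (fun Q => D.indicator 1 (P, Q)) (by fun_prop) _
    simp_rw [h4]
    have hm : Measurable fun P : ℝ => ∫⁻ Q in Ioi (A * t ^ 2), D.indicator (1 : ℝ × ℝ → ℝ≥0∞) (P, Q) :=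
      Measurable.lintegral_prod_right (f := fun P Q => D.indicator (1 : ℝ × ℝ → ℝ≥0∞) (P, Q)) hDi
    rw [polar_sq (fun P => ENNReal.ofReal π * ∫⁻ Q in Ioi (A * t ^ 2), D.indicator 1 (P, Q))
      (hm.const_mul _), lintegral_const_mul _ hm, mul_assoc]
    congr 2
    rw [← lintegral_indicator measurableSet_Ioi]
    refine lintegral_congr fun P => ?_
    by_cases hP : B * t ^ 2 < P
    · rw [indicator_of_mem (show P ∈ Ioi (B * t ^ 2) from hP),
        ← lintegral_indicator measurableSet_Ioi]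
      refine lintegral_congr fun Q => ?_
      by_cases hQ : A * t ^ 2 < Q
      · rw [indicator_of_mem (show Q ∈ Ioi (A * t ^ 2) from hQ),
          indicator_of_mem (show t ∈ {t : ℝ | B * t ^ 2 < P ∧ A * t ^ 2 < Q} from ⟨hP, hQ⟩)]
        simp
      · rw [indicator_of_notMem (show Q ∉ Ioi (A * t ^ 2) from hQ),
          indicator_of_notMem (show t ∉ {t : ℝ | B * t ^ 2 < P ∧ A * t ^ 2 < Q} from
            fun h => hQ h.2)]
        simp
    · rw [indicator_of_notMem (show P ∉ Ioi (B * t ^ 2) from hP)]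
      symm
      rw [← lintegral_zero (μ := (volume : Measure ℝ))]
      refine lintegral_congr fun Q => ?_
      rw [indicator_of_notMem (show t ∉ {t : ℝ | B * t ^ 2 < P ∧ A * t ^ 2 < Q} from
            fun h => hP h.1)]
      simp
  simp_rw [h2]
  have hT : MeasurableSet {w : ℝ × ℝ × ℝ | B * w.1 ^ 2 < w.2.1 ∧ A * w.1 ^ 2 < w.2.2} :=
    MeasurableSet.inter (s₁ := {w : ℝ × ℝ × ℝ | B * w.1 ^ 2 < w.2.1})
      (s₂ := {w : ℝ × ℝ × ℝ | A * w.1 ^ 2 < w.2.2})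
      (measurableSet_lt (by fun_prop) (by fun_prop))
      (measurableSet_lt (by fun_prop) (by fun_prop))
  have hF : Measurable fun w : ℝ × ℝ × ℝ => D.indicator (1 : ℝ × ℝ → ℝ≥0∞) (w.2.1, w.2.2) *
      {t : ℝ | B * t ^ 2 < w.2.1 ∧ A * t ^ 2 < w.2.2}.indicator (1 : ℝ → ℝ≥0∞) w.1 :=
    (hDi.comp (by fun_prop)).mul (measurable_one.indicator hT)
  have hF2 : Measurable fun w : ℝ × ℝ => ∫⁻ Q, D.indicator (1 : ℝ × ℝ → ℝ≥0∞) (w.2, Q) *
      {t : ℝ | B * t ^ 2 < w.2 ∧ A * t ^ 2 < Q}.indicator (1 : ℝ → ℝ≥0∞) w.1 :=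
    Measurable.lintegral_prod_right (f := fun (w : ℝ × ℝ) (Q : ℝ) =>
      D.indicator (1 : ℝ × ℝ → ℝ≥0∞) (w.2, Q) *
      {t : ℝ | B * t ^ 2 < w.2 ∧ A * t ^ 2 < Q}.indicator (1 : ℝ → ℝ≥0∞) w.1)
      (hF.comp (f := fun v : (ℝ × ℝ) × ℝ => (v.1.1, v.1.2, v.2)) (by fun_prop))
  rw [lintegral_const_mul _ (Measurable.lintegral_prod_right (f := fun (t P : ℝ) => ∫⁻ Q,
      D.indicator (1 : ℝ × ℝ → ℝ≥0∞) (P, Q) *
      {t : ℝ | B * t ^ 2 < P ∧ A * t ^ 2 < Q}.indicator (1 : ℝ → ℝ≥0∞) t) hF2)]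
  congr 1
  rw [lintegral_lintegral_swap hF2.aemeasurable, ← lintegral_indicator measurableSet_Ioi]
  refine lintegral_congr fun P => ?_
  have hF3 : Measurable (Function.uncurry fun (t Q : ℝ) =>
      D.indicator (1 : ℝ × ℝ → ℝ≥0∞) (P, Q) *
      {t : ℝ | B * t ^ 2 < P ∧ A * t ^ 2 < Q}.indicator (1 : ℝ → ℝ≥0∞) t) :=
    hF.comp (f := fun v : ℝ × ℝ => (v.1, P, v.2)) (by fun_prop)
  rw [lintegral_lintegral_swap hF3.aemeasurable]
  have h5 : ∀ Q : ℝ, ∫⁻ t : ℝ, D.indicator (1 : ℝ × ℝ → ℝ≥0∞) (P, Q) *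
      {t : ℝ | B * t ^ 2 < P ∧ A * t ^ 2 < Q}.indicator (1 : ℝ → ℝ≥0∞) t =
      D.indicator (1 : ℝ × ℝ → ℝ≥0∞) (P, Q) * volume {t : ℝ | B * t ^ 2 < P ∧ A * t ^ 2 < Q} := by
    intro Q
    have hs : MeasurableSet {t : ℝ | B * t ^ 2 < P ∧ A * t ^ 2 < Q} :=
      MeasurableSet.inter (s₁ := {t : ℝ | B * t ^ 2 < P}) (s₂ := {t : ℝ | A * t ^ 2 < Q})
        (measurableSet_lt (by fun_prop) (by fun_prop))
        (measurableSet_lt (by fun_prop) (by fun_prop))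
    rw [lintegral_const_mul _ (measurable_one.indicator hs), lintegral_indicator_one hs]
  simp_rw [h5]
  by_cases hP : 0 < P
  · rw [indicator_of_mem (show P ∈ Ioi (0:ℝ) from hP), ← lintegral_indicator measurableSet_Ioi]
    refine lintegral_congr fun Q => ?_
    by_cases hQ : 0 < Q
    · rw [indicator_of_mem (show Q ∈ Ioi (0:ℝ) from hQ)]
    · rw [indicator_of_notMem (show Q ∉ Ioi (0:ℝ) from hQ)]
      have : {t : ℝ | B * t ^ 2 < P ∧ A * t ^ 2 < Q} = ∅ := by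
        ext t
        simp only [mem_ofPred_eq, mem_empty_iff_false, iff_false, not_and, not_lt]
        intro _
        have : 0 ≤ A * t ^ 2 := by positivity
        linarith [not_lt.1 hQ]
      simp [this]
  · rw [indicator_of_notMem (show P ∉ Ioi (0:ℝ) from hP), ← lintegral_zero (μ := (volume : Measure ℝ))]
    refine lintegral_congr fun Q => ?_
    have : {t : ℝ | B * t ^ 2 < P ∧ A * t ^ 2 < Q} = ∅ := by
      ext t
      simp only [mem_ofPred_eq, mem_empty_iff_false, iff_false, not_and, not_lt]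
      intro h
      have : 0 ≤ B * t ^ 2 := by positivity
      linarith [not_lt.1 hP]
    simp [this]

lemma measurable_mx (a b : ℝ) : Continuous (mx a b) := by unfold mx; fun_prop

theorem sectionVol_eq (D : Set (ℝ × ℝ)) (hD : MeasurableSet D) (u : ℝ → ℝ) (hu : Measurable u)
    (hu0 : ∀ s, 0 ≤ u s)
    (hDu : ∀ r, 0 < r → ∀ s, ((r ^ 2 * exp (2 * s), r ^ 2 * exp (-(2 * s))) ∈ D ↔ r ≤ u s))
    (ξ : E 6) (hξ : ‖ξ‖ = 1) :
    sectionVol {x : E 6 | (sqA x, sqB x) ∈ D} ξ =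
      (16 * π ^ 2 / 5) * ∫ s, u s ^ 5 / mx (√(sqB ξ)) (√(sqA ξ)) s := by
  have hAB : sqA ξ + sqB ξ = 1 := by rw [← norm_sq_six, hξ]; norm_num
  unfold sectionVol
  rw [section_lintegral D hD ξ hξ]
  set A := sqA ξ
  set B := sqB ξ
  have hA : 0 ≤ A := sqA_nonneg ξ
  have hB : 0 ≤ B := sqB_nonneg ξ
  have hab : 0 < √B + √A := by
    rcases hA.eq_or_lt with h | h
    · have : 0 < B := by linarith
      have := Real.sqrt_pos.2 this
      have := Real.sqrt_nonneg A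
      linarith
    · have := Real.sqrt_pos.2 h
      have := Real.sqrt_nonneg B
      linarith
  have hM := mx_pos (Real.sqrt_nonneg B) (Real.sqrt_nonneg A) hab
  have hT : MeasurableSet {w : (ℝ × ℝ) × ℝ | B * w.2 ^ 2 < w.1.1 ∧ A * w.2 ^ 2 < w.1.2} :=
    MeasurableSet.inter (s₁ := {w : (ℝ × ℝ) × ℝ | B * w.2 ^ 2 < w.1.1})
      (s₂ := {w : (ℝ × ℝ) × ℝ | A * w.2 ^ 2 < w.1.2})
      (measurableSet_lt (by fun_prop) (by fun_prop))
      (measurableSet_lt (by fun_prop) (by fun_prop))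
  have hG : Measurable fun w : ℝ × ℝ => D.indicator (1 : ℝ × ℝ → ℝ≥0∞) w *
      volume {t : ℝ | B * t ^ 2 < w.1 ∧ A * t ^ 2 < w.2} :=
    (measurable_one.indicator hD).mul (measurable_measure_prodMk_left hT)
  rw [quad_subst _ hG]
  have h1 : ∀ s : ℝ, ∫⁻ r in Ioi (0:ℝ), ENNReal.ofReal (8 * r ^ 3) *
      (D.indicator (1 : ℝ × ℝ → ℝ≥0∞) (r ^ 2 * exp (2 * s), r ^ 2 * exp (-(2 * s))) *
        volume {t : ℝ | B * t ^ 2 < r ^ 2 * exp (2 * s) ∧ A * t ^ 2 < r ^ 2 * exp (-(2 * s))}) =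
      ENNReal.ofReal (16 / 5 * (u s ^ 5 / mx (√B) (√A) s)) := by
    intro s
    have h2 : ∫⁻ r in Ioi (0:ℝ), ENNReal.ofReal (8 * r ^ 3) *
      (D.indicator (1 : ℝ × ℝ → ℝ≥0∞) (r ^ 2 * exp (2 * s), r ^ 2 * exp (-(2 * s))) *
        volume {t : ℝ | B * t ^ 2 < r ^ 2 * exp (2 * s) ∧ A * t ^ 2 < r ^ 2 * exp (-(2 * s))}) =
        ∫⁻ r in Ioi (0:ℝ), (Iic (u s)).indicator
          (fun r => ENNReal.ofReal (16 / mx (√B) (√A) s * r ^ 4)) r := by
      refine setLIntegral_congr_fun measurableSet_Ioi fun r hr => ?_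
      have hr' : (0:ℝ) < r := hr
      rw [slab_volume hA hB hAB hr']
      by_cases h : r ≤ u s
      · rw [indicator_of_mem ((hDu r hr' s).2 h), indicator_of_mem (show r ∈ Iic (u s) from h),
          Pi.one_apply, one_mul, ← ENNReal.ofReal_mul (by positivity)]
        congr 1; ring
      · rw [indicator_of_notMem (fun h' => h ((hDu r hr' s).1 h')),
          indicator_of_notMem (show r ∉ Iic (u s) from h)]
        simp
    rw [h2, lintegral_indicator measurableSet_Iic, Measure.restrict_restrict measurableSet_Iic,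
      inter_comm, Ioi_inter_Iic, ← ofReal_integral_eq_lintegral_ofReal]
    · rw [← intervalIntegral.integral_of_le (hu0 s), intervalIntegral.integral_const_mul,
        integral_pow]
      congr 1; ring
    · exact (Continuous.integrableOn_Icc (by fun_prop)).mono_set Ioc_subset_Icc_self
    · refine Filter.Eventually.of_forall fun r => ?_
      have := hM s
      positivity
  simp_rw [h1]
  have h3 : ∫ s, u s ^ 5 / mx (√B) (√A) s =
      (∫⁻ s, ENNReal.ofReal (u s ^ 5 / mx (√B) (√A) s)).toReal := by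
    refine integral_eq_lintegral_of_nonneg_ae (Filter.Eventually.of_forall fun s => ?_) ?_
    · have := hM s
      have := hu0 s
      positivity
    · exact ((hu.pow_const 5).div (measurable_mx _ _).measurable).aestronglyMeasurable
  rw [h3]
  simp_rw [ENNReal.ofReal_mul (show (0:ℝ) ≤ 16 / 5 by norm_num)]
  rw [lintegral_const_mul' _ _ ENNReal.ofReal_ne_top]
  simp only [ENNReal.toReal_mul, ENNReal.toReal_ofReal pi_pos.le,
    ENNReal.toReal_ofReal (show (0:ℝ) ≤ 16 / 5 by norm_num)]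
  ring

end Pool.Agent.Lib.MP_242fd5_gt
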