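import Pool.Agent.Lib.MP_242fd5_gt.Defs

set_option autoImplicit false

namespace Pool.Agent.Lib.MP_242fd5_gt

open MeasureTheory Filter Topology
open scoped symmDiff

variable {n : ℕ}

/-- A centred ellipsoid: an invertible linear image of the closed unit ball. -/
def IsEllipsoid (S : Set (EuclideanSpace ℝ (Fin n))) : Prop :=
  ∃ g : EuclideanSpace ℝ (Fin n) ≃L[ℝ] EuclideanSpace ℝ (Fin n), S = g '' Metric.closedBall 0 1

/-- The Busemann ratio `|I K| / |K| ^ (n - 1)`. -/
noncomputable def busemannRatio (K : Set (EuclideanSpace ℝ (Fin n))) : ℝ :=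
  (volume (interBody K)).toReal / (volume K).toReal ^ (n - 1)

/-- `M 0 = L`, every `M m` is a star body and `I (M (m + 1)) = M m`. -/
def IsBackwardOrbit (L : Set (EuclideanSpace ℝ (Fin n)))
    (M : ℕ → Set (EuclideanSpace ℝ (Fin n))) : Prop :=
  M 0 = L ∧ ∀ m, IsStarBody (M m) ∧ interBody (M (m + 1)) = M m

/-- The Busemann ratios of the `M m` tend to `k ^ (2 - n)` times the ratio of the ball, and `M m`
is, up to a relative volume tending to zero, a union of `k` centred ellipsoids, each of volume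
`|M m| / k`. -/
def SplitsInto (M : ℕ → Set (EuclideanSpace ℝ (Fin n))) (k : ℕ) : Prop :=
  Tendsto (fun m => busemannRatio (M m)) atTop
    (𝓝 (busemannRatio (Metric.closedBall (0 : EuclideanSpace ℝ (Fin n)) 1) / (k : ℝ) ^ (n - 2))) ∧
  ∃ E : ℕ → Fin k → Set (EuclideanSpace ℝ (Fin n)),
    (∀ m i, IsEllipsoid (E m i) ∧ k * volume (E m i) = volume (M m)) ∧
    Tendsto (fun m => (volume (M m ∆ ⋃ i, E m i)).toReal / (volume (M m)).toReal) atTop (𝓝 0)

/-- `L` has a backward orbit that splits into `k` ellipsoids (`k` finite, `k ≥ 1`), or whose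
Busemann ratios tend to zero (`k = ∞`). -/
def HasType (L : Set (EuclideanSpace ℝ (Fin n))) (k : ℕ∞) : Prop :=
  ∃ M, IsBackwardOrbit L M ∧ ((∃ j : ℕ, 1 ≤ j ∧ k = j ∧ SplitsInto M j) ∨
    (k = ⊤ ∧ Tendsto (fun m => busemannRatio (M m)) atTop (𝓝 0)))

end Pool.Agent.Lib.MP_242fd5_gt
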