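import Pool.Agent.Lib.MP_242fd5_gt.Z7Mix

set_option autoImplicit false

namespace Pool.Agent.Lib.MP_242fd5_gt.Z

open MeasureTheory Set Real Filter Topology
open scoped ENNReal

variable {p : ℕ} {u v : ℝ → ℝ≥0∞}

noncomputable def x1 (p : ℕ) (u : ℝ → ℝ≥0∞) : ℝ := Classical.epsilon fun x => F p u x = 1 / 4
noncomputable def x3 (p : ℕ) (u : ℝ → ℝ≥0∞) : ℝ := Classical.epsilon fun x => F p u x = 3 / 4
noncomputable def sep (p : ℕ) (u : ℝ → ℝ≥0∞) : ℝ := x3 p u - x1 p u
noncomputable def nu (p : ℕ) (u : ℝ → ℝ≥0∞) : ℝ := F p u ((x1 p u + x3 p u) / 2) - 1 / 2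

lemma Good.x1_spec (h : Good p u) : F p u (x1 p u) = 1 / 4 :=
  Classical.epsilon_spec (h.quantile (by norm_num) (by norm_num))

lemma Good.x3_spec (h : Good p u) : F p u (x3 p u) = 3 / 4 :=
  Classical.epsilon_spec (h.quantile (by norm_num) (by norm_num))

theorem good_step (hp : 2 ≤ p) : ∃ C e0 : ℝ, 1 ≤ C ∧ 0 < e0 ∧ ∀ e, 0 < e → ∃ H D : ℝ, 0 ≤ D ∧
    ∀ u, Good p u → (sig p).toReal * (1 / 2) ^ (p - 1) ≤ (N p (T p u)).toReal →
      nu p u ^ 2 + e ≤ e0 → 4 * D ≤ sep p u →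
      F p u (x1 p u - H) ≤ C * (nu p u ^ 2 + e) ∧
      (N p (T p u)).toReal ≤ (sig p).toReal * (1 / 2) ^ (p - 1) + C * (nu p u ^ 2 + e) ∧
      |x1 p u + x3 p (step p u)| ≤ D ∧ |x3 p u + x1 p (step p u)| ≤ D ∧
      (∀ ε : ℝ, ε = 1 ∨ ε = -1 → 0 ≤ ε * nu p u →
        2 * (ε * nu p u) - C * (nu p u ^ 2 + e) ≤ -ε * nu p (step p u)) ∧
      |nu p (step p u)| ≤ 2 ^ p * |nu p u| + C * (nu p u ^ 2 + e) := by
  obtain ⟨q, rfl⟩ : ∃ q, p = q + 1 := ⟨p - 1, by omega⟩
  have hσ0 : 0 < (sig (q + 1)).toReal := ENNReal.toReal_pos (sig_pos _).ne' (sig_lt_top hp).ne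
  obtain ⟨C, e0, hC, he0, h⟩ := two_step q (by omega) hσ0
  refine ⟨C, e0, hC, he0, fun e he => ?_⟩
  obtain ⟨W, L, hW, hL, hLe, hP⟩ := exists_pair hp he
  refine ⟨2 * W * L, 2 * W * L + W, by positivity, fun u hu hφ hν hs => ?_⟩
  have hs' := hu.step hp
  obtain ⟨k1, k2, k3, k4, k5, k6, k7⟩ := h _ e W L _ _ (x1 _ u) (x3 _ u) (nu _ u)
    (-x3 _ (step _ u)) (-x1 _ (step _ u)) (-nu _ (step _ u)) he hW hL hLe (hP u hu) hφ hu.x1_spec
    hu.x3_spec (by unfold nu; ring) hν hs (by simp only [neg_neg]; rw [hs'.x3_spec]; norm_num)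
    (by simp only [neg_neg]; rw [hs'.x1_spec]; norm_num) (by
      unfold nu
      rw [show -((-x3 (q + 1) (step (q + 1) u) + -x1 (q + 1) (step (q + 1) u)) / 2) =
        (x1 (q + 1) (step (q + 1) u) + x3 (q + 1) (step (q + 1) u)) / 2 by ring]
      ring)
  refine ⟨k1, k2, ?_, ?_, ?_, by rwa [abs_neg] at k7⟩
  · rwa [← abs_neg, neg_sub, sub_neg_eq_add] at k3
  · rwa [← abs_neg, neg_sub, sub_neg_eq_add] at k4
  · rintro ε (rfl | rfl) h0
    · linarith [k5 (by linarith)]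
    · linarith [k6 (by linarith)]

theorem fam_limit (hp : 2 ≤ p) {E Γ : ℝ≥0∞} (hE : E ≠ 0) (hΓ : Γ ≠ ∞) {D R0 R1 : ℝ}
    (U : ℕ → ℝ → ℝ≥0∞) (n : ℕ → ℕ) (hg : ∀ k, Good p (U k)) (hφ : ∀ k, E ≤ N p (T p (U k)))
    (hn : ∀ k, k ≤ n k)
    (hb : ∀ k, ∀ j ≤ n k, ∀ t, (step p)^[j] (U k) t ≤ Γ * ex (t - x1 p ((step p)^[j] (U k))))
    (hD : ∀ k, ∀ j < n k, |x1 p ((step p)^[j] (U k)) + x3 p ((step p)^[j + 1] (U k))| ≤ D ∧
      |x3 p ((step p)^[j] (U k)) + x1 p ((step p)^[j + 1] (U k))| ≤ D)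
    (hs : ∀ k, R0 ≤ sep p ((step p)^[n k] (U k)) ∧ sep p ((step p)^[n k] (U k)) ≤ R1) :
    ∃ w : ℕ → ℝ → ℝ≥0∞, (∀ m, Good p (w m) ∧ w m = step p (w (m + 1))) ∧
      1 / 4 ≤ F p (w 0) (-(R0 / 2)) ∧ F p (w 0) (R0 / 2) ≤ 3 / 4 := by
  obtain ⟨w, φ, hφm, hw, hcv⟩ := extract2 hp hE hΓ U n
    (fun k => (x1 p ((step p)^[n k] (U k)) + x3 p ((step p)^[n k] (U k))) / 2)
    (fun k j => x1 p ((step p)^[j] (U k))) (fun m => R1 / 2 + 2 * (m * D)) hg hφ
    (tendsto_atTop_mono hn tendsto_id) hb (fun k m hm => by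
      have h1 := alt_bound (y := fun j => x1 p ((step p)^[j] (U k)) + x3 p ((step p)^[j] (U k)))
        (n := n k) (ε := -1) (D := 2 * D) (by simp) (fun j hj => by
          obtain ⟨a, b⟩ := hD k j hj
          rw [abs_le] at a b ⊢
          constructor <;> linarith [a.1, a.2, b.1, b.2]) m hm
      have h2 := alt_bound (y := fun j => sep p ((step p)^[j] (U k)))
        (n := n k) (ε := 1) (D := 2 * D) (by simp) (fun j hj => by
          obtain ⟨a, b⟩ := hD k j hj
          rw [abs_le] at a b ⊢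
          unfold sep
          constructor <;> linarith [a.1, a.2, b.1, b.2]) m hm
      have h3 := (hs k).2
      rw [one_pow, abs_le] at h2
      rw [abs_le] at h1
      unfold sep at h2 h3
      linarith [h1.1, h2.2])
  refine ⟨w, hw, ge_of_tendsto' (hcv.F hp (hw 0).1 _) fun k => ?_,
    le_of_tendsto' (hcv.F hp (hw 0).1 _) fun k => ?_⟩
  · have g := (hg (φ k)).iter hp (n (φ k))
    have h1 := (hs (φ k)).1
    unfold sep at h1
    rw [F_shift, ← g.x1_spec]
    exact g.F_mono (by linarith)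
  · have g := (hg (φ k)).iter hp (n (φ k))
    have h1 := (hs (φ k)).1
    unfold sep at h1
    rw [F_shift, ← g.x3_spec]
    exact g.F_mono (by linarith)

/-- the initial quantiles -/
lemma tb_init (hp : 2 ≤ p) (h : Good p v) {e Z R θ : ℝ} (he : e ≤ 1 / 16) (h1 : F p v (-Z) ≤ e)
    (h2 : 1 - e ≤ F p v Z) (hR : 2 * Z ≤ R) (hZ : 0 ≤ Z) (hθ : |θ - 1 / 2| ≤ 1 / 8) :
    |x1 p (tb p v R θ) + R| ≤ Z ∧ |x3 p (tb p v R θ) - R| ≤ Z ∧
      |nu p (tb p v R θ) - (θ - 1 / 2)| ≤ e := by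
  obtain ⟨t1, t2⟩ := abs_le.1 hθ
  have h0 : 0 ≤ θ := by linarith
  have h3 : θ ≤ 1 := by linarith
  have g : Good p (tb p v R θ) := h.tb hp h0 h3
  have f := h.F_tb (R := R) hp h0 h3
  have nn : ∀ y, 0 ≤ F p v y := fun y => ms_nonneg _
  have le1 : ∀ y, F p v y ≤ 1 := fun y => h.ms_le _
  have lo : ∀ y, y ≤ -Z → F p v y ≤ e := fun y hy => (h.F_mono hy).trans h1
  have hi : ∀ y, Z ≤ y → 1 - e ≤ F p v y := fun y hy => h2.trans (h.F_mono hy)
  have lt : ∀ a b : ℝ, F p (tb p v R θ) a < F p (tb p v R θ) b → a ≤ b := fun a b hab =>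
    (g.F_mono.reflect_lt hab).le
  have he0 : 0 ≤ e := (nn _).trans h1
  have a1 : -R - Z ≤ x1 p (tb p v R θ) := lt _ _ (by
    rw [g.x1_spec, f]
    nlinarith [lo (-R - Z + R) (by linarith), lo (-R - Z + -R) (by linarith)])
  have a2 : x1 p (tb p v R θ) ≤ -R + Z := lt _ _ (by
    rw [g.x1_spec, f]
    nlinarith [hi (-R + Z + R) (by linarith), nn (-R + Z + -R)])
  have a3 : R - Z ≤ x3 p (tb p v R θ) := lt _ _ (by
    rw [g.x3_spec, f]
    nlinarith [le1 (R - Z + R), lo (R - Z + -R) (by linarith)])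
  have a4 : x3 p (tb p v R θ) ≤ R + Z := lt _ _ (by
    rw [g.x3_spec, f]
    nlinarith [hi (R + Z + R) (by linarith), hi (R + Z + -R) (by linarith)])
  refine ⟨abs_le.2 ⟨by linarith, by linarith⟩, abs_le.2 ⟨by linarith, by linarith⟩, ?_⟩
  unfold nu
  rw [f, abs_le]
  set m := (x1 p (tb p v R θ) + x3 p (tb p v R θ)) / 2 with hm
  have b1 := hi (m + R) (by linarith)
  have b2 := le1 (m + R)
  have b3 := lo (m + -R) (by linarith)
  have b4 := nn (m + -R)
  constructor <;> nlinarith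

lemma iter_pos (hp : 2 ≤ p) (h : Good p u) (hpos : ∀ s, 0 < u s) (j : ℕ) (s : ℝ) :
    0 < (step p)^[j] u s := by
  induction j generalizing s with
  | zero => exact hpos s
  | succ j ih =>
    rw [Function.iterate_succ_apply']
    exact (h.iter hp j).step_pos hp (a := 0) (fun t _ => ih t) s

lemma cont_family (hp : 2 ≤ p) {U : ℝ → ℝ → ℝ≥0∞} (hg : ∀ x, Good p (U x))
    (hpos : ∀ x s, 0 < U x s) (hcv : ∀ x, Cv p (𝓝 x) U (U x)) :
    Continuous (fun x => sep p (U x)) ∧ Continuous fun x => nu p (U x) := by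
  have hF : ∀ y, Continuous fun x => F p (U x) y := fun y =>
    continuous_iff_continuousAt.2 fun x => (hcv x).F hp (hg x) y
  have h1 : Continuous fun x => x1 p (U x) := continuous_quantile (fun x => F p (U x)) _
    (fun x => (hg x).F_strict (hpos x)) (fun x => (hg x).x1_spec) hF
  have h3 : Continuous fun x => x3 p (U x) := continuous_quantile (fun x => F p (U x)) _
    (fun x => (hg x).F_strict (hpos x)) (fun x => (hg x).x3_spec) hF
  refine ⟨h3.sub h1, Continuous.sub ?_ continuous_const⟩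
  have hm : Continuous fun x => (x1 p (U x) + x3 p (U x)) / 2 := by fun_prop
  rw [OrderTopology.continuous_iff]
  intro a
  constructor
  · refine isOpen_iff_mem_nhds.2 fun x hx => ?_
    obtain ⟨y, hy1, hy2⟩ := (((hg x).F_cont.tendsto _).eventually
      (Ioi_mem_nhds (show a < _ from hx))).exists_lt
    filter_upwards [(hF y).continuousAt.eventually (Ioi_mem_nhds (show a < F p (U x) y from hy2)),
      hm.continuousAt.eventually (Ioi_mem_nhds hy1)] with z h4 h5
    exact lt_of_lt_of_le h4 ((hg z).F_mono (le_of_lt h5))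
  · refine isOpen_iff_mem_nhds.2 fun x hx => ?_
    obtain ⟨y, hy1, hy2⟩ := (((hg x).F_cont.tendsto _).eventually
      (Iio_mem_nhds (show _ < a from hx))).exists_gt
    filter_upwards [(hF y).continuousAt.eventually (Iio_mem_nhds (show F p (U x) y < a from hy2)),
      hm.continuousAt.eventually (Iio_mem_nhds hy1)] with z h4 h5
    exact lt_of_le_of_lt ((hg z).F_mono (le_of_lt h5)) h4

lemma no_escape {ν : ℕ → ℝ} {C e δ : ℝ} (hCe : 0 < C * e) (hδ : C * δ ≤ 1 / 4) (hC : 0 ≤ C)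
    (hb : ∀ j, |ν j| ≤ δ) (h : ∀ j, 2 * |ν j| - C * (ν j ^ 2 + e) ≤ |ν (j + 1)|) :
    |ν 0| ≤ 4 * (C * e) := by
  by_contra h0
  push Not at h0
  have h1 : ∀ j : ℕ, (4 + j) * (C * e) ≤ |ν j| := by
    intro j
    induction j with
    | zero => simpa using h0.le
    | succ j ih =>
      have h2 := h j
      have h3 : C * ν j ^ 2 ≤ |ν j| / 4 := by
        rw [← sq_abs, sq, ← mul_assoc]
        nlinarith [abs_nonneg (ν j), mul_le_mul_of_nonneg_left (hb j) hC]
      have h4 : (0:ℝ) ≤ j * (C * e) := by positivity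
      push_cast
      nlinarith
  obtain ⟨j, hj⟩ := exists_nat_gt (δ / (C * e))
  rw [div_lt_iff₀ hCe] at hj
  nlinarith [h1 j, hb j]

theorem exists_far (hp : 2 ≤ p) (S : ℝ) : ∃ w : ℕ → ℝ → ℝ≥0∞,
    (∀ m, Good p (w m) ∧ w m = step p (w (m + 1))) ∧
      1 / 4 ≤ F p (w 0) (-S) ∧ F p (w 0) S ≤ 3 / 4 := by
  obtain ⟨v, gv, hvpos, hvmax⟩ := exists_max hp
  obtain ⟨Cv, hCv, hdv⟩ := gv.dom
  obtain ⟨C, e0, hC, he0, hstep⟩ := good_step hp
  set E0 := (sig p).toReal * (1 / 2) ^ (p - 1) with hE0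
  have hE0p : 0 < E0 :=
    mul_pos (ENNReal.toReal_pos (sig_pos p).ne' (sig_lt_top hp).ne) (by positivity)
  have hE : ENNReal.ofReal E0 ≠ 0 := (ENNReal.ofReal_pos.2 hE0p).ne'
  have hκ := root_ne_top hE p
  set κ := (ENNReal.ofReal E0)⁻¹ ^ (1 / ((p:ℝ) + 1)) with hκdef
  obtain ⟨H0, D, hD, hcrude⟩ := hstep (e0 / 2) (by positivity)
  obtain ⟨CM, hCM, hsup⟩ := sup_orbit hp hκ
  obtain ⟨ε, hε, htail⟩ := tail_orbit hp (M := CM + Cv) (ENNReal.add_ne_top.2 ⟨hCM, hCv⟩) hκ (2 * D)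
  obtain ⟨δ, hδ, d1, d2, d3⟩ : ∃ δ : ℝ, 0 < δ ∧ C * δ ≤ 1 / 4 ∧ δ ≤ e0 / 2 ∧ δ ≤ ε :=
    ⟨min (1 / (4 * C)) (min (e0 / 2) ε), by positivity, by
      have := min_le_left (1 / (4 * C)) (min (e0 / 2) ε)
      rw [le_div_iff₀ (by positivity)] at this
      linarith, (min_le_right _ _).trans (min_le_left _ _),
      (min_le_right _ _).trans (min_le_right _ _)⟩
  have d4 : δ ≤ 1 / 4 := by nlinarith
  set δ1 := δ / 2 ^ (p + 1) with hδ1
  have hδ1p : 0 < δ1 := by positivity
  have d5 : 2 ^ p * δ1 = δ / 2 := by rw [hδ1, pow_succ]; field_simp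
  have d6 : δ1 ≤ δ / 8 := by
    have : (2:ℝ) ^ 2 ≤ 2 ^ p := pow_le_pow_right₀ (by norm_num) hp
    nlinarith
  have sq1 : ∀ x : ℝ, |x| ≤ δ → C * x ^ 2 ≤ |x| / 4 ∧ x ^ 2 ≤ e0 / 2 := fun x hx => by
    rw [← sq_abs, sq]
    constructor
    · nlinarith [abs_nonneg x, mul_le_mul_of_nonneg_left hx (show 0 ≤ C by linarith)]
    · nlinarith [abs_nonneg x]
  set e1 := δ1 / (2 * C) with he1
  have he1p : 0 < e1 := by positivity
  have d7 : C * e1 = δ1 / 2 := by rw [he1]; field_simp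
  have d8 : e1 ≤ e0 / 2 := by nlinarith
  obtain ⟨H, D1, hD1, hfine⟩ := hstep e1 he1p
  obtain ⟨C1, hC1, htail⟩ := htail H
  obtain ⟨Z, hZ, hZ1, hZ2⟩ := gv.tails (e := δ / 4) (by positivity)
  set R0 := 4 * D + 4 * D1 + 2 * |S| with hR0
  have hS := abs_nonneg S
  -- consequences of a controlled orbit
  have ctrl : ∀ (U : ℝ → ℝ≥0∞) (n : ℕ) (Γ : ℝ≥0∞), Γ ≠ ∞ → Good p U →
      E0 ≤ (N p (T p U)).toReal → (∀ t, U t ≤ Cv) →
      (∀ j ≤ n, R0 ≤ sep p ((step p)^[j] U) ∧ |nu p ((step p)^[j] U)| ≤ δ1) →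
      (∀ j ≤ 1, ∀ t, (step p)^[j] U t ≤ Γ * ex (t - x1 p ((step p)^[j] U))) →
      (∀ j ≤ n, ∀ t, (step p)^[j] U t ≤ (C1 + Γ) * ex (t - x1 p ((step p)^[j] U))) ∧
      ∀ j ≤ n, |x1 p ((step p)^[j] U) + x3 p ((step p)^[j + 1] U)| ≤ D ∧
        |x3 p ((step p)^[j] U) + x1 p ((step p)^[j + 1] U)| ≤ D := by
    intro U n Γ hΓ g hφ hU hc h0
    have hφ1 : ∀ j, E0 ≤ (N p (T p ((step p)^[j] U))).toReal := fun j =>
      hφ.trans (ENNReal.toReal_mono ((g.iter hp j).phi_ne_top hp) (g.phi_iter hp j))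
    have hk : ∀ j, kap p ((step p)^[j] U) ≤ κ := fun j =>
      kap_le (ENNReal.ofReal_le_of_le_toReal (hφ1 j))
    have hsp : ∀ j ≤ n, |x1 p ((step p)^[j] U) + x3 p ((step p)^[j + 1] U)| ≤ D ∧
        |x3 p ((step p)^[j] U) + x1 p ((step p)^[j + 1] U)| ≤ D := by
      intro j hj
      obtain ⟨-, -, k3, k4, -⟩ := hcrude _ (g.iter hp j) (hφ1 j)
        (by linarith [(sq1 _ ((hc j hj).2.trans (by linarith))).2]) (by linarith [(hc j hj).1])
      rw [Function.iterate_succ_apply']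
      exact ⟨k3, k4⟩
    refine ⟨fun j hj t => ?_, hsp⟩
    refine (htail (fun j => (step p)^[j] U) (fun j => kap p ((step p)^[j] U))
      (fun j => x1 p ((step p)^[j] U)) n Γ hΓ (fun j => (g.iter hp j).meas) (iter_succ p U) hk
      (fun j t => (hsup (fun j => (step p)^[j] U) (fun j => kap p ((step p)^[j] U)) Cv
        (fun j => (g.iter hp j).meas) (iter_succ p U) hk (fun j => (g.iter hp j).one) hU j t).trans
        (by gcongr; exact mul_le_of_le_one_right' (pow_le_one' (by simp) _)))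
      (fun i hi => ⟨?_, ?_⟩) h0 j hj t).trans
      (by gcongr; exact mul_le_of_le_one_right' (pow_le_one' (by simp) _))
    · rw [(g.iter hp i).ofReal_F]
      have k0 := (hc i (by omega)).2
      have k1 := sq1 _ (k0.trans (by linarith))
      refine ENNReal.ofReal_le_ofReal ((hfine _ (g.iter hp i) (hφ1 i) (by linarith [k1.2])
        (by linarith [(hc i (by omega)).1])).1.trans ?_)
      rw [mul_add]; linarith [k1.1]
    · linarith [(abs_le.1 (hsp i (by omega)).1).1, (abs_le.1 (hsp (i + 1) (by omega)).2).2]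
  -- the shooting
  have shot : ∀ R, 2 * Z + R0 + 1 ≤ R → ∃ θ, |θ - 1 / 2| ≤ 1 / 8 ∧
      ∀ j, (∀ i ≤ j, R0 < sep p ((step p)^[i] (tb p v R θ))) →
        |nu p ((step p)^[j] (tb p v R θ))| ≤ δ1 := by
    intro R hR
    set θ : ℝ → ℝ := fun x => 1 / 2 + δ / 2 * sin x with hθ
    have t0 : ∀ x, |θ x - 1 / 2| ≤ δ / 2 := fun x => by
      rw [hθ]; simp only [add_sub_cancel_left]
      rw [abs_mul, abs_of_pos (by positivity)]
      exact mul_le_of_le_one_right (by positivity) (abs_sin_le_one x)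
    have t1 : ∀ x, 0 < θ x := fun x => by linarith [(abs_le.1 (t0 x)).1]
    have t2 : ∀ x, θ x < 1 := fun x => by linarith [(abs_le.1 (t0 x)).2]
    have g : ∀ x, Good p (tb p v R (θ x)) := fun x => gv.tb hp (t1 x).le (t2 x).le
    have hc : ∀ j, Continuous (fun x => sep p ((step p)^[j] (tb p v R (θ x)))) ∧
        Continuous fun x => nu p ((step p)^[j] (tb p v R (θ x))) := fun j =>
      cont_family hp (fun x => (g x).iter hp j)
        (fun x => iter_pos hp (g x) (tb_pos (t1 x) hvpos) j)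
        (fun x => (gv.cv_tb hp R (by rw [hθ]; fun_prop) (fun x => (t1 x).le) (fun x => (t2 x).le)
          x).iter hp (g x) j)
    have ini := fun x => tb_init hp gv (R := R) (θ := θ x) (by linarith) hZ1 hZ2 (by linarith) hZ.le
      ((t0 x).trans (by linarith))
    have hab : ∀ (j : ℕ) (y : ℝ), |(-1) ^ j * y| = |y| := fun j y => by simp
    obtain ⟨x, hx⟩ := shoot (X := ℝ) (fun j x => sep p ((step p)^[j] (tb p v R (θ x))))
      (fun j x => (-1) ^ j * nu p ((step p)^[j] (tb p v R (θ x)))) (fun j => (hc j).1)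
      (fun j => continuous_const.mul (hc j).2) (R := R0) (δ := δ) hδ1p.le
      (fun x j h1 h2 => by
        rw [hab] at h2
        have k0 := sq1 _ h2.le
        have hφ := (gv.energy_tb (R := R) hp hvpos hvmax (t1 x) (t2 x)).le.trans
          (ENNReal.toReal_mono (((g x).iter hp j).phi_ne_top hp) ((g x).phi_iter hp j))
        obtain ⟨-, -, -, -, k5, k6⟩ := hfine _ ((g x).iter hp j) hφ (by linarith [k0.2])
          (by linarith)
        rw [← Function.iterate_succ_apply' (step p)] at k5 k6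
        simp only [Nat.succ_eq_add_one] at k5 k6
        rw [mul_add] at k6
        simp only [mul_add] at k5
        refine ⟨fun h3 => ?_, fun h3 => ?_, fun h3 => ?_⟩
        · have k7 := k5 ((-1) ^ j) (neg_one_pow_eq_or ℝ j) (by linarith)
          have k8 := hab j (nu p ((step p)^[j] (tb p v R (θ x))))
          rw [abs_of_pos (by linarith)] at k8
          rw [pow_succ]
          linarith [k0.1]
        · have k7 := k5 (-(-1) ^ j) ((neg_one_pow_eq_or ℝ j).symm.imp (fun h => by simp [h])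
            (fun h => by simp [h])) (by linarith)
          have k8 := hab j (nu p ((step p)^[j] (tb p v R (θ x))))
          rw [abs_of_neg (by linarith)] at k8
          rw [pow_succ]
          linarith [k0.1]
        · rw [hab] at h3 ⊢
          have k7 : 2 ^ p * |nu p ((step p)^[j] (tb p v R (θ x)))| ≤ 2 ^ p * δ1 := by gcongr
          linarith [k0.1])
      (fun x => by
        obtain ⟨k1, k2, k3⟩ := ini x
        have k4 := t0 x
        rw [abs_le] at k1 k2 k3 k4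
        simp only [Function.iterate_zero, id, pow_zero, one_mul, sep, abs_lt]
        refine ⟨by linarith [k1.2, k2.1], by linarith [k3.1, k4.1], by linarith [k3.2, k4.2]⟩)
      (π / 2) (-(π / 2))
      (by
        have k3 := (abs_le.1 (ini (π / 2)).2.2).1
        have k4 : θ (π / 2) = 1 / 2 + δ / 2 := by simp [hθ]
        simp only [Function.iterate_zero, id, pow_zero, one_mul]
        linarith)
      (by
        have k3 := (abs_le.1 (ini (-(π / 2))).2.2).2
        have k4 : θ (-(π / 2)) = 1 / 2 - δ / 2 := by simp [hθ]; ring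
        simp only [Function.iterate_zero, id, pow_zero, one_mul]
        linarith)
    exact ⟨θ x, (t0 x).trans (by linarith), fun j hj => by simpa only [hab] using hx j hj⟩
  have tbf : ∀ R θ, |θ - 1 / 2| ≤ 1 / 8 → Good p (tb p v R θ) ∧
      E0 < (N p (T p (tb p v R θ))).toReal ∧ ∀ t, tb p v R θ t ≤ Cv := fun R θ h => by
    obtain ⟨k1, k2⟩ := abs_le.1 h
    exact ⟨gv.tb hp (by linarith) (by linarith), gv.energy_tb hp hvpos hvmax (by linarith)
      (by linarith), fun t => tb_le (by linarith) (by linarith) (hdv.le _) (hdv.le _)⟩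
  suffices h : ∃ w : ℕ → ℝ → ℝ≥0∞, (∀ m, Good p (w m) ∧ w m = step p (w (m + 1))) ∧
      1 / 4 ≤ F p (w 0) (-(R0 / 2)) ∧ F p (w 0) (R0 / 2) ≤ 3 / 4 by
    obtain ⟨w, h1, h2, h3⟩ := h
    have := le_abs_self S
    exact ⟨w, h1, h2.trans ((h1 0).1.F_mono (by linarith)),
      ((h1 0).1.F_mono (by linarith)).trans h3⟩
  by_cases hb : ∃ R θ, |θ - 1 / 2| ≤ 1 / 8 ∧ ∀ j, R0 ≤ sep p ((step p)^[j] (tb p v R θ)) ∧
      |nu p ((step p)^[j] (tb p v R θ))| ≤ δ1
  · obtain ⟨R, θ, hθ, hb⟩ := hb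
    obtain ⟨g, hφ, hU⟩ := tbf R θ hθ
    set U := tb p v R θ
    have hφ1 : ∀ j, (N p (T p U)).toReal ≤ (N p (T p ((step p)^[j] U))).toReal := fun j =>
      ENNReal.toReal_mono ((g.iter hp j).phi_ne_top hp) (g.phi_iter hp j)
    obtain ⟨R1, hR1⟩ : ∃ R1, ∀ k, ∃ n, k ≤ n ∧ sep p ((step p)^[n] U) ≤ R1 := by
      by_contra hcon
      push Not at hcon
      have key : ∀ e, 0 < e → e ≤ e0 / 2 →
          (N p (T p U)).toReal ≤ E0 + C * ((4 * (C * e)) ^ 2 + e) := by
        intro e he he2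
        obtain ⟨H2, D2, -, h2⟩ := hstep e he
        obtain ⟨k, hk⟩ := hcon (4 * D2)
        have h3 := fun j => h2 _ (g.iter hp (k + j)) (hφ.le.trans (hφ1 _))
          (by linarith [(sq1 _ ((hb (k + j)).2.trans (by linarith))).2]) (hk _ (by omega)).le
        have h4 := no_escape (ν := fun j => nu p ((step p)^[k + j] U)) (C := C) (e := e) (δ := δ)
          (by positivity) d1 (by linarith) (fun j => (hb _).2.trans (by linarith)) (fun j => by
            have k5 := (h3 j).2.2.2.2.1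
            rw [← Function.iterate_succ_apply' (step p),
              show (k + j).succ = k + (j + 1) from rfl] at k5
            rcases le_total 0 (nu p ((step p)^[k + j] U)) with h5 | h5
            · have := k5 1 (Or.inl rfl) (by linarith)
              rw [abs_of_nonneg h5]
              exact le_trans (by linarith) (neg_le_abs _)
            · have := k5 (-1) (Or.inr rfl) (by linarith)
              rw [abs_of_nonpos h5]
              exact le_trans (by linarith) (le_abs_self _))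
        refine (hφ1 (k + 0)).trans ((h3 0).2.1.trans ?_)
        rw [← sq_abs]
        gcongr
      have h5 : Tendsto (fun e : ℝ => E0 + C * ((4 * (C * e)) ^ 2 + e)) (𝓝[>] 0)
          (𝓝 (E0 + C * ((4 * (C * 0)) ^ 2 + 0))) :=
        (Continuous.tendsto (by fun_prop) 0).mono_left nhdsWithin_le_nhds
      have h6 := ge_of_tendsto h5 (by
        filter_upwards [Ioc_mem_nhdsGT (show (0:ℝ) < e0 / 2 by positivity)] with e he
        exact key e he.1 he.2)
      simp at h6
      linarith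
    choose n hn1 hn2 using hR1
    obtain ⟨Γ0, hΓ0, hb0⟩ := g.left_bound (x1 p ((step p)^[0] U))
    obtain ⟨Γ1, hΓ1, hb1⟩ := (g.iter hp 1).left_bound (x1 p ((step p)^[1] U))
    have hΓ : Γ0 + Γ1 ≠ ∞ := ENNReal.add_ne_top.2 ⟨hΓ0, hΓ1⟩
    have hc := fun k => ctrl U (n k) _ hΓ g hφ.le hU (fun j _ => hb j) (fun i hi t => by
      interval_cases i
      · exact (hb0 t).trans (by gcongr; exact le_self_add)
      · exact (hb1 t).trans (by gcongr; exact le_add_self))
    exact fam_limit hp hE (ENNReal.add_ne_top.2 ⟨hC1, hΓ⟩) (fun _ => U) n (fun _ => g)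
      (fun _ => ENNReal.ofReal_le_of_le_toReal hφ.le) hn1 (fun k => (hc k).1)
      (fun k j hj => (hc k).2 j hj.le) (fun k => ⟨(hb _).1, hn2 k⟩)
  · push Not at hb
    set Γ := Cv * ex Z + κ * (cD p * Cv ^ p) * ex (Z + D) with hΓdef
    have hΓ : Γ ≠ ∞ := ENNReal.add_ne_top.2 ⟨ENNReal.mul_ne_top hCv (ex_ne_top _),
      ENNReal.mul_ne_top (ENNReal.mul_ne_top hκ (ENNReal.mul_ne_top (cD_ne_top hp)
        (ENNReal.pow_ne_top hCv))) (ex_ne_top _)⟩
    have fam : ∀ k : ℕ, ∃ (U : ℝ → ℝ≥0∞) (n : ℕ), Good p U ∧ ENNReal.ofReal E0 ≤ N p (T p U) ∧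
        k ≤ n ∧ (∀ j ≤ n, ∀ t, (step p)^[j] U t ≤ (C1 + Γ) * ex (t - x1 p ((step p)^[j] U))) ∧
        (∀ j < n, |x1 p ((step p)^[j] U) + x3 p ((step p)^[j + 1] U)| ≤ D ∧
          |x3 p ((step p)^[j] U) + x1 p ((step p)^[j + 1] U)| ≤ D) ∧
        R0 ≤ sep p ((step p)^[n] U) ∧ sep p ((step p)^[n] U) ≤ R0 + 2 * D := by
      intro k
      have hkD : 0 ≤ (k:ℝ) * D := by positivity
      set R := 2 * Z + R0 + 1 + D + k * D with hR
      obtain ⟨θ, hθ, hs⟩ := shot R (by linarith)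
      obtain ⟨g, hφ, hU⟩ := tbf R θ hθ
      obtain ⟨i1, i3, -⟩ := tb_init hp gv (R := R) (θ := θ) (by linarith) hZ1 hZ2 (by linarith)
        hZ.le hθ
      rw [abs_le] at i1 i3 hθ
      have hl := tb_left (R := R) (θ := θ) (by linarith) (by linarith) (by linarith) hdv
      have hr := tb_right (R := R) (θ := θ) (by linarith) (by linarith) (by linarith) hdv
      have hex : ∃ j, sep p ((step p)^[j] (tb p v R θ)) ≤ R0 := by
        by_contra h
        push Not at h
        obtain ⟨j, hj⟩ := hb R θ (abs_le.2 hθ)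
        exact absurd (hs j fun i _ => h i) (not_le.2 (hj (h j).le))
      set U := tb p v R θ
      classical
      have h1 := Nat.find_spec hex
      have h2 := fun i => Nat.find_min hex (m := i)
      obtain ⟨n, hn⟩ : ∃ n, Nat.find hex = n + 1 := by
        refine Nat.exists_eq_add_one_of_ne_zero fun h => ?_
        rw [h] at h1
        simp only [Function.iterate_zero, id, sep] at h1
        linarith [i1.2, i3.1]
      rw [hn] at h1 h2
      have h3 : ∀ j ≤ n, R0 ≤ sep p ((step p)^[j] U) ∧ |nu p ((step p)^[j] U)| ≤ δ1 := fun j hj =>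
        ⟨(not_le.1 (h2 j (by omega))).le, hs j fun i hi => not_le.1 (h2 i (by omega))⟩
      have h30 : R0 ≤ sep p U ∧ |nu p U| ≤ δ1 := h3 0 (by omega)
      have h4 := (hcrude U g hφ.le (by linarith [(sq1 _ (h30.2.trans (by linarith))).2])
        (by linarith [h30.1])).2.2.2.1
      obtain ⟨c1, c2⟩ := ctrl U n Γ hΓ g hφ.le hU h3 (fun i hi t => by
        interval_cases i
        · refine (hl t).trans (le_trans ?_ (mul_le_mul_left le_self_add _))
          rw [mul_assoc, ← ex_add]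
          exact mul_le_mul_right (ex_mono (by simp only [Function.iterate_zero, id]; linarith)) _
        · refine le_trans ?_ (mul_le_mul_left le_add_self _)
          have h5 := T_left3 hp g.meas hU hr t
          simp only [Function.iterate_one]
          calc step p U t ≤ κ * (cD p * Cv ^ p * ex (t + R)) :=
                mul_le_mul' (kap_le (ENNReal.ofReal_le_of_le_toReal hφ.le)) h5
            _ ≤ κ * (cD p * Cv ^ p * ex (Z + D + (t - x1 p (step p U)))) := by
                gcongr; exact ex_mono (by linarith [(abs_le.1 h4).2])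
            _ = _ := by rw [ex_add]; ring)
      have h6 : sep p ((step p)^[n] U) ≤ R0 + 2 * D := by
        obtain ⟨a, b⟩ := c2 n le_rfl
        unfold sep at h1 ⊢
        linarith [(abs_le.1 a).1, (abs_le.1 b).2]
      refine ⟨U, n, g, ENNReal.ofReal_le_of_le_toReal hφ.le, ?_, c1, fun j hj => c2 j hj.le,
        (h3 n le_rfl).1, h6⟩
      have h7 := alt_bound (y := fun j => sep p ((step p)^[j] U))
        (n := n) (ε := 1) (D := 2 * D) (by simp) (fun j hj => by
          obtain ⟨a, b⟩ := c2 j hj.le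
          rw [abs_le] at a b ⊢
          unfold sep
          constructor <;> linarith [a.1, a.2, b.1, b.2]) n le_rfl
      rw [one_pow, abs_le, Nat.sub_self] at h7
      by_contra h8
      have h9 : (n:ℝ) ≤ k := by exact_mod_cast (not_le.1 h8).le
      have h10 : (n:ℝ) * D ≤ k * D := by gcongr
      have h11 : sep p ((step p)^[0] U) = x3 p U - x1 p U := rfl
      linarith [h7.2, i1.2, i3.1]
    choose U n f1 f2 f3 f4 f5 f6 using fam
    exact fam_limit hp hE (ENNReal.add_ne_top.2 ⟨hC1, hΓ⟩) U n f1 f2 f3 f4 f5 f6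

end Pool.Agent.Lib.MP_242fd5_gt.Z
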