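import Pool.Agent.Lib.MP_242fd5_gt.ZAReg
import Pool.Agent.Lib.MP_242fd5_gt.Z8Shoot

set_option autoImplicit false

namespace Pool.Agent.Lib.MP_242fd5_gt.Z

open MeasureTheory Set Real Filter Topology Metric
open scoped ENNReal

variable {p : ℕ} {u w : ℝ → ℝ≥0∞}

structure Nice (p : ℕ) (u : ℝ → ℝ≥0∞) : Prop where
  meas : Measurable u
  pos : ∀ s, 0 < u s
  dom : ∃ C : ℝ≥0∞, C ≠ ∞ ∧ Dom p C u

lemma Nice.bot (h : Nice p u) (hp : 2 ≤ p) {k : ℝ≥0∞} (hk : k ≠ ∞) :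
    Tendsto (fun s => ex (-s) * (k * T p u s)) atBot (𝓝 (k * al p u)) := by
  obtain ⟨C, hC, hd⟩ := h.dom
  simp_rw [mul_left_comm _ k]
  exact ENNReal.Tendsto.const_mul (lim_bot hp h.meas hC hd) (Or.inr hk)

lemma Nice.al (h : Nice p u) (hp : 2 ≤ p) : al p u ≠ 0 ∧ al p u ≠ ∞ := by
  obtain ⟨C, hC, hd⟩ := h.dom
  exact ⟨al_ne_zero h.meas fun s => (h.pos s).ne', al_ne_top hp hC hd⟩

lemma Nice.reg (h : Nice p u) (hp : 2 ≤ p) {k α : ℝ≥0∞} (hk0 : k ≠ 0) (hk : k ≠ ∞) (a0 : α ≠ 0)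
    (a1 : α ≠ ∞) (hα : Tendsto (fun s => ex (-s) * u s) atBot (𝓝 α)) :
    Reg p (fun s => k * T p u s) (k * Z.al p u) (k * (cB p * α ^ p)) := by
  obtain ⟨C, hC, hd⟩ := h.dom
  refine ⟨(ENNReal.continuous_const_mul hk).comp (T_cont hp h.meas hC hd),
    fun s => mul_ne_zero hk0 (T_pos h.meas (a := 0) (fun t _ => h.pos t) s).ne',
    fun s => ENNReal.mul_ne_top hk (ne_top_of_le_ne_top (ENNReal.mul_ne_top (cD_ne_top hp)
      (ENNReal.pow_ne_top hC)) ((hd.T hp h.meas).le s)), mul_ne_zero hk0 (h.al hp).1,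
    ENNReal.mul_ne_top hk (h.al hp).2,
    mul_ne_zero hk0 (mul_ne_zero (cB_ne_zero p) (pow_ne_zero _ a0)),
    ENNReal.mul_ne_top hk (ENNReal.mul_ne_top (cB_ne_top hp) (ENNReal.pow_ne_top a1)),
    h.bot hp hk, ?_⟩
  simp_rw [mul_left_comm _ k]
  exact ENNReal.Tendsto.const_mul (lim_top hp h.meas hC hd hα) (Or.inr hk)

lemma isStarBody_body (n : ℕ) {g : ℝ → ℝ} (hc : Continuous g) (hp : ∀ x, 0 < g x) :
    IsStarBody (body n g) :=
  isStarBody_starSet (fun _ _ => hp _) (Continuous.continuousOn (by fun_prop))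

theorem class_P (q : ℕ) (P : (ℝ → ℝ≥0∞) → Prop) (h1 : ∀ W, P W → Nice (q + 2) W)
    (h2 : ∀ W, P W → ∃ W', P W' ∧ W = fun s => k0 q * T (q + 2) W' s) {W : ℝ → ℝ≥0∞}
    (hW : P W) : (∃ α β, Reg (q + 2) W α β) ∧ HasPropertyP (body (q + 2) (prof (q + 2) W)) := by
  have hp : 2 ≤ q + 2 := by omega
  have r1 : ∀ W, P W → ∃ α β, Reg (q + 2) W α β := by
    intro W hW
    obtain ⟨W1, g1, rfl⟩ := h2 W hW
    obtain ⟨W2, g2, e2⟩ := h2 W1 g1
    exact ⟨_, _, (h1 W1 g1).reg hp (k0_ne_zero q) (k0_ne_top q)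
      (mul_ne_zero (k0_ne_zero q) ((h1 W2 g2).al hp).1)
      (ENNReal.mul_ne_top (k0_ne_top q) ((h1 W2 g2).al hp).2)
      (e2 ▸ (h1 W2 g2).bot hp (k0_ne_top q))⟩
  have r2 : ∀ m : ℕ, ∀ W, P W → ∃ W', P W' ∧
      interBody^[m] (body (q + 2) (prof (q + 2) W')) = body (q + 2) (prof (q + 2) W) := by
    intro m
    induction m with
    | zero => exact fun W hW => ⟨W, hW, rfl⟩
    | succ m ih =>
      intro W hW
      obtain ⟨W1, g1, e1⟩ := ih W hW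
      obtain ⟨W2, g2, rfl⟩ := h2 W1 g1
      obtain ⟨α, β, hr⟩ := r1 W2 g2
      refine ⟨W2, g2, ?_⟩
      rw [Function.iterate_succ_apply, inter_body q hr
        ((h1 W2 g2).reg hp (k0_ne_zero q) (k0_ne_top q) hr.a0 hr.a1 hr.bot), e1]
  refine ⟨r1 W hW, fun m _ => ?_⟩
  obtain ⟨W', g, e⟩ := r2 m W hW
  obtain ⟨α, β, hr⟩ := r1 W' g
  exact ⟨_, isStarBody_body _ hr.prof.1 hr.prof.2.1, e⟩

lemma ratios_nonempty (n : ℕ) {g : ℝ → ℝ} (hc : Continuous g) (hp : ∀ x, 0 < g x) :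
    (ballRatios (body n g)).Nonempty := by
  have hcc : ContinuousOn (fun ξ : V (n + 1) => g (ξ 0 ^ 2)) (sphere 0 1) :=
    Continuous.continuousOn (by fun_prop)
  have hne : (sphere (0 : V (n + 1)) 1).Nonempty := ⟨EuclideanSpace.single 0 1, by simp⟩
  obtain ⟨x, -, hx⟩ := (isCompact_sphere (0 : V (n + 1)) 1).exists_isMinOn hne hcc
  obtain ⟨z, -, hz⟩ := (isCompact_sphere (0 : V (n + 1)) 1).exists_isMaxOn hne hcc
  set σ := g (x 0 ^ 2) with hσ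
  have hσ0 : 0 < σ := hp _
  refine ⟨σ⁻¹ * g (z 0 ^ 2),
    (LinearEquiv.smulOfNeZero ℝ (V (n + 1)) σ⁻¹ (inv_pos.2 hσ0).ne').toContinuousLinearEquiv,
      fun y hy => ⟨σ • y, ?_, ?_⟩, ?_⟩
  · by_cases hy0 : y = 0
    · obtain ⟨e, he⟩ := hne
      exact ⟨e, he, 0, le_rfl, (hp _).le, by simp [hy0]⟩
    · have hn : 0 < ‖y‖ := norm_pos_iff.2 hy0
      have hu : ‖y‖⁻¹ • y ∈ sphere (0 : V (n + 1)) 1 := by simp [norm_smul, hn.ne']
      refine ⟨_, hu, σ * ‖y‖, by positivity, ?_, ?_⟩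
      · exact (mul_le_of_le_one_right hσ0.le (mem_closedBall_zero_iff.1 hy)).trans (hx hu)
      · rw [smul_smul, mul_assoc, mul_inv_cancel₀ hn.ne', mul_one]
  · simp [smul_smul, hσ0.ne']
  · rintro _ ⟨_, ⟨u, hu, t, ht0, ht1, rfl⟩, rfl⟩
    have e1 : ‖u‖ = 1 := by simpa using hu
    have h4 := ht1.trans (hz hu)
    rw [mem_closedBall_zero_iff]
    simp only [LinearEquiv.coe_toContinuousLinearEquiv', LinearEquiv.smulOfNeZero_apply,
      norm_smul, e1, mul_one, Real.norm_of_nonneg ht0, Real.norm_of_nonneg (inv_pos.2 hσ0).le]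
    gcongr

lemma sandwich (n : ℕ) {g : ℝ → ℝ} (hp : ∀ x, 0 < g x) {C : ℝ} (hC : C ∈ ballRatios (body (n + 1) g)) :
    ∃ P Q : ℝ, 0 < P ∧ 0 < Q ∧ ∀ a b : ℝ, a ^ 2 + b ^ 2 = 1 →
      1 ≤ g (b ^ 2) ^ 2 * (b ^ 2 * P + a ^ 2 * Q) ∧
        g (b ^ 2) ^ 2 * (b ^ 2 * P + a ^ 2 * Q) ≤ C ^ 2 := by
  obtain ⟨S, h1, h2⟩ := hC
  have hp' : ∀ ξ ∈ sphere (0 : V (n + 2)) 1, 0 < g (ξ 0 ^ 2) := fun _ _ => hp _
  have key : ∀ ξ : V (n + 2), ξ ∈ sphere (0 : V (n + 2)) 1 →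
      1 ≤ g (ξ 0 ^ 2) ^ 2 * ‖S ξ‖ ^ 2 ∧ g (ξ 0 ^ 2) ^ 2 * ‖S ξ‖ ^ 2 ≤ C ^ 2 := by
    intro ξ hξ
    have hq := hp (ξ 0 ^ 2)
    have hne : ξ ≠ 0 := by rintro rfl; simp at hξ
    have hS : 0 < ‖S ξ‖ := norm_pos_iff.2 (by simpa using hne)
    rw [← mul_pow]
    constructor
    · have h3 : ‖S ξ‖⁻¹ • S ξ ∈ closedBall (0 : V (n + 2)) 1 := by simp [norm_smul, hS.ne']
      obtain ⟨y, hy, hy2⟩ := h1 h3
      rw [← map_smul] at hy2
      rw [S.injective hy2, body, smul_mem_starSet hp' hξ (by positivity),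
        inv_le_iff_one_le_mul₀ hS] at hy
      exact one_le_pow₀ hy
    · have h3 := h2 ⟨_, (smul_mem_starSet hp' hξ hq.le).2 le_rfl, rfl⟩
      rw [mem_closedBall_zero_iff, map_smul, norm_smul, Real.norm_of_nonneg hq.le] at h3
      exact pow_le_pow_left₀ (by positivity) h3 2
  set e0 : V (n + 2) := EuclideanSpace.single 0 1 with he0
  set e1 : V (n + 2) := EuclideanSpace.single 1 1 with he1
  have hpos : ∀ i : Fin (n + 2), 0 < ‖S (EuclideanSpace.single i 1)‖ ^ 2 := fun i =>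
    pow_pos (norm_pos_iff.2 (by simp)) 2
  refine ⟨‖S e0‖ ^ 2, ‖S e1‖ ^ 2, hpos 0, hpos 1, fun a b hab => ?_⟩
  have hs : ∀ y : ℝ, y ^ 2 = a ^ 2 → b • e0 + y • e1 ∈ sphere (0 : V (n + 2)) 1 ∧
      (b • e0 + y • e1) 0 = b := by
    intro y hy
    refine ⟨?_, by simp [he0, he1]⟩
    have : ‖b • e0 + y • e1‖ ^ 2 = 1 ^ 2 := by
      rw [norm_add_sq_real, norm_smul, norm_smul, inner_smul_left, inner_smul_right]
      simp [he0, he1, EuclideanSpace.inner_single_left, hy]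
      linarith
    simpa using (pow_left_inj₀ (norm_nonneg _) zero_le_one two_ne_zero).1 this
  have k1 := key _ (hs a rfl).1
  have k2 := key _ (hs (-a) (by ring)).1
  rw [(hs a rfl).2, map_add, map_smul, map_smul] at k1
  rw [(hs (-a) (by ring)).2, map_add, map_smul, map_smul, neg_smul, ← sub_eq_add_neg] at k2
  have k3 := parallelogram_law_with_norm ℝ (b • S e0) (a • S e1)
  rw [norm_smul, norm_smul, Real.norm_eq_abs, Real.norm_eq_abs] at k3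
  have k4 : ‖b • S e0 + a • S e1‖ ^ 2 + ‖b • S e0 - a • S e1‖ ^ 2 =
      2 * (b ^ 2 * ‖S e0‖ ^ 2 + a ^ 2 * ‖S e1‖ ^ 2) := by
    have := sq_abs a
    have := sq_abs b
    nlinarith
  have k5 := congrArg (g (b ^ 2) ^ 2 * ·) k4
  simp only [mul_add] at k5
  constructor <;> nlinarith [k1.1, k1.2, k2.1, k2.2]

lemma near_soliton (hp : 2 ≤ p) {α β : ℝ≥0∞} (hr : Reg p w α β) (hg : Good p w) (n : ℕ) {C : ℝ}
    (hC : C ∈ ballRatios (body (n + 1) (prof p w))) :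
    ∃ c, Dom p (ENNReal.ofReal (4 * |C|)) fun s => w (s + c) := by
  obtain ⟨P, Q, hP, hQ, h⟩ := sandwich n hr.prof.2.1 hC
  have h1 : ∀ t, 1 ≤ (w t).toReal ^ 2 * (P * exp (p * t) ^ 2 + Q * exp (-t) ^ 2) ∧
      (w t).toReal ^ 2 * (P * exp (p * t) ^ 2 + Q * exp (-t) ^ 2) ≤ C ^ 2 := by
    intro t
    have e0 := hr.prof_exp t
    have e1 : exp ((p + 1) * t) * exp (-t) = exp (p * t) := by rw [← exp_add]; congr 1; ring
    have e2 := exp_pos ((p + 1) * t)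
    set E := exp ((p + 1) * t)
    have hz : 0 < √(1 + E ^ 2) := Real.sqrt_pos.2 (by positivity)
    have hz2 : √(1 + E ^ 2) ^ 2 = 1 + E ^ 2 := Real.sq_sqrt (by positivity)
    have h2 := h (1 / √(1 + E ^ 2)) (E / √(1 + E ^ 2)) (by
      rw [div_pow, div_pow, hz2]; field_simp)
    rw [div_pow, div_pow, hz2, e0, ENNReal.toReal_mul, ex, ENNReal.toReal_ofReal (exp_pos _).le,
      mul_pow, hz2] at h2
    rw [← e1]
    convert h2 using 2 <;> field_simp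
  set c := Real.log (Q / P) / (2 * (p + 1)) with hc
  set m := √Q * exp (-c) with hm
  have hm0 : 0 < m := by positivity
  have hm1 : ∀ s, Q * exp (-(s + c)) ^ 2 = (m * exp (-s)) ^ 2 := fun s => by
    rw [hm, mul_pow, mul_pow, Real.sq_sqrt hQ.le, neg_add, exp_add]; ring
  have hm2 : ∀ s, P * exp (p * (s + c)) ^ 2 = (m * exp (p * s)) ^ 2 := fun s => by
    have e1 : exp (p * c) ^ 2 = Q / P * exp (-c) ^ 2 := by
      rw [← Real.exp_log (show 0 < Q / P by positivity), ← exp_nat_mul, ← exp_nat_mul, ← exp_add,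
        show Real.log (Q / P) = 2 * (p + 1) * c by rw [hc]; field_simp]
      congr 1; push_cast; ring
    rw [hm, mul_add, exp_add, mul_pow, mul_pow, mul_pow, Real.sq_sqrt hQ.le, e1]
    field_simp
  have h2 : ∀ s ∈ Ioc (-1:ℝ) 0, ENNReal.ofReal (1 / (4 * m)) ≤ w (s + c) := by
    intro s hs
    have h3 := (h1 (s + c)).1
    rw [hm1, hm2] at h3
    have h4 : exp (p * s) ≤ 1 := exp_le_one_iff.2 (mul_nonpos_of_nonneg_of_nonpos (by positivity) hs.2)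
    have h5 : exp (-s) ≤ 3 := (exp_le_exp.2 (by linarith [hs.1])).trans
      (exp_one_lt_d9.le.trans (by norm_num))
    have h6 : (m * exp (p * s)) ^ 2 + (m * exp (-s)) ^ 2 ≤ (4 * m) ^ 2 := by
      have a1 : (m * exp (p * s)) ^ 2 ≤ (m * 1) ^ 2 := by gcongr
      have a2 : (m * exp (-s)) ^ 2 ≤ (m * 3) ^ 2 := by gcongr
      nlinarith
    refine ENNReal.ofReal_le_of_le_toReal ?_
    rw [div_le_iff₀ (by positivity)]
    refine le_of_sq_le_sq ?_ (by positivity)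
    rw [mul_pow, one_pow]
    exact h3.trans (by gcongr)
  have h3 : 1 / (4 * m) ≤ 1 := by
    have h4 := (hg.shift hp c).set_le (Ioc (-1) 0)
    have h5 := (setLIntegral_mono' measurableSet_Ioc fun s hs =>
      pow_le_pow_left' (h2 s hs) (p + 1)).trans h4
    rw [setLIntegral_const, Real.volume_Ioc, sub_neg_eq_add, zero_add, ENNReal.ofReal_one, mul_one,
      ← ENNReal.ofReal_pow (by positivity), ENNReal.ofReal_le_one] at h5
    exact (pow_le_one_iff_of_nonneg (by positivity) (by omega)).1 h5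
  rw [div_le_one (by positivity)] at h3
  have h4 : ∀ s y : ℝ, (w (s + c)).toReal ^ 2 * (m * exp y) ^ 2 ≤ C ^ 2 →
      w (s + c) ≤ ENNReal.ofReal (4 * |C|) * ex (-y) := by
    intro s y h5
    rw [← mul_pow, ← sq_abs C] at h5
    have h6 := le_of_sq_le_sq h5 (abs_nonneg C)
    rw [ex, ← ENNReal.ofReal_mul (by positivity), ← ENNReal.ofReal_toReal (hr.fin _)]
    refine ENNReal.ofReal_le_ofReal ?_
    rw [exp_neg, ← div_eq_mul_inv, le_div_iff₀ (exp_pos y)]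
    have h7 : 0 ≤ (w (s + c)).toReal * exp y := by positivity
    nlinarith
  refine ⟨c, fun s => ?_⟩
  have h5 := (h1 (s + c)).2
  rw [hm1, hm2, mul_add] at h5
  constructor
  · simpa using h4 s (-s) (le_trans (le_add_of_nonneg_left (by positivity)) h5)
  · exact h4 s _ (le_trans (le_add_of_nonneg_right (by positivity)) h5)

lemma unif_tails (hp : 2 ≤ p) {C : ℝ≥0∞} (hC : C ≠ ∞) : ∃ Z : ℝ, ∀ u, Good p u → Dom p C u →
    F p u (-Z) < 1 / 4 ∧ 3 / 4 < F p u Z := by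
  obtain ⟨W, hW, h1⟩ := tail_small
    (g := fun t => C ^ (p + 1) * min (ex t) (ex (-(p * t))) ^ (p + 1)) (by fun_prop) (by
      rw [lintegral_const_mul _ (by fun_prop)]
      exact ENNReal.mul_lt_top (ENNReal.pow_ne_top hC).lt_top (lint_dm (by omega)))
    (ENNReal.ofReal_pos.2 (show (0:ℝ) < 1 / 8 by norm_num))
  rw [lintegral_indicator (measurableSet_le measurable_const (by fun_prop))] at h1
  refine ⟨W, fun u h hd => ?_⟩
  have h2 : ms p u {w | W ≤ |w|} ≤ 1 / 8 := ENNReal.toReal_le_of_le_ofReal (by norm_num)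
    (le_trans (lintegral_mono fun t => by rw [← mul_pow]; gcongr; exact hd.le_min t) h1)
  have h3 : ms p u (Ioi W) ≤ 1 / 8 := le_trans (h.ms_mono fun t ht =>
    show W ≤ |t| from le_abs.2 (Or.inl (le_of_lt ht))) h2
  have h4 : ms p u (Iic (-W)) ≤ 1 / 8 := le_trans (h.ms_mono fun t ht =>
    show W ≤ |t| from le_abs.2 (Or.inr (le_neg.1 ht))) h2
  rw [h.ms_Ioi] at h3
  exact ⟨h4.trans_lt (by norm_num), by linarith⟩

theorem main_all (n : ℕ) (hn : 3 ≤ n) (C : ℝ) : ∃ L : Set (EuclideanSpace ℝ (Fin n)),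
    IsStarBody L ∧ HasPropertyP L ∧ (ballRatios L).Nonempty ∧ ∀ c ∈ ballRatios L, C ≤ c := by
  obtain ⟨q, rfl⟩ : ∃ q, n = q + 3 := ⟨n - 3, by omega⟩
  have hp : 2 ≤ q + 2 := by omega
  obtain ⟨Z, hZ⟩ := unif_tails hp (C := ENNReal.ofReal (4 * max |C| 1)) ENNReal.ofReal_ne_top
  obtain ⟨w, hw, h1, h2⟩ := exists_far hp Z
  obtain ⟨⟨α, β, hr⟩, hP⟩ := class_P q
    (fun W => ∃ (c : ℝ≥0∞) (m : ℕ), c ≠ 0 ∧ c ≠ ∞ ∧ W = fun s => c * w m s) (by
      rintro _ ⟨c, m, c0, c1, rfl⟩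
      obtain ⟨D, hD, hd⟩ := (hw m).1.dom
      refine ⟨(hw m).1.meas.const_mul c, fun s => ENNReal.mul_pos c0 (ne_of_gt ?_), _,
        ENNReal.mul_ne_top c1 hD, hd.smul c⟩
      rw [(hw m).2, (hw (m + 1)).2]
      exact (hw (m + 2)).1.step_step_pos hp s) (by
      rintro _ ⟨c, m, c0, c1, rfl⟩
      have g := (hw (m + 1)).1
      have k1 : c * kap (q + 2) (w (m + 1)) ≠ 0 := mul_ne_zero c0 (g.kap_ne_zero hp)
      have k2 : c * kap (q + 2) (w (m + 1)) ≠ ∞ := ENNReal.mul_ne_top c1 g.kap_ne_top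
      obtain ⟨r, r0, r1, hr⟩ := exists_root (x := k0 q / (c * kap (q + 2) (w (m + 1))))
        (ENNReal.div_pos (k0_ne_zero q) k2).ne' (ENNReal.div_ne_top (k0_ne_top q) k1) (q + 1)
      refine ⟨_, ⟨r, m + 1, r0, r1, rfl⟩, funext fun s => ?_⟩
      rw [T_smul g.meas, (hw m).2, step, ← mul_assoc, ← mul_assoc]
      congr 1
      calc c * kap (q + 2) (w (m + 1)) = r ^ (q + 1 + 1) * (k0 q / (c * kap (q + 2) (w (m + 1)))) *
            (c * kap (q + 2) (w (m + 1))) := by rw [hr, one_mul]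
        _ = _ := by rw [mul_assoc, ENNReal.div_mul_cancel k1 k2, mul_comm])
    (W := w 0) ⟨1, 0, one_ne_zero, ENNReal.one_ne_top, by simp⟩
  refine ⟨_, isStarBody_body _ hr.prof.1 hr.prof.2.1, hP,
    ratios_nonempty _ hr.prof.1 hr.prof.2.1, fun c hc => ?_⟩
  by_contra hlt
  push Not at hlt
  have hc' : max |C| 1 ∈ ballRatios (body (q + 2) (prof (q + 2) (w 0))) := by
    obtain ⟨S, s1, s2⟩ := hc
    exact ⟨S, s1, s2.trans (closedBall_subset_closedBall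
      (hlt.le.trans ((le_abs_self C).trans (le_max_left _ _))))⟩
  obtain ⟨y, hy⟩ := near_soliton hp hr (hw 0).1 (q + 1) hc'
  rw [abs_of_pos (lt_max_of_lt_right one_pos)] at hy
  obtain ⟨k1, k2⟩ := hZ _ ((hw 0).1.shift hp y) hy
  rw [F_shift] at k1 k2
  have k3 := (hw 0).1.F_mono.reflect_lt (k1.trans_le h1)
  have k4 := (hw 0).1.F_mono.reflect_lt (h2.trans_lt k2)
  linarith

end Pool.Agent.Lib.MP_242fd5_gt.Z
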