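import Pool.Agent.Lib.MP_242fd5_gt.Conv

set_option autoImplicit false

namespace Pool.Agent.Lib.MP_242fd5_gt

open MeasureTheory Set Real

noncomputable def IA (u : ℝ → ℝ) (s : ℝ) : ℝ := ∫ t in Iic s, exp t * u t ^ 5
noncomputable def IB (u : ℝ → ℝ) (s : ℝ) : ℝ := ∫ t in Ioi s, exp (-t) * u t ^ 5
noncomputable def W (u : ℝ → ℝ) (s : ℝ) : ℝ := -(exp (-s) * IA u s) + exp s * IB u s

lemma Base.int_A {u : ℝ → ℝ} (h : Base u) : Integrable fun t => exp t * u t ^ 5 :=
  h.int_of_le (by fun_prop) (fun t => (exp_pos _).le) (fun t => exp_le_exp.2 (le_abs_self t))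

lemma Base.int_B {u : ℝ → ℝ} (h : Base u) : Integrable fun t => exp (-t) * u t ^ 5 :=
  h.int_of_le (by fun_prop) (fun t => (exp_pos _).le) (fun t => exp_le_exp.2 (neg_le_abs t))

lemma Base.T_split {u : ℝ → ℝ} (h : Base u) (s : ℝ) :
    T u s = exp (-s) * IA u s + exp s * IB u s := by
  unfold T IA IB
  rw [← intervalIntegral.integral_Iic_add_Ioi (b := s) (h.int_T s).integrableOn
    (h.int_T s).integrableOn, ← integral_const_mul, ← integral_const_mul]
  congr 1
  · refine setIntegral_congr_fun measurableSet_Iic fun t ht => ?_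
    have : t ≤ s := ht
    rw [abs_of_nonneg (by linarith), ← mul_assoc, ← exp_add]; congr 2; ring
  · refine setIntegral_congr_fun measurableSet_Ioi fun t ht => ?_
    have : s < t := ht
    rw [abs_of_neg (by linarith), ← mul_assoc, ← exp_add]; congr 2; ring

lemma Base.deriv_A {u : ℝ → ℝ} (h : Base u) (s : ℝ) :
    HasDerivAt (IA u) (exp s * u s ^ 5) s := by
  have hc : Continuous fun t => exp t * u t ^ 5 := by have := h.cont; fun_prop
  have h1 : IA u = fun s => IA u 0 + ∫ t in (0:ℝ)..s, exp t * u t ^ 5 := by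
    ext s
    rw [← intervalIntegral.integral_Iic_sub_Iic h.int_A.integrableOn h.int_A.integrableOn]
    unfold IA; ring
  rw [h1]
  exact ((hc.integral_hasStrictDerivAt 0 s).hasDerivAt).const_add _

lemma Base.deriv_B {u : ℝ → ℝ} (h : Base u) (s : ℝ) :
    HasDerivAt (IB u) (-(exp (-s) * u s ^ 5)) s := by
  have hc : Continuous fun t => exp (-t) * u t ^ 5 := by have := h.cont; fun_prop
  have h1 : IB u = fun s => IB u 0 - ∫ t in (0:ℝ)..s, exp (-t) * u t ^ 5 := by
    ext s
    rw [← intervalIntegral.integral_Ioi_sub_Ioi' h.int_B.integrableOn h.int_B.integrableOn]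
    unfold IB; ring
  rw [h1]
  exact ((hc.integral_hasStrictDerivAt 0 s).hasDerivAt).const_sub _

lemma hasDerivAt_exp_neg (s : ℝ) : HasDerivAt (fun s => exp (-s)) (-exp (-s)) s := by
  simpa using (hasDerivAt_neg s).exp

lemma Base.deriv_T {u : ℝ → ℝ} (h : Base u) (s : ℝ) : HasDerivAt (T u) (W u s) s := by
  have h1 : T u = fun s => exp (-s) * IA u s + exp s * IB u s := funext h.T_split
  rw [h1]
  have h2 := ((hasDerivAt_exp_neg s).mul (h.deriv_A s)).add ((hasDerivAt_exp s).mul (h.deriv_B s))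
  refine h2.congr_deriv ?_
  unfold W; ring

lemma Base.deriv_W {u : ℝ → ℝ} (h : Base u) (s : ℝ) :
    HasDerivAt (W u) (T u s - 2 * u s ^ 5) s := by
  have h2 := ((hasDerivAt_exp_neg s).mul (h.deriv_A s)).neg.add
    ((hasDerivAt_exp s).mul (h.deriv_B s))
  have h3 : exp s * exp (-s) = 1 := by rw [← exp_add]; simp
  refine h2.congr_deriv ?_
  rw [h.T_split]
  linear_combination (-2 * u s ^ 5) * h3

lemma Base.W_zero {u : ℝ → ℝ} (h : Base u) (he : ∀ s, u (-s) = u s) : W u 0 = 0 := by
  have h1 : HasDerivAt (fun s => T u (-s)) (-W u 0) 0 := by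
    have h0 : HasDerivAt (T u) (W u 0) (-0) := by simpa using h.deriv_T 0
    exact (h0.comp 0 (hasDerivAt_neg 0)).congr_deriv (by ring)
  have h2 : (fun s => T u (-s)) = T u := funext (T_even he)
  rw [h2] at h1
  have := h1.unique (h.deriv_T 0)
  linarith

lemma unimodal_step {u : ℝ → ℝ} (h : Base u) (he : ∀ s, u (-s) = u s) {a : ℝ}
    (hm : MonotoneOn u (Icc 0 a)) (hn : AntitoneOn u (Ici a)) :
    ∃ b, 0 ≤ b ∧ MonotoneOn (T u) (Icc 0 b) ∧ AntitoneOn (T u) (Ici b) := by
  have hv := h.T_base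
  have hWc : Continuous (W u) := continuous_iff_continuousAt.2 fun s => (h.deriv_W s).continuousAt
  -- right part
  have c1 : AntitoneOn (fun s => exp s * W u s) (Ici a) := by
    have hd : ∀ s, HasDerivAt (fun s => exp s * W u s)
        (exp s * W u s + exp s * (T u s - 2 * u s ^ 5)) s := fun s =>
      (hasDerivAt_exp s).mul (h.deriv_W s)
    refine antitoneOn_of_deriv_nonpos (convex_Ici a) (by fun_prop)
      (fun s _ => (hd s).differentiableAt.differentiableWithinAt) fun s hs => ?_
    rw [interior_Ici] at hs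
    have hs' : a < s := hs
    rw [(hd s).deriv]
    have hB : IB u s ≤ exp (-s) * u s ^ 5 := by
      have e1 : ∫ t in Ioi s, exp (-t) * u s ^ 5 = exp (-s) * u s ^ 5 := by
        rw [integral_mul_const, integral_exp_neg_Ioi]
      rw [← e1]
      refine setIntegral_mono_on h.int_B.integrableOn
        ((integrableOn_exp_neg_Ioi s).mul_const _) measurableSet_Ioi fun t ht => ?_
      have ht' : s < t := ht
      have := (h.pos t).le
      gcongr
      exact hn (show a ≤ s from hs'.le) (show a ≤ t by linarith) ht'.le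
    have h3 : exp s * exp (-s) = 1 := by rw [← exp_add]; simp
    have h4 : exp s * IB u s ≤ u s ^ 5 := by
      calc exp s * IB u s ≤ exp s * (exp (-s) * u s ^ 5) := by gcongr
        _ = u s ^ 5 := by rw [← mul_assoc, h3, one_mul]
    rw [← mul_add]
    refine mul_nonpos_of_nonneg_of_nonpos (exp_pos s).le ?_
    rw [h.T_split]; unfold W; linarith
  -- left part
  have hH : ∀ x, HasDerivAt (fun x => T u x * sinh x - W u x * cosh x)
      (2 * u x ^ 5 * cosh x) x := by
    intro x
    have := ((h.deriv_T x).mul (hasDerivAt_sinh x)).sub ((h.deriv_W x).mul (hasDerivAt_cosh x))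
    refine this.congr_deriv ?_
    ring
  have c2a : ∀ s ∈ Icc 0 a, T u s * sinh s - W u s * cosh s ≤ 2 * u s ^ 5 * sinh s := by
    intro s hs
    have hd : ∀ x, HasDerivAt (fun x => 2 * u s ^ 5 * sinh x - (T u x * sinh x - W u x * cosh x))
        (2 * u s ^ 5 * cosh x - 2 * u x ^ 5 * cosh x) x := fun x =>
      ((hasDerivAt_sinh x).const_mul _).sub (hH x)
    have hmono : MonotoneOn
        (fun x => 2 * u s ^ 5 * sinh x - (T u x * sinh x - W u x * cosh x)) (Icc 0 s) := by
      refine monotoneOn_of_deriv_nonneg (convex_Icc 0 s)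
        (fun x _ => (hd x).continuousAt.continuousWithinAt)
        (fun x _ => (hd x).differentiableAt.differentiableWithinAt) fun x hx => ?_
      rw [interior_Icc] at hx
      rw [(hd x).deriv, ← sub_mul]
      refine mul_nonneg ?_ (cosh_pos x).le
      have h1 : u x ≤ u s := hm ⟨hx.1.le, hx.2.le.trans hs.2⟩ hs hx.2.le
      have h2 : u x ^ 5 ≤ u s ^ 5 := pow_le_pow_left₀ (h.pos x).le h1 5
      linarith
    have := hmono ⟨le_rfl, hs.1⟩ ⟨hs.1, le_rfl⟩ hs.1
    simp only [sinh_zero, h.W_zero he, mul_zero, zero_mul, sub_zero] at this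
    linarith
  have c2 : AntitoneOn (fun s => W u s / sinh s) (Ioc 0 a) := by
    have hd : ∀ s, 0 < s → HasDerivAt (fun s => W u s / sinh s)
        (((T u s - 2 * u s ^ 5) * sinh s - W u s * cosh s) / sinh s ^ 2) s := fun s hs =>
      (h.deriv_W s).div (hasDerivAt_sinh s) (sinh_pos_iff.2 hs).ne'
    refine antitoneOn_of_deriv_nonpos (convex_Ioc 0 a)
      (fun x hx => (hd x hx.1).continuousAt.continuousWithinAt)
      (fun x hx => ?_) fun x hx => ?_
    · rw [interior_Ioc] at hx
      exact (hd x hx.1).differentiableAt.differentiableWithinAt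
    · rw [interior_Ioc] at hx
      rw [(hd x hx.1).deriv]
      refine div_nonpos_of_nonpos_of_nonneg ?_ (sq_nonneg _)
      have := c2a x ⟨hx.1.le, hx.2.le⟩
      linarith
  have s1 : ∀ x y, a ≤ x → x ≤ y → W u x ≤ 0 → W u y ≤ 0 := by
    intro x y hx hxy hw
    have h1 := c1 (show x ∈ Ici a from hx) (show y ∈ Ici a from hx.trans hxy) hxy
    have h2 : exp x * W u x ≤ 0 := mul_nonpos_of_nonneg_of_nonpos (exp_pos x).le hw
    by_contra hc
    have := mul_pos (exp_pos y) (not_le.1 hc)
    simp only at h1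
    linarith
  have s2 : ∀ x y, 0 < x → x ≤ y → y ≤ a → W u x ≤ 0 → W u y ≤ 0 := by
    intro x y hx hxy hy hw
    have h1 := c2 (show x ∈ Ioc 0 a from ⟨hx, hxy.trans hy⟩)
      (show y ∈ Ioc 0 a from ⟨hx.trans_le hxy, hy⟩) hxy
    have h2 : W u x / sinh x ≤ 0 := div_nonpos_of_nonpos_of_nonneg hw (sinh_pos_iff.2 hx).le
    by_contra hc
    have := div_pos (not_le.1 hc) (sinh_pos_iff.2 (hx.trans_le hxy))
    simp only at h1
    linarith
  have s3 : ∀ x y, 0 < x → x ≤ y → W u x ≤ 0 → W u y ≤ 0 := by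
    intro x y hx hxy hw
    rcases le_total a x with h1 | h1
    · exact s1 x y h1 hxy hw
    · rcases le_total y a with h2 | h2
      · exact s2 x y hx hxy h2 hw
      · exact s1 a y le_rfl h2 (s2 x a hx h1 le_rfl hw)
  have hne : {s | 0 < s ∧ W u s ≤ 0}.Nonempty := by
    by_contra hc
    have hpos : ∀ s, 0 < s → 0 < W u s := fun s hs => by
      by_contra h'
      exact hc ⟨s, hs, not_lt.1 h'⟩
    have hmono : MonotoneOn (T u) (Ici 0) := by
      refine monotoneOn_of_deriv_nonneg (convex_Ici 0) hv.cont.continuousOn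
        (fun x _ => (h.deriv_T x).differentiableAt.differentiableWithinAt) fun x hx => ?_
      rw [interior_Ici] at hx
      rw [(h.deriv_T x).deriv]; exact (hpos x hx).le
    obtain ⟨C, hC0, hC⟩ := hv.decay'
    have h0 := hv.pos 0
    set s := C / T u 0 with hs
    have hs0 : 0 < s := by positivity
    have h1 : T u 0 ≤ T u s := hmono self_mem_Ici hs0.le hs0.le
    have h2 := hC s
    rw [abs_of_pos hs0] at h2
    have h3 : s + 1 ≤ exp s := add_one_le_exp s
    have h4 : exp s * exp (-s) = 1 := by rw [← exp_add]; simp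
    have h5 : C = s * T u 0 := by rw [hs]; field_simp
    have h6 := exp_pos (-s)
    have h7 : s * exp (-s) < 1 := by nlinarith
    have h8 : C * exp (-s) < T u 0 := by rw [h5]; nlinarith
    linarith
  have hbd : BddBelow {s | 0 < s ∧ W u s ≤ 0} := ⟨0, fun s hs => hs.1.le⟩
  refine ⟨sInf {s | 0 < s ∧ W u s ≤ 0}, le_csInf hne fun s hs => hs.1.le, ?_, ?_⟩
  · refine monotoneOn_of_deriv_nonneg (convex_Icc _ _) hv.cont.continuousOn
      (fun x _ => (h.deriv_T x).differentiableAt.differentiableWithinAt) fun x hx => ?_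
    rw [interior_Icc] at hx
    rw [(h.deriv_T x).deriv]
    by_contra hc
    exact notMem_of_lt_csInf hx.2 hbd ⟨hx.1, (not_le.1 hc).le⟩
  · refine antitoneOn_of_deriv_nonpos (convex_Ici _) hv.cont.continuousOn
      (fun x _ => (h.deriv_T x).differentiableAt.differentiableWithinAt) fun x hx => ?_
    rw [interior_Ici] at hx
    rw [(h.deriv_T x).deriv]
    obtain ⟨y, hy, hyx⟩ := exists_lt_of_csInf_lt hne hx
    exact s3 y x hy.1 hyx.le hy.2

end Pool.Agent.Lib.MP_242fd5_gt
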