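import Mathlib

set_option autoImplicit false

namespace Pool.Agent.Lib.MP_242fd5_gt.Z

open MeasureTheory Set Real Filter Topology
open scoped ENNReal

/-- the exponential with values in the extended nonnegative reals -/
noncomputable def ex (s : ℝ) : ℝ≥0∞ := ENNReal.ofReal (exp s)

lemma ex_add (s t : ℝ) : ex (s + t) = ex s * ex t := by
  unfold ex; rw [exp_add, ENNReal.ofReal_mul (exp_pos _).le]

lemma ex_pos (s : ℝ) : 0 < ex s := ENNReal.ofReal_pos.2 (exp_pos s)
lemma ex_ne_top (s : ℝ) : ex s ≠ ∞ := ENNReal.ofReal_ne_top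
lemma ex_zero : ex 0 = 1 := by simp [ex]
lemma ex_mono {s t : ℝ} (h : s ≤ t) : ex s ≤ ex t := ENNReal.ofReal_le_ofReal (exp_le_exp.2 h)
lemma ex_pow (s : ℝ) (k : ℕ) : ex s ^ k = ex (k * s) := by
  unfold ex; rw [← ENNReal.ofReal_pow (exp_pos _).le, ← exp_nat_mul]
lemma continuous_ex : Continuous ex := ENNReal.continuous_ofReal.comp continuous_exp
@[fun_prop] lemma measurable_ex : Measurable ex := continuous_ex.measurable

lemma lint_ex_Iic {a : ℝ} (ha : 0 < a) (c : ℝ) :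
    ∫⁻ t in Iic c, ex (a * t) = ENNReal.ofReal (exp (a * c) / a) := by
  unfold ex
  rw [← ofReal_integral_eq_lintegral_ofReal (integrableOn_exp_mul_Iic ha _)
    (Eventually.of_forall fun t => (exp_pos _).le), integral_exp_mul_Iic ha]

lemma lint_ex_Ioi {a : ℝ} (ha : 0 < a) (c : ℝ) :
    ∫⁻ t in Ioi c, ex (-(a * t)) = ENNReal.ofReal (exp (-(a * c)) / a) := by
  unfold ex
  have h1 : (-a) < 0 := by linarith
  simp_rw [← neg_mul]
  rw [← ofReal_integral_eq_lintegral_ofReal (integrableOn_exp_mul_Ioi h1 _)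
    (Eventually.of_forall fun t => (exp_pos _).le), integral_exp_mul_Ioi h1]
  congr 1; field_simp

/-- the algebraic factor of the kernel -/
noncomputable def kb (p : ℕ) (β t : ℝ) : ℝ≥0∞ :=
  if β * exp ((p + 1) * t) < 1 then
    ENNReal.ofReal ((1 - (β * exp ((p + 1) * t)) ^ 2) ^ (((p : ℝ) - 3) / 2)) else 0

/-- the kernel of the section operator on bodies of revolution -/
noncomputable def K (p : ℕ) (w : ℝ) : ℝ≥0∞ := ex w * kb p 1 w

lemma measurable_kb (p : ℕ) (β : ℝ) : Measurable (kb p β) := by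
  unfold kb
  refine Measurable.ite (measurableSet_lt (by fun_prop) measurable_const) ?_ measurable_const
  fun_prop

@[fun_prop] lemma measurable_K (p : ℕ) : Measurable (K p) :=
  measurable_ex.mul (measurable_kb p 1)

lemma kb_ne_top (p : ℕ) (β t : ℝ) : kb p β t ≠ ∞ := by
  unfold kb; split_ifs
  · exact ENNReal.ofReal_ne_top
  · exact ENNReal.zero_ne_top

lemma K_ne_top (p : ℕ) (w : ℝ) : K p w ≠ ∞ := ENNReal.mul_ne_top (ex_ne_top _) (kb_ne_top _ _ _)

lemma cond_iff (p : ℕ) (w : ℝ) : 1 * exp ((p + 1) * w) < 1 ↔ w < 0 := by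
  rw [one_mul, exp_lt_one_iff]
  have : (0:ℝ) < p + 1 := by positivity
  constructor
  · intro h; by_contra h2; push Not at h2; nlinarith [mul_nonneg this.le h2]
  · intro h; nlinarith [mul_pos this (neg_pos.2 h)]

lemma kb_shift (p : ℕ) (s t : ℝ) : kb p (exp ((p + 1) * s)) t = kb p 1 (s + t) := by
  unfold kb
  rw [← exp_add, one_mul, mul_add]

lemma kb_zero (p : ℕ) (t : ℝ) : kb p 0 t = 1 := by
  unfold kb; simp

lemma kb_pos (p : ℕ) {w : ℝ} (hw : w < 0) : 0 < kb p 1 w := by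
  unfold kb
  have h := (cond_iff p w).2 hw
  rw [if_pos h, ENNReal.ofReal_pos]
  have h0 : 0 < 1 * exp ((p + 1) * w) := by positivity
  exact rpow_pos_of_pos (by nlinarith) _

lemma K_pos (p : ℕ) {w : ℝ} (hw : w < 0) : 0 < K p w :=
  ENNReal.mul_pos (ex_pos _).ne' (kb_pos p hw).ne'

lemma kb_of_nonneg (p : ℕ) {w : ℝ} (hw : 0 ≤ w) : kb p 1 w = 0 := by
  unfold kb
  rw [if_neg fun h => absurd ((cond_iff p w).1 h) (not_lt.2 hw)]

lemma K_of_nonneg (p : ℕ) {w : ℝ} (hw : 0 ≤ w) : K p w = 0 := by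
  unfold K; rw [kb_of_nonneg p hw, mul_zero]

lemma continuousAt_kb (p : ℕ) {w : ℝ} (hw : w ≠ 0) : ContinuousAt (kb p 1) w := by
  rcases lt_or_gt_of_ne hw with h | h
  · have h1 : ∀ᶠ y in 𝓝 w, ENNReal.ofReal ((1 - (1 * exp ((p + 1) * y)) ^ 2) ^
        (((p : ℝ) - 3) / 2)) = kb p 1 y := by
      filter_upwards [Iio_mem_nhds h] with y hy
      unfold kb; rw [if_pos ((cond_iff p y).2 hy)]
    refine ContinuousAt.congr ?_ h1
    refine ENNReal.continuous_ofReal.continuousAt.comp ?_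
    refine ContinuousAt.rpow_const (by fun_prop) (Or.inl ?_)
    have h2 := (cond_iff p w).2 h
    have h0 : 0 < 1 * exp ((p + 1) * w) := by positivity
    nlinarith
  · have h1 : ∀ᶠ y in 𝓝 w, (0 : ℝ≥0∞) = kb p 1 y := by
      filter_upwards [Ioi_mem_nhds h] with y hy
      rw [kb_of_nonneg p (le_of_lt hy)]
    exact ContinuousAt.congr continuousAt_const h1

lemma continuousAt_K (p : ℕ) {w : ℝ} (hw : w ≠ 0) : ContinuousAt (K p) w :=
  ENNReal.Tendsto.mul continuous_ex.continuousAt (Or.inr (kb_ne_top _ _ _))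
    (continuousAt_kb p hw) (Or.inr (ex_ne_top _))

lemma tendsto_kb_atBot (p : ℕ) : Tendsto (kb p 1) atBot (𝓝 1) := by
  have h1 : ∀ᶠ y in atBot, ENNReal.ofReal ((1 - (1 * exp ((p + 1) * y)) ^ 2) ^
      (((p : ℝ) - 3) / 2)) = kb p 1 y := by
    filter_upwards [eventually_lt_atBot 0] with y hy
    unfold kb; rw [if_pos ((cond_iff p y).2 hy)]
  refine Tendsto.congr' h1 ?_
  have h2 : Tendsto (fun y : ℝ => exp ((p + 1) * y)) atBot (𝓝 0) :=
    tendsto_exp_atBot.comp (tendsto_id.const_mul_atBot (by positivity))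
  have h3 : Tendsto (fun y : ℝ => 1 - (1 * exp ((p + 1) * y)) ^ 2) atBot (𝓝 (1 - (1 * 0) ^ 2)) :=
    ((h2.const_mul 1).pow 2).const_sub 1
  have h4 := h3.rpow_const (p := ((p : ℝ) - 3) / 2) (Or.inl (by norm_num))
  have h5 := (ENNReal.continuous_ofReal.tendsto _).comp h4
  simpa [Function.comp_def] using h5

/-- the exponent of the singularity -/
noncomputable def sg (p : ℕ) : ℝ := if p = 2 then 1 / 2 else 0

/-- the singular part of the kernel -/
noncomputable def k1 (p : ℕ) (w : ℝ) : ℝ≥0∞ :=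
  (Ioo (-1 : ℝ) 0).indicator (fun w => ENNReal.ofReal ((-w) ^ (-sg p))) w

@[fun_prop] lemma measurable_k1 (p : ℕ) : Measurable (k1 p) := by
  unfold k1
  exact Measurable.indicator (by fun_prop) measurableSet_Ioo

lemma kb_le (p : ℕ) (hp : 2 ≤ p) (w : ℝ) : kb p 1 w ≤ 2 + k1 p w := by
  by_cases hw : w < 0
  swap
  · rw [kb_of_nonneg p (not_lt.1 hw)]; exact zero_le
  have h := (cond_iff p w).2 hw
  unfold kb
  rw [if_pos h]
  rw [one_mul] at h ⊢
  have h0 : 0 < exp ((p + 1) * w) := exp_pos _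
  have hb0 : 0 < 1 - exp ((p + 1) * w) ^ 2 := by nlinarith
  have hb1 : 1 - exp ((p + 1) * w) ^ 2 ≤ 1 := by nlinarith
  by_cases h2 : p = 2
  · subst h2
    have e1 : (((2 : ℕ) : ℝ) - 3) / 2 = -(1 / 2) := by norm_num
    rw [e1]
    have h3 : exp ((((2:ℕ):ℝ) + 1) * w) ^ 2 * (1 + 6 * -w) ≤ 1 := by
      rw [← exp_nat_mul]
      have h4 : 1 + 6 * -w ≤ exp (6 * -w) := by linarith [add_one_le_exp (6 * -w)]
      calc exp (((2:ℕ):ℝ) * ((((2:ℕ):ℝ) + 1) * w)) * (1 + 6 * -w)
          ≤ exp (((2:ℕ):ℝ) * ((((2:ℕ):ℝ) + 1) * w)) * exp (6 * -w) := by gcongr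
        _ = exp 0 := by rw [← exp_add]; congr 1; push_cast; ring
        _ = 1 := exp_zero
    set y := exp ((((2:ℕ):ℝ) + 1) * w) ^ 2 with hy
    have hy0 : 0 < y := by positivity
    by_cases h6 : -w ≤ 1 / 4
    · have h7 : -w ≤ 1 - y := by nlinarith
      refine le_trans ?_ le_add_self
      unfold k1
      rw [indicator_of_mem (show w ∈ Ioo (-1 : ℝ) 0 from ⟨by linarith, hw⟩)]
      refine ENNReal.ofReal_le_ofReal ?_
      have : sg 2 = 1 / 2 := by simp [sg]
      rw [this]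
      exact rpow_le_rpow_of_nonpos (by linarith) h7 (by norm_num)
    · have h7 : 1 / 4 ≤ 1 - y := by push Not at h6; nlinarith
      refine le_trans ?_ le_self_add
      have h8 := rpow_le_rpow_of_nonpos (by norm_num) h7 (show -(1 / 2 : ℝ) ≤ 0 by norm_num)
      have h9 : (1 / 4 : ℝ) ^ (-(1 / 2 : ℝ)) = 2 := by
        rw [show (1 / 4 : ℝ) = 2 ^ (-2 : ℝ) by rw [rpow_neg (by norm_num)]; norm_num,
          ← rpow_mul (by norm_num)]
        norm_num
      calc ENNReal.ofReal _ ≤ ENNReal.ofReal 2 := ENNReal.ofReal_le_ofReal (by linarith)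
        _ = 2 := by simp
  · have h3 : (0:ℝ) ≤ ((p : ℝ) - 3) / 2 := by
      have : 3 ≤ p := by omega
      have : (3:ℝ) ≤ p := by exact_mod_cast this
      linarith
    refine le_trans ?_ le_self_add
    have := rpow_le_one hb0.le hb1 h3
    calc ENNReal.ofReal _ ≤ ENNReal.ofReal 2 := ENNReal.ofReal_le_ofReal (by linarith)
      _ = 2 := by simp

lemma sg_nonneg (p : ℕ) : 0 ≤ sg p := by unfold sg; split_ifs <;> norm_num

lemma lint_k1_rpow (p : ℕ) {r : ℝ} (hr : 0 < r) (h : sg p * r < 1) :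
    ∫⁻ w, k1 p w ^ r < ∞ := by
  have h1 : ∀ w, k1 p w ^ r =
      (Ioo (-1 : ℝ) 0).indicator (fun w => ENNReal.ofReal ((-w) ^ (-(sg p * r)))) w := by
    intro w
    unfold k1
    by_cases hw : w ∈ Ioo (-1 : ℝ) 0
    · rw [indicator_of_mem hw, indicator_of_mem hw,
        ENNReal.ofReal_rpow_of_pos (rpow_pos_of_pos (by linarith [hw.2]) _),
        ← rpow_mul (by linarith [hw.2]), neg_mul]
    · rw [indicator_of_notMem hw, indicator_of_notMem hw, ENNReal.zero_rpow_of_pos hr]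
  simp_rw [h1]
  rw [← lintegral_neg_eq_self]
  have h2 : ∀ w : ℝ, (Ioo (-1 : ℝ) 0).indicator
      (fun w => ENNReal.ofReal ((-w) ^ (-(sg p * r)))) (-w) =
      (Ioo (0 : ℝ) 1).indicator (fun w => ENNReal.ofReal (w ^ (-(sg p * r)))) w := by
    intro w
    by_cases hw : w ∈ Ioo (0 : ℝ) 1
    · rw [indicator_of_mem hw, indicator_of_mem
        (show -w ∈ Ioo (-1 : ℝ) 0 from ⟨by linarith [hw.2], by linarith [hw.1]⟩), neg_neg]
    · rw [indicator_of_notMem hw, indicator_of_notMem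
        (fun h : -w ∈ Ioo (-1 : ℝ) 0 => hw ⟨by linarith [h.2], by linarith [h.1]⟩)]
  simp_rw [h2]
  rw [lintegral_indicator measurableSet_Ioo]
  have h3 : IntegrableOn (fun w : ℝ => w ^ (-(sg p * r))) (Ioo 0 1) :=
    (intervalIntegral.integrableOn_Ioo_rpow_iff zero_lt_one).2 (by linarith)
  exact h3.lintegral_lt_top

lemma lint_k1 (p : ℕ) : ∫⁻ w, k1 p w < ∞ := by
  have := lint_k1_rpow p one_pos (by unfold sg; split_ifs <;> norm_num)
  simpa using this

lemma add_rpow_le (x y : ℝ≥0∞) {r : ℝ} (hr : 0 < r) :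
    (x + y) ^ r ≤ 2 ^ r * (x ^ r + y ^ r) := by
  rcases le_total x y with h | h
  · calc (x + y) ^ r ≤ (2 * y) ^ r := by gcongr; rw [two_mul]; gcongr
      _ = 2 ^ r * y ^ r := ENNReal.mul_rpow_of_nonneg _ _ hr.le
      _ ≤ _ := by gcongr; exact le_add_self
  · calc (x + y) ^ r ≤ (2 * x) ^ r := by gcongr; rw [two_mul]; gcongr
      _ = 2 ^ r * x ^ r := ENNReal.mul_rpow_of_nonneg _ _ hr.le
      _ ≤ _ := by gcongr; exact le_self_add

/-- integrability of powers of the kernel -/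
lemma lint_K_rpow (p : ℕ) (hp : 2 ≤ p) {r : ℝ} (hr : 0 < r) (h : sg p * r < 1) :
    ∫⁻ w, K p w ^ r < ∞ := by
  have h1 : ∀ w, K p w ^ r ≤ (2 ^ r * 2 ^ r) * (Iic (0:ℝ)).indicator (fun w => ex (r * w)) w +
      2 ^ r * k1 p w ^ r := by
    intro w
    by_cases hw : w ≤ 0
    · rw [indicator_of_mem (show w ∈ Iic (0:ℝ) from hw)]
      have e1 : ex w ^ r = ex (r * w) := by
        unfold ex
        rw [ENNReal.ofReal_rpow_of_pos (exp_pos _), ← exp_mul, mul_comm]
      have e2 : ex (r * w) ≤ 1 := by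
        rw [← ex_zero]; exact ex_mono (mul_nonpos_of_nonneg_of_nonpos hr.le hw)
      unfold K
      rw [ENNReal.mul_rpow_of_nonneg _ _ hr.le, e1]
      calc ex (r * w) * kb p 1 w ^ r ≤ ex (r * w) * (2 + k1 p w) ^ r := by
            gcongr; exact kb_le p hp w
        _ ≤ ex (r * w) * (2 ^ r * (2 ^ r + k1 p w ^ r)) := by
            gcongr; exact add_rpow_le _ _ hr
        _ = 2 ^ r * 2 ^ r * ex (r * w) + ex (r * w) * (2 ^ r * k1 p w ^ r) := by ring
        _ ≤ 2 ^ r * 2 ^ r * ex (r * w) + 1 * (2 ^ r * k1 p w ^ r) := by gcongr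
        _ = _ := by rw [one_mul]
    · rw [K_of_nonneg p (le_of_not_ge hw), ENNReal.zero_rpow_of_pos hr]; exact zero_le
  refine lt_of_le_of_lt (lintegral_mono h1) ?_
  have h2 : (2 : ℝ≥0∞) ^ r ≠ ∞ := ENNReal.rpow_ne_top_of_nonneg hr.le (by simp)
  have hm : Measurable fun w : ℝ => (Iic (0:ℝ)).indicator (fun w => ex (r * w)) w :=
    Measurable.indicator (by fun_prop) measurableSet_Iic
  rw [lintegral_add_left (hm.const_mul _), lintegral_const_mul _ hm,
    lintegral_const_mul _ (by fun_prop), lintegral_indicator measurableSet_Iic, lint_ex_Iic hr]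
  exact ENNReal.add_lt_top.2 ⟨ENNReal.mul_lt_top (ENNReal.mul_ne_top h2 h2).lt_top
    ENNReal.ofReal_lt_top, ENNReal.mul_lt_top h2.lt_top (lint_k1_rpow p hr h)⟩

lemma lint_K (p : ℕ) (hp : 2 ≤ p) : ∫⁻ w, K p w < ∞ := by
  have := lint_K_rpow p hp one_pos (by unfold sg; split_ifs <;> norm_num)
  simpa using this

lemma lint_K_half (p : ℕ) (hp : 2 ≤ p) : ∫⁻ w, K p w ^ (((p:ℝ) + 1) / 2) < ∞ := by
  refine lint_K_rpow p hp (by positivity) ?_
  unfold sg; split_ifs with h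
  · subst h; norm_num
  · norm_num

lemma lint_K_r (p : ℕ) (hp : 2 ≤ p) : ∫⁻ w, K p w ^ (3 * ((p:ℝ) + 1) / 5) < ∞ := by
  refine lint_K_rpow p hp (by positivity) ?_
  unfold sg; split_ifs with h
  · subst h; norm_num
  · norm_num

lemma lint_K_ex (p : ℕ) (hp : 2 ≤ p) : ∫⁻ w, K p w * ex (p * w) < ∞ := by
  refine lt_of_le_of_lt (lintegral_mono fun w => ?_) (lint_K p hp)
  by_cases hw : w ≤ 0
  · have : ex (p * w) ≤ 1 := by
      rw [← ex_zero]; exact ex_mono (mul_nonpos_of_nonneg_of_nonpos (by positivity) hw)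
    calc K p w * ex (p * w) ≤ K p w * 1 := by gcongr
      _ = K p w := mul_one _
  · rw [K_of_nonneg p (le_of_not_ge hw), zero_mul]

/-- tails of an integrable function -/
lemma tail_small {g : ℝ → ℝ≥0∞} (hg : Measurable g) (hf : ∫⁻ w, g w < ∞) {e : ℝ≥0∞}
    (he : 0 < e) : ∃ W : ℝ, 0 < W ∧ ∫⁻ w, {w : ℝ | W ≤ |w|}.indicator g w ≤ e := by
  have hs : ∀ k : ℕ, MeasurableSet {w : ℝ | (k:ℝ) + 1 ≤ |w|} := fun k =>
    measurableSet_le measurable_const (by fun_prop)
  have h := tendsto_lintegral_of_dominated_convergence (μ := volume)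
    (F := fun k : ℕ => {w : ℝ | (k:ℝ) + 1 ≤ |w|}.indicator g) (f := fun _ => 0) g
    (fun k => hg.indicator (hs k))
    (fun k => Eventually.of_forall fun w => indicator_le_self _ _ w) hf.ne
    (Eventually.of_forall fun w => ?_)
  · rw [lintegral_zero] at h
    obtain ⟨k, hk⟩ := (h.eventually (Iic_mem_nhds he)).exists
    exact ⟨k + 1, by positivity, hk⟩
  · refine tendsto_const_nhds.congr' ?_
    obtain ⟨k, hk⟩ := exists_nat_gt |w|
    filter_upwards [eventually_ge_atTop k] with j hj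
    have : (k:ℝ) ≤ j := by exact_mod_cast hj
    rw [indicator_of_notMem]
    simp only [mem_ofPred_eq, not_le]; linarith

/-- continuity of translation in the mean -/
lemma tendsto_K_shift (p : ℕ) (hp : 2 ≤ p) :
    Tendsto (fun h : ℝ => ∫⁻ w, (K p w - K p (w - h))) (𝓝 0) (𝓝 0) := by
  have h := tendsto_lintegral_filter_of_dominated_convergence (μ := volume) (l := 𝓝 (0:ℝ))
    (F := fun h w => K p w - K p (w - h)) (f := fun _ => 0) (K p)
    (Eventually.of_forall fun h => by fun_prop)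
    (Eventually.of_forall fun h => Eventually.of_forall fun w => tsub_le_self) (lint_K p hp).ne
    ?_
  · simpa using h
  · have : ∀ᵐ w : ℝ, w ≠ 0 := by
      simp [ae_iff]
    filter_upwards [this] with w hw
    have h1 : Tendsto (fun h : ℝ => w - h) (𝓝 0) (𝓝 w) := by
      have : Continuous fun h : ℝ => w - h := by fun_prop
      simpa using this.tendsto 0
    have h2 := ENNReal.Tendsto.sub (tendsto_const_nhds (x := K p w))
      ((continuousAt_K p hw).tendsto.comp h1) (Or.inl (K_ne_top p w))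
    simpa [Function.comp_def] using h2

end Pool.Agent.Lib.MP_242fd5_gt.Z
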