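import Pool.Agent.Lib.MP_242fd5_gt.Z1Ker

set_option autoImplicit false

namespace Pool.Agent.Lib.MP_242fd5_gt.Z

open MeasureTheory Set Real Filter Topology
open scoped ENNReal

/-- the nonlinear operator with a general kernel -/
noncomputable def Tk (p : ℕ) (k u : ℝ → ℝ≥0∞) (s : ℝ) : ℝ≥0∞ := ∫⁻ t, k (s + t) * u t ^ p

/-- the section operator -/
noncomputable def T (p : ℕ) (u : ℝ → ℝ≥0∞) : ℝ → ℝ≥0∞ := Tk p (K p) u

/-- the volume functional -/
noncomputable def N (p : ℕ) (u : ℝ → ℝ≥0∞) : ℝ≥0∞ := ∫⁻ t, u t ^ (p + 1)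

variable {p : ℕ} {k u v : ℝ → ℝ≥0∞}

lemma measurable_Tk (hk : Measurable k) (hu : Measurable u) : Measurable (Tk p k u) := by
  unfold Tk
  exact Measurable.lintegral_prod_right (f := fun s t => k (s + t) * u t ^ p) (by
    unfold Function.uncurry; fun_prop)

lemma measurable_T (hu : Measurable u) : Measurable (T p u) := measurable_Tk (measurable_K p) hu

lemma Tk_mono (h : ∀ t, u t ≤ v t) (s : ℝ) : Tk p k u s ≤ Tk p k v s :=
  lintegral_mono fun t => by gcongr; exact h t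

lemma T_mono (h : ∀ t, u t ≤ v t) (s : ℝ) : T p u s ≤ T p v s := Tk_mono h s

lemma N_mono (h : ∀ t, u t ≤ v t) : N p u ≤ N p v :=
  lintegral_mono fun t => by gcongr; exact h t

lemma T_smul (hu : Measurable u) (c : ℝ≥0∞) (s : ℝ) :
    T p (fun t => c * u t) s = c ^ p * T p u s := by
  unfold T Tk
  rw [← lintegral_const_mul _ (by fun_prop)]
  refine lintegral_congr fun t => ?_
  rw [mul_pow]; ring

lemma N_smul (hu : Measurable u) (c : ℝ≥0∞) :
    N p (fun t => c * u t) = c ^ (p + 1) * N p u := by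
  unfold N
  rw [← lintegral_const_mul _ (by fun_prop)]
  refine lintegral_congr fun t => ?_
  rw [mul_pow]

lemma T_shift (u : ℝ → ℝ≥0∞) (c s : ℝ) : T p (fun t => u (t + c)) s = T p u (s + -c) := by
  unfold T Tk
  rw [← lintegral_add_right_eq_self (fun t => K p (s + -c + t) * u t ^ p) c]
  refine lintegral_congr fun t => ?_
  congr 2; ring

lemma N_shift (u : ℝ → ℝ≥0∞) (c : ℝ) : N p (fun t => u (t + c)) = N p u :=
  lintegral_add_right_eq_self (fun t => u t ^ (p + 1)) c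

lemma T_alt (u : ℝ → ℝ≥0∞) (s : ℝ) : T p u s = ∫⁻ w, K p w * u (w - s) ^ p := by
  unfold T Tk
  rw [← lintegral_add_left_eq_self (fun w => K p w * u (w - s) ^ p) s]
  refine lintegral_congr fun t => ?_
  congr 3; ring

lemma pow_eq_rpow (x : ℝ≥0∞) (m : ℕ) : x ^ m = x ^ (m : ℝ) := (ENNReal.rpow_natCast x m).symm

/-- pointwise form of Young's inequality -/
lemma Tk_pow_le (hp : 1 ≤ p) (hk : Measurable k) (hu : Measurable u) (s : ℝ) :
    Tk p k u s ^ (p + 1) ≤ (∫⁻ t, k (s + t) ^ (((p:ℝ) + 1) / 2) * u t ^ (p + 1)) *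
      (∫⁻ w, k w ^ (((p:ℝ) + 1) / 2)) * N p u ^ (p - 1) := by
  set n : ℝ := p + 1 with hn
  have hn0 : 0 < n := by positivity
  have hp1 : (1:ℝ) ≤ p := by exact_mod_cast hp
  have h := ENNReal.lintegral_prod_norm_pow_le (μ := volume) (Finset.univ : Finset (Fin 3))
    (f := ![fun t => k (s + t) ^ (n / 2) * u t ^ (p + 1), fun t => k (s + t) ^ (n / 2),
      fun t => u t ^ (p + 1)]) (p := ![1 / n, 1 / n, (p - 1) / n])
    (fun i _ => by fin_cases i <;> exact Measurable.aemeasurable (by simp; fun_prop))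
    (by simp [Fin.sum_univ_three]; field_simp; ring)
    (fun i _ => by
      fin_cases i
      · simp; positivity
      · simp; positivity
      · simp; exact div_nonneg (by linarith) hn0.le)
  simp only [Fin.prod_univ_three, Matrix.cons_val_zero, Matrix.cons_val_one, Matrix.cons_val_two,
    Matrix.head_cons, Matrix.tail_cons] at h
  have e1 : ∀ t, (k (s + t) ^ (n / 2) * u t ^ (p + 1)) ^ (1 / n) * (k (s + t) ^ (n / 2)) ^ (1 / n) *
      (u t ^ (p + 1)) ^ (((p:ℝ) - 1) / n) = k (s + t) * u t ^ p := by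
    intro t
    have a1 : n / 2 * (1 / n) = 1 / 2 := by field_simp
    have a2 : ((p + 1 : ℕ) : ℝ) * (1 / n) = 1 := by push_cast; rw [← hn]; field_simp
    have a3 : ((p + 1 : ℕ) : ℝ) * ((p - 1) / n) = p - 1 := by push_cast; rw [← hn]; field_simp
    rw [ENNReal.mul_rpow_of_nonneg _ _ (by positivity), pow_eq_rpow (u t) (p + 1),
      ← ENNReal.rpow_mul, ← ENNReal.rpow_mul, ← ENNReal.rpow_mul, a1, a2, a3, pow_eq_rpow (u t) p]
    calc k (s + t) ^ (1 / 2 : ℝ) * u t ^ (1:ℝ) * k (s + t) ^ (1 / 2 : ℝ) * u t ^ ((p:ℝ) - 1)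
        = (k (s + t) ^ (1 / 2 : ℝ) * k (s + t) ^ (1 / 2 : ℝ)) *
          (u t ^ (1:ℝ) * u t ^ ((p:ℝ) - 1)) := by ring
      _ = _ := by
        rw [← ENNReal.rpow_add_of_nonneg _ _ (by norm_num) (by norm_num),
          ← ENNReal.rpow_add_of_nonneg _ _ (by norm_num) (by linarith)]
        norm_num
  simp_rw [e1] at h
  rw [lintegral_add_left_eq_self (fun w => k w ^ (n / 2)) s] at h
  have h2 := pow_le_pow_left' h (p + 1)
  refine h2.trans (le_of_eq ?_)
  have b1 : ∀ x : ℝ≥0∞, (x ^ (1 / n)) ^ (p + 1) = x := fun x => by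
    rw [pow_eq_rpow, ← ENNReal.rpow_mul]; push_cast; rw [← hn, one_div_mul_cancel hn0.ne']; simp
  have b2 : ∀ x : ℝ≥0∞, (x ^ (((p:ℝ) - 1) / n)) ^ (p + 1) = x ^ (p - 1) := fun x => by
    rw [pow_eq_rpow, ← ENNReal.rpow_mul, pow_eq_rpow]; push_cast [Nat.cast_sub hp]
    rw [← hn, div_mul_cancel₀ _ hn0.ne']
  rw [mul_pow, mul_pow, b1, b1, b2]
  rfl

/-- Young's inequality -/
lemma N_Tk_le (hp : 1 ≤ p) (hk : Measurable k) (hu : Measurable u) :
    N p (Tk p k u) ≤ (∫⁻ w, k w ^ (((p:ℝ) + 1) / 2)) ^ 2 * N p u ^ p := by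
  refine (lintegral_mono fun s => Tk_pow_le hp hk hu s).trans (le_of_eq ?_)
  have hm : Measurable fun s => ∫⁻ t, k (s + t) ^ (((p:ℝ) + 1) / 2) * u t ^ (p + 1) :=
    Measurable.lintegral_prod_right
      (f := fun s t => k (s + t) ^ (((p:ℝ) + 1) / 2) * u t ^ (p + 1)) (by
      unfold Function.uncurry; fun_prop)
  rw [lintegral_mul_const _ (hm.mul_const _), lintegral_mul_const _ hm,
    lintegral_lintegral_swap (Measurable.aemeasurable (by unfold Function.uncurry; fun_prop))]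
  have : ∀ t, ∫⁻ s, k (s + t) ^ (((p:ℝ) + 1) / 2) * u t ^ (p + 1) =
      (∫⁻ w, k w ^ (((p:ℝ) + 1) / 2)) * u t ^ (p + 1) := by
    intro t
    rw [lintegral_mul_const _ (by fun_prop),
      lintegral_add_right_eq_self (fun w => k w ^ (((p:ℝ) + 1) / 2)) t]
  simp_rw [this]
  rw [lintegral_const_mul _ (by fun_prop)]
  obtain ⟨q, rfl⟩ : ∃ q, p = q + 1 := ⟨p - 1, by omega⟩
  simp only [Nat.add_sub_cancel, N]
  ring

lemma T_dual (hu : Measurable u) (hv : Measurable v) :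
    ∫⁻ s, T p u s * v s ^ p = ∫⁻ t, u t ^ p * T p v t := by
  unfold T Tk
  have h1 : ∀ s, (∫⁻ t, K p (s + t) * u t ^ p) * v s ^ p =
      ∫⁻ t, K p (s + t) * u t ^ p * v s ^ p := fun s =>
    (lintegral_mul_const _ (by fun_prop)).symm
  have h2 : ∀ t, u t ^ p * (∫⁻ s, K p (t + s) * v s ^ p) =
      ∫⁻ s, K p (s + t) * u t ^ p * v s ^ p := fun t => by
    rw [← lintegral_const_mul _ (by fun_prop)]
    refine lintegral_congr fun s => ?_
    rw [add_comm t s]; ring
  simp_rw [h1, h2]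
  exact lintegral_lintegral_swap (Measurable.aemeasurable (by unfold Function.uncurry; fun_prop))

/-- the energy inequality -/
lemma N_T_pow_le (hu : Measurable u) :
    N p (T p u) ^ (p + 1) ≤ N p u ^ p * N p (T p (T p u)) := by
  set n : ℝ := p + 1 with hn
  have hn0 : 0 < n := by positivity
  have hT : Measurable (T p u) := measurable_T hu
  have h1 : N p (T p u) = ∫⁻ t, u t ^ p * T p (T p u) t := by
    rw [← T_dual hu hT]
    unfold N
    simp_rw [pow_succ']
  have h := ENNReal.lintegral_mul_norm_pow_le (μ := volume) (f := fun t => u t ^ (p + 1))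
    (g := fun t => T p (T p u) t ^ (p + 1)) (p := p / n) (q := 1 / n)
    (Measurable.aemeasurable (by fun_prop))
    ((measurable_T hT).pow_const _).aemeasurable (by positivity) (by positivity)
    (by rw [hn]; field_simp)
  have a2 : ((p + 1 : ℕ) : ℝ) * (1 / n) = 1 := by push_cast; rw [← hn]; field_simp
  have a3 : ((p + 1 : ℕ) : ℝ) * (p / n) = p := by push_cast; rw [← hn]; field_simp
  have e1 : ∀ t, (u t ^ (p + 1)) ^ ((p:ℝ) / n) * (T p (T p u) t ^ (p + 1)) ^ (1 / n) =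
      u t ^ p * T p (T p u) t := by
    intro t
    rw [pow_eq_rpow (u t) (p + 1), pow_eq_rpow (T p (T p u) t) (p + 1), ← ENNReal.rpow_mul,
      ← ENNReal.rpow_mul, a2, a3, ← pow_eq_rpow, ENNReal.rpow_one]
  simp_rw [e1] at h
  rw [← h1] at h
  refine (pow_le_pow_left' h (p + 1)).trans (le_of_eq ?_)
  rw [mul_pow, pow_eq_rpow _ (p + 1), pow_eq_rpow _ (p + 1), ← ENNReal.rpow_mul,
    ← ENNReal.rpow_mul, mul_comm (1 / n), mul_comm (p / n), a2, a3, ← pow_eq_rpow,
    ENNReal.rpow_one]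
  rfl

/-- the sup bound -/
lemma Tk_le_sup (hp : 1 ≤ p) (hk : Measurable k) (hu : Measurable u) {M : ℝ≥0∞}
    (hM : ∀ t, u t ≤ M) (s : ℝ) :
    Tk p k u s ≤ M ^ (2 / 3 : ℝ) * ((∫⁻ w, k w ^ (3 * ((p:ℝ) + 1) / 5)) ^ (5 / (3 * ((p:ℝ) + 1))) *
      N p u ^ (1 - 5 / (3 * ((p:ℝ) + 1)))) := by
  set n : ℝ := p + 1 with hn
  have hp1 : (1:ℝ) ≤ p := by exact_mod_cast hp
  have hn0 : 0 < n := by positivity
  have hq : 0 ≤ 1 - 5 / (3 * n) := by
    rw [sub_nonneg, div_le_one (by positivity)]; linarith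
  have h := ENNReal.lintegral_mul_norm_pow_le (μ := volume)
    (f := fun t => k (s + t) ^ (3 * n / 5))
    (g := fun t => u t ^ (p + 1)) (p := 5 / (3 * n)) (q := 1 - 5 / (3 * n))
    (Measurable.aemeasurable (by fun_prop)) (Measurable.aemeasurable (by fun_prop))
    (by positivity) hq (by ring)
  rw [lintegral_add_left_eq_self (fun w => k w ^ (3 * n / 5)) s] at h
  refine le_trans ?_ (mul_le_mul_right h _)
  rw [← lintegral_const_mul _ (by fun_prop)]
  refine lintegral_mono fun t => ?_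
  have a1 : 3 * n / 5 * (5 / (3 * n)) = 1 := by field_simp
  have a2 : ((p + 1 : ℕ) : ℝ) * (1 - 5 / (3 * n)) = p - 2 / 3 := by
    push_cast; rw [← hn]; field_simp; rw [hn]; ring
  rw [pow_eq_rpow (u t) (p + 1), ← ENNReal.rpow_mul, ← ENNReal.rpow_mul, a1, a2, ENNReal.rpow_one,
    pow_eq_rpow, show (p:ℝ) = 2 / 3 + (p - 2 / 3) by ring,
    ENNReal.rpow_add_of_nonneg _ _ (by norm_num) (by linarith)]
  calc k (s + t) * (u t ^ (2 / 3 : ℝ) * u t ^ ((p:ℝ) - 2 / 3))
      ≤ k (s + t) * (M ^ (2 / 3 : ℝ) * u t ^ ((p:ℝ) - 2 / 3)) := by gcongr; exact hM t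
    _ = _ := by rw [show 2 / 3 + ((p:ℝ) - 2 / 3) - 2 / 3 = p - 2 / 3 by ring]; ring

/-- splitting into a near and a far part -/
lemma T_split (hp : 1 ≤ p) (hu : Measurable u) {B : Set ℝ} (hB : MeasurableSet B) {W s : ℝ}
    (h : ∀ t, |s + t| < W → t ∈ B) :
    T p u s ≤ T p (B.indicator u) s + Tk p ({w : ℝ | W ≤ |w|}.indicator (K p)) u s := by
  unfold T Tk
  have hm : Measurable (B.indicator u) := hu.indicator hB
  rw [← lintegral_add_left (by fun_prop)]
  refine lintegral_mono fun t => ?_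
  by_cases h1 : |s + t| < W
  · rw [indicator_of_mem (h t h1)]; exact le_self_add
  · rw [indicator_of_mem (show s + t ∈ {w : ℝ | W ≤ |w|} from not_lt.1 h1)]; exact le_add_self

lemma N_indicator {B : Set ℝ} (hB : MeasurableSet B) :
    N p (B.indicator u) = ∫⁻ t in B, u t ^ (p + 1) := by
  unfold N
  rw [← lintegral_indicator hB]
  refine lintegral_congr fun t => ?_
  by_cases h : t ∈ B
  · rw [indicator_of_mem h, indicator_of_mem h]
  · rw [indicator_of_notMem h, indicator_of_notMem h, zero_pow (by omega)]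

/-- the modulus of continuity -/
lemma T_modulus (hu : Measurable u) {M : ℝ≥0∞} (hM : ∀ t, u t ≤ M) (s t : ℝ) :
    T p u s ≤ T p u t + M ^ p * ∫⁻ w, (K p w - K p (w - (s - t))) := by
  unfold T Tk
  rw [← lintegral_add_left_eq_self (fun w => K p w - K p (w - (s - t))) s,
    ← lintegral_const_mul _ (by fun_prop), ← lintegral_add_left (by fun_prop)]
  refine lintegral_mono fun τ => ?_
  rw [show s + τ - (s - t) = t + τ by ring]
  calc K p (s + τ) * u τ ^ p ≤ (K p (t + τ) + (K p (s + τ) - K p (t + τ))) * u τ ^ p := by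
        gcongr; exact le_add_tsub
    _ = K p (t + τ) * u τ ^ p + u τ ^ p * (K p (s + τ) - K p (t + τ)) := by ring
    _ ≤ _ := by gcongr; exact hM τ

/-- the best constant -/
noncomputable def sig (p : ℕ) : ℝ≥0∞ :=
  ⨆ (u : ℝ → ℝ≥0∞) (_ : Measurable u) (_ : N p u ≤ 1), N p (T p u)

lemma sig_lt_top (hp : 2 ≤ p) : sig p < ∞ := by
  refine lt_of_le_of_lt (iSup_le fun u => iSup_le fun hu => iSup_le fun h => ?_)
    (ENNReal.pow_lt_top (n := 2) (lint_K_half p hp))
  refine (N_Tk_le (by omega) (measurable_K p) hu).trans ?_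
  calc _ ≤ (∫⁻ w, K p w ^ (((p:ℝ) + 1) / 2)) ^ 2 * 1 ^ p := by gcongr
    _ = _ := by simp

lemma exists_root {x : ℝ≥0∞} (h0 : x ≠ 0) (h1 : x ≠ ∞) (m : ℕ) :
    ∃ c : ℝ≥0∞, c ≠ 0 ∧ c ≠ ∞ ∧ c ^ (m + 1) * x = 1 := by
  refine ⟨x⁻¹ ^ (1 / ((m:ℝ) + 1)), ?_, ?_, ?_⟩
  · exact (ENNReal.rpow_pos (ENNReal.inv_pos.2 h1) (ENNReal.inv_ne_top.2 h0)).ne'
  · exact ENNReal.rpow_ne_top_of_nonneg (by positivity) (ENNReal.inv_ne_top.2 h0)
  · rw [pow_eq_rpow, ← ENNReal.rpow_mul]
    push_cast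
    rw [one_div_mul_cancel (by positivity), ENNReal.rpow_one, ENNReal.inv_mul_cancel h0 h1]

lemma T_eq_zero (hp : 1 ≤ p) (hu : Measurable u) (h : N p u = 0) (s : ℝ) : T p u s = 0 := by
  unfold N at h
  rw [lintegral_eq_zero_iff (by fun_prop)] at h
  unfold T Tk
  rw [lintegral_eq_zero_iff (by fun_prop)]
  filter_upwards [h] with t ht
  have : u t = 0 := pow_eq_zero_iff (by omega) |>.1 ht
  simp [this, show p ≠ 0 by omega]

lemma N_T_le (hp : 1 ≤ p) (hu : Measurable u) (h : N p u ≠ ∞) :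
    N p (T p u) ≤ sig p * N p u ^ p := by
  by_cases h0 : N p u = 0
  · have : T p u = fun _ => 0 := funext (T_eq_zero hp hu h0)
    rw [this]; simp [N]
  obtain ⟨c, hc0, hc1, hc⟩ := exists_root h0 h p
  have h1 : N p (T p fun t => c * u t) ≤ sig p :=
    le_iSup_of_le (fun t => c * u t) (le_iSup_of_le (by fun_prop)
      (le_iSup_of_le (by rw [N_smul hu, hc]) le_rfl))
  have h2 : (T p fun t => c * u t) = fun s => c ^ p * T p u s := funext (T_smul hu c)
  rw [h2, N_smul (measurable_T hu)] at h1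
  calc N p (T p u) = (c ^ (p + 1) * N p u) ^ p * N p (T p u) := by rw [hc]; simp
    _ = ((c ^ p) ^ (p + 1) * N p (T p u)) * N p u ^ p := by
        rw [mul_pow, ← pow_mul, ← pow_mul, mul_comm p]; ring
    _ ≤ _ := by gcongr

lemma T_pos (hu : Measurable u) {a : ℝ} (h : ∀ t < a, 0 < u t) (s : ℝ) : 0 < T p u s := by
  unfold T Tk
  rw [lintegral_pos_iff_support (by fun_prop)]
  refine lt_of_lt_of_le ?_ (measure_mono (show Iio (min a (-s)) ⊆ _ from fun t ht => ?_))
  · simp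
  · have h1 : t < a := lt_of_lt_of_le ht (min_le_left _ _)
    have h2 : t < -s := lt_of_lt_of_le ht (min_le_right _ _)
    exact mul_ne_zero (K_pos p (by linarith)).ne' (pow_ne_zero _ (h t h1).ne')

lemma T_pos_left (hu : Measurable u) (h : N p u ≠ 0) : ∃ a, ∀ s < a, 0 < T p u s := by
  have h1 : ∃ b : ℕ, volume (Iio (b:ℝ) ∩ Function.support u) ≠ 0 := by
    by_contra h2
    push Not at h2
    apply h
    unfold N
    rw [lintegral_eq_zero_iff (by fun_prop)]
    have h3 : volume (⋃ b : ℕ, Iio (b:ℝ) ∩ Function.support u) = 0 := measure_iUnion_null h2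
    refine measure_mono_null (fun t ht => ?_) h3
    obtain ⟨b, hb⟩ := exists_nat_gt t
    refine mem_iUnion.2 ⟨b, hb, fun h4 => ht ?_⟩
    simp [h4]
  obtain ⟨b, hb⟩ := h1
  refine ⟨-b, fun s hs => ?_⟩
  unfold T Tk
  rw [lintegral_pos_iff_support (by fun_prop)]
  refine lt_of_lt_of_le (pos_iff_ne_zero.2 hb) (measure_mono fun t ht => ?_)
  have h2 : t < b := ht.1
  exact mul_ne_zero (K_pos p (by linarith)).ne' (pow_ne_zero _ ht.2)

lemma N_pos_of_left (hu : Measurable u) {a : ℝ} (h : ∀ t < a, 0 < u t) : N p u ≠ 0 := by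
  unfold N
  refine ne_of_gt ?_
  rw [lintegral_pos_iff_support (by fun_prop)]
  refine lt_of_lt_of_le ?_ (measure_mono (show Iio a ⊆ _ from fun t ht => ?_))
  · simp
  · exact pow_ne_zero _ (h t ht).ne'

lemma N_T_ne_zero (hu : Measurable u) (h : N p u ≠ 0) : N p (T p u) ≠ 0 := by
  obtain ⟨a, ha⟩ := T_pos_left hu h
  exact N_pos_of_left (measurable_T hu) ha

lemma sig_pos (p : ℕ) : 0 < sig p := by
  have hm : Measurable ((Icc (0:ℝ) 1).indicator fun _ => (1:ℝ≥0∞)) :=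
    measurable_const.indicator measurableSet_Icc
  have h1 : N p ((Icc (0:ℝ) 1).indicator fun _ => (1:ℝ≥0∞)) = 1 := by
    rw [N_indicator measurableSet_Icc]; simp
  exact lt_of_lt_of_le (pos_iff_ne_zero.2 (N_T_ne_zero hm (by rw [h1]; simp)))
    (le_iSup_of_le _ (le_iSup_of_le hm (le_iSup_of_le h1.le le_rfl)))

lemma add_pow_le' (x y l : ℝ≥0∞) (h0 : l ≠ 0) (h1 : l ≠ ∞) (m : ℕ) :
    (x + y) ^ m ≤ (1 + l) ^ m * x ^ m + (1 + l⁻¹) ^ m * y ^ m := by
  rcases le_total y (l * x) with h | h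
  · refine le_trans ?_ le_self_add
    rw [← mul_pow]; gcongr
    rw [add_mul, one_mul]; gcongr
  · refine le_trans ?_ le_add_self
    rw [← mul_pow]; gcongr
    rw [add_mul, one_mul, add_comm]; gcongr
    calc x = l⁻¹ * (l * x) := by rw [← mul_assoc, ENNReal.inv_mul_cancel h0 h1, one_mul]
      _ ≤ _ := by gcongr

/-- decoupling -/
theorem decouple (hp : 2 ≤ p) {e : ℝ} (he : 0 < e) : ∃ W : ℝ, 0 < W ∧
    ∀ u : ℝ → ℝ≥0∞, Measurable u → N p u ≤ 1 → ∀ A B : Set ℝ, MeasurableSet A →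
      MeasurableSet B → (∀ s ∈ A, ∀ t, |s + t| < W → t ∈ B) →
      ∫⁻ s in A, T p u s ^ (p + 1) ≤
        sig p * (∫⁻ t in B, u t ^ (p + 1)) ^ p + ENNReal.ofReal e := by
  have hs := sig_lt_top hp
  have he2 : 0 < ENNReal.ofReal (e / 2) := ENNReal.ofReal_pos.2 (by positivity)
  obtain ⟨l, hl0, hl1, hl⟩ : ∃ l : ℝ≥0∞, l ≠ 0 ∧ l ≠ ∞ ∧
      (1 + l) ^ (p + 1) * sig p ≤ sig p + ENNReal.ofReal (e / 2) := by
    have h1 : Tendsto (fun l : ℝ≥0∞ => (1 + l) ^ (p + 1) * sig p) (𝓝 0)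
        (𝓝 ((1 + 0) ^ (p + 1) * sig p)) :=
      ENNReal.Tendsto.mul_const (ENNReal.Tendsto.pow (tendsto_const_nhds.add tendsto_id))
        (Or.inr hs.ne)
    rw [add_zero, one_pow, one_mul] at h1
    have h2 := h1.eventually (Iic_mem_nhds (ENNReal.lt_add_right hs.ne he2.ne'))
    have h3 : ∀ᶠ l : ℝ≥0∞ in 𝓝 0, l < 1 := Iio_mem_nhds zero_lt_one
    obtain ⟨l, ⟨h4, h5⟩, h6⟩ := (((h2.and h3).filter_mono nhdsWithin_le_nhds).and
      (self_mem_nhdsWithin (s := Ioi (0:ℝ≥0∞)))).exists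
    exact ⟨l, ne_of_gt h6, (h5.trans ENNReal.one_lt_top).ne, h4⟩
  set C := (1 + l⁻¹) ^ (p + 1) with hC
  have hC1 : C ≠ ∞ := ENNReal.pow_ne_top (by simp [hl0])
  have hC0 : C ≠ 0 := pow_ne_zero _ (by simp)
  obtain ⟨W, hW, hW2⟩ := tail_small (g := fun w => K p w ^ (((p:ℝ) + 1) / 2)) (by fun_prop)
    (lint_K_half p hp) (e := min 1 (ENNReal.ofReal (e / 2) / C))
    (lt_min zero_lt_one (ENNReal.div_pos he2.ne' hC1))
  refine ⟨W, hW, fun u hu hN A B hA hB h => ?_⟩
  have hms : MeasurableSet {w : ℝ | W ≤ |w|} := measurableSet_le measurable_const (by fun_prop)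
  have hk : Measurable ({w : ℝ | W ≤ |w|}.indicator (K p)) := (measurable_K p).indicator hms
  have hBu : Measurable (B.indicator u) := hu.indicator hB
  have hNB : N p (B.indicator u) ≤ 1 := (N_mono fun t => indicator_le_self _ _ t).trans hN
  have h1 : ∫⁻ s in A, T p u s ^ (p + 1) ≤ (1 + l) ^ (p + 1) * N p (T p (B.indicator u)) +
      C * N p (Tk p ({w : ℝ | W ≤ |w|}.indicator (K p)) u) := by
    unfold N
    rw [← lintegral_const_mul _ ((measurable_T hBu).pow_const _),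
      ← lintegral_const_mul _ ((measurable_Tk hk hu).pow_const _),
      ← lintegral_add_left (((measurable_T hBu).pow_const _).const_mul _)]
    refine le_trans (setLIntegral_mono' hA fun s hs => ?_) (setLIntegral_le_lintegral _ _)
    exact (pow_le_pow_left' (T_split (by omega) hu hB (h s hs)) _).trans
      (add_pow_le' _ _ l hl0 hl1 _)
  have h2 : N p (Tk p ({w : ℝ | W ≤ |w|}.indicator (K p)) u) ≤ ENNReal.ofReal (e / 2) / C := by
    refine (N_Tk_le (by omega) hk hu).trans ?_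
    have h3 : ∀ w, {w : ℝ | W ≤ |w|}.indicator (K p) w ^ (((p:ℝ) + 1) / 2) =
        {w : ℝ | W ≤ |w|}.indicator (fun w => K p w ^ (((p:ℝ) + 1) / 2)) w := by
      intro w
      by_cases hw : w ∈ {w : ℝ | W ≤ |w|}
      · rw [indicator_of_mem hw, indicator_of_mem hw]
      · rw [indicator_of_notMem hw, indicator_of_notMem hw,
          ENNReal.zero_rpow_of_pos (by positivity)]
    simp_rw [h3]
    rw [sq]
    calc _ ≤ 1 * (ENNReal.ofReal (e / 2) / C) * 1 ^ p := by
          gcongr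
          · exact hW2.trans (min_le_left _ _)
          · exact hW2.trans (min_le_right _ _)
      _ = _ := by simp
  have h4 := N_T_le (p := p) (by omega) hBu (hNB.trans_lt ENNReal.one_lt_top).ne
  rw [← N_indicator hB]
  calc _ ≤ (1 + l) ^ (p + 1) * (sig p * N p (B.indicator u) ^ p) +
        C * (ENNReal.ofReal (e / 2) / C) := h1.trans (by gcongr)
    _ = ((1 + l) ^ (p + 1) * sig p) * N p (B.indicator u) ^ p + ENNReal.ofReal (e / 2) := by
        rw [ENNReal.mul_div_cancel hC0 hC1, mul_assoc]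
    _ ≤ (sig p + ENNReal.ofReal (e / 2)) * N p (B.indicator u) ^ p + ENNReal.ofReal (e / 2) := by
        gcongr
    _ = sig p * N p (B.indicator u) ^ p + (ENNReal.ofReal (e / 2) * N p (B.indicator u) ^ p +
        ENNReal.ofReal (e / 2)) := by ring
    _ ≤ sig p * N p (B.indicator u) ^ p + (ENNReal.ofReal (e / 2) * 1 ^ p +
        ENNReal.ofReal (e / 2)) := by gcongr
    _ = _ := by
        rw [one_pow, mul_one, ← ENNReal.ofReal_add (by positivity) (by positivity), add_halves]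

end Pool.Agent.Lib.MP_242fd5_gt.Z
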