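import Mathlib

set_option autoImplicit false

namespace Pool.Agent.Lib.MP_242fd5_gt.Z

open Set Real Filter Topology

/-- two distribution functions linked by the decoupling inequality -/
structure Pair (p : ℕ) (σ φ e W : ℝ) (G G' : ℝ → ℝ) : Prop where
  mono : Monotone G
  nn : ∀ x, 0 ≤ G x
  le1 : ∀ x, G x ≤ 1
  mono' : Monotone G'
  nn' : ∀ x, 0 ≤ G' x
  le1' : ∀ x, G' x ≤ 1
  mid : ∀ α β, α ≤ β → φ * (G' β - G' α) ≤ σ * (G (β + W) - G (α - W)) ^ p + e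
  left : ∀ β, φ * G' β ≤ σ * G (β + W) ^ p + e
  right : ∀ α, φ * (1 - G' α) ≤ σ * (1 - G (α - W)) ^ p + e

lemma exists_window {G : ℝ → ℝ} (h0 : ∀ x, 0 ≤ G x) (h1 : ∀ x, G x ≤ 1)
    {L : ℕ} (hL : 0 < L) {W : ℝ} (hW : 0 ≤ W) (x : ℝ) :
    ∃ y, x ≤ y - W ∧ y + W ≤ x + 2 * W * L ∧ G (y + W) - G (y - W) ≤ 1 / L := by
  by_contra h
  push Not at h
  have hL' : (0:ℝ) < L := by exact_mod_cast hL
  have key : ∀ i : ℕ, 0 < i → i ≤ L → (i:ℝ) / L < G (x + 2 * W * i) - G x := by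
    intro i hi
    induction i, hi using Nat.le_induction with
    | base =>
      intro h2
      have h3 : (1:ℝ) ≤ L := by exact_mod_cast h2
      have := h (x + W) (by linarith) (by nlinarith)
      rw [show x + W + W = x + 2 * W * ((0 + 1 : ℕ) : ℝ) by push_cast; ring,
        show x + W - W = x by ring] at this
      simpa using this
    | succ i hi ih =>
      intro h2
      have h3 : (i:ℝ) + 1 ≤ L := by exact_mod_cast h2
      have h4 : (0:ℝ) ≤ i := by positivity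
      have h5 := ih (by omega)
      have := h (x + 2 * W * i + W) (by nlinarith) (by nlinarith)
      rw [show x + 2 * W * i + W + W = x + 2 * W * ((i + 1 : ℕ) : ℝ) by push_cast; ring,
        show x + 2 * W * i + W - W = x + 2 * W * i by ring] at this
      push_cast at this ⊢
      rw [add_div]; linarith
  have := key L hL le_rfl
  rw [div_self hL'.ne'] at this
  linarith [h0 x, h1 (x + 2 * W * L)]

lemma pow_le_add {x y d : ℝ} (hx : 0 ≤ x) (hx1 : x ≤ 1) (hy : 0 ≤ y) (hd : 0 ≤ d)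
    (h : x ≤ y + d) (p : ℕ) : x ^ p ≤ y ^ p + p * d := by
  rcases le_total x y with h1 | h1
  · exact (pow_le_pow_left₀ hx h1 p).trans (le_add_of_nonneg_right (by positivity))
  · induction p with
    | zero => simp
    | succ p ih =>
      have h2 : y ^ p ≤ 1 := pow_le_one₀ hy (h1.trans hx1)
      have h3 : 0 ≤ y ^ p := by positivity
      have h4 : (0:ℝ) ≤ p * d := by positivity
      rw [pow_succ, pow_succ]
      push_cast
      calc x ^ p * x ≤ (y ^ p + p * d) * x := by gcongr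
        _ = y ^ p * x + p * d * x := by ring
        _ ≤ y ^ p * (y + d) + p * d * 1 := by gcongr
        _ = y ^ p * y + y ^ p * d + p * d := by ring
        _ ≤ y ^ p * y + 1 * d + p * d := by gcongr
        _ = _ := by ring

lemma one_add_pow_le {x : ℝ} (hx : 0 ≤ x) (hx1 : x ≤ 1) (p : ℕ) :
    (1 + x) ^ p ≤ 1 + (2 ^ p - 1) * x := by
  induction p with
  | zero => simp
  | succ p ih =>
    have h1 : (1:ℝ) ≤ 2 ^ p := one_le_pow₀ (by norm_num)
    rw [pow_succ, pow_succ]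
    calc (1 + x) ^ p * (1 + x) ≤ (1 + (2 ^ p - 1) * x) * (1 + x) := by gcongr
      _ = 1 + 2 ^ p * x + (2 ^ p - 1) * x * x := by ring
      _ ≤ 1 + 2 ^ p * x + (2 ^ p - 1) * x * 1 := by gcongr
      _ = _ := by ring

lemma sym_pow (p : ℕ) : ∃ C : ℝ, 0 ≤ C ∧ ∀ x : ℝ, |x| ≤ 1 →
    (1 + x) ^ p + (1 - x) ^ p ≤ 2 + C * x ^ 2 ∧
      x * ((1 + x) ^ p - (1 - x) ^ p) ≤ C * x ^ 2 := by
  induction p with
  | zero => exact ⟨0, le_rfl, fun x _ => by norm_num⟩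
  | succ p ih =>
    obtain ⟨C, hC, h⟩ := ih
    refine ⟨2 * C + 2, by positivity, fun x hx => ?_⟩
    obtain ⟨h1, h2⟩ := h x hx
    have h3 : x ^ 2 ≤ 1 := by rw [← sq_abs]; exact pow_le_one₀ (abs_nonneg x) hx
    have h4 : 0 ≤ x ^ 2 := sq_nonneg x
    rw [pow_succ, pow_succ]
    constructor
    · nlinarith
    · have h5 : x ^ 2 * ((1 + x) ^ p + (1 - x) ^ p) ≤ x ^ 2 * (2 + C * x ^ 2) := by gcongr
      have h6 : C * x ^ 2 * x ^ 2 ≤ C * x ^ 2 * 1 := by gcongr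
      nlinarith

lemma pow_succ_le {m a : ℝ} (hm : 0 ≤ m) (h : m ≤ a) (q : ℕ) : m ^ (q + 1) ≤ m * a ^ q := by
  rw [pow_succ']; gcongr

lemma five_pieces (q : ℕ) (hq : 1 ≤ q) : ∃ C γ : ℝ, 0 ≤ C ∧ 0 < γ ∧
    ∀ m0 m1 c1 c2 m3 m4 ν : ℝ, 0 ≤ m0 → 0 ≤ m1 → 0 ≤ c1 → 0 ≤ c2 → 0 ≤ m3 → 0 ≤ m4 →
      m0 + m1 + c1 = 1 / 2 + ν → c2 + m3 + m4 = 1 / 2 - ν → |ν| ≤ 1 / 16 →
      m0 ≤ 1 / 4 → m4 ≤ 1 / 4 → 1 / 4 ≤ m0 + m1 → 1 / 4 ≤ m3 + m4 →
      m0 ^ (q + 1) + m1 ^ (q + 1) + (c1 + c2) ^ (q + 1) + m3 ^ (q + 1) + m4 ^ (q + 1) ≤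
        (1 / 2) ^ q + C * ν ^ 2 - γ * (m0 + (c1 + c2) + m4) := by
  obtain ⟨C, hC, hs⟩ := sym_pow (q + 1)
  have g1 : (3 / 8 : ℝ) ^ q < (7 / 16) ^ q := pow_lt_pow_left₀ (by norm_num) (by norm_num) (by omega)
  have g2 : (7 / 16 : ℝ) ^ q < (1 / 2) ^ q := pow_lt_pow_left₀ (by norm_num) (by norm_num) (by omega)
  refine ⟨4 * C, ((7 / 16) ^ q - (3 / 8) ^ q) / 2, by positivity, by linarith, ?_⟩
  intro m0 m1 c1 c2 m3 m4 ν h0 h1 hc1 hc2 h3 h4 ha hb hν k0 k4 k1 k3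
  obtain ⟨n1, n2⟩ := abs_le.1 hν
  have hν2 : 0 ≤ C * ν ^ 2 := by positivity
  set g := (3 / 8 : ℝ) ^ q
  set f := (7 / 16 : ℝ) ^ q with hf
  set h := (1 / 2 : ℝ) ^ q with hh
  have e0 : m0 ^ (q + 1) ≤ m0 * g := pow_succ_le h0 (by linarith) q
  have e4 : m4 ^ (q + 1) ≤ m4 * g := pow_succ_le h4 (by linarith) q
  by_cases hc : c1 + c2 ≤ 3 / 8
  · have e2 : (c1 + c2) ^ (q + 1) ≤ (c1 + c2) * g := pow_succ_le (by linarith) hc q
    have e1 : m1 ^ (q + 1) ≤ m1 * (1 / 2 + ν) ^ q := pow_succ_le h1 (by linarith) q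
    have e3 : m3 ^ (q + 1) ≤ m3 * (1 / 2 - ν) ^ q := pow_succ_le h3 (by linarith) q
    have a1 : f ≤ (1 / 2 + ν) ^ q := pow_le_pow_left₀ (by norm_num) (by linarith) q
    have a3 : f ≤ (1 / 2 - ν) ^ q := pow_le_pow_left₀ (by norm_num) (by linarith) q
    have b1 : m1 * (1 / 2 + ν) ^ q ≤ (1 / 2 + ν) ^ (q + 1) - (m0 + c1) * f := by
      rw [pow_succ', show m1 = (1 / 2 + ν) - (m0 + c1) by linarith, sub_mul]
      gcongr
    have b3 : m3 * (1 / 2 - ν) ^ q ≤ (1 / 2 - ν) ^ (q + 1) - (c2 + m4) * f := by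
      rw [pow_succ', show m3 = (1 / 2 - ν) - (c2 + m4) by linarith, sub_mul]
      gcongr
    have b5 : (1 / 2 + ν) ^ (q + 1) + (1 / 2 - ν) ^ (q + 1) ≤ h + 4 * C * ν ^ 2 := by
      have := (hs (2 * ν) (by rw [abs_le]; constructor <;> linarith)).1
      rw [show 1 / 2 + ν = 1 / 2 * (1 + 2 * ν) by ring, show 1 / 2 - ν = 1 / 2 * (1 - 2 * ν) by ring,
        mul_pow, mul_pow, ← mul_add]
      have h5 : (1 / 2 : ℝ) ^ (q + 1) ≤ 1 := pow_le_one₀ (by norm_num) (by norm_num)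
      calc (1 / 2 : ℝ) ^ (q + 1) * ((1 + 2 * ν) ^ (q + 1) + (1 - 2 * ν) ^ (q + 1))
          ≤ (1 / 2) ^ (q + 1) * (2 + C * (2 * ν) ^ 2) := by gcongr
        _ = h + (1 / 2) ^ (q + 1) * (4 * C * ν ^ 2) := by rw [hh, pow_succ]; ring
        _ ≤ h + 1 * (4 * C * ν ^ 2) := by gcongr
        _ = _ := by ring
    have b6 : 0 ≤ (f - g) * (m0 + (c1 + c2) + m4) := mul_nonneg (by linarith) (by linarith)
    nlinarith
  · push Not at hc
    have e1 : m1 ^ (q + 1) ≤ m1 * g := pow_succ_le h1 (by linarith) q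
    have e3 : m3 ^ (q + 1) ≤ m3 * g := pow_succ_le h3 (by linarith) q
    have e2 : (c1 + c2) ^ (q + 1) ≤ (c1 + c2) * h := pow_succ_le (by linarith) (by linarith) q
    have b1 : (h - g) * (1 / 2) ≤ (h - g) * (1 - (c1 + c2)) := by
      gcongr
      · linarith
      · linarith
    have b2 : (f - g) / 2 * (m0 + (c1 + c2) + m4) ≤ (f - g) / 2 * 1 :=
      mul_le_mul_of_nonneg_left (by linarith) (by linarith)
    have b3 : m0 + m1 + m3 + m4 = 1 - (c1 + c2) := by linarith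
    have b4 : m0 * g + m1 * g + m3 * g + m4 * g = (1 - (c1 + c2)) * g := by rw [← b3]; ring
    nlinarith

variable {q : ℕ} {σ φ e W : ℝ} {G G' : ℝ → ℝ}

lemma Pair.mid' (h : Pair (q + 1) σ φ e W G G') (hσ : 0 ≤ σ) (hW : 0 ≤ W) {α β l : ℝ}
    (hab : α ≤ β) (ha : G (α + W) - G (α - W) ≤ l) (hb : G (β + W) - G (β - W) ≤ l) :
    φ * (G' β - G' α) ≤ σ * ((G β - G α) ^ (q + 1) + (q + 1 : ℕ) * (2 * l)) + e := by
  refine (h.mid α β hab).trans ?_
  have m1 := h.mono (show α - W ≤ α by linarith)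
  have m2 := h.mono (show α ≤ α + W by linarith)
  have m3 := h.mono (show β - W ≤ β by linarith)
  have m4 := h.mono (show β ≤ β + W by linarith)
  have m5 := h.mono hab
  gcongr
  exact pow_le_add (by linarith) (by linarith [h.nn (α - W), h.le1 (β + W)]) (by linarith)
    (by linarith) (by linarith) _

lemma Pair.left' (h : Pair (q + 1) σ φ e W G G') (hσ : 0 ≤ σ) {β y l : ℝ} (hy : 0 ≤ y)
    (hl : 0 ≤ l) (hb : G (β + W) ≤ y + l) :
    φ * G' β ≤ σ * (y ^ (q + 1) + (q + 1 : ℕ) * l) + e := by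
  refine (h.left β).trans ?_
  gcongr
  exact pow_le_add (h.nn _) (h.le1 _) hy hl hb _

lemma Pair.right' (h : Pair (q + 1) σ φ e W G G') (hσ : 0 ≤ σ) {α y l : ℝ} (hy : 0 ≤ y)
    (hl : 0 ≤ l) (hb : 1 - G (α - W) ≤ y + l) :
    φ * (1 - G' α) ≤ σ * (y ^ (q + 1) + (q + 1 : ℕ) * l) + e := by
  refine (h.right α).trans ?_
  gcongr
  exact pow_le_add (by linarith [h.le1 (α - W)]) (by linarith [h.nn (α - W)]) hy hl hb _

/-- concentration of a two-bubble state -/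
theorem two_conc (q : ℕ) (hq : 1 ≤ q) {σ : ℝ} (hσ : 0 < σ) : ∃ C : ℝ, 1 ≤ C ∧
    ∀ (φ e W : ℝ) (L : ℕ) (G G' : ℝ → ℝ) (x1 x3 ν : ℝ), 0 < e → 0 ≤ W → 0 < L → 1 / (L:ℝ) ≤ e →
      Pair (q + 1) σ φ e W G G' → σ * (1 / 2) ^ q ≤ φ → G x1 = 1 / 4 → G x3 = 3 / 4 →
      G ((x1 + x3) / 2) = 1 / 2 + ν → |ν| ≤ 1 / 16 → 4 * W * L ≤ x3 - x1 →
      G (x1 - 2 * W * L) ≤ C * (ν ^ 2 + e) ∧
      G (x3 - 2 * W * L) - G (x1 + 2 * W * L) ≤ C * (ν ^ 2 + e) ∧
      1 - G (x3 + 2 * W * L) ≤ C * (ν ^ 2 + e) ∧ φ ≤ σ * (1 / 2) ^ q + C * (ν ^ 2 + e) := by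
  obtain ⟨C, γ, hC, hγ, h5⟩ := five_pieces q hq
  set A : ℝ := σ * C + (σ * ((q + 1 : ℕ) * 8) + 5) with hA
  have hA0 : 0 < A := by positivity
  refine ⟨1 + A + A / (σ * γ), by have : 0 < A / (σ * γ) := by positivity
                                  linarith, ?_⟩
  intro φ e W L G G' x1 x3 ν he hW hL hLe h hφ h1 h3 hν hν2 hsep
  obtain ⟨y1, a1, b1, w1⟩ := exists_window h.nn h.le1 hL hW (x1 - 2 * W * L)
  obtain ⟨y2, a2, b2, w2⟩ := exists_window h.nn h.le1 hL hW x1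
  obtain ⟨y3, a3, b3, w3⟩ := exists_window h.nn h.le1 hL hW (x3 - 2 * W * L)
  obtain ⟨y4, a4, b4, w4⟩ := exists_window h.nn h.le1 hL hW x3
  replace w1 := w1.trans hLe
  replace w2 := w2.trans hLe
  replace w3 := w3.trans hLe
  replace w4 := w4.trans hLe
  have m1 := h.mono (show y1 ≤ x1 by linarith)
  have m2 := h.mono (show x1 ≤ y2 by linarith)
  have m3 := h.mono (show y2 ≤ (x1 + x3) / 2 by linarith)
  have m4 := h.mono (show (x1 + x3) / 2 ≤ y3 by linarith)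
  have m5 := h.mono (show y3 ≤ x3 by linarith)
  have m6 := h.mono (show x3 ≤ y4 by linarith)
  have p0 := h.left' hσ.le (β := y1) (h.nn y1) he.le
    (by linarith [h.mono (show y1 - W ≤ y1 by linarith)])
  have p1 := h.mid' hσ.le hW (show y1 ≤ y2 by linarith) w1 w2
  have p2 := h.mid' hσ.le hW (show y2 ≤ y3 by linarith) w2 w3
  have p3 := h.mid' hσ.le hW (show y3 ≤ y4 by linarith) w3 w4
  have p4 := h.right' hσ.le (α := y4) (y := 1 - G y4) (by linarith [h.le1 y4]) he.le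
    (by linarith [h.mono (show y4 ≤ y4 + W by linarith)])
  have k := h5 (G y1) (G y2 - G y1) (G ((x1 + x3) / 2) - G y2) (G y3 - G ((x1 + x3) / 2))
    (G y4 - G y3) (1 - G y4) ν (h.nn y1) (by linarith) (by linarith) (by linarith) (by linarith)
    (by linarith [h.le1 y4]) (by linarith) (by linarith) hν2 (by linarith) (by linarith)
    (by linarith) (by linarith)
  rw [show G ((x1 + x3) / 2) - G y2 + (G y3 - G ((x1 + x3) / 2)) = G y3 - G y2 by ring] at k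
  set r := G y1 + (G y3 - G y2) + (1 - G y4) with hr
  have k2 := mul_le_mul_of_nonneg_left k hσ.le
  have hν0 : 0 ≤ ν ^ 2 := sq_nonneg ν
  have k3 : φ ≤ σ * (1 / 2) ^ q + A * (ν ^ 2 + e) - σ * γ * r := by
    have t1 : 0 ≤ σ * C * e := by positivity
    have t2 : 0 ≤ (σ * ((q + 1 : ℕ) * 8) + 5) * ν ^ 2 := by positivity
    have t3 : 0 ≤ σ * ((q + 1 : ℕ) * e) := by positivity
    have t5 : φ = φ * G' y1 + φ * (G' y2 - G' y1) + φ * (G' y3 - G' y2) + φ * (G' y4 - G' y3) +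
        φ * (1 - G' y4) := by ring
    have t6 : A * (ν ^ 2 + e) = σ * (C * ν ^ 2) + σ * C * e +
        (σ * ((q + 1 : ℕ) * 8) + 5) * ν ^ 2 + 8 * (σ * ((q + 1 : ℕ) * e)) + 5 * e := by
      rw [hA]; ring
    have t7 : ∀ y : ℝ, σ * (y + (q + 1 : ℕ) * (2 * e)) = σ * y + 2 * (σ * ((q + 1 : ℕ) * e)) :=
      fun y => by ring
    have t8 : ∀ y : ℝ, σ * (y + (q + 1 : ℕ) * e) = σ * y + σ * ((q + 1 : ℕ) * e) :=
      fun y => by ring
    rw [t7] at p1 p2 p3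
    rw [t8] at p0 p4
    simp only [mul_add, mul_sub σ] at k2
    rw [mul_assoc σ γ r]
    linarith
  have r0 : 0 ≤ G y1 := h.nn y1
  have r2 : 0 ≤ G y3 - G y2 := by linarith
  have r4 : 0 ≤ 1 - G y4 := by linarith [h.le1 y4]
  have hs : 0 ≤ ν ^ 2 + e := by positivity
  have k4 : r ≤ (1 + A + A / (σ * γ)) * (ν ^ 2 + e) := by
    have : r ≤ A / (σ * γ) * (ν ^ 2 + e) := by
      rw [div_mul_eq_mul_div, le_div_iff₀ (by positivity)]; linarith
    nlinarith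
  have m7 := h.mono (show x1 - 2 * W * L ≤ y1 by linarith)
  have m8 := h.mono (show y2 ≤ x1 + 2 * W * L by linarith)
  have m9 := h.mono (show x3 - 2 * W * L ≤ y3 by linarith)
  have m10 := h.mono (show y4 ≤ x3 + 2 * W * L by linarith)
  refine ⟨by linarith, by linarith, by linarith, ?_⟩
  have t3 : 0 ≤ σ * γ * r := by positivity
  have t4 : 0 ≤ A / (σ * γ) * (ν ^ 2 + e) := by positivity
  nlinarith

lemma div_bound {σ φ X Y e h : ℝ} (hσ : 0 < σ) (hh : 0 < h) (hφ : σ * h ≤ φ) (hX : 0 ≤ X)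
    (h1 : φ * X ≤ σ * Y + e) : X ≤ (Y + e / σ) / h := by
  rw [le_div_iff₀ hh]
  have : σ * h * X ≤ φ * X := by gcongr
  have h2 : σ * (X * h) ≤ σ * (Y + e / σ) := by
    rw [mul_add, mul_div_cancel₀ _ hσ.ne']; linarith
  exact le_of_mul_le_mul_left h2 hσ

/-- one step of a two-bubble state -/
theorem two_step (q : ℕ) (hq : 1 ≤ q) {σ : ℝ} (hσ : 0 < σ) : ∃ C e0 : ℝ, 1 ≤ C ∧ 0 < e0 ∧
    ∀ (φ e W : ℝ) (L : ℕ) (G G' : ℝ → ℝ) (x1 x3 ν x1' x3' ν' : ℝ), 0 < e → 0 ≤ W → 0 < L →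
      1 / (L:ℝ) ≤ e → Pair (q + 1) σ φ e W G G' → σ * (1 / 2) ^ q ≤ φ → G x1 = 1 / 4 →
      G x3 = 3 / 4 → G ((x1 + x3) / 2) = 1 / 2 + ν → ν ^ 2 + e ≤ e0 →
      4 * (2 * W * L + W) ≤ x3 - x1 → G' x1' = 1 / 4 → G' x3' = 3 / 4 →
      G' ((x1' + x3') / 2) = 1 / 2 + ν' →
      G (x1 - 2 * W * L) ≤ C * (ν ^ 2 + e) ∧ φ ≤ σ * (1 / 2) ^ q + C * (ν ^ 2 + e) ∧
      |x1' - x1| ≤ 2 * W * L + W ∧ |x3' - x3| ≤ 2 * W * L + W ∧
      (0 ≤ ν → 2 * ν - C * (ν ^ 2 + e) ≤ ν') ∧ (ν ≤ 0 → ν' ≤ 2 * ν + C * (ν ^ 2 + e)) ∧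
      |ν'| ≤ 2 ^ (q + 1) * |ν| + C * (ν ^ 2 + e) := by
  obtain ⟨C, hC, hc⟩ := two_conc q hq hσ
  set h : ℝ := (1 / 2) ^ q with hh
  have hh0 : 0 < h := by positivity
  set B : ℝ := ((q + 1 : ℕ) * C + 1 / σ) / h with hB
  have hB0 : 0 < B := by positivity
  have h2p : (1:ℝ) ≤ 2 ^ (q + 1) := one_le_pow₀ (by norm_num)
  refine ⟨C + 2 * B + 2, min (1 / (32 * B)) ((1 / (16 * 2 ^ (q + 1))) ^ 2), by linarith,
    by positivity, ?_⟩
  intro φ e W L G G' x1 x3 ν x1' x3' ν' he hW hL hLe hp hφ h1 h3 hν hs hsep h1' h3' hν'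
  set s := ν ^ 2 + e with hsdef
  have hν0 : 0 ≤ ν ^ 2 := sq_nonneg ν
  have hs0 : 0 < s := by positivity
  have s1 : B * s ≤ 1 / 32 := by
    have := hs.trans (min_le_left _ _)
    rw [le_div_iff₀ (by positivity)] at this
    linarith
  have s2 : 2 ^ (q + 1) * |ν| ≤ 1 / 16 := by
    have h4 : |ν| ^ 2 ≤ (1 / (16 * 2 ^ (q + 1))) ^ 2 := by
      rw [sq_abs]; linarith [hs.trans (min_le_right _ _)]
    have h5 := (pow_le_pow_iff_left₀ (abs_nonneg ν) (by positivity) two_ne_zero).1 h4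
    rw [le_div_iff₀ (by positivity)] at h5
    linarith
  have s3 : |ν| ≤ 1 / 16 := by nlinarith [abs_nonneg ν]
  obtain ⟨n1, n2⟩ := abs_le.1 s3
  have hWL : 0 ≤ W * L := by positivity
  obtain ⟨c1, c2, c3, c4⟩ := hc φ e W L G G' x1 x3 ν he hW hL hLe hp hφ h1 h3 hν s3 (by linarith)
  rw [← hsdef] at c1 c2 c3 c4
  have hCs : 0 ≤ C * s := by positivity
  have bnd : ∀ X y : ℝ, 0 ≤ X → φ * X ≤ σ * (y + (q + 1 : ℕ) * (C * s)) + e →
      X ≤ y / h + B * s := by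
    intro X y hX h4
    refine (div_bound hσ hh0 hφ hX h4).trans ?_
    have : e / σ ≤ 1 / σ * s := by
      rw [one_div_mul_eq_div]; gcongr; linarith
    rw [hB, div_mul_eq_mul_div, ← add_div]
    refine div_le_div_of_nonneg_right ?_ hh0.le
    rw [add_mul, mul_assoc]
    linarith
  set D := 2 * W * L + W with hD
  set m := (x1 + x3) / 2 with hm
  have z0 : (0:ℝ) ^ (q + 1) = 0 := zero_pow (by omega)
  have t1 : G' (x1 - D) ≤ B * s := by
    have := bnd _ _ (hp.nn' _) (hp.left' hσ.le (β := x1 - D) le_rfl hCs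
      (by rw [show x1 - D + W = x1 - 2 * W * L by rw [hD]; ring]; linarith))
    rwa [z0, zero_div, zero_add] at this
  have t2 : 1 - G' (x3 + D) ≤ B * s := by
    have := bnd _ _ (by linarith [hp.le1' (x3 + D)]) (hp.right' hσ.le (α := x3 + D) le_rfl hCs
      (by rw [show x3 + D - W = x3 + 2 * W * L by rw [hD]; ring]; linarith))
    rwa [z0, zero_div, zero_add] at this
  have t3 : G' (x3 - D) - G' (x1 + D) ≤ B * s := by
    have h4 := hp.mid (x1 + D) (x3 - D) (by linarith)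
    rw [show x3 - D + W = x3 - 2 * W * L by rw [hD]; ring,
      show x1 + D - W = x1 + 2 * W * L by rw [hD]; ring] at h4
    have h5 := hp.mono (show x1 + 2 * W * L ≤ x3 - 2 * W * L by linarith)
    have h6 := pow_le_add (x := G (x3 - 2 * W * L) - G (x1 + 2 * W * L)) (y := 0) (by linarith)
      (by linarith [hp.nn (x1 + 2 * W * L), hp.le1 (x3 - 2 * W * L)]) le_rfl hCs (by linarith)
      (q + 1)
    have := bnd (G' (x3 - D) - G' (x1 + D)) (0 ^ (q + 1))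
      (by linarith [hp.mono' (show x1 + D ≤ x3 - D by linarith)])
      (h4.trans (by gcongr))
    rwa [z0, zero_div, zero_add] at this
  have hdiv : ∀ y : ℝ, (1 / 2 + y) ^ (q + 1) / h = (1 + 2 * y) ^ (q + 1) / 2 := by
    intro y
    rw [show 1 / 2 + y = 1 / 2 * (1 + 2 * y) by ring, mul_pow, pow_succ, ← hh]
    field_simp
  have t4 : G' m ≤ (1 + 2 * ν) ^ (q + 1) / 2 + B * s := by
    rw [← hdiv]
    refine bnd _ _ (hp.nn' _) (hp.left' hσ.le (by linarith) hCs ?_)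
    have := hp.mono (show m + W ≤ x3 - 2 * W * L by rw [hm]; linarith)
    have := hp.mono (show x1 + 2 * W * L ≤ m by rw [hm]; linarith)
    linarith
  have t5 : 1 - G' m ≤ (1 + 2 * (-ν)) ^ (q + 1) / 2 + B * s := by
    rw [← hdiv]
    refine bnd _ _ (by linarith [hp.le1' m]) (hp.right' hσ.le (by linarith) hCs ?_)
    have := hp.mono (show m ≤ x3 - 2 * W * L by rw [hm]; linarith)
    have := hp.mono (show x1 + 2 * W * L ≤ m - W by rw [hm]; linarith)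
    linarith
  have up : ∀ y : ℝ, |y| = |ν| → (1 + 2 * y) ^ (q + 1) ≤ 1 + 2 * (2 ^ (q + 1) * |ν|) := by
    intro y hy
    have h4 := one_add_pow_le (x := 2 * |ν|) (by positivity) (by linarith) (q + 1)
    have h5 : (1 + 2 * y) ^ (q + 1) ≤ (1 + 2 * |ν|) ^ (q + 1) :=
      pow_le_pow_left₀ (by linarith [neg_abs_le y]) (by linarith [le_abs_self y]) _
    nlinarith [abs_nonneg ν]
  have dn : ∀ y : ℝ, y ≤ 0 → -1 / 16 ≤ y → (1 + 2 * y) ^ (q + 1) ≤ 1 + 4 * y + 4 * y ^ 2 := by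
    intro y hy hy2
    calc (1 + 2 * y) ^ (q + 1) ≤ (1 + 2 * y) ^ 2 :=
          pow_le_pow_of_le_one (by linarith) (by linarith) (by omega)
      _ = _ := by ring
  have u1 := up ν rfl
  have u2 := up (-ν) (abs_neg ν)
  have v1 := hp.mono' (show x1 + D ≤ m by rw [hm]; linarith)
  have v2 := hp.mono' (show m ≤ x3 - D by rw [hm]; linarith)
  have lt : ∀ a b : ℝ, G' a < G' b → a ≤ b := fun a b hab => (hp.mono'.reflect_lt hab).le
  have r1 : x1 - D ≤ x1' := lt _ _ (by linarith)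
  have r2 : x1' ≤ x1 + D := lt _ _ (by linarith)
  have r3 : x3 - D ≤ x3' := lt _ _ (by linarith)
  have r4 : x3' ≤ x3 + D := lt _ _ (by linarith)
  have v3 := hp.mono' (show x1 + D ≤ (x1' + x3') / 2 by linarith)
  have v4 := hp.mono' (show (x1' + x3') / 2 ≤ x3 - D by linarith)
  have hBs : 0 ≤ B * s := by positivity
  have ex : (C + 2 * B + 2) * s = C * s + 2 * (B * s) + 2 * (ν ^ 2 + e) := by rw [hsdef]; ring
  rw [ex]
  refine ⟨by linarith, by linarith, abs_le.2 ⟨by linarith, by linarith⟩,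
    abs_le.2 ⟨by linarith, by linarith⟩, fun h4 => ?_, fun h4 => ?_,
    abs_le.2 ⟨by linarith, by linarith⟩⟩
  · have := dn (-ν) (by linarith) (by linarith)
    rw [neg_sq] at this
    linarith
  · have := dn ν h4 (by linarith)
    linarith

/-- one step of a one-bubble state -/
theorem one_step (q : ℕ) (hq : 1 ≤ q) {σ : ℝ} (hσ : 0 < σ) : ∃ C e0 : ℝ, 1 ≤ C ∧ 0 < e0 ∧
    ∀ (φ e W : ℝ) (L : ℕ) (G G' : ℝ → ℝ) (x x' : ℝ), 0 < e → 0 ≤ W → 0 < L →
      1 / (L:ℝ) ≤ e → Pair (q + 1) σ φ e W G G' → σ - e ≤ φ → G x = 1 / 2 → e ≤ e0 →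
      G' x' = 1 / 2 → G (x - 2 * W * L) ≤ C * e ∧ |x' - x| ≤ 2 * W * L + W := by
  set C : ℝ := 1 + 2 * ((q + 1 : ℕ) * 4 + 4 / σ) with hC
  have hC1 : 1 ≤ C := by
    have : 0 ≤ 2 * (((q + 1 : ℕ) : ℝ) * 4 + 4 / σ) := by positivity
    linarith
  set B : ℝ := ((q + 1 : ℕ) * C + 1 / σ) / (1 / 2) with hB
  have hB0 : 0 < B := by positivity
  refine ⟨C, min (σ / 2) (1 / (4 * B)), hC1, by positivity, ?_⟩
  intro φ e W L G G' x x' he hW hL hLe h hφ h1 hs h1'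
  obtain ⟨y1, a1, b1, w1⟩ := exists_window h.nn h.le1 hL hW (x - 2 * W * L)
  obtain ⟨y2, a2, b2, w2⟩ := exists_window h.nn h.le1 hL hW x
  replace w1 := w1.trans hLe
  replace w2 := w2.trans hLe
  have m1 := h.mono (show y1 ≤ x by linarith)
  have m2 := h.mono (show x ≤ y2 by linarith)
  have p0 := h.left' hσ.le (β := y1) (h.nn y1) he.le
    (by linarith [h.mono (show y1 - W ≤ y1 by linarith)])
  have p1 := h.mid' hσ.le hW (show y1 ≤ y2 by linarith) w1 w2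
  have p2 := h.right' hσ.le (α := y2) (y := 1 - G y2) (by linarith [h.le1 y2]) he.le
    (by linarith [h.mono (show y2 ≤ y2 + W by linarith)])
  have r0 : 0 ≤ G y1 := h.nn y1
  have r2 : 0 ≤ 1 - G y2 := by linarith [h.le1 y2]
  have g : (1 / 2 : ℝ) ^ q ≤ 1 / 2 := pow_le_of_le_one (by norm_num) (by norm_num) (by omega)
  have e0 : G y1 ^ (q + 1) ≤ G y1 * (1 / 2) :=
    (pow_succ_le r0 (show G y1 ≤ 1 / 2 by linarith) q).trans (by gcongr)
  have e2 : (1 - G y2) ^ (q + 1) ≤ (1 - G y2) * (1 / 2) :=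
    (pow_succ_le r2 (show 1 - G y2 ≤ 1 / 2 by linarith) q).trans (by gcongr)
  have e1 : (G y2 - G y1) ^ (q + 1) ≤ G y2 - G y1 :=
    pow_le_of_le_one (by linarith) (by linarith) (by omega)
  have k : σ * (G y1 + (1 - G y2)) ≤ σ * (C * e) := by
    have f0 := mul_le_mul_of_nonneg_left e0 hσ.le
    have f1 := mul_le_mul_of_nonneg_left e1 hσ.le
    have f2 := mul_le_mul_of_nonneg_left e2 hσ.le
    have f3 : σ * (C * e) = σ * e + 8 * (σ * ((q + 1 : ℕ) * e)) + 8 * e := by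
      rw [hC]; field_simp; ring
    have f4 : 0 ≤ σ * e := by positivity
    nlinarith
  have k2 := le_of_mul_le_mul_left k hσ
  have m7 := h.mono (show x - 2 * W * L ≤ y1 by linarith)
  have m8 := h.mono (show y2 ≤ x + 2 * W * L by linarith)
  have hφ2 : σ * (1 / 2) ≤ φ := by linarith [hs.trans (min_le_left _ _)]
  have s1 : B * e ≤ 1 / 4 := by
    have := hs.trans (min_le_right _ _)
    rw [le_div_iff₀ (by positivity)] at this
    linarith
  have hCe : 0 ≤ C * e := by positivity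
  have z0 : (0:ℝ) ^ (q + 1) = 0 := zero_pow (by omega)
  have bnd : ∀ X : ℝ, 0 ≤ X → φ * X ≤ σ * (0 ^ (q + 1) + (q + 1 : ℕ) * (C * e)) + e →
      X ≤ B * e := by
    intro X hX h4
    refine (div_bound hσ (by norm_num) hφ2 hX h4).trans (le_of_eq ?_)
    rw [hB, z0]; field_simp; ring
  have t1 := bnd _ (h.nn' _) (h.left' hσ.le (β := x - (2 * W * L + W)) le_rfl hCe
      (by rw [show x - (2 * W * L + W) + W = x - 2 * W * L by ring]; linarith))
  have t2 := bnd _ (by linarith [h.le1' (x + (2 * W * L + W))])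
    (h.right' hσ.le (α := x + (2 * W * L + W)) le_rfl hCe
      (by rw [show x + (2 * W * L + W) - W = x + 2 * W * L by ring]; linarith))
  have lt : ∀ a b : ℝ, G' a < G' b → a ≤ b := fun a b hab => (h.mono'.reflect_lt hab).le
  have r1 : x - (2 * W * L + W) ≤ x' := lt _ _ (by linarith)
  have r3 : x' ≤ x + (2 * W * L + W) := lt _ _ (by linarith)
  exact ⟨by linarith, abs_le.2 ⟨by linarith, by linarith⟩⟩

/-- the shooting lemma -/
theorem shoot {X : Type} [TopologicalSpace X] [PreconnectedSpace X] (sep ν : ℕ → X → ℝ)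
    (hs : ∀ j, Continuous (sep j)) (hν : ∀ j, Continuous (ν j)) {R δ δ1 : ℝ} (hδ1 : 0 ≤ δ1)
    (rule : ∀ θ j, R < sep j θ → |ν j θ| < δ → (δ1 < ν j θ → δ1 < ν (j + 1) θ) ∧
      (ν j θ < -δ1 → ν (j + 1) θ < -δ1) ∧ (|ν j θ| ≤ δ1 → |ν (j + 1) θ| < δ))
    (h0 : ∀ θ, R < sep 0 θ ∧ |ν 0 θ| < δ) (a b : X) (ha : δ1 < ν 0 a) (hb : ν 0 b < -δ1) :
    ∃ θ, ∀ j, (∀ i ≤ j, R < sep i θ) → |ν j θ| ≤ δ1 := by
  let good : ℕ → Set X := fun j => {θ | ∀ i ≤ j, R < sep i θ ∧ |ν i θ| < δ}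
  have hgood : ∀ j, IsOpen (good j) := by
    intro j
    have : good j = ⋂ i ∈ Finset.range (j + 1), ({θ | R < sep i θ} ∩ {θ | |ν i θ| < δ}) := by
      ext θ; simp [good]
    rw [this]
    exact isOpen_biInter_finset fun i _ => (isOpen_lt continuous_const (hs i)).inter
      (isOpen_lt (hν i).abs continuous_const)
  let U : Set X := ⋃ j, good j ∩ {θ | δ1 < ν j θ}
  let V : Set X := ⋃ j, good j ∩ {θ | ν j θ < -δ1}
  have hU : IsOpen U := isOpen_iUnion fun j => (hgood j).inter (isOpen_lt continuous_const (hν j))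
  have hV : IsOpen V := isOpen_iUnion fun j => (hgood j).inter (isOpen_lt (hν j) continuous_const)
  have g0 : ∀ θ, θ ∈ good 0 := fun θ i hi => by rw [Nat.le_zero.1 hi]; exact h0 θ
  have hdisj : ∀ θ, θ ∈ U → θ ∈ V → False := by
    intro θ h1 h2
    obtain ⟨j, hj1, hj2⟩ := mem_iUnion.1 h1
    obtain ⟨k, hk1, hk2⟩ := mem_iUnion.1 h2
    have hj3 : δ1 < ν j θ := hj2
    have hk3 : ν k θ < -δ1 := hk2
    rcases le_total j k with h | h
    · have : ∀ i, j ≤ i → i ≤ k → δ1 < ν i θ := by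
        intro i hi
        induction i, hi using Nat.le_induction with
        | base => exact fun _ => hj3
        | succ i hi ih =>
          intro h3
          exact (rule θ i (hk1 i (by omega)).1 (hk1 i (by omega)).2).1 (ih (by omega))
      linarith [this k h le_rfl]
    · have : ∀ i, k ≤ i → i ≤ j → ν i θ < -δ1 := by
        intro i hi
        induction i, hi using Nat.le_induction with
        | base => exact fun _ => hk3
        | succ i hi ih =>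
          intro h3
          exact (rule θ i (hj1 i (by omega)).1 (hj1 i (by omega)).2).2.1 (ih (by omega))
      linarith [this j h le_rfl]
  obtain ⟨θ, hθ⟩ : ∃ θ, θ ∉ U ∪ V := by
    by_contra h
    push Not at h
    obtain ⟨θ, -, h1, h2⟩ := isPreconnected_univ U V hU hV (fun θ _ => h θ)
      ⟨a, mem_univ _, mem_iUnion.2 ⟨0, g0 a, ha⟩⟩ ⟨b, mem_univ _, mem_iUnion.2 ⟨0, g0 b, hb⟩⟩
    exact hdisj θ h1 h2
  have key : ∀ j, θ ∈ good j → |ν j θ| ≤ δ1 := by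
    intro j hj
    rw [abs_le]
    constructor
    · by_contra h
      exact hθ (Or.inr (mem_iUnion.2 ⟨j, hj, not_le.1 h⟩))
    · by_contra h
      exact hθ (Or.inl (mem_iUnion.2 ⟨j, hj, not_le.1 h⟩))
  have key2 : ∀ j, (∀ i ≤ j, R < sep i θ) → θ ∈ good j := by
    intro j
    induction j with
    | zero => exact fun _ => g0 θ
    | succ j ih =>
      intro h i hi
      have h1 := ih fun i hi => h i (by omega)
      rcases Nat.lt_or_ge i (j + 1) with h2 | h2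
      · exact h1 i (by omega)
      · obtain rfl : i = j + 1 := by omega
        exact ⟨h _ le_rfl, (rule θ j (h1 j le_rfl).1 (h1 j le_rfl).2).2.2 (key j h1)⟩
  exact ⟨θ, fun j h => key j (key2 j h)⟩

lemma continuous_quantile {X : Type} [TopologicalSpace X] (G : X → ℝ → ℝ) (x : X → ℝ) {a : ℝ}
    (hG : ∀ θ, StrictMono (G θ)) (hx : ∀ θ, G θ (x θ) = a) (hc : ∀ y, Continuous fun θ => G θ y) :
    Continuous x := by
  rw [OrderTopology.continuous_iff]
  intro y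
  constructor
  · have : x ⁻¹' Ioi y = {θ | G θ y < a} := by
      ext θ
      simp only [mem_preimage, mem_Ioi, mem_ofPred_eq]
      rw [← hx θ, (hG θ).lt_iff_lt]
    rw [this]; exact isOpen_lt (hc y) continuous_const
  · have : x ⁻¹' Iio y = {θ | a < G θ y} := by
      ext θ
      simp only [mem_preimage, mem_Iio, mem_ofPred_eq]
      rw [← hx θ, (hG θ).lt_iff_lt]
    rw [this]; exact isOpen_lt continuous_const (hc y)

end Pool.Agent.Lib.MP_242fd5_gt.Z
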