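import Pool.Agent.Lib.MP_242fd5_gt.Z2Op

set_option autoImplicit false

namespace Pool.Agent.Lib.MP_242fd5_gt.Z

open MeasureTheory Set Real Filter Topology
open scoped ENNReal

variable {p : ℕ} {u v : ℝ → ℝ≥0∞}

/-- two sided exponential bound -/
def Dom (p : ℕ) (C : ℝ≥0∞) (u : ℝ → ℝ≥0∞) : Prop :=
  ∀ s, u s ≤ C * ex s ∧ u s ≤ C * ex (-(p * s))

lemma ex_le_one {s : ℝ} (h : s ≤ 0) : ex s ≤ 1 := ex_zero ▸ ex_mono h

lemma exists_ex {x : ℝ≥0∞} (h0 : x ≠ 0) (h1 : x ≠ ∞) : ∃ t, x = ex t :=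
  ⟨Real.log x.toReal, by
    unfold ex; rw [Real.exp_log (ENNReal.toReal_pos h0 h1), ENNReal.ofReal_toReal h1]⟩

lemma Dom.le {C : ℝ≥0∞} (h : Dom p C u) (s : ℝ) : u s ≤ C := by
  rcases le_total s 0 with hs | hs
  · exact (h s).1.trans (mul_le_of_le_one_right' (ex_le_one hs))
  · exact (h s).2.trans (mul_le_of_le_one_right' (ex_le_one (neg_nonpos.2 (by positivity))))

lemma Dom.mono {C C' : ℝ≥0∞} (h : Dom p C u) (hC : C ≤ C') : Dom p C' u := fun s =>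
  ⟨(h s).1.trans (by gcongr), (h s).2.trans (by gcongr)⟩

noncomputable def cB (p : ℕ) : ℝ≥0∞ := ∫⁻ w, K p w * ex (p * w)
noncomputable def ck (p : ℕ) : ℝ≥0∞ := 2 + ∫⁻ w, k1 p w
noncomputable def cr (p : ℕ) : ℝ≥0∞ :=
  (∫⁻ w, K p w ^ (3 * ((p:ℝ) + 1) / 5)) ^ (5 / (3 * ((p:ℝ) + 1)))

lemma cB_ne_top (hp : 2 ≤ p) : cB p ≠ ∞ := (lint_K_ex p hp).ne
lemma ck_ne_top (p : ℕ) : ck p ≠ ∞ := ENNReal.add_ne_top.2 ⟨by simp, (lint_k1 p).ne⟩
lemma cr_ne_top (hp : 2 ≤ p) : cr p ≠ ∞ :=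
  ENNReal.rpow_ne_top_of_nonneg (by positivity) (lint_K_r p hp).ne

lemma T_right {A : ℝ≥0∞} (h : ∀ t, u t ≤ A * ex t) (s : ℝ) :
    T p u s ≤ cB p * (A * ex (-s)) ^ p := by
  rw [T_alt, cB, ← lintegral_mul_const _ (by fun_prop)]
  refine lintegral_mono fun w => ?_
  calc K p w * u (w - s) ^ p ≤ K p w * (A * ex (w - s)) ^ p := by gcongr; exact h _
    _ = _ := by rw [sub_eq_add_neg, ex_add, ← ex_pow]; ring

lemma T_small (hp : 1 ≤ p) (hu : Measurable u) {M : ℝ≥0∞} (hM : ∀ t, u t ≤ M) {a s : ℝ}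
    (hs : -a ≤ s) : T p u s ≤ M ^ (2 / 3 : ℝ) *
      (cr p * (∫⁻ t in Iic a, u t ^ (p + 1)) ^ (1 - 5 / (3 * ((p:ℝ) + 1)))) := by
  have h1 := Tk_le_sup (p := p) hp (measurable_K p) (hu.indicator (measurableSet_Iic (a := a)))
    (M := M) (fun t => (indicator_le_self _ _ t).trans (hM t)) s
  rw [N_indicator measurableSet_Iic] at h1
  refine le_trans (lintegral_mono fun t => ?_) h1
  by_cases ht : t ∈ Iic a
  · rw [indicator_of_mem ht]
  · have : a < t := not_le.1 ht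
    rw [K_of_nonneg p (by linarith), zero_mul]; exact zero_le

lemma T_left (hp : 2 ≤ p) (hu : Measurable u) {G : ℝ≥0∞} (hS : ∀ t, ex t * u t ^ p ≤ G)
    (hI : ∫⁻ t, ex t * u t ^ p ≤ G) (s : ℝ) : T p u s ≤ ex s * (ck p * G) := by
  have h1 : T p u s ≤ ∫⁻ t, ex s * (2 * (ex t * u t ^ p) + k1 p (s + t) * G) := by
    refine lintegral_mono fun t => ?_
    calc K p (s + t) * u t ^ p = ex s * (kb p 1 (s + t) * (ex t * u t ^ p)) := by
          rw [K, ex_add]; ring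
      _ ≤ ex s * ((2 + k1 p (s + t)) * (ex t * u t ^ p)) := by gcongr; exact kb_le p hp _
      _ ≤ _ := by rw [add_mul]; gcongr; exact hS t
  refine h1.trans ?_
  rw [lintegral_const_mul _ (by fun_prop), lintegral_add_left (by fun_prop),
    lintegral_const_mul _ (by fun_prop), lintegral_mul_const _ (by fun_prop),
    lintegral_add_left_eq_self (k1 p) s, ck, add_mul]
  gcongr

lemma lint_ex_Iic' (c : ℝ) : ∫⁻ t in Iic c, ex t = ex c := by
  have := lint_ex_Iic one_pos c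
  simpa [ex] using this

lemma lint_ex_Ioi' (c : ℝ) : ∫⁻ t in Ioi c, ex (-t) = ex (-c) := by
  have := lint_ex_Ioi one_pos c
  simpa [ex] using this

lemma T_left2 (hp : 2 ≤ p) (hu : Measurable u) {M c : ℝ≥0∞} {a b m : ℝ} (hm : m ≤ 0)
    (h1 : ∀ t, u t ≤ M) (h2 : ∀ t, b ≤ t → u t ≤ c * ex m) (h3 : ∀ t, u t ≤ c * ex (a - t) ^ p)
    (s : ℝ) : T p u s ≤ ex s * (ck p * (M ^ p * ex b + 2 * (c ^ p * ex (m + a)))) := by
  have k1 : ∀ t, t ≤ b → ex t * u t ^ p ≤ M ^ p * ex t := fun t _ => by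
    rw [mul_comm]; gcongr; exact h1 t
  have k2 : ∀ t, b ≤ t → ex t * u t ^ p ≤ c ^ p * ex (2 * m) * ex t := fun t ht => by
    have : ex m ^ p ≤ ex m ^ 2 := pow_le_pow_right_of_le_one' (ex_le_one hm) hp
    rw [ex_pow m 2] at this
    calc ex t * u t ^ p ≤ ex t * (c * ex m) ^ p := by gcongr; exact h2 t ht
      _ = c ^ p * ex m ^ p * ex t := by ring
      _ ≤ _ := by gcongr; simpa using this
  have k3 : ∀ t, a - m ≤ t → ex t * u t ^ p ≤ c ^ p * ex (2 * a) * ex (-t) := fun t ht => by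
    have h4 : ex (a - t) ≤ 1 := ex_le_one (by linarith)
    have h5 : (ex (a - t) ^ p) ^ p ≤ ex (a - t) ^ 2 := by
      rw [← pow_mul]; exact pow_le_pow_right_of_le_one' h4 (by nlinarith)
    calc ex t * u t ^ p ≤ ex t * (c * ex (a - t) ^ p) ^ p := by gcongr; exact h3 t
      _ = c ^ p * (ex t * (ex (a - t) ^ p) ^ p) := by ring
      _ ≤ c ^ p * (ex t * ex (a - t) ^ 2) := by gcongr
      _ = _ := by
        rw [ex_pow, ← ex_add, mul_assoc, ← ex_add]; congr 2; push_cast; ring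
  refine T_left hp hu (fun t => ?_) ?_ s
  · rcases le_total t b with h | h
    · exact ((k1 t h).trans (by gcongr; exact ex_mono h)).trans le_self_add
    · refine le_trans ?_ (le_add_left (le_mul_of_one_le_left' one_le_two))
      rcases le_total t (a - m) with h' | h'
      · refine (k2 t h).trans ?_
        rw [mul_assoc, ← ex_add]; gcongr; exact ex_mono (by linarith)
      · refine (k3 t h').trans ?_
        rw [mul_assoc, ← ex_add]; gcongr; exact ex_mono (by linarith)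
  · have k4 : ∀ t, ex t * u t ^ p ≤ (Iic b).indicator (fun t => M ^ p * ex t) t +
        ((Iic (a - m)).indicator (fun t => c ^ p * ex (2 * m) * ex t) t +
          (Ioi (a - m)).indicator (fun t => c ^ p * ex (2 * a) * ex (-t)) t) := by
      intro t
      rcases le_total t b with h | h
      · rw [indicator_of_mem (show t ∈ Iic b from h)]
        exact (k1 t h).trans le_self_add
      · refine le_add_left ?_
        rcases le_or_gt t (a - m) with h' | h'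
        · rw [indicator_of_mem (show t ∈ Iic (a - m) from h')]
          exact (k2 t h).trans le_self_add
        · rw [indicator_of_mem (show t ∈ Ioi (a - m) from h')]
          exact (k3 t h'.le).trans le_add_self
    refine (lintegral_mono k4).trans (le_of_eq ?_)
    rw [lintegral_add_left (Measurable.indicator (by fun_prop) measurableSet_Iic),
      lintegral_add_left (Measurable.indicator (by fun_prop) measurableSet_Iic),
      lintegral_indicator measurableSet_Iic, lintegral_indicator measurableSet_Iic,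
      lintegral_indicator measurableSet_Ioi, lintegral_const_mul _ (by fun_prop),
      lintegral_const_mul _ (by fun_prop), lintegral_const_mul _ (by fun_prop),
      lint_ex_Iic', lint_ex_Iic', lint_ex_Ioi', mul_assoc, mul_assoc, ← ex_add, ← ex_add,
      show 2 * m + (a - m) = m + a by ring, show 2 * a + -(a - m) = m + a by ring, two_mul]

noncomputable def cD (p : ℕ) : ℝ≥0∞ := cB p + ck p * 3

lemma cD_ne_top (hp : 2 ≤ p) : cD p ≠ ∞ :=
  ENNReal.add_ne_top.2 ⟨cB_ne_top hp, ENNReal.mul_ne_top (ck_ne_top p) (by simp)⟩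

lemma T_left3 (hp : 2 ≤ p) (hu : Measurable u) {C : ℝ≥0∞} {b : ℝ} (h1 : ∀ t, u t ≤ C)
    (h3 : ∀ t, u t ≤ C * ex (b - t) ^ p) (s : ℝ) : T p u s ≤ cD p * C ^ p * ex (s + b) := by
  refine (T_left2 hp hu (b := b) (m := 0) le_rfl h1 (fun t _ => by simpa [ex_zero] using h1 t)
    h3 s).trans ?_
  rw [zero_add, ex_add]
  calc ex s * (ck p * (C ^ p * ex b + 2 * (C ^ p * ex b))) = ck p * 3 * C ^ p * (ex s * ex b) := by
        ring
    _ ≤ _ := by gcongr; exact le_add_self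

lemma Dom.T (hp : 2 ≤ p) (hu : Measurable u) {C : ℝ≥0∞} (h : Dom p C u) :
    Dom p (cD p * C ^ p) (T p u) := by
  intro s
  constructor
  · have := T_left3 hp hu (b := 0) h.le (fun t => by
      rw [ex_pow, zero_sub, mul_neg]; exact (h t).2) s
    rwa [add_zero] at this
  · refine (T_right (fun t => (h t).1) s).trans ?_
    rw [mul_pow, ex_pow, mul_neg, ← mul_assoc]
    gcongr; exact le_self_add

theorem tail_step (hp : 2 ≤ p) {M κ : ℝ≥0∞} (hM : M ≠ ∞) (hκ : κ ≠ ∞) (D : ℝ) :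
    ∃ ε : ℝ, 0 < ε ∧ ∀ H : ℝ, ∃ C : ℝ≥0∞, C ≠ ∞ ∧
      ∀ (u : ℝ → ℝ≥0∞) (k k' γ : ℝ≥0∞) (a a' : ℝ), Measurable u → k ≤ κ → k' ≤ κ → γ ≠ 0 →
        γ ≠ ∞ → (∀ t, u t ≤ M) → (∀ t, k * T p u t ≤ M) →
        ∫⁻ t in Iic (a - H), u t ^ (p + 1) ≤ ENNReal.ofReal ε →
        (∀ t, u t ≤ γ * ex (t - a)) → a' ≤ a + D →
        ∀ s, k' * T p (fun t => k * T p u t) s ≤ (C + γ * 2⁻¹) * ex (s - a') := by
  set c := κ * cB p + 1 with hc
  have hc1 : c ≠ ∞ := ENNReal.add_ne_top.2 ⟨ENNReal.mul_ne_top hκ (cB_ne_top hp), by simp⟩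
  have hc0 : c ≠ 0 := by simp [hc]
  set X := κ * ck p * 2 * c ^ p * ex D with hX
  have hX1 : X ≠ ∞ := ENNReal.mul_ne_top (ENNReal.mul_ne_top (ENNReal.mul_ne_top
    (ENNReal.mul_ne_top hκ (ck_ne_top p)) (by simp)) (ENNReal.pow_ne_top hc1)) (ex_ne_top _)
  obtain ⟨x, hx⟩ := exists_ex (x := X * 2 + 1) (by simp)
    (ENNReal.add_ne_top.2 ⟨ENNReal.mul_ne_top hX1 (by simp), by simp⟩)
  have hx0 : 0 ≤ x := by
    by_contra h
    have h1 : ex x < 1 := by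
      unfold ex; rw [ENNReal.ofReal_lt_one, exp_lt_one_iff]; exact not_le.1 h
    rw [← hx] at h1
    exact absurd le_add_self (not_le.2 h1)
  have hXm : X * ex (-x) ≤ 2⁻¹ := by
    have h1 : ex x * ex (-x) = 1 := by rw [← ex_add, add_neg_cancel, ex_zero]
    calc X * ex (-x) = (X * 2) * ex (-x) * 2⁻¹ := by
          rw [mul_right_comm X 2, mul_assoc _ 2, ENNReal.mul_inv_cancel (by simp) (by simp), mul_one]
      _ ≤ (X * 2 + 1) * ex (-x) * 2⁻¹ := by gcongr; exact le_self_add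
      _ = 2⁻¹ := by rw [hx, h1, one_mul]
  set θ : ℝ := 1 - 5 / (3 * ((p:ℝ) + 1)) with hθ
  have hθ0 : 0 < θ := by
    have : (2:ℝ) ≤ p := by exact_mod_cast hp
    rw [hθ, sub_pos, div_lt_one (by positivity)]; linarith
  set Y := κ * M ^ (2 / 3 : ℝ) * cr p with hY
  have hY1 : Y ≠ ∞ := ENNReal.mul_ne_top (ENNReal.mul_ne_top hκ
    (ENNReal.rpow_ne_top_of_nonneg (by norm_num) hM)) (cr_ne_top hp)
  obtain ⟨ε, hε, hε2⟩ : ∃ ε : ℝ, 0 < ε ∧ Y * ENNReal.ofReal ε ^ θ ≤ c * ex (-x) := by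
    have h1 : Tendsto (fun ε : ℝ => Y * ENNReal.ofReal ε ^ θ) (𝓝 0)
        (𝓝 (Y * ENNReal.ofReal 0 ^ θ)) :=
      ENNReal.Tendsto.const_mul ((ENNReal.continuous_rpow_const.comp
        ENNReal.continuous_ofReal).tendsto 0) (Or.inr hY1)
    rw [ENNReal.ofReal_zero, ENNReal.zero_rpow_of_pos hθ0, mul_zero] at h1
    have h2 := h1.eventually (Iic_mem_nhds (ENNReal.mul_pos hc0 (ex_pos (-x)).ne'))
    obtain ⟨ε, h3, h4⟩ := ((h2.filter_mono nhdsWithin_le_nhds).and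
      (self_mem_nhdsWithin (s := Ioi (0:ℝ)))).exists
    exact ⟨ε, h4, h3⟩
  refine ⟨ε, hε, fun H => ⟨κ * ck p * M ^ p * ex (H + D), ENNReal.mul_ne_top (ENNReal.mul_ne_top
    (ENNReal.mul_ne_top hκ (ck_ne_top p)) (ENNReal.pow_ne_top hM)) (ex_ne_top _), ?_⟩⟩
  intro u k k' γ a a' hu hk hk' hγ0 hγ1 h1 h2 h3 h4 h5 s
  obtain ⟨g, rfl⟩ := exists_ex hγ0 hγ1
  have h6 := T_left2 hp (u := fun t => k * T p u t) ((measurable_T hu).const_mul k) (c := c)
    (a := g - a) (b := H - a) (m := -x) (by linarith) h2 (fun t ht => ?_) (fun t => ?_) s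
  · have h7 : ex (-a) ≤ ex D * ex (-a') := by rw [← ex_add]; exact ex_mono (by linarith)
    calc _ ≤ κ * (ex s * (ck p * (M ^ p * ex (H - a) + 2 * (c ^ p * ex (-x + (g - a)))))) := by
          gcongr
      _ = (κ * ck p * M ^ p * ex H + ex g * (κ * ck p * 2 * c ^ p * ex (-x))) * ex s *
          ex (-a) := by
          rw [sub_eq_add_neg, sub_eq_add_neg, ex_add, ex_add, ex_add]; ring
      _ ≤ (κ * ck p * M ^ p * ex H + ex g * (κ * ck p * 2 * c ^ p * ex (-x))) * ex s *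
          (ex D * ex (-a')) := by gcongr
      _ = (κ * ck p * M ^ p * ex (H + D) + ex g * (X * ex (-x))) * ex (s - a') := by
          rw [sub_eq_add_neg, ex_add, ex_add, hX]; ring
      _ ≤ _ := by gcongr
  · refine le_trans ?_ hε2
    have h7 := T_small (p := p) (by omega) hu h1 (a := a - H) (s := t) (by linarith)
    calc k * T p u t ≤ κ * (M ^ (2 / 3 : ℝ) * (cr p * ENNReal.ofReal ε ^ θ)) := by
          gcongr
          exact h7.trans (by gcongr)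
      _ = _ := by rw [hY]; ring
  · have h7 := T_right (p := p) (u := u) (A := ex (g - a)) (fun t => by
      rw [← ex_add, show g - a + t = g + (t - a) by ring, ex_add]; exact h4 t) t
    rw [← ex_add, ← sub_eq_add_neg] at h7
    calc k * T p u t ≤ κ * (cB p * ex (g - a - t) ^ p) := by gcongr
      _ ≤ _ := by rw [← mul_assoc]; gcongr; exact le_self_add

lemma half_step (C Γ : ℝ≥0∞) (i : ℕ) :
    C + (C * 2 + 1 + Γ * 2⁻¹ ^ i) * 2⁻¹ ≤ C * 2 + 1 + Γ * 2⁻¹ ^ (i + 1) := by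
  have h : (2:ℝ≥0∞) * 2⁻¹ = 1 := ENNReal.mul_inv_cancel (by simp) (by simp)
  calc C + (C * 2 + 1 + Γ * 2⁻¹ ^ i) * 2⁻¹ = C + C * (2 * 2⁻¹) + 2⁻¹ + Γ * 2⁻¹ ^ (i + 1) := by ring
    _ ≤ C + C * 1 + 1 + Γ * 2⁻¹ ^ (i + 1) := by
        rw [h]; gcongr; exact ENNReal.inv_le_one.2 one_le_two
    _ = _ := by ring

theorem tail_orbit (hp : 2 ≤ p) {M κ : ℝ≥0∞} (hM : M ≠ ∞) (hκ : κ ≠ ∞) (D : ℝ) :
    ∃ ε : ℝ, 0 < ε ∧ ∀ H : ℝ, ∃ C : ℝ≥0∞, C ≠ ∞ ∧
      ∀ (u : ℕ → ℝ → ℝ≥0∞) (k : ℕ → ℝ≥0∞) (a : ℕ → ℝ) (n : ℕ) (Γ : ℝ≥0∞), Γ ≠ ∞ →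
        (∀ j, Measurable (u j)) → (∀ j, u (j + 1) = fun s => k j * T p (u j) s) →
        (∀ j, k j ≤ κ) → (∀ j t, u j t ≤ M) →
        (∀ j, j + 2 ≤ n → ∫⁻ t in Iic (a j - H), u j t ^ (p + 1) ≤ ENNReal.ofReal ε ∧
          a (j + 2) ≤ a j + D) →
        (∀ j ≤ 1, ∀ t, u j t ≤ Γ * ex (t - a j)) →
        ∀ j ≤ n, ∀ t, u j t ≤ (C + Γ * 2⁻¹ ^ (j / 2)) * ex (t - a j) := by
  obtain ⟨ε, hε, h⟩ := tail_step hp hM hκ D
  refine ⟨ε, hε, fun H => ?_⟩
  obtain ⟨C, hC, h⟩ := h H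
  have hC2 : C * 2 + 1 ≠ ∞ := ENNReal.add_ne_top.2 ⟨ENNReal.mul_ne_top hC (by simp), by simp⟩
  refine ⟨C * 2 + 1, hC2, fun u k a n Γ hΓ hu hs hk hM' ha h0 j => ?_⟩
  induction j using Nat.twoStepInduction with
  | zero => exact fun _ t => (h0 0 (by omega) t).trans (by gcongr; simp)
  | one => exact fun _ t => (h0 1 (by omega) t).trans (by gcongr; simp)
  | more j ih _ =>
    intro hj t
    have h1 := h (u j) (k j) (k (j + 1)) _ (a j) (a (j + 2)) (hu j) (hk _) (hk _) (by simp)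
      (ENNReal.add_ne_top.2 ⟨hC2, ENNReal.mul_ne_top hΓ (ENNReal.pow_ne_top (by simp))⟩)
      (hM' j) (fun t => by have := hM' (j + 1) t; rwa [hs j] at this) (ha j hj).1
      (ih (by omega)) (ha j hj).2 t
    rw [hs (j + 1), hs j, show (j + 2) / 2 = j / 2 + 1 by omega]
    exact h1.trans (mul_le_mul_left (half_step _ _ _) _)

lemma rpow_step (c M : ℝ≥0∞) : c * M ^ (2 / 3 : ℝ) ≤ 4 * c ^ 3 + M * 2⁻¹ := by
  set y := M ^ (1 / 3 : ℝ) with hy
  have h1 : M ^ (2 / 3 : ℝ) = y ^ 2 := by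
    rw [hy, pow_eq_rpow, ← ENNReal.rpow_mul]; norm_num
  have h2 : M = y ^ 3 := by
    rw [hy, pow_eq_rpow, ← ENNReal.rpow_mul]; norm_num
  have h : (2:ℝ≥0∞) * 2⁻¹ = 1 := ENNReal.mul_inv_cancel (by simp) (by simp)
  rw [h1, h2]
  rcases le_total y (2 * c) with h3 | h3
  · calc c * y ^ 2 ≤ c * (2 * c) ^ 2 := by gcongr
      _ = 4 * c ^ 3 := by ring
      _ ≤ _ := le_self_add
  · calc c * y ^ 2 = (2 * c) * y ^ 2 * 2⁻¹ := by
          rw [show 2 * c * y ^ 2 * 2⁻¹ = c * y ^ 2 * (2 * 2⁻¹) by ring, h, mul_one]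
      _ ≤ y * y ^ 2 * 2⁻¹ := by gcongr
      _ = y ^ 3 * 2⁻¹ := by ring
      _ ≤ _ := le_add_self

theorem sup_orbit (hp : 2 ≤ p) {κ : ℝ≥0∞} (hκ : κ ≠ ∞) : ∃ C : ℝ≥0∞, C ≠ ∞ ∧
    ∀ (u : ℕ → ℝ → ℝ≥0∞) (k : ℕ → ℝ≥0∞) (M : ℝ≥0∞),
      (∀ j, Measurable (u j)) → (∀ j, u (j + 1) = fun s => k j * T p (u j) s) →
      (∀ j, k j ≤ κ) → (∀ j, N p (u j) = 1) → (∀ t, u 0 t ≤ M) →
      ∀ j t, u j t ≤ C + M * 2⁻¹ ^ j := by
  have hC : 4 * (κ * cr p) ^ 3 ≠ ∞ :=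
    ENNReal.mul_ne_top (by simp) (ENNReal.pow_ne_top (ENNReal.mul_ne_top hκ (cr_ne_top hp)))
  refine ⟨4 * (κ * cr p) ^ 3 * 2 + 1,
    ENNReal.add_ne_top.2 ⟨ENNReal.mul_ne_top hC (by simp), by simp⟩,
    fun u k M hu hs hk hN h0 j => ?_⟩
  induction j with
  | zero => exact fun t => (h0 t).trans (by simp)
  | succ j ih =>
    intro t
    have h1 := Tk_le_sup (p := p) (by omega) (measurable_K p) (hu j) ih t
    rw [hN j, ENNReal.one_rpow, mul_one] at h1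
    rw [hs j]
    refine le_trans ?_ ((rpow_step (κ * cr p) _).trans (half_step _ _ _))
    calc k j * T p (u j) t ≤ κ * (_ * cr p) := mul_le_mul' (hk j) h1
      _ = _ := by ring

end Pool.Agent.Lib.MP_242fd5_gt.Z
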