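import Pool.Agent.Lib.MP_242fd5_gt.Z4Tail

set_option autoImplicit false

namespace Pool.Agent.Lib.MP_242fd5_gt.Z

open MeasureTheory Set Real Filter Topology
open scoped ENNReal

variable {p : ℕ} {u v : ℝ → ℝ≥0∞}

/-- the normalising constant -/
noncomputable def kap (p : ℕ) (u : ℝ → ℝ≥0∞) : ℝ≥0∞ := (N p (T p u))⁻¹ ^ (1 / ((p:ℝ) + 1))

/-- the normalised operator -/
noncomputable def step (p : ℕ) (u : ℝ → ℝ≥0∞) : ℝ → ℝ≥0∞ := fun s => kap p u * T p u s

structure Good (p : ℕ) (u : ℝ → ℝ≥0∞) : Prop where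
  meas : Measurable u
  one : N p u = 1
  dom : ∃ C : ℝ≥0∞, C ≠ ∞ ∧ Dom p C u

lemma Good.phi_ne_zero (h : Good p u) : N p (T p u) ≠ 0 :=
  N_T_ne_zero h.meas (by rw [h.one]; simp)

lemma Good.phi_le (h : Good p u) (hp : 2 ≤ p) : N p (T p u) ≤ sig p := by
  have := N_T_le (p := p) (by omega) h.meas (by rw [h.one]; simp)
  simpa [h.one] using this

lemma Good.phi_ne_top (h : Good p u) (hp : 2 ≤ p) : N p (T p u) ≠ ∞ :=
  ((h.phi_le hp).trans_lt (sig_lt_top hp)).ne

lemma Good.kap_ne_zero (h : Good p u) (hp : 2 ≤ p) : kap p u ≠ 0 :=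
  (ENNReal.rpow_pos (ENNReal.inv_pos.2 (h.phi_ne_top hp))
    (ENNReal.inv_ne_top.2 h.phi_ne_zero)).ne'

lemma root_ne_top {E : ℝ≥0∞} (hE : E ≠ 0) (p : ℕ) : E⁻¹ ^ (1 / ((p:ℝ) + 1)) ≠ ∞ :=
  ENNReal.rpow_ne_top_of_nonneg (by positivity) (ENNReal.inv_ne_top.2 hE)

lemma Good.kap_ne_top (h : Good p u) : kap p u ≠ ∞ := root_ne_top h.phi_ne_zero p

lemma Good.kap_pow (h : Good p u) (hp : 2 ≤ p) : kap p u ^ (p + 1) * N p (T p u) = 1 := by
  rw [kap, pow_eq_rpow, ← ENNReal.rpow_mul]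
  push_cast
  rw [one_div_mul_cancel (by positivity), ENNReal.rpow_one,
    ENNReal.inv_mul_cancel h.phi_ne_zero (h.phi_ne_top hp)]

lemma kap_le {E : ℝ≥0∞} (h : E ≤ N p (T p u)) : kap p u ≤ E⁻¹ ^ (1 / ((p:ℝ) + 1)) :=
  ENNReal.rpow_le_rpow (ENNReal.inv_le_inv.2 h) (by positivity)

lemma Dom.smul {C : ℝ≥0∞} (h : Dom p C u) (c : ℝ≥0∞) : Dom p (c * C) fun s => c * u s := fun s =>
  ⟨by rw [mul_assoc]; exact mul_le_mul_right (h s).1 c,
    by rw [mul_assoc]; exact mul_le_mul_right (h s).2 c⟩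

lemma Good.step (h : Good p u) (hp : 2 ≤ p) : Good p (step p u) := by
  refine ⟨(measurable_T h.meas).const_mul _, ?_, ?_⟩
  · unfold Z.step
    rw [N_smul (measurable_T h.meas), h.kap_pow hp]
  · obtain ⟨C, hC, hd⟩ := h.dom
    exact ⟨_, ENNReal.mul_ne_top h.kap_ne_top (ENNReal.mul_ne_top (cD_ne_top hp)
      (ENNReal.pow_ne_top hC)), (hd.T hp h.meas).smul _⟩

lemma Good.phi_mono (h : Good p u) (hp : 2 ≤ p) : N p (T p u) ≤ N p (T p (Z.step p u)) := by
  have h1 := N_T_pow_le (p := p) h.meas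
  rw [h.one, one_pow, one_mul] at h1
  have h2 : T p (Z.step p u) = fun s => kap p u ^ p * T p (T p u) s :=
    funext (T_smul (measurable_T h.meas) _)
  rw [h2, N_smul (measurable_T (measurable_T h.meas))]
  calc N p (T p u) = (kap p u ^ (p + 1) * N p (T p u)) ^ p * N p (T p u) := by
        rw [h.kap_pow hp]; simp
    _ = (kap p u ^ p) ^ (p + 1) * N p (T p u) ^ (p + 1) := by ring
    _ ≤ _ := by gcongr

lemma Good.iter (h : Good p u) (hp : 2 ≤ p) (j : ℕ) : Good p ((Z.step p)^[j] u) := by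
  induction j with
  | zero => exact h
  | succ j ih => rw [Function.iterate_succ_apply']; exact ih.step hp

lemma Good.phi_iter (h : Good p u) (hp : 2 ≤ p) (j : ℕ) :
    N p (T p u) ≤ N p (T p ((Z.step p)^[j] u)) := by
  induction j with
  | zero => exact le_rfl
  | succ j ih => rw [Function.iterate_succ_apply']; exact ih.trans ((h.iter hp j).phi_mono hp)

lemma Good.step_pos (h : Good p u) (hp : 2 ≤ p) {a : ℝ} (ha : ∀ t < a, 0 < u t) (s : ℝ) :
    0 < Z.step p u s := ENNReal.mul_pos (h.kap_ne_zero hp) (T_pos h.meas ha s).ne'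

lemma Good.step_step_pos (h : Good p u) (hp : 2 ≤ p) (s : ℝ) :
    0 < Z.step p (Z.step p u) s := by
  obtain ⟨a, ha⟩ := T_pos_left h.meas (p := p) (by rw [h.one]; simp)
  exact (h.step hp).step_pos hp (a := a)
    (fun t ht => ENNReal.mul_pos (h.kap_ne_zero hp) (ha t ht).ne') s

lemma Dom.shift {C : ℝ≥0∞} (hp : 1 ≤ p) (h : Dom p C u) (c : ℝ) :
    Dom p (C * ex (p * |c|)) fun s => u (s + c) := by
  have h1 : (1:ℝ) ≤ p := by exact_mod_cast hp
  have h2 := le_abs_self c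
  have h3 := neg_abs_le c
  have h4 := abs_nonneg c
  intro s
  constructor
  · refine (h _).1.trans ?_
    rw [mul_assoc, ← ex_add]; gcongr; exact ex_mono (by nlinarith)
  · refine (h _).2.trans ?_
    rw [mul_assoc, ← ex_add]; gcongr; exact ex_mono (by nlinarith)

lemma Good.shift (h : Good p u) (hp : 2 ≤ p) (c : ℝ) : Good p fun s => u (s + c) := by
  refine ⟨h.meas.comp (by fun_prop), by rw [N_shift, h.one], ?_⟩
  obtain ⟨C, hC, hd⟩ := h.dom
  exact ⟨_, ENNReal.mul_ne_top hC (ex_ne_top _), hd.shift (by omega) c⟩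

lemma phi_shift (u : ℝ → ℝ≥0∞) (c : ℝ) : N p (T p fun s => u (s + c)) = N p (T p u) := by
  rw [show (T p fun s => u (s + c)) = fun s => T p u (s + -c) from funext (T_shift u c), N_shift]

lemma step_shift (u : ℝ → ℝ≥0∞) (c : ℝ) :
    step p (fun s => u (s + c)) = fun s => step p u (s + -c) := by
  funext s
  unfold step kap
  rw [phi_shift, T_shift]

lemma lint_dm (hp : 1 ≤ p) : ∫⁻ t, min (ex t) (ex (-(p * t))) ^ (p + 1) < ∞ := by
  have h1 : ∀ t, min (ex t) (ex (-(p * t))) ^ (p + 1) ≤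
      (Iic (0:ℝ)).indicator ex t + (Ioi (0:ℝ)).indicator (fun t => ex (-t)) t := by
    intro t
    have h2 : (1:ℝ) ≤ p := by exact_mod_cast hp
    rcases le_or_gt t 0 with h | h
    · rw [indicator_of_mem (show t ∈ Iic 0 from h)]
      refine le_add_right ((pow_le_pow_left' (min_le_left _ _) _).trans ?_)
      rw [ex_pow]; refine ex_mono ?_; push_cast; nlinarith
    · rw [indicator_of_mem (show t ∈ Ioi 0 from h)]
      refine le_add_left ((pow_le_pow_left' (min_le_right _ _) _).trans ?_)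
      rw [ex_pow]; refine ex_mono ?_; push_cast
      nlinarith [mul_pos h (show (0:ℝ) < p by linarith), mul_nonneg h.le (sq_nonneg (p:ℝ))]
  refine lt_of_le_of_lt (lintegral_mono h1) ?_
  rw [lintegral_add_left (Measurable.indicator (by fun_prop) measurableSet_Iic),
    lintegral_indicator measurableSet_Iic, lintegral_indicator measurableSet_Ioi,
    lint_ex_Iic', lint_ex_Ioi']
  exact ENNReal.add_lt_top.2 ⟨(ex_ne_top _).lt_top, (ex_ne_top _).lt_top⟩

lemma Dom.le_min {C : ℝ≥0∞} (h : Dom p C u) (t : ℝ) :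
    u t ≤ C * min (ex t) (ex (-(p * t))) := by
  rcases le_total (ex t) (ex (-(p * t))) with h1 | h1
  · rw [min_eq_left h1]; exact (h t).1
  · rw [min_eq_right h1]; exact (h t).2

/-- dominated pointwise convergence -/
structure Cv {ι : Type} (p : ℕ) (l : Filter ι) (x : ι → ℝ → ℝ≥0∞) (w : ℝ → ℝ≥0∞) : Prop where
  dom : ∃ C : ℝ≥0∞, C ≠ ∞ ∧ ∀ᶠ i in l, Measurable (x i) ∧ Dom p C (x i)
  lim : ∀ t, Tendsto (fun i => x i t) l (𝓝 (w t))

section
variable {ι : Type} {l : Filter ι} [l.IsCountablyGenerated] {x : ι → ℝ → ℝ≥0∞} {w : ℝ → ℝ≥0∞}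

lemma Cv.T (h : Cv p l x w) (hp : 2 ≤ p) : Cv p l (fun i => T p (x i)) (T p w) := by
  obtain ⟨C, hC, hd⟩ := h.dom
  refine ⟨⟨_, ENNReal.mul_ne_top (cD_ne_top hp) (ENNReal.pow_ne_top hC),
    hd.mono fun i hi => ⟨measurable_T hi.1, hi.2.T hp hi.1⟩⟩, fun s => ?_⟩
  refine tendsto_lintegral_filter_of_dominated_convergence (fun t => K p (s + t) * C ^ p)
    (hd.mono fun i hi => by have := hi.1; fun_prop)
    (hd.mono fun i hi => Eventually.of_forall fun t => by
      gcongr; exact hi.2.le t) ?_ (Eventually.of_forall fun t => ?_)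
  · rw [lintegral_mul_const _ (by fun_prop), lintegral_add_left_eq_self (K p) s]
    exact ENNReal.mul_ne_top (lint_K p hp).ne (ENNReal.pow_ne_top hC)
  · exact ENNReal.Tendsto.const_mul (ENNReal.Tendsto.pow (h.lim t)) (Or.inr (K_ne_top _ _))

lemma Cv.setN (h : Cv p l x w) (hp : 2 ≤ p) (A : Set ℝ) :
    Tendsto (fun i => ∫⁻ t in A, x i t ^ (p + 1)) l (𝓝 (∫⁻ t in A, w t ^ (p + 1))) := by
  obtain ⟨C, hC, hd⟩ := h.dom
  refine tendsto_lintegral_filter_of_dominated_convergence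
    (fun t => C ^ (p + 1) * min (ex t) (ex (-(p * t))) ^ (p + 1))
    (hd.mono fun i hi => by have := hi.1; fun_prop)
    (hd.mono fun i hi => Eventually.of_forall fun t => by
      rw [← mul_pow]; gcongr; exact hi.2.le_min t) ?_
    (Eventually.of_forall fun t => ENNReal.Tendsto.pow (h.lim t))
  refine ne_top_of_le_ne_top ?_ (setLIntegral_le_lintegral _ _)
  rw [lintegral_const_mul _ (by fun_prop)]
  exact ENNReal.mul_ne_top (ENNReal.pow_ne_top hC) (lint_dm (by omega)).ne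

lemma Cv.N (h : Cv p l x w) (hp : 2 ≤ p) : Tendsto (fun i => N p (x i)) l (𝓝 (N p w)) := by
  have := h.setN hp univ
  simpa only [Measure.restrict_univ, Z.N] using this

lemma Cv.step (h : Cv p l x w) (hp : 2 ≤ p) (hw : Good p w) :
    Cv p l (fun i => step p (x i)) (step p w) := by
  have h1 := h.T hp
  have h2 : Tendsto (fun i => kap p (x i)) l (𝓝 (kap p w)) :=
    (ENNReal.continuous_rpow_const.tendsto _).comp (h1.N hp).inv
  obtain ⟨C, hC, hd⟩ := h1.dom
  refine ⟨⟨(kap p w + 1) * C, ENNReal.mul_ne_top (by simp [hw.kap_ne_top]) hC, ?_⟩, fun s =>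
    ENNReal.Tendsto.mul h2 (Or.inl (hw.kap_ne_zero hp)) (h1.lim s) (Or.inr hw.kap_ne_top)⟩
  filter_upwards [hd, h2.eventually (Iic_mem_nhds (ENNReal.lt_add_right hw.kap_ne_top
    one_ne_zero))] with i hi h3
  exact ⟨hi.1.const_mul _, (hi.2.smul _).mono (by gcongr)⟩

lemma Cv.iter (h : Cv p l x w) (hp : 2 ≤ p) (hw : Good p w) (j : ℕ) :
    Cv p l (fun i => (Z.step p)^[j] (x i)) ((Z.step p)^[j] w) := by
  induction j with
  | zero => exact h
  | succ j ih =>
    simp only [Function.iterate_succ_apply']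
    exact ih.step hp (hw.iter hp j)

end

/-- extraction of a backward orbit -/
theorem extract (hp : 2 ≤ p) {E : ℝ≥0∞} (hE : E ≠ 0) (x : ℕ → ℕ → ℝ → ℝ≥0∞) (C : ℕ → ℝ≥0∞)
    (hC : ∀ m, C m ≠ ∞) (hg : ∀ k m, Good p (x k m)) (hφ : ∀ k m, E ≤ N p (T p (x k m)))
    (h : ∀ m, ∀ᶠ k in atTop, x k m = step p (x k (m + 1)) ∧ ∀ s, x k m s ≤ C m * ex s) :
    ∃ (w : ℕ → ℝ → ℝ≥0∞) (φ : ℕ → ℕ), StrictMono φ ∧
      (∀ m, Good p (w m) ∧ w m = step p (w (m + 1))) ∧ Cv p atTop (fun k => x (φ k) 0) (w 0) := by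
  set κ := E⁻¹ ^ (1 / ((p:ℝ) + 1)) with hκ
  have hκ1 : κ ≠ ∞ := root_ne_top hE p
  set C' : ℕ → ℝ≥0∞ := fun m => C m + κ * (cB p * C (m + 1) ^ p) with hC'
  have hC1 : ∀ m, C' m ≠ ∞ := fun m => ENNReal.add_ne_top.2 ⟨hC m, ENNReal.mul_ne_top hκ1
    (ENNReal.mul_ne_top (cB_ne_top hp) (ENNReal.pow_ne_top (hC _)))⟩
  have hd : ∀ m, ∀ᶠ k in atTop, Dom p (C' m) (x k m) := by
    intro m
    filter_upwards [h m, h (m + 1)] with k h1 h2 s
    refine ⟨(h1.2 s).trans (by gcongr; exact le_self_add), ?_⟩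
    rw [h1.1]
    have h3 := T_right (p := p) h2.2 s
    rw [mul_pow, ex_pow, mul_neg] at h3
    calc step p (x k (m + 1)) s ≤ κ * (cB p * (C (m + 1) ^ p * ex (-(p * s)))) :=
          mul_le_mul' (kap_le (hφ k _)) h3
      _ = κ * (cB p * C (m + 1) ^ p) * ex (-(p * s)) := by ring
      _ ≤ _ := by gcongr; exact le_add_self
  set Ω : ℕ → ℝ → ℝ≥0∞ := fun m y => κ * C' (m + 1) ^ p * ∫⁻ w, (K p w - K p (w - y)) with hΩ
  have hΩ0 : ∀ m, Tendsto (Ω m) (𝓝 0) (𝓝 0) := fun m => by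
    have := ENNReal.Tendsto.const_mul (a := κ * C' (m + 1) ^ p) (tendsto_K_shift p hp)
      (Or.inr (ENNReal.mul_ne_top hκ1 (ENNReal.pow_ne_top (hC1 _))))
    rwa [mul_zero] at this
  have hmod : ∀ m, ∀ᶠ k in atTop, ∀ s t, x k m s ≤ x k m t + Ω m (s - t) := by
    intro m
    filter_upwards [h m, hd (m + 1)] with k h1 h2 s t
    rw [h1.1]
    have h3 := T_modulus (p := p) (hg k (m + 1)).meas h2.le s t
    calc step p (x k (m + 1)) s ≤ kap p (x k (m + 1)) * (T p (x k (m + 1)) t +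
          C' (m + 1) ^ p * ∫⁻ w, (K p w - K p (w - (s - t)))) := mul_le_mul_right h3 _
      _ ≤ _ := by
        rw [mul_add, hΩ]; simp only; rw [mul_assoc]; gcongr
        · exact le_rfl
        · exact kap_le (hφ k _)
  obtain ⟨y, -, φ, hφm, hy⟩ := isCompact_univ.tendsto_subseq
    (x := fun k => fun q : ℕ × ℚ => x k q.1 q.2) (fun _ => mem_univ _)
  rw [tendsto_pi_nhds] at hy
  have hφt := hφm.tendsto_atTop
  have hlim : ∀ m s, Tendsto (fun k => x (φ k) m s) atTop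
      (𝓝 (limsup (fun k => x (φ k) m s) atTop)) := by
    intro m s
    refine tendsto_of_le_liminf_of_limsup_le ?_ le_rfl
    obtain ⟨r, hr⟩ : ∃ r : ℕ → ℚ, Tendsto (fun i => (r i : ℝ)) atTop (𝓝 s) := by
      obtain ⟨z, hz1, hz2⟩ := mem_closure_iff_seq_limit.1 (Rat.denseRange_cast (𝕜 := ℝ) s)
      choose r hr using hz1
      exact ⟨r, by simpa only [hr] using hz2⟩
    have h1 : ∀ q : ℚ, limsup (fun k => x (φ k) m s) atTop ≤
        liminf (fun k => x (φ k) m s) atTop + Ω m (q - s) + Ω m (s - q) := by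
      intro q
      have h2 : Tendsto (fun k => x (φ k) m q) atTop (𝓝 (y (m, q))) := hy (m, q)
      have h3 : limsup (fun k => x (φ k) m s) atTop ≤ y (m, q) + Ω m (s - q) := by
        rw [← (h2.add_const (Ω m (s - q))).limsup_eq]
        exact limsup_le_limsup ((hφt.eventually (hmod m)).mono fun k hk => hk s q)
      have h4 : y (m, q) - Ω m (q - s) ≤ liminf (fun k => x (φ k) m s) atTop := by
        rw [← (((ENNReal.continuous_sub_right (Ω m (q - s))).tendsto _).comp h2).liminf_eq]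
        exact liminf_le_liminf ((hφt.eventually (hmod m)).mono fun k hk =>
          tsub_le_iff_right.2 (hk q s))
      exact h3.trans (by gcongr; exact tsub_le_iff_right.1 h4)
    have h5 : Tendsto (fun i => (r i : ℝ) - s) atTop (𝓝 0) := by
      simpa using hr.sub_const s
    have h6 : Tendsto (fun i => s - (r i : ℝ)) atTop (𝓝 0) := by
      simpa using hr.const_sub s
    have h7 := (((hΩ0 m).comp h5).const_add (liminf (fun k => x (φ k) m s) atTop)).add
      ((hΩ0 m).comp h6)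
    rw [add_zero, add_zero] at h7
    exact ge_of_tendsto' h7 fun i => h1 (r i)
  set w : ℕ → ℝ → ℝ≥0∞ := fun m s => limsup (fun k => x (φ k) m s) atTop with hw
  have hcv : ∀ m, Cv p atTop (fun k => x (φ k) m) (w m) := fun m =>
    ⟨⟨C' m, hC1 m, (hφt.eventually (hd m)).mono fun k hk => ⟨(hg _ _).meas, hk⟩⟩, hlim m⟩
  have hgood : ∀ m, Good p (w m) := by
    intro m
    refine ⟨Measurable.limsup fun k => (hg _ _).meas, ?_, C' m, hC1 m, fun s => ⟨?_, ?_⟩⟩
    · have := (hcv m).N hp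
      simp only [(hg _ _).one] at this
      exact tendsto_nhds_unique this tendsto_const_nhds
    · exact le_of_tendsto (hlim m s) ((hφt.eventually (hd m)).mono fun k hk => (hk s).1)
    · exact le_of_tendsto (hlim m s) ((hφt.eventually (hd m)).mono fun k hk => (hk s).2)
  refine ⟨w, φ, hφm, fun m => ⟨hgood m, funext fun s => ?_⟩, hcv 0⟩
  refine tendsto_nhds_unique (hlim m s) ((((hcv (m + 1)).step hp (hgood _)).lim s).congr' ?_)
  exact (hφt.eventually (h m)).mono fun k hk => by simp only; rw [hk.1]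

end Pool.Agent.Lib.MP_242fd5_gt.Z
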