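import Pool.Agent.Lib.MP_242fd5_gt.Z5Lim
import Pool.Agent.Lib.MP_242fd5_gt.Z3Cdf

set_option autoImplicit false

namespace Pool.Agent.Lib.MP_242fd5_gt.Z

open MeasureTheory Set Real Filter Topology
open scoped ENNReal

variable {p : ℕ} {u v : ℝ → ℝ≥0∞}

/-- mass of a set -/
noncomputable def ms (p : ℕ) (u : ℝ → ℝ≥0∞) (A : Set ℝ) : ℝ := (∫⁻ t in A, u t ^ (p + 1)).toReal

/-- distribution function -/
noncomputable def F (p : ℕ) (u : ℝ → ℝ≥0∞) (x : ℝ) : ℝ := ms p u (Iic x)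

lemma Good.set_le (h : Good p u) (A : Set ℝ) : ∫⁻ t in A, u t ^ (p + 1) ≤ 1 :=
  (setLIntegral_le_lintegral _ _).trans h.one.le

lemma Good.set_ne_top (h : Good p u) (A : Set ℝ) : ∫⁻ t in A, u t ^ (p + 1) ≠ ∞ :=
  ((h.set_le A).trans_lt ENNReal.one_lt_top).ne

lemma ms_nonneg (A : Set ℝ) : 0 ≤ ms p u A := ENNReal.toReal_nonneg

lemma Good.ms_le (h : Good p u) (A : Set ℝ) : ms p u A ≤ 1 :=
  ENNReal.toReal_le_of_le_ofReal zero_le_one (by simpa using h.set_le A)

lemma Good.ms_mono (h : Good p u) {A B : Set ℝ} (hAB : A ⊆ B) : ms p u A ≤ ms p u B :=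
  ENNReal.toReal_mono (h.set_ne_top B) (lintegral_mono_set hAB)

lemma Good.ms_union (h : Good p u) {A B : Set ℝ} (hB : MeasurableSet B) (hAB : Disjoint A B) :
    ms p u (A ∪ B) = ms p u A + ms p u B := by
  unfold ms
  rw [lintegral_union hB hAB, ENNReal.toReal_add (h.set_ne_top A) (h.set_ne_top B)]

lemma Good.ms_univ (h : Good p u) : ms p u univ = 1 := by
  unfold ms
  rw [Measure.restrict_univ]
  have := h.one
  unfold N at this
  rw [this]; simp

lemma Good.ms_Ioc (h : Good p u) {a b : ℝ} (hab : a ≤ b) :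
    ms p u (Ioc a b) = F p u b - F p u a := by
  unfold F
  rw [← Iic_union_Ioc_eq_Iic hab, h.ms_union measurableSet_Ioc (Iic_disjoint_Ioc le_rfl)]
  ring

lemma Good.ms_Ioi (h : Good p u) (a : ℝ) : ms p u (Ioi a) = 1 - F p u a := by
  unfold F
  rw [← h.ms_univ, ← Iic_union_Ioi (a := a),
    h.ms_union measurableSet_Ioi (Iic_disjoint_Ioi le_rfl)]
  ring

lemma Good.F_mono (h : Good p u) : Monotone (F p u) := fun _ _ hab => h.ms_mono (Iic_subset_Iic.2 hab)

lemma Good.ofReal_F (h : Good p u) (x : ℝ) :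
    ∫⁻ t in Iic x, u t ^ (p + 1) = ENNReal.ofReal (F p u x) :=
  (ENNReal.ofReal_toReal (h.set_ne_top _)).symm

lemma Good.F_cont (h : Good p u) : Continuous (F p u) := by
  obtain ⟨C, hC, hd⟩ := h.dom
  have h1 : ∀ a b, a ≤ b → F p u b - F p u a ≤ (C ^ (p + 1)).toReal * (b - a) := by
    intro a b hab
    rw [← h.ms_Ioc hab]
    refine ENNReal.toReal_le_of_le_ofReal (mul_nonneg ENNReal.toReal_nonneg (by linarith)) ?_
    calc ∫⁻ t in Ioc a b, u t ^ (p + 1) ≤ ∫⁻ _ in Ioc a b, C ^ (p + 1) :=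
          lintegral_mono fun t => by gcongr; exact hd.le t
      _ = _ := by
        rw [setLIntegral_const, Real.volume_Ioc, ENNReal.ofReal_mul ENNReal.toReal_nonneg,
          ENNReal.ofReal_toReal (ENNReal.pow_ne_top hC)]
  refine (LipschitzWith.of_dist_le' (K := (C ^ (p + 1)).toReal) fun a b => ?_).continuous
  rw [Real.dist_eq, Real.dist_eq]
  rcases le_total a b with hab | hab
  · rw [abs_sub_comm, abs_sub_comm a, abs_of_nonneg (sub_nonneg.2 (h.F_mono hab)),
      abs_of_nonneg (sub_nonneg.2 hab)]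
    exact h1 a b hab
  · rw [abs_of_nonneg (sub_nonneg.2 (h.F_mono hab)), abs_of_nonneg (sub_nonneg.2 hab)]
    exact h1 b a hab

lemma Good.tails (h : Good p u) {e : ℝ} (he : 0 < e) :
    ∃ W : ℝ, 0 < W ∧ F p u (-W) ≤ e ∧ 1 - e ≤ F p u W := by
  have hm := h.meas
  obtain ⟨W, hW, h1⟩ := tail_small (g := fun t => u t ^ (p + 1)) (by fun_prop)
    (lt_of_eq_of_lt h.one ENNReal.one_lt_top) (ENNReal.ofReal_pos.2 he)
  rw [lintegral_indicator (measurableSet_le measurable_const (by fun_prop))] at h1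
  have h2 : ms p u {w | W ≤ |w|} ≤ e := ENNReal.toReal_le_of_le_ofReal he.le h1
  refine ⟨W, hW, le_trans (h.ms_mono fun t ht => ?_) h2, ?_⟩
  · have : t ≤ -W := ht
    exact show W ≤ |t| from le_abs.2 (Or.inr (by linarith))
  · have h3 : ms p u (Ioi W) ≤ e := le_trans (h.ms_mono fun t ht =>
      show W ≤ |t| from le_abs.2 (Or.inl (le_of_lt ht))) h2
    rw [h.ms_Ioi] at h3
    linarith

lemma Good.quantile (h : Good p u) {a : ℝ} (h0 : 0 < a) (h1 : a < 1) : ∃ x, F p u x = a := by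
  obtain ⟨W, hW, h2, h3⟩ := h.tails (e := min a (1 - a)) (lt_min h0 (by linarith))
  exact intermediate_value_univ (-W) W h.F_cont
    ⟨h2.trans (min_le_left _ _), by linarith [min_le_right a (1 - a)]⟩

lemma Good.F_strict (h : Good p u) (hpos : ∀ s, 0 < u s) : StrictMono (F p u) := by
  intro a b hab
  rw [← sub_pos, ← h.ms_Ioc hab.le]
  refine ENNReal.toReal_pos (ne_of_gt ?_) (h.set_ne_top _)
  have hm := h.meas
  rw [setLIntegral_pos_iff (by fun_prop)]
  have : (Function.support fun t => u t ^ (p + 1)) = univ :=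
    eq_univ_of_forall fun t => pow_ne_zero _ (hpos t).ne'
  rw [this, univ_inter]
  simpa using hab

lemma F_shift (u : ℝ → ℝ≥0∞) (c x : ℝ) : F p (fun s => u (s + c)) x = F p u (x + c) := by
  unfold F ms
  rw [← lintegral_indicator measurableSet_Iic, ← lintegral_indicator measurableSet_Iic,
    ← lintegral_add_right_eq_self ((Iic (x + c)).indicator fun t => u t ^ (p + 1)) c]
  congr 2
  funext t
  by_cases ht : t ≤ x
  · rw [indicator_of_mem (show t ∈ Iic x from ht),
      indicator_of_mem (show t + c ∈ Iic (x + c) by simpa using ht)]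
  · rw [indicator_of_notMem (show t ∉ Iic x from ht),
      indicator_of_notMem (show t + c ∉ Iic (x + c) by simpa using ht)]

lemma Cv.F {ι : Type} {l : Filter ι} [l.IsCountablyGenerated] {x : ι → ℝ → ℝ≥0∞}
    {w : ℝ → ℝ≥0∞} (h : Cv p l x w) (hp : 2 ≤ p) (hw : Good p w) (y : ℝ) :
    Tendsto (fun i => F p (x i) y) l (𝓝 (F p w y)) :=
  (ENNReal.tendsto_toReal (hw.set_ne_top _)).comp (h.setN hp _)

theorem exists_pair (hp : 2 ≤ p) {e : ℝ} (he : 0 < e) : ∃ (W : ℝ) (L : ℕ), 0 ≤ W ∧ 0 < L ∧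
    1 / (L:ℝ) ≤ e ∧ ∀ u, Good p u → Pair p (sig p).toReal (N p (T p u)).toReal e W (F p u)
      fun x => 1 - F p (step p u) (-x) := by
  obtain ⟨W, hW, h⟩ := decouple hp he
  obtain ⟨L, hL⟩ := exists_nat_one_div_lt he
  refine ⟨W, L + 1, hW.le, by omega, by push_cast; exact hL.le, fun u hu => ?_⟩
  have hs := hu.step hp
  have key : ∀ A B : Set ℝ, MeasurableSet A → MeasurableSet B →
      (∀ s ∈ A, ∀ t, |s + t| < W → t ∈ B) →
      (N p (T p u)).toReal * ms p (step p u) A ≤ (sig p).toReal * ms p u B ^ p + e := by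
    intro A B hA hB hAB
    have h1 := h u hu.meas hu.one.le A B hA hB hAB
    have h2 : N p (T p u) * ∫⁻ s in A, step p u s ^ (p + 1) = ∫⁻ s in A, T p u s ^ (p + 1) := by
      unfold step
      simp_rw [mul_pow]
      rw [lintegral_const_mul _ ((measurable_T hu.meas).pow_const _), ← mul_assoc,
        mul_comm (N p (T p u)), hu.kap_pow hp, one_mul]
    have h3 : sig p * (∫⁻ t in B, u t ^ (p + 1)) ^ p ≠ ∞ :=
      ENNReal.mul_ne_top (sig_lt_top hp).ne (ENNReal.pow_ne_top (hu.set_ne_top B))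
    unfold ms
    rw [← ENNReal.toReal_mul, h2, ← ENNReal.toReal_pow, ← ENNReal.toReal_mul,
      ← ENNReal.toReal_ofReal he.le, ← ENNReal.toReal_add h3 ENNReal.ofReal_ne_top]
    exact ENNReal.toReal_mono (ENNReal.add_ne_top.2 ⟨h3, ENNReal.ofReal_ne_top⟩) h1
  refine ⟨hu.F_mono, fun x => ms_nonneg _, fun x => hu.ms_le _, fun a b hab => ?_,
    fun x => sub_nonneg.2 (hs.ms_le _), fun x => sub_le_self _ (ms_nonneg _), fun a b hab => ?_,
    fun b => ?_, fun a => ?_⟩
  · exact sub_le_sub_left (hs.F_mono (neg_le_neg hab)) _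
  · have := key (Ioc (-b) (-a)) (Ioc (a - W) (b + W)) measurableSet_Ioc measurableSet_Ioc
      fun s hs t ht => by
        obtain ⟨h1, h2⟩ := abs_lt.1 ht
        exact ⟨by linarith [hs.2], by linarith [hs.1]⟩
    rw [hs.ms_Ioc (neg_le_neg hab), hu.ms_Ioc (by linarith)] at this
    rw [sub_sub_sub_cancel_left]
    exact this
  · have := key (Ioi (-b)) (Iic (b + W)) measurableSet_Ioi measurableSet_Iic
      fun s hs t ht => by
        obtain ⟨h1, h2⟩ := abs_lt.1 ht
        have : -b < s := hs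
        exact show t ≤ b + W by linarith
    rwa [hs.ms_Ioi] at this
  · have := key (Iic (-a)) (Ioi (a - W)) measurableSet_Iic measurableSet_Ioi
      fun s hs t ht => by
        obtain ⟨h1, h2⟩ := abs_lt.1 ht
        have : s ≤ -a := hs
        exact show a - W < t by linarith
    rw [hu.ms_Ioi] at this
    rw [sub_sub_cancel]
    exact this

lemma alt_bound {y : ℕ → ℝ} {n : ℕ} {D ε : ℝ} (hε : |ε| = 1)
    (h : ∀ j < n, |y j - ε * y (j + 1)| ≤ D) : ∀ m ≤ n, |y (n - m) - ε ^ m * y n| ≤ m * D := by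
  intro m
  induction m with
  | zero => simp
  | succ m ih =>
    intro hm
    have h1 := h (n - (m + 1)) (by omega)
    rw [show n - (m + 1) + 1 = n - m by omega] at h1
    have h2 := ih (by omega)
    have h3 : y (n - (m + 1)) - ε ^ (m + 1) * y n =
        (y (n - (m + 1)) - ε * y (n - m)) + ε * (y (n - m) - ε ^ m * y n) := by ring
    rw [h3]
    refine (abs_add_le _ _).trans ?_
    rw [abs_mul, hε]
    push_cast
    linarith

theorem extract2 (hp : 2 ≤ p) {E Γ : ℝ≥0∞} (hE : E ≠ 0) (hΓ : Γ ≠ ∞) (U : ℕ → ℝ → ℝ≥0∞)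
    (n : ℕ → ℕ) (c : ℕ → ℝ) (a : ℕ → ℕ → ℝ) (Λ : ℕ → ℝ) (hg : ∀ k, Good p (U k))
    (hφ : ∀ k, E ≤ N p (T p (U k))) (hn : Tendsto n atTop atTop)
    (hb : ∀ k, ∀ j ≤ n k, ∀ t, (step p)^[j] (U k) t ≤ Γ * ex (t - a k j))
    (ha : ∀ k, ∀ m ≤ n k, (-1) ^ m * c k - Λ m ≤ a k (n k - m)) :
    ∃ (w : ℕ → ℝ → ℝ≥0∞) (φ : ℕ → ℕ), StrictMono φ ∧
      (∀ m, Good p (w m) ∧ w m = step p (w (m + 1))) ∧
      Cv p atTop (fun k s => (step p)^[n (φ k)] (U (φ k)) (s + c (φ k))) (w 0) := by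
  have := extract hp hE (fun k m s => (step p)^[n k - m] (U k) (s + (-1) ^ m * c k))
    (fun m => Γ * ex (Λ m)) (fun m => ENNReal.mul_ne_top hΓ (ex_ne_top _))
    (fun k m => ((hg k).iter hp _).shift hp _)
    (fun k m => by rw [phi_shift]; exact (hφ k).trans ((hg k).phi_iter hp _)) (fun m => ?_)
  · simpa using this
  filter_upwards [hn.eventually (eventually_ge_atTop (m + 1))] with k hk
  constructor
  · rw [step_shift, show n k - m = (n k - (m + 1)) + 1 by omega, Function.iterate_succ_apply']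
    funext s
    congr 2
    ring
  · intro s
    refine (hb k _ (by omega) _).trans ?_
    rw [mul_assoc, ← ex_add]
    gcongr
    exact ex_mono (by linarith [ha k m (by omega)])

lemma near_max (hp : 2 ≤ p) {c : ℝ≥0∞} (hc : c < sig p) : ∃ U, Good p U ∧ c ≤ N p (T p U) := by
  simp only [sig, lt_iSup_iff] at hc
  obtain ⟨u, hu, hN, hc⟩ := hc
  set x : ℕ → ℝ → ℝ≥0∞ := fun k t => min (u t) (k * min (ex t) (ex (-(p * t)))) with hx
  have hm : ∀ k, Measurable (x k) := fun k => by rw [hx]; fun_prop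
  have hmono : ∀ t, Monotone fun k => x k t := fun t k j hkj => by
    simp only [hx]; gcongr
  have hl : ∀ t, Tendsto (fun k => x k t) atTop (𝓝 (u t)) := by
    intro t
    have h1 := ENNReal.Tendsto.mul_const (b := min (ex t) (ex (-(p * t))))
      ENNReal.tendsto_nat_nhds_top (Or.inl ENNReal.top_ne_zero)
    rw [ENNReal.top_mul (lt_min (ex_pos _) (ex_pos _)).ne'] at h1
    simpa using (tendsto_const_nhds (x := u t)).min h1
  have hT : ∀ s, Tendsto (fun k => T p (x k) s) atTop (𝓝 (T p u s)) := fun s =>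
    lintegral_tendsto_of_tendsto_of_monotone
      (fun k => Measurable.aemeasurable (by have := hm k; fun_prop))
      (Eventually.of_forall fun t k j hkj => by simp only; gcongr; exact hmono t hkj)
      (Eventually.of_forall fun t =>
        ENNReal.Tendsto.const_mul (ENNReal.Tendsto.pow (hl t)) (Or.inr (K_ne_top _ _)))
  have hNT : Tendsto (fun k => N p (T p (x k))) atTop (𝓝 (N p (T p u))) :=
    lintegral_tendsto_of_tendsto_of_monotone
      (fun k => ((measurable_T (hm k)).pow_const _).aemeasurable)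
      (Eventually.of_forall fun s k j hkj => by
        simp only; gcongr; exact T_mono (fun t => hmono t hkj) s)
      (Eventually.of_forall fun s => ENNReal.Tendsto.pow (hT s))
  obtain ⟨k, hk⟩ := (hNT.eventually (Ioi_mem_nhds hc)).exists
  have h1 : N p (x k) ≤ 1 := (N_mono fun t => min_le_left _ _).trans hN
  have h0 : N p (x k) ≠ 0 := by
    intro h
    have : T p (x k) = fun _ => 0 := funext (T_eq_zero (by omega) (hm k) h)
    rw [this] at hk
    simp [N] at hk
  obtain ⟨r, hr0, hr1, hr⟩ := exists_root h0 (h1.trans_lt ENNReal.one_lt_top).ne p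
  have hr2 : 1 ≤ r ^ (p + 1) := by
    calc 1 = r ^ (p + 1) * N p (x k) := hr.symm
      _ ≤ r ^ (p + 1) * 1 := by gcongr
      _ = _ := mul_one _
  refine ⟨fun t => r * x k t, ⟨(hm k).const_mul _, by rw [N_smul (hm k), hr], r * k,
    ENNReal.mul_ne_top hr1 (by simp), Dom.smul (fun s => ⟨?_, ?_⟩) r⟩, ?_⟩
  · exact (min_le_right _ _).trans (by gcongr; exact min_le_left _ _)
  · exact (min_le_right _ _).trans (by gcongr; exact min_le_right _ _)
  · rw [show (T p fun t => r * x k t) = fun s => r ^ p * T p (x k) s from funext (T_smul (hm k) r),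
      N_smul (measurable_T (hm k)), ← pow_mul, mul_comm p, pow_mul]
    exact hk.le.trans (le_mul_of_one_le_left' (one_le_pow_of_one_le' hr2 _))

lemma exists_half {Γ : ℝ≥0∞} (hΓ : Γ ≠ ∞) : ∃ J : ℕ, ∀ j, J ≤ j → Γ * 2⁻¹ ^ j ≤ 1 := by
  have h := ENNReal.Tendsto.const_mul (a := Γ)
    (ENNReal.tendsto_pow_atTop_nhds_zero_of_lt_one (r := 2⁻¹) (by simp)) (Or.inr hΓ)
  rw [mul_zero] at h
  exact eventually_atTop.1 (h.eventually (Iic_mem_nhds zero_lt_one))

lemma Good.left_bound (h : Good p u) (a : ℝ) : ∃ Γ : ℝ≥0∞, Γ ≠ ∞ ∧ ∀ t, u t ≤ Γ * ex (t - a) := by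
  obtain ⟨C, hC, hd⟩ := h.dom
  refine ⟨C * ex a, ENNReal.mul_ne_top hC (ex_ne_top _), fun t => ?_⟩
  rw [mul_assoc, ← ex_add, add_sub_cancel]
  exact (hd t).1

lemma iter_succ (p : ℕ) (u : ℝ → ℝ≥0∞) (j : ℕ) : (step p)^[j + 1] u =
    fun s => kap p ((step p)^[j] u) * T p ((step p)^[j] u) s :=
  Function.iterate_succ_apply' _ _ _

/-- existence of a maximiser -/
theorem exists_max (hp : 2 ≤ p) : ∃ v, Good p v ∧ (∀ s, 0 < v s) ∧ N p (T p v) = sig p := by
  obtain ⟨q, rfl⟩ : ∃ q, p = q + 1 := ⟨p - 1, by omega⟩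
  set p := q + 1 with hpq
  have hs1 := (sig_lt_top hp).ne
  set σ := (sig p).toReal with hσ
  have hσ0 : 0 < σ := ENNReal.toReal_pos (sig_pos p).ne' hs1
  have hσs : ENNReal.ofReal σ = sig p := ENNReal.ofReal_toReal hs1
  obtain ⟨C, e0, hC, he0, h1⟩ := one_step q (by omega) hσ0
  set E := ENNReal.ofReal (σ / 2) with hE
  have hE0 : E ≠ 0 := (ENNReal.ofReal_pos.2 (by positivity)).ne'
  have hκ := root_ne_top hE0 p
  obtain ⟨CM, hCM, hsup⟩ := sup_orbit hp hκ
  obtain ⟨W0, L0, hW0, hL0, hLe0, hP0⟩ := exists_pair hp he0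
  set D := 2 * W0 * L0 + W0 with hD
  obtain ⟨ε, hε, htail⟩ := tail_orbit hp (M := CM + 1) (by simp [hCM]) hκ (2 * D)
  set e1 := min (min e0 (σ / 2)) (ε / C) with he1
  have he1p : 0 < e1 := by positivity
  have he10 : e1 ≤ e0 := (min_le_left _ _).trans (min_le_left _ _)
  have he11 : e1 ≤ σ / 2 := (min_le_left _ _).trans (min_le_right _ _)
  have he12 : C * e1 ≤ ε := by
    have := min_le_right (min e0 (σ / 2)) (ε / C)
    rw [← he1, le_div_iff₀ (by linarith)] at this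
    linarith
  obtain ⟨W1, L1, hW1, hL1, hLe1, hP1⟩ := exists_pair hp he1p
  obtain ⟨C1, hC1, htail⟩ := htail (2 * W1 * L1)
  have main : ∀ k : ℕ, ∃ (U : ℝ → ℝ≥0∞) (x : ℕ → ℝ), Good p U ∧
      ENNReal.ofReal (σ - e1 / (k + 1)) ≤ N p (T p U) ∧ (∀ j, |x j - (-1) * x (j + 1)| ≤ D) ∧
      ∀ j t, (step p)^[j] U t ≤ (C1 + 1) * ex (t - x j) := by
    intro k
    have hk : e1 / (k + 1) ≤ e1 := div_le_self he1p.le (by linarith [Nat.cast_nonneg (α := ℝ) k])
    have hk0 : 0 < e1 / (k + 1) := by positivity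
    obtain ⟨U0, g0, hφ0⟩ := near_max hp (c := ENNReal.ofReal (σ - e1 / (k + 1)))
      (by rw [← hσs, ENNReal.ofReal_lt_ofReal_iff hσ0]; linarith)
    have hE1 : E ≤ N p (T p U0) := (ENNReal.ofReal_le_ofReal (by linarith)).trans hφ0
    obtain ⟨M0, hM0, hd0⟩ := g0.dom
    obtain ⟨J, hJ⟩ := exists_half hM0
    have hs0 := hsup (fun j => (step p)^[j] U0) (fun j => kap p ((step p)^[j] U0)) M0
      (fun j => (g0.iter hp j).meas) (iter_succ p U0)
      (fun j => kap_le (hE1.trans (g0.phi_iter hp j))) (fun j => (g0.iter hp j).one) hd0.le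
    set U1 := (step p)^[J] U0 with hU1
    have g1 : Good p U1 := g0.iter hp J
    have hφ1 := hφ0.trans (g0.phi_iter hp J)
    rw [← hU1] at hφ1
    have hE2 : E ≤ N p (T p U1) := (ENNReal.ofReal_le_ofReal (by linarith)).trans hφ1
    have hs1 : ∀ j t, (step p)^[j] U1 t ≤ CM + 1 := fun j t => by
      rw [hU1, ← Function.iterate_add_apply]
      exact (hs0 _ t).trans (by gcongr; exact hJ _ (by omega))
    choose x hx using fun j => (g1.iter hp j).quantile (a := 1 / 2) (by norm_num) (by norm_num)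
    have hφ2 : ∀ j, σ - e1 ≤ (N p (T p ((step p)^[j] U1))).toReal := fun j => by
      have := (ENNReal.ofReal_le_iff_le_toReal ((g1.iter hp j).phi_ne_top hp)).1
        (hφ1.trans (g1.phi_iter hp j))
      linarith
    have hx' : ∀ j, 1 - F p (step p ((step p)^[j] U1)) (- -x (j + 1)) = 1 / 2 := fun j => by
      rw [neg_neg, ← Function.iterate_succ_apply' (step p), hx]; norm_num
    have hD1 : ∀ j, |x j - (-1) * x (j + 1)| ≤ D := fun j => by
      have := (h1 _ e0 W0 L0 _ _ (x j) (-x (j + 1)) he0 hW0 hL0 hLe0 (hP0 _ (g1.iter hp j))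
        (by linarith [hφ2 j]) (hx j) le_rfl (hx' j)).2
      rwa [abs_sub_comm, ← neg_one_mul] at this
    have hm1 : ∀ j, F p ((step p)^[j] U1) (x j - 2 * W1 * L1) ≤ ε := fun j =>
      (h1 _ e1 W1 L1 _ _ (x j) (-x (j + 1)) he1p hW1 hL1 hLe1 (hP1 _ (g1.iter hp j))
        (hφ2 j) (hx j) he10 (hx' j)).1.trans he12
    obtain ⟨Γ0, hΓ0, hb0⟩ := g1.left_bound (x 0)
    obtain ⟨Γ1, hΓ1, hb1⟩ := (g1.iter hp 1).left_bound (x 1)
    have hΓ : Γ0 + Γ1 ≠ ∞ := ENNReal.add_ne_top.2 ⟨hΓ0, hΓ1⟩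
    obtain ⟨J', hJ'⟩ := exists_half hΓ
    have ht : ∀ j t, (step p)^[j] U1 t ≤ (C1 + (Γ0 + Γ1) * 2⁻¹ ^ (j / 2)) * ex (t - x j) := by
      intro j
      refine htail (fun j => (step p)^[j] U1) (fun j => kap p ((step p)^[j] U1)) x j _ hΓ
        (fun j => (g1.iter hp j).meas) (iter_succ p U1)
        (fun j => kap_le (hE2.trans (g1.phi_iter hp j))) hs1 (fun i _ => ⟨?_, ?_⟩)
        (fun i hi t => ?_) j le_rfl
      · rw [(g1.iter hp i).ofReal_F]; exact ENNReal.ofReal_le_ofReal (hm1 i)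
      · linarith [(abs_le.1 (hD1 i)).1, (abs_le.1 (hD1 (i + 1))).2]
      · interval_cases i
        · exact (hb0 t).trans (by gcongr; exact le_self_add)
        · exact (hb1 t).trans (by gcongr; exact le_add_self)
    refine ⟨(step p)^[2 * J'] U1, fun j => x (j + 2 * J'), g1.iter hp _,
      hφ1.trans (g1.phi_iter hp _), fun j => ?_, fun j t => ?_⟩
    · beta_reduce; rw [show j + 1 + 2 * J' = j + 2 * J' + 1 by ring]; exact hD1 _
    · rw [← Function.iterate_add_apply]
      exact (ht _ t).trans (by gcongr; exact hJ' _ (by omega))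
  choose U x hg hφ hD1 hb using main
  have hk : ∀ k : ℕ, e1 / (k + 1) ≤ e1 := fun k =>
    div_le_self he1p.le (by linarith [Nat.cast_nonneg (α := ℝ) k])
  obtain ⟨w, φ, hφm, hw, hcv⟩ := extract2 hp hE0 (Γ := C1 + 1) (by simp [hC1]) U id
    (fun k => x k k) x (fun m => m * D) hg
    (fun k => (ENNReal.ofReal_le_ofReal (by linarith [hk k])).trans (hφ k)) tendsto_id
    (fun k j _ => hb k j) (fun k m hm => by
      have := alt_bound (y := x k) (n := k) (ε := -1) (by simp) (fun j _ => hD1 k j) m hm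
      simp only [id]
      linarith [(abs_le.1 this).1])
  refine ⟨w 0, (hw 0).1, fun s => ?_, le_antisymm ((hw 0).1.phi_le hp) ?_⟩
  · rw [(hw 0).2, (hw 1).2]; exact (hw 2).1.step_step_pos hp s
  · have h2 : Tendsto (fun k : ℕ => ENNReal.ofReal (σ - e1 / ((φ k : ℝ) + 1))) atTop
        (𝓝 (ENNReal.ofReal (σ - 0))) := by
      refine (ENNReal.continuous_ofReal.tendsto _).comp (Tendsto.const_sub _ ?_)
      exact (tendsto_const_nhds.div_atTop (tendsto_atTop_add_const_right _ _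
        tendsto_natCast_atTop_atTop)).comp hφm.tendsto_atTop
    rw [sub_zero, hσs] at h2
    refine le_of_tendsto_of_tendsto' h2 ((hcv.T hp).N hp) fun k => ?_
    rw [phi_shift]
    exact (hφ _).trans ((hg _).phi_iter hp _)

end Pool.Agent.Lib.MP_242fd5_gt.Z
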