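import Pool.Agent.Lib.MP_242fd5_gt.Z6Max

set_option autoImplicit false

namespace Pool.Agent.Lib.MP_242fd5_gt.Z

open MeasureTheory Set Real Filter Topology
open scoped ENNReal

variable {p : ℕ} {u v : ℝ → ℝ≥0∞}

/-- root of order `p + 1` -/
noncomputable def rt (p : ℕ) (x : ℝ≥0∞) : ℝ≥0∞ := x ^ (1 / ((p:ℝ) + 1))

lemma rt_pow (p : ℕ) (x : ℝ≥0∞) : rt p x ^ (p + 1) = x := by
  rw [rt, pow_eq_rpow, ← ENNReal.rpow_mul]
  push_cast
  rw [one_div_mul_cancel (by positivity), ENNReal.rpow_one]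

lemma continuous_rt (p : ℕ) : Continuous (rt p) := ENNReal.continuous_rpow_const

lemma rt_le {x y : ℝ≥0∞} (h : x ≤ y ^ (p + 1)) : rt p x ≤ y := by
  rw [← rt_pow p x] at h
  exact (ENNReal.pow_le_pow_left_iff (by omega)).1 h

lemma holder2 (hp : 1 ≤ p) (α β x y : ℝ≥0∞) : α * x ^ p + β * y ^ p ≤
    rt p (α ^ (p + 1) + β ^ (p + 1)) * rt p (x ^ (p + 1) + y ^ (p + 1)) ^ p := by
  have hp1 : (1:ℝ) ≤ p := by exact_mod_cast hp
  have hc : ((p:ℝ) + 1).HolderConjugate ((p + 1) / p) :=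
    Real.holderConjugate_iff.2 ⟨by linarith, by field_simp; ring⟩
  have h := ENNReal.inner_le_Lp_mul_Lq (Finset.univ : Finset (Fin 2)) ![α, β] ![x ^ p, y ^ p] hc
  simp only [Fin.sum_univ_two, Matrix.cons_val_zero, Matrix.cons_val_one] at h
  have e1 : ∀ z : ℝ≥0∞, z ^ ((p:ℝ) + 1) = z ^ (p + 1) := fun z => by
    rw [pow_eq_rpow]; push_cast; rfl
  have e2 : ∀ z : ℝ≥0∞, (z ^ p) ^ (((p:ℝ) + 1) / p) = z ^ (p + 1) := fun z => by
    rw [pow_eq_rpow z p, ← ENNReal.rpow_mul, mul_div_cancel₀ _ (by positivity), e1]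
  have e3 : ∀ z : ℝ≥0∞, z ^ (1 / (((p:ℝ) + 1) / p)) = rt p z ^ p := fun z => by
    rw [rt, pow_eq_rpow, ← ENNReal.rpow_mul]; congr 1; field_simp
  rwa [e1, e1, e2, e2, e3] at h

lemma pow_add_pow_lt {x y : ℝ≥0∞} (hp : 2 ≤ p) (hx0 : x ≠ 0) (hy0 : y ≠ 0) (hx : x ≠ ∞)
    (hy : y ≠ ∞) : x ^ p + y ^ p < (x + y) ^ p := by
  obtain ⟨q, rfl⟩ : ∃ q, p = q + 1 := ⟨p - 1, by omega⟩
  have h1 : x ^ q < (x + y) ^ q := ENNReal.pow_lt_pow_left (by omega) (ENNReal.lt_add_right hx hy0)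
  have h2 : y ^ q ≤ (x + y) ^ q := pow_le_pow_left' le_add_self _
  rw [pow_succ', pow_succ', pow_succ' (x + y), add_mul]
  exact ENNReal.add_lt_add_of_lt_of_le (ENNReal.mul_ne_top hy (ENNReal.pow_ne_top hy))
    (ENNReal.mul_lt_mul_right hx0 hx h1) (by gcongr)

lemma T_mix (hp : 2 ≤ p) {A B : ℝ → ℝ≥0∞} (hA : Measurable A) (hB : Measurable B) (s : ℝ)
    (a0 : T p A s ≠ 0) (b0 : T p B s ≠ 0) (a1 : T p A s ≠ ∞) (b1 : T p B s ≠ ∞) :
    T p A s ^ (p + 1) + T p B s ^ (p + 1) <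
      T p (fun t => rt p (A t ^ (p + 1) + B t ^ (p + 1))) s ^ (p + 1) := by
  set a := T p A s with ha
  set b := T p B s with hb
  set z := T p (fun t => rt p (A t ^ (p + 1) + B t ^ (p + 1))) s with hz
  have hm := (continuous_rt p).measurable
  have h1 : a ^ p * a + b ^ p * b ≤ rt p ((a ^ p) ^ (p + 1) + (b ^ p) ^ (p + 1)) * z := by
    have e1 : a ^ p * a = ∫⁻ t, a ^ p * (K p (s + t) * A t ^ p) :=
      (lintegral_const_mul _ (by fun_prop)).symm
    have e2 : b ^ p * b = ∫⁻ t, b ^ p * (K p (s + t) * B t ^ p) :=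
      (lintegral_const_mul _ (by fun_prop)).symm
    rw [e1, e2, ← lintegral_add_left (by fun_prop), hz]
    unfold T Tk
    rw [← lintegral_const_mul _ (by fun_prop)]
    refine lintegral_mono fun t => ?_
    calc _ = K p (s + t) * (a ^ p * A t ^ p + b ^ p * B t ^ p) := by ring
      _ ≤ K p (s + t) * _ := mul_le_mul_right (holder2 (by omega) _ _ _ _) _
      _ = _ := by ring
  have h2 := pow_le_pow_left' h1 (p + 1)
  rw [mul_pow, rt_pow, ← pow_succ, ← pow_succ, ← pow_mul, ← pow_mul, mul_comm p, pow_mul,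
    pow_mul] at h2
  have h3 := pow_add_pow_lt hp (pow_ne_zero (p + 1) a0) (pow_ne_zero (p + 1) b0)
    (ENNReal.pow_ne_top a1) (ENNReal.pow_ne_top b1)
  by_contra h4
  push Not at h4
  set y := a ^ (p + 1) + b ^ (p + 1) with hy
  have y0 : y ≠ 0 := by simp [hy, a0]
  have y1 : y ≠ ∞ := ENNReal.add_ne_top.2 ⟨ENNReal.pow_ne_top a1, ENNReal.pow_ne_top b1⟩
  have h5 := (h2.trans (mul_le_mul_right h4 _)).trans_lt (ENNReal.mul_lt_mul_left y0 y1 h3)
  rw [← pow_succ] at h5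
  exact lt_irrefl _ h5

/-- the two-bubble initial state -/
noncomputable def tb (p : ℕ) (v : ℝ → ℝ≥0∞) (R θ : ℝ) (s : ℝ) : ℝ≥0∞ :=
  rt p (ENNReal.ofReal θ * v (s + R) ^ (p + 1) + ENNReal.ofReal (1 - θ) * v (s + -R) ^ (p + 1))

variable {R θ : ℝ}

lemma measurable_tb (hv : Measurable v) : Measurable (tb p v R θ) := by
  have hm := (continuous_rt p).measurable
  unfold tb; fun_prop

lemma tb_le (h0 : 0 ≤ θ) (h1 : θ ≤ 1) {s : ℝ} {y : ℝ≥0∞} (ha : v (s + R) ≤ y)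
    (hb : v (s + -R) ≤ y) : tb p v R θ s ≤ y := by
  refine rt_le ?_
  calc _ ≤ ENNReal.ofReal θ * y ^ (p + 1) + ENNReal.ofReal (1 - θ) * y ^ (p + 1) := by gcongr
    _ = _ := by rw [← add_mul, ← ENNReal.ofReal_add h0 (by linarith)]; simp

lemma tb_pos (h0 : 0 < θ) (hv : ∀ s, 0 < v s) (s : ℝ) : 0 < tb p v R θ s := by
  refine pos_iff_ne_zero.2 fun h => ?_
  have := rt_pow p (ENNReal.ofReal θ * v (s + R) ^ (p + 1) +
    ENNReal.ofReal (1 - θ) * v (s + -R) ^ (p + 1))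
  unfold tb at h
  rw [h, zero_pow (by omega)] at this
  have h2 := (add_eq_zero.1 this.symm).1
  exact mul_ne_zero (ENNReal.ofReal_pos.2 h0).ne' (pow_ne_zero _ (hv _).ne') h2

lemma tb_set (hv : Measurable v) (A : Set ℝ) : ∫⁻ s in A, tb p v R θ s ^ (p + 1) =
    ENNReal.ofReal θ * (∫⁻ s in A, v (s + R) ^ (p + 1)) +
      ENNReal.ofReal (1 - θ) * ∫⁻ s in A, v (s + -R) ^ (p + 1) := by
  unfold tb
  simp_rw [rt_pow]
  rw [lintegral_add_left (by fun_prop), lintegral_const_mul _ (by fun_prop),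
    lintegral_const_mul _ (by fun_prop)]

lemma tb_left {C : ℝ≥0∞} (h0 : 0 ≤ θ) (h1 : θ ≤ 1) (hR : 0 ≤ R) (hd : Dom p C v) (s : ℝ) :
    tb p v R θ s ≤ C * ex (s + R) :=
  tb_le h0 h1 (hd _).1 ((hd _).1.trans (by gcongr; exact ex_mono (by linarith)))

lemma tb_right {C : ℝ≥0∞} (h0 : 0 ≤ θ) (h1 : θ ≤ 1) (hR : 0 ≤ R) (hd : Dom p C v) (s : ℝ) :
    tb p v R θ s ≤ C * ex (R - s) ^ p := by
  have : 0 ≤ (p:ℝ) * R := by positivity
  rw [ex_pow]
  exact tb_le h0 h1 ((hd _).2.trans (by gcongr; exact ex_mono (by nlinarith)))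
    ((hd _).2.trans (by gcongr; exact ex_mono (by nlinarith)))

lemma tb_dom {C : ℝ≥0∞} (hp : 1 ≤ p) (h0 : 0 ≤ θ) (h1 : θ ≤ 1) (hd : Dom p C v) :
    Dom p (C * ex (p * |R|)) (tb p v R θ) := fun s =>
  ⟨tb_le h0 h1 (hd.shift hp R s).1 (by simpa using (hd.shift hp (-R) s).1),
    tb_le h0 h1 (hd.shift hp R s).2 (by simpa using (hd.shift hp (-R) s).2)⟩

lemma Good.tb (h : Good p v) (hp : 2 ≤ p) (h0 : 0 ≤ θ) (h1 : θ ≤ 1) : Good p (tb p v R θ) := by
  refine ⟨measurable_tb h.meas, ?_, ?_⟩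
  · have := tb_set (p := p) (R := R) (θ := θ) h.meas univ
    simp only [Measure.restrict_univ] at this
    have e1 := (h.shift hp R).one
    have e2 := (h.shift hp (-R)).one
    unfold N at e1 e2 ⊢
    rw [this, e1, e2, mul_one, mul_one, ← ENNReal.ofReal_add h0 (by linarith)]; simp
  · obtain ⟨C, hC, hd⟩ := h.dom
    exact ⟨_, ENNReal.mul_ne_top hC (ex_ne_top _), tb_dom (by omega) h0 h1 hd⟩

lemma Good.F_tb (h : Good p v) (hp : 2 ≤ p) (h0 : 0 ≤ θ) (h1 : θ ≤ 1) (y : ℝ) :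
    F p (Z.tb p v R θ) y = θ * F p v (y + R) + (1 - θ) * F p v (y + -R) := by
  rw [← F_shift, ← F_shift]
  unfold F ms
  rw [tb_set h.meas, ENNReal.toReal_add
    (ENNReal.mul_ne_top ENNReal.ofReal_ne_top ((h.shift hp R).set_ne_top _))
    (ENNReal.mul_ne_top ENNReal.ofReal_ne_top ((h.shift hp (-R)).set_ne_top _)),
    ENNReal.toReal_mul, ENNReal.toReal_mul, ENNReal.toReal_ofReal h0,
    ENNReal.toReal_ofReal (by linarith)]

lemma Good.T_ne_top (h : Good p v) (hp : 2 ≤ p) (s : ℝ) : T p v s ≠ ∞ := by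
  obtain ⟨C, hC, hd⟩ := h.dom
  exact ne_top_of_le_ne_top (ENNReal.mul_ne_top (cD_ne_top hp) (ENNReal.pow_ne_top hC))
    ((hd.T hp h.meas).le s)

lemma Good.energy_tb (h : Good p v) (hp : 2 ≤ p) (hpos : ∀ s, 0 < v s)
    (hmax : N p (T p v) = sig p) (h0 : 0 < θ) (h1 : θ < 1) :
    (sig p).toReal * (1 / 2) ^ (p - 1) < (N p (T p (Z.tb p v R θ))).toReal := by
  have hm := h.meas
  have key : ∀ (x c : ℝ), 0 < x → Measurable (fun t => rt p (ENNReal.ofReal x) * v (t + c)) ∧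
      (∀ s, T p (fun t => rt p (ENNReal.ofReal x) * v (t + c)) s ≠ 0 ∧
        T p (fun t => rt p (ENNReal.ofReal x) * v (t + c)) s ≠ ∞) ∧
      N p (T p fun t => rt p (ENNReal.ofReal x) * v (t + c)) = ENNReal.ofReal x ^ p * sig p := by
    intro x c hx
    have g := h.shift hp c
    have r0 : rt p (ENNReal.ofReal x) ≠ 0 := fun h2 => by
      have := rt_pow p (ENNReal.ofReal x)
      rw [h2, zero_pow (by omega)] at this
      exact (ENNReal.ofReal_pos.2 hx).ne this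
    have r1 : rt p (ENNReal.ofReal x) ≠ ∞ :=
      ENNReal.rpow_ne_top_of_nonneg (by positivity) ENNReal.ofReal_ne_top
    have e := funext (T_smul (p := p) g.meas (rt p (ENNReal.ofReal x)))
    refine ⟨by fun_prop, fun s => ?_, ?_⟩
    · rw [T_smul g.meas]
      exact ⟨mul_ne_zero (pow_ne_zero _ r0) (T_pos g.meas (a := 0) (fun t _ => hpos _) s).ne',
        ENNReal.mul_ne_top (ENNReal.pow_ne_top r1) (g.T_ne_top hp s)⟩
    · rw [show (T p fun t => rt p (ENNReal.ofReal x) * v (t + c)) = _ from e,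
        N_smul (measurable_T g.meas), phi_shift, hmax, ← pow_mul, mul_comm p, pow_mul, rt_pow]
  obtain ⟨a1, a2, a3⟩ := key θ R h0
  obtain ⟨b1, b2, b3⟩ := key (1 - θ) (-R) (by linarith)
  have hs := (sig_lt_top hp).ne
  have h2 : ENNReal.ofReal θ ^ p * sig p + ENNReal.ofReal (1 - θ) ^ p * sig p <
      N p (T p (Z.tb p v R θ)) := by
    have h3 : ENNReal.ofReal θ ^ p * sig p + ENNReal.ofReal (1 - θ) ^ p * sig p ≠ ∞ :=
      ENNReal.add_ne_top.2 ⟨ENNReal.mul_ne_top (ENNReal.pow_ne_top ENNReal.ofReal_ne_top) hs,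
        ENNReal.mul_ne_top (ENNReal.pow_ne_top ENNReal.ofReal_ne_top) hs⟩
    rw [← a3, ← b3] at h3 ⊢
    unfold N at h3 ⊢
    rw [← lintegral_add_left ((measurable_T a1).pow_const _)] at h3 ⊢
    refine lintegral_strict_mono (NeZero.ne _)
      ((measurable_T (measurable_tb hm)).pow_const _).aemeasurable h3
      (Eventually.of_forall fun s => ?_)
    have := T_mix hp a1 b1 s (a2 s).1 (b2 s).1 (a2 s).2 (b2 s).2
    simp only [mul_pow, rt_pow] at this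
    exact this
  have h4 := (ENNReal.toReal_lt_toReal (h2.trans_le le_top).ne
    ((h.tb hp h0.le h1.le).phi_ne_top hp)).2 h2
  refine lt_of_le_of_lt ?_ h4
  rw [← add_mul, ENNReal.toReal_mul, mul_comm, ← ENNReal.ofReal_pow h0.le,
    ← ENNReal.ofReal_pow (by linarith), ← ENNReal.ofReal_add (by positivity)
      (pow_nonneg (by linarith) _), ENNReal.toReal_ofReal
      (add_nonneg (by positivity) (pow_nonneg (by linarith) _))]
  refine mul_le_mul_of_nonneg_right ?_ ENNReal.toReal_nonneg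
  have h5 := add_pow_le h0.le (show 0 ≤ 1 - θ by linarith) p
  rw [add_sub_cancel, one_pow] at h5
  rw [one_div, inv_pow, inv_le_iff_one_le_mul₀' (by positivity)]
  exact h5

lemma Good.cv_tb (h : Good p v) (hp : 2 ≤ p) (R : ℝ) {θ : ℝ → ℝ} (hθ : Continuous θ)
    (h0 : ∀ x, 0 ≤ θ x) (h1 : ∀ x, θ x ≤ 1) (x : ℝ) :
    Cv p (𝓝 x) (fun y => Z.tb p v R (θ y)) (Z.tb p v R (θ x)) := by
  obtain ⟨C, hC, hd⟩ := h.dom
  refine ⟨⟨_, ENNReal.mul_ne_top hC (ex_ne_top _), Eventually.of_forall fun y =>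
    ⟨measurable_tb h.meas, tb_dom (by omega) (h0 y) (h1 y) hd⟩⟩, fun t => ?_⟩
  have hv : ∀ s, v s ^ (p + 1) ≠ ∞ := fun s =>
    ENNReal.pow_ne_top (ne_top_of_le_ne_top hC (hd.le s))
  refine ((continuous_rt p).tendsto _).comp (Tendsto.add ?_ ?_)
  · exact ENNReal.Tendsto.mul_const ((ENNReal.continuous_ofReal.comp hθ).tendsto x) (Or.inr (hv _))
  · exact ENNReal.Tendsto.mul_const
      ((ENNReal.continuous_ofReal.comp (continuous_const.sub hθ)).tendsto x) (Or.inr (hv _))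

end Pool.Agent.Lib.MP_242fd5_gt.Z
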