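import Pool.Agent.Lib.MP_242fd5_gt.Z1Ker
import Pool.Agent.Lib.MP_242fd5_gt.Star

set_option autoImplicit false

namespace Pool.Agent.Lib.MP_242fd5_gt.Z

open MeasureTheory Set Real Filter Topology Metric
open scoped ENNReal

abbrev V (n : ℕ) := EuclideanSpace ℝ (Fin n)

/-- area of the unit sphere -/
noncomputable def cs (q : ℕ) : ℝ≥0∞ := (volume : Measure (V (q + 1))).toSphere univ

lemma cs_ne_top (q : ℕ) : cs q ≠ ∞ := measure_ne_top _ _

lemma cs_ne_zero (q : ℕ) : cs q ≠ 0 := by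
  unfold cs
  rw [Ne, Measure.measure_univ_eq_zero]
  exact Measure.toSphere_ne_zero _

lemma polar (q : ℕ) {f : ℝ → ℝ≥0∞} (hf : Measurable f) :
    ∫⁻ z : V (q + 1), f ‖z‖ = cs q * ∫⁻ r in Ioi (0:ℝ), ENNReal.ofReal (r ^ q) * f r := by
  have h1 : ∫⁻ z : V (q + 1), f ‖z‖ =
      ∫⁻ z : ({0}ᶜ : Set (V (q + 1))), f ‖z.1‖ ∂((volume : Measure (V (q + 1))).comap Subtype.val) := by
    rw [lintegral_subtype_comap (measurableSet_singleton _).compl fun x => f ‖x‖,
      restrict_compl_singleton]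
  have h2 := (volume : Measure (V (q + 1))).measurePreserving_homeomorphUnitSphereProd.lintegral_comp
    (f := fun x => f x.2.1) (by fun_prop)
  simp only [homeomorphUnitSphereProd_apply_snd_coe, finrank_euclideanSpace, Fintype.card_fin,
    Nat.add_sub_cancel] at h2
  rw [h1, h2, lintegral_prod _ (Measurable.aemeasurable (by fun_prop))]
  simp only [lintegral_const]
  rw [mul_comm, Measure.volumeIoiPow, lintegral_withDensity_eq_lintegral_mul _ (by fun_prop)
    (by fun_prop)]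
  congr 1
  exact lintegral_subtype_comap measurableSet_Ioi fun r => ENNReal.ofReal (r ^ q) * f r

lemma exists_iso (p : ℕ) (ξ : V (p + 2)) (hξ : ‖ξ‖ = 1) :
    ∃ e : V (p + 1) ≃ₗᵢ[ℝ] (ℝ ∙ ξ)ᗮ, ∀ y, (e y : V (p + 2)) 0 ^ 2 = (1 - ξ 0 ^ 2) * y 0 ^ 2 := by
  have hne : ξ ≠ 0 := by rintro rfl; simp at hξ
  have : Fact (Module.finrank ℝ (V (p + 2)) = (p + 1) + 1) := ⟨by simp⟩
  let φ := (OrthonormalBasis.fromOrthogonalSpanSingleton (𝕜 := ℝ) (p + 1) hne).repr
  have hξξ : inner ℝ ξ ξ = 1 := by rw [real_inner_self_eq_norm_sq, hξ]; norm_num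
  have hmem : EuclideanSpace.single 0 (1:ℝ) - ξ 0 • ξ ∈ (ℝ ∙ ξ)ᗮ := by
    rw [Submodule.mem_orthogonal_singleton_iff_inner_right, inner_sub_right, inner_smul_right, hξξ]
    simp [EuclideanSpace.inner_single_right]
  let η : (ℝ ∙ ξ)ᗮ := ⟨_, hmem⟩
  have h1 : ∀ x : (ℝ ∙ ξ)ᗮ, inner ℝ η x = (x : V (p + 2)) 0 := by
    intro x
    have h2 := Submodule.mem_orthogonal_singleton_iff_inner_right.1 x.2
    rw [Submodule.coe_inner]
    show inner ℝ (EuclideanSpace.single 0 (1:ℝ) - ξ 0 • ξ) (x : V (p + 2)) = _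
    rw [inner_sub_left, inner_smul_left, h2]
    simp [EuclideanSpace.inner_single_left]
  have h3 : ‖φ η‖ ^ 2 = 1 - ξ 0 ^ 2 := by
    rw [φ.norm_map, ← real_inner_self_eq_norm_sq, h1]
    simp [η, sq]
  let U : V (p + 1) ≃ₗᵢ[ℝ] V (p + 1) :=
    Submodule.reflection (ℝ ∙ (EuclideanSpace.single 0 ‖φ η‖ - φ η))ᗮ
  have hU : U (EuclideanSpace.single 0 ‖φ η‖) = φ η := Submodule.reflection_sub (by simp)
  refine ⟨U.trans φ.symm, fun y => ?_⟩
  have h4 : inner ℝ η (φ.symm (U y)) = ‖φ η‖ * y 0 := by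
    rw [← φ.inner_map_map, φ.apply_symm_apply]
    conv_lhs => rw [← hU]
    rw [U.inner_map_map]
    simp [EuclideanSpace.inner_single_left, mul_comm]
  rw [← h1, LinearIsometryEquiv.trans_apply, h4, mul_pow, h3]

lemma mp_split (q : ℕ) : MeasurePreserving
    (fun y : V (q + 1) => ((y 0, WithLp.toLp 2 fun i => y i.succ) : ℝ × V q)) := by
  have h0 := PiLp.volume_preserving_ofLp (Fin (q + 1))
  have h1 := volume_preserving_piFinSuccAbove (fun _ : Fin (q + 1) => ℝ) 0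
  have h2 := PiLp.volume_preserving_toLp (Fin q)
  exact (((MeasurePreserving.id (volume : Measure ℝ)).prod h2).comp h1).comp h0

lemma norm_split (q : ℕ) (y : V (q + 1)) :
    ‖y‖ ^ 2 = y 0 ^ 2 + ‖(WithLp.toLp 2 fun i => y i.succ : V q)‖ ^ 2 := by
  rw [EuclideanSpace.real_norm_sq_eq, EuclideanSpace.real_norm_sq_eq, Fin.sum_univ_succ]

lemma lint_scale {r : ℝ} (hr : 0 < r) {f : ℝ → ℝ≥0∞} (hf : Measurable f) :
    ∫⁻ y, f y = ENNReal.ofReal r * ∫⁻ σ, f (r * σ) := by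
  rw [← lintegral_map hf (measurable_const_mul r), Real.map_volume_mul_left hr.ne',
    lintegral_smul_measure, smul_eq_mul, ← mul_assoc, ← ENNReal.ofReal_mul hr.le,
    abs_of_pos (inv_pos.2 hr), mul_inv_cancel₀ hr.ne']
  simp

lemma lint_even {f : ℝ → ℝ≥0∞} (hf : ∀ x, f (-x) = f x) :
    ∫⁻ x, f x = 2 * ∫⁻ x in Ioi (0:ℝ), f x := by
  rw [← lintegral_add_compl f (measurableSet_Ioi (a := (0:ℝ))), two_mul, compl_Ioi]
  congr 1
  rw [← setLIntegral_congr Iio_ae_eq_Iic, ← lintegral_indicator measurableSet_Iio,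
    ← lintegral_indicator measurableSet_Ioi, ← lintegral_neg_eq_self]
  refine lintegral_congr fun x => ?_
  by_cases hx : 0 < x
  · rw [indicator_of_mem (show -x ∈ Iio 0 by simpa using hx), indicator_of_mem (show x ∈ Ioi 0 from hx), hf]
  · rw [indicator_of_notMem (show -x ∉ Iio 0 by simpa using hx),
      indicator_of_notMem (show x ∉ Ioi 0 from hx)]

lemma lint_pow (m : ℕ) {H : ℝ} (hH : 0 ≤ H) :
    ∫⁻ r in Ioi (0:ℝ), (Iic H).indicator (fun r => ENNReal.ofReal (r ^ m)) r =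
      ENNReal.ofReal (H ^ (m + 1) / (m + 1)) := by
  rw [lintegral_indicator measurableSet_Iic, Measure.restrict_restrict measurableSet_Iic,
    Iic_inter_Ioi, ← ofReal_integral_eq_lintegral_ofReal (intervalIntegral.intervalIntegrable_pow _).1,
    ← intervalIntegral.integral_of_le hH]
  · simp
  · filter_upwards [ae_restrict_mem measurableSet_Ioc] with y hy
    exact pow_nonneg hy.1.le _

/-- the body of revolution with profile `g` -/
def body (n : ℕ) (g : ℝ → ℝ) : Set (V (n + 1)) := starSet fun ξ => g (ξ 0 ^ 2)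

lemma body_eq (n : ℕ) {g : ℝ → ℝ} (hp : ∀ x, 0 < g x) :
    body n g = {y | ‖y‖ ≤ g (y 0 ^ 2 / ‖y‖ ^ 2)} := by
  ext y
  by_cases hy : y = 0
  · subst hy
    simp only [mem_ofPred_eq, norm_zero, (hp _).le, iff_true]
    exact ⟨EuclideanSpace.single 0 1, by simp, 0, le_rfl, (hp _).le, by simp⟩
  · have hn : 0 < ‖y‖ := norm_pos_iff.2 hy
    have hu : ‖y‖⁻¹ • y ∈ sphere (0 : V (n + 1)) 1 := by simp [norm_smul, hn.ne']
    have h2 : y = ‖y‖ • (‖y‖⁻¹ • y) := by rw [smul_smul, mul_inv_cancel₀ hn.ne', one_smul]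
    conv_lhs => rw [h2]
    rw [body, smul_mem_starSet (fun _ _ => hp _) hu hn.le, mem_ofPred_eq]
    simp only [PiLp.smul_apply, smul_eq_mul]
    rw [mul_pow, inv_pow, div_eq_inv_mul]

theorem section_body (q : ℕ) {g : ℝ → ℝ} (hc : Continuous g) (hp : ∀ x, 0 < g x)
    (ξ : V (q + 3)) (hξ : ‖ξ‖ = 1) :
    volume {x : (ℝ ∙ ξ)ᗮ | (x : V (q + 3)) ∈ body (q + 2) g} =
      cs q * ENNReal.ofReal (2 / (q + 2)) * ∫⁻ σ in Ioi (0:ℝ), ENNReal.ofReal
        ((g ((1 - ξ 0 ^ 2) * σ ^ 2 / (1 + σ ^ 2)) / √(1 + σ ^ 2)) ^ (q + 2)) := by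
  obtain ⟨e, he⟩ := exists_iso (q + 1) ξ hξ
  set A := 1 - ξ 0 ^ 2 with hA
  have hm := hc.measurable
  let D : Set (ℝ × ℝ) := {w | √(w.1 ^ 2 + w.2 ^ 2) ≤ g (A * w.1 ^ 2 / (w.1 ^ 2 + w.2 ^ 2))}
  have hD : MeasurableSet D := measurableSet_le (by fun_prop) (by fun_prop)
  let S : Set (ℝ × V (q + 1)) := {w | (w.1, ‖w.2‖) ∈ D}
  have hS : MeasurableSet S := hD.preimage (by fun_prop)
  have hL : MeasurableSet {x : (ℝ ∙ ξ)ᗮ | (x : V (q + 3)) ∈ body (q + 2) g} := by
    refine MeasurableSet.preimage (t := body (q + 2) g) ?_ continuous_subtype_val.measurable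
    rw [body_eq _ hp]
    exact measurableSet_le (by fun_prop) (by fun_prop)
  have h1 : e ⁻¹' {x : (ℝ ∙ ξ)ᗮ | (x : V (q + 3)) ∈ body (q + 2) g} =
      (fun y : V (q + 2) => ((y 0, WithLp.toLp 2 fun i => y i.succ) : ℝ × V (q + 1))) ⁻¹' S := by
    ext y
    have hy : ‖(e y : V (q + 3))‖ = ‖y‖ := e.norm_map y
    rw [body_eq _ hp]
    simp only [mem_preimage, mem_ofPred_eq, S, D, ← norm_split, he, Real.sqrt_sq (norm_nonneg y),
      hy]
  have hDi : Measurable (D.indicator (1 : ℝ × ℝ → ℝ≥0∞)) := measurable_one.indicator hD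
  rw [← e.measurePreserving.measure_preimage hL.nullMeasurableSet, h1,
    (mp_split (q + 1)).measure_preimage hS.nullMeasurableSet, ← lintegral_indicator_one hS,
    Measure.volume_eq_prod, lintegral_prod_symm _ (measurable_one.indicator hS).aemeasurable]
  have h2 : ∀ (y : ℝ) (z : V (q + 1)), S.indicator (1 : ℝ × V (q + 1) → ℝ≥0∞) (y, z) =
      D.indicator 1 (y, ‖z‖) := fun y z => rfl
  simp_rw [h2]
  set H : ℝ → ℝ := fun σ => g (A * σ ^ 2 / (1 + σ ^ 2)) / √(1 + σ ^ 2) with hH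
  have hHm : Measurable H := by rw [hH]; fun_prop
  have hH0 : ∀ σ, 0 ≤ H σ := fun σ => div_nonneg (hp _).le (Real.sqrt_nonneg _)
  rw [polar q (f := fun r => ∫⁻ y, D.indicator 1 (y, r))
    (Measurable.lintegral_prod_left (f := fun y r => D.indicator 1 (y, r)) hDi), mul_assoc]
  congr 1
  have h3 : ∀ r ∈ Ioi (0:ℝ), ENNReal.ofReal (r ^ q) * ∫⁻ y, D.indicator 1 (y, r) =
      ∫⁻ σ, (Iic (H σ)).indicator (fun r => ENNReal.ofReal (r ^ (q + 1))) r := by
    intro r hr
    have hr' : 0 < r := hr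
    rw [lint_scale hr' (by fun_prop), ← mul_assoc, ← ENNReal.ofReal_mul (by positivity),
      ← pow_succ, ← lintegral_const_mul _ (by fun_prop)]
    refine lintegral_congr fun σ => ?_
    have hs : 0 < √(1 + σ ^ 2) := Real.sqrt_pos.2 (by positivity)
    have h4 : (r * σ, r) ∈ D ↔ r ∈ Iic (H σ) := by
      simp only [D, mem_ofPred_eq, mem_Iic, hH]
      rw [le_div_iff₀ hs, show (r * σ) ^ 2 + r ^ 2 = r ^ 2 * (1 + σ ^ 2) by ring,
        Real.sqrt_mul (sq_nonneg r), Real.sqrt_sq hr'.le,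
        show A * (r * σ) ^ 2 / (r ^ 2 * (1 + σ ^ 2)) = A * σ ^ 2 / (1 + σ ^ 2) by field_simp]
    by_cases h5 : r ∈ Iic (H σ)
    · rw [indicator_of_mem h5, indicator_of_mem (h4.2 h5)]; simp
    · rw [indicator_of_notMem h5, indicator_of_notMem (mt h4.1 h5)]; simp
  rw [setLIntegral_congr_fun measurableSet_Ioi h3, lintegral_lintegral_swap (by
    apply Measurable.aemeasurable
    exact Measurable.indicator (s := {w : ℝ × ℝ | w.1 ≤ H w.2})
      (f := fun w : ℝ × ℝ => ENNReal.ofReal (w.1 ^ (q + 1))) (by fun_prop)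
      (measurableSet_le (by fun_prop) (by fun_prop)))]
  simp_rw [fun σ => lint_pow (q + 1) (hH0 σ)]
  rw [lint_even (fun σ => by simp [hH]), ← lintegral_const_mul _ (by fun_prop),
    ← lintegral_const_mul _ (by fun_prop)]
  refine lintegral_congr fun σ => ?_
  rw [← ENNReal.ofReal_mul (by positivity), ← ENNReal.ofReal_ofNat 2,
    ← ENNReal.ofReal_mul (by positivity)]
  congr 1
  push_cast
  ring

theorem subst (p : ℕ) {a b : ℝ} (ha : 0 < a) (hb : 0 ≤ b) {Φ f : ℝ → ℝ≥0∞}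
    (hf : Measurable f) (h : ∀ t y, 0 < y → y ^ 2 = a ^ 2 - (b * exp ((p + 1) * t)) ^ 2 →
      Φ (exp ((p + 1) * t) / y) = ENNReal.ofReal ((y / a) ^ p) * f t) :
    ∫⁻ σ in Ioi (0:ℝ), Φ σ = ENNReal.ofReal ((p + 1) / a) *
      ∫⁻ t, ex ((p + 1) * t) * kb p (b / a) t * f t := by
  set n : ℝ := p + 1 with hn
  have hn0 : 0 < n := by positivity
  let D : Set ℝ := {t | b / a * exp (n * t) < 1}
  have hD : MeasurableSet D := measurableSet_lt (by fun_prop) measurable_const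
  have hpos : ∀ t ∈ D, 0 < a ^ 2 - (b * exp (n * t)) ^ 2 := by
    intro t ht
    have h1 : b / a * exp (n * t) < 1 := ht
    rw [div_mul_eq_mul_div, div_lt_one ha] at h1
    have : 0 ≤ b * exp (n * t) := by positivity
    nlinarith
  let σ : ℝ → ℝ := fun t => exp (n * t) / √(a ^ 2 - (b * exp (n * t)) ^ 2)
  have himg : σ '' D = Ioi 0 := by
    ext x
    constructor
    · rintro ⟨t, ht, rfl⟩
      exact div_pos (exp_pos _) (Real.sqrt_pos.2 (hpos t ht))
    · intro hx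
      have hx' : 0 < x := hx
      have hz : 0 < √(1 + (b * x) ^ 2) := Real.sqrt_pos.2 (by positivity)
      have hz2 : √(1 + (b * x) ^ 2) ^ 2 = 1 + (b * x) ^ 2 := Real.sq_sqrt (by positivity)
      set z := √(1 + (b * x) ^ 2)
      have he : exp (n * (Real.log (a * x / z) / n)) = a * x / z := by
        rw [mul_div_cancel₀ _ hn0.ne', Real.exp_log (by positivity)]
      refine ⟨Real.log (a * x / z) / n, ?_, ?_⟩
      · show b / a * exp _ < 1
        rw [he, show b / a * (a * x / z) = b * x / z by field_simp, div_lt_one hz]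
        exact lt_of_pow_lt_pow_left₀ 2 hz.le (by linarith)
      · show exp _ / √(a ^ 2 - (b * exp _) ^ 2) = x
        rw [he, show a ^ 2 - (b * (a * x / z)) ^ 2 = (a / z) ^ 2 by
          field_simp; linarith, Real.sqrt_sq (by positivity)]
        field_simp
  have hder : ∀ t ∈ D, HasDerivWithinAt σ
      (n * exp (n * t) * a ^ 2 / √(a ^ 2 - (b * exp (n * t)) ^ 2) ^ 3) D t := by
    intro t ht
    have h0 := hpos t ht
    have h1 : HasDerivAt (fun t => exp (n * t)) (exp (n * t) * n) t := by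
      simpa using ((hasDerivAt_id t).const_mul n).exp
    have h2 := (((h1.const_mul b).fun_pow 2).const_sub (a ^ 2)).sqrt h0.ne'
    have hy : 0 < √(a ^ 2 - (b * exp (n * t)) ^ 2) := Real.sqrt_pos.2 h0
    have hy2 := Real.sq_sqrt h0.le
    have h3 := h1.fun_div h2 hy.ne'
    refine (h3.congr_deriv ?_).hasDerivWithinAt
    set y := √(a ^ 2 - (b * exp (n * t)) ^ 2)
    have h4 : a ^ 2 = y ^ 2 + (b * exp (n * t)) ^ 2 := by linarith
    rw [h4]
    field_simp
    ring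
  have hinj : InjOn σ D := by
    intro s hs t ht hst
    have h1 := congrArg (· ^ 2) hst
    simp only [σ, div_pow, Real.sq_sqrt (hpos s hs).le, Real.sq_sqrt (hpos t ht).le] at h1
    rw [div_eq_div_iff (hpos s hs).ne' (hpos t ht).ne'] at h1
    have h2 : a ^ 2 * exp (n * s) ^ 2 = a ^ 2 * exp (n * t) ^ 2 := by linarith
    have h3 := (pow_left_inj₀ (exp_pos _).le (exp_pos _).le two_ne_zero).1
      (mul_left_cancel₀ (by positivity) h2)
    exact mul_left_cancel₀ hn0.ne' (Real.exp_injective h3)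
  have hk := measurable_kb p (b / a)
  rw [← himg, lintegral_image_eq_lintegral_abs_deriv_mul hD hder hinj,
    ← lintegral_const_mul _ (by fun_prop), ← lintegral_indicator hD]
  refine lintegral_congr fun t => ?_
  by_cases ht : t ∈ D
  · have h0 := hpos t ht
    have hy : 0 < √(a ^ 2 - (b * exp (n * t)) ^ 2) := Real.sqrt_pos.2 h0
    have hy2 := Real.sq_sqrt h0.le
    rw [indicator_of_mem ht]
    simp only [σ]
    rw [h t _ hy hy2, kb, if_pos (show b / a * exp (n * t) < 1 from ht), ← hn]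
    set y := √(a ^ 2 - (b * exp (n * t)) ^ 2)
    have h4 : 1 - (b / a * exp (n * t)) ^ 2 = (y / a) ^ 2 := by
      rw [div_pow y, hy2]; field_simp
    have h5 : ((y / a) ^ 2) ^ (((p:ℝ) - 3) / 2) = (y / a) ^ p / (y / a) ^ 3 := by
      rw [← Real.rpow_natCast, ← Real.rpow_mul (by positivity), ← Real.rpow_natCast,
        ← Real.rpow_natCast, ← Real.rpow_sub (by positivity)]
      congr 1; push_cast; ring
    rw [h4, h5, abs_of_pos (by positivity), ex, ← mul_assoc, ← mul_assoc, ← mul_assoc,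
      ← ENNReal.ofReal_mul (by positivity), ← ENNReal.ofReal_mul (by positivity),
      ← ENNReal.ofReal_mul (by positivity)]
    congr 2
    field_simp
  · rw [indicator_of_notMem ht, kb, if_neg (show ¬ b / a * exp (n * t) < 1 from ht)]
    simp

end Pool.Agent.Lib.MP_242fd5_gt.Z
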