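import Pool.Agent.Lib.MP_242fd5_gt.Z5Lim
import Pool.Agent.Lib.MP_242fd5_gt.Z9Geo

set_option autoImplicit false

namespace Pool.Agent.Lib.MP_242fd5_gt.Z

open MeasureTheory Set Real Filter Topology Metric
open scoped ENNReal

variable {p : ℕ} {u w : ℝ → ℝ≥0∞}

noncomputable def al (p : ℕ) (u : ℝ → ℝ≥0∞) : ℝ≥0∞ := ∫⁻ t, ex t * u t ^ p

lemma ex_neg_mul (s : ℝ) : ex (-s) * ex s = 1 := by rw [← ex_add, neg_add_cancel, ex_zero]

lemma T_eq (u : ℝ → ℝ≥0∞) (hu : Measurable u) (s : ℝ) :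
    ex (-s) * T p u s = ∫⁻ t, kb p 1 (s + t) * (ex t * u t ^ p) := by
  unfold T Tk
  rw [← lintegral_const_mul _ (by fun_prop)]
  refine lintegral_congr fun t => ?_
  rw [K, ex_add]
  calc _ = (ex (-s) * ex s) * (kb p 1 (s + t) * (ex t * u t ^ p)) := by ring
    _ = _ := by rw [ex_neg_mul, one_mul]

lemma T_cont (hp : 2 ≤ p) (hu : Measurable u) {C : ℝ≥0∞} (hC : C ≠ ∞) (hd : Dom p C u) :
    Continuous (T p u) := by
  refine continuous_iff_continuousAt.2 fun t => ?_
  have h0 := ENNReal.Tendsto.const_mul (a := C ^ p) (tendsto_K_shift p hp)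
    (Or.inr (ENNReal.pow_ne_top hC))
  rw [mul_zero] at h0
  have h1 : Tendsto (fun s : ℝ => s - t) (𝓝 t) (𝓝 0) := by
    simpa using (tendsto_id (x := 𝓝 t)).sub_const t
  have h2 : Tendsto (fun s : ℝ => t - s) (𝓝 t) (𝓝 0) := by
    simpa using (tendsto_id (x := 𝓝 t)).const_sub t
  have h3 := (h0.comp h1).const_add (T p u t)
  have h4 := ENNReal.Tendsto.sub (tendsto_const_nhds (x := T p u t)) (h0.comp h2)
    (Or.inr ENNReal.zero_ne_top)
  rw [add_zero] at h3
  rw [tsub_zero] at h4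
  exact tendsto_of_tendsto_of_tendsto_of_le_of_le h4 h3
    (fun s => tsub_le_iff_right.2 (T_modulus hu hd.le t s)) (fun s => T_modulus hu hd.le s t)

lemma Dom.g_le (hp : 2 ≤ p) {C : ℝ≥0∞} (hd : Dom p C u) (t : ℝ) :
    ex t * u t ^ p ≤ C ^ p * ex t ∧ (0 ≤ t → ex t * u t ^ p ≤ C ^ p * ex (-t)) := by
  constructor
  · rw [mul_comm]; gcongr; exact hd.le t
  · intro ht
    have h1 : (2:ℝ) ≤ p := by exact_mod_cast hp
    calc ex t * u t ^ p ≤ ex t * (C * ex (-(p * t))) ^ p := by gcongr; exact (hd t).2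
      _ = C ^ p * (ex t * ex (-(p * t)) ^ p) := by ring
      _ ≤ _ := by
        rw [ex_pow, ← ex_add]; gcongr
        exact ex_mono (by nlinarith [mul_nonneg ht (show (0:ℝ) ≤ p * p - 2 by nlinarith)])

lemma al_ne_top (hp : 2 ≤ p) {C : ℝ≥0∞} (hC : C ≠ ∞) (hd : Dom p C u) : al p u ≠ ∞ := by
  have h1 : ∀ t, ex t * u t ^ p ≤ (Iic (0:ℝ)).indicator (fun t => C ^ p * ex t) t +
      (Ioi (0:ℝ)).indicator (fun t => C ^ p * ex (-t)) t := by
    intro t
    rcases le_or_gt t 0 with h | h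
    · rw [indicator_of_mem (show t ∈ Iic 0 from h)]
      exact le_add_right (hd.g_le hp t).1
    · rw [indicator_of_mem (show t ∈ Ioi 0 from h)]
      exact le_add_left ((hd.g_le hp t).2 h.le)
  refine ne_top_of_le_ne_top ?_ (lintegral_mono h1)
  rw [lintegral_add_left (Measurable.indicator (by fun_prop) measurableSet_Iic),
    lintegral_indicator measurableSet_Iic, lintegral_indicator measurableSet_Ioi,
    lintegral_const_mul _ (by fun_prop), lintegral_const_mul _ (by fun_prop),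
    lint_ex_Iic', lint_ex_Ioi']
  exact ENNReal.add_ne_top.2 ⟨ENNReal.mul_ne_top (ENNReal.pow_ne_top hC) (ex_ne_top _),
    ENNReal.mul_ne_top (ENNReal.pow_ne_top hC) (ex_ne_top _)⟩

lemma al_ne_zero (hu : Measurable u) (hpos : ∀ s, u s ≠ 0) : al p u ≠ 0 := by
  refine ne_of_gt ?_
  unfold al
  rw [lintegral_pos_iff_support (by fun_prop), eq_univ_of_forall
    (s := Function.support fun t => ex t * u t ^ p)
    fun t => mul_ne_zero (ex_pos t).ne' (pow_ne_zero _ (hpos t))]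
  simp

lemma cB_ne_zero (p : ℕ) : cB p ≠ 0 := by
  refine ne_of_gt ?_
  unfold cB
  rw [lintegral_pos_iff_support (by fun_prop)]
  refine lt_of_lt_of_le ?_ (measure_mono (show Iio 0 ⊆ _ from fun t ht =>
    mul_ne_zero (K_pos p ht).ne' (ex_pos _).ne'))
  simp

lemma tendsto_ex_atBot : Tendsto ex atBot (𝓝 0) := by
  have := (ENNReal.continuous_ofReal.tendsto 0).comp tendsto_exp_atBot
  rw [ENNReal.ofReal_zero] at this
  exact this

lemma lim_bot (hp : 2 ≤ p) (hu : Measurable u) {C : ℝ≥0∞} (hC : C ≠ ∞) (hd : Dom p C u) :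
    Tendsto (fun s => ex (-s) * T p u s) atBot (𝓝 (al p u)) := by
  have hk := measurable_kb p 1
  have hfin : ∀ t, ex t * u t ^ p ≠ ∞ := fun t => ne_top_of_le_ne_top
    (ENNReal.mul_ne_top (ENNReal.pow_ne_top hC) (ex_ne_top _)) (hd.g_le hp t).1
  have h1 : Tendsto (fun s => ∫⁻ t, min (kb p 1 (s + t)) 2 * (ex t * u t ^ p)) atBot
      (𝓝 (al p u)) := by
    refine tendsto_lintegral_filter_of_dominated_convergence (fun t => 2 * (ex t * u t ^ p))
      (Eventually.of_forall fun s => by fun_prop)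
      (Eventually.of_forall fun s => Eventually.of_forall fun t => by
        gcongr; exact min_le_right _ _) ?_ (Eventually.of_forall fun t => ?_)
    · rw [lintegral_const_mul _ (by fun_prop)]
      exact ENNReal.mul_ne_top (by simp) (al_ne_top hp hC hd)
    · have h2 := ((tendsto_kb_atBot p).comp (tendsto_atBot_add_const_right _ t tendsto_id)).min
        (tendsto_const_nhds (x := 2))
      rw [min_eq_left one_le_two] at h2
      simpa using ENNReal.Tendsto.mul_const h2 (Or.inr (hfin t))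
  have h2 : Tendsto (fun s => (∫⁻ w, k1 p w) * C ^ p * ex (s + 1)) atBot (𝓝 0) := by
    simpa using ENNReal.Tendsto.const_mul (a := (∫⁻ w, k1 p w) * C ^ p)
      (tendsto_ex_atBot.comp (tendsto_atBot_add_const_right _ 1 tendsto_id))
      (Or.inr (ENNReal.mul_ne_top (lint_k1 p).ne (ENNReal.pow_ne_top hC)))
  have h3 := h1.add h2
  rw [add_zero] at h3
  refine tendsto_of_tendsto_of_tendsto_of_le_of_le' h1 h3 (Eventually.of_forall fun s => ?_) ?_
  · rw [T_eq u hu]
    exact lintegral_mono fun t => by gcongr; exact min_le_left _ _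
  · filter_upwards [eventually_le_atBot (-1)] with s hs
    rw [T_eq u hu, mul_assoc, ← lintegral_add_left_eq_self (k1 p) s,
      ← lintegral_mul_const _ (by fun_prop), ← lintegral_add_left (by fun_prop)]
    refine lintegral_mono fun t => ?_
    have h4 : kb p 1 (s + t) ≤ min (kb p 1 (s + t)) 2 + k1 p (s + t) := by
      rcases le_total (kb p 1 (s + t)) 2 with h | h
      · rw [min_eq_left h]; exact le_self_add
      · rw [min_eq_right h]; exact kb_le p hp _
    refine (mul_le_mul_left h4 _).trans ?_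
    rw [add_mul]
    gcongr ?_ + ?_
    · exact le_rfl
    · by_cases h5 : s + t ∈ Ioo (-1 : ℝ) 0
      · exact mul_le_mul_right (((hd.g_le hp t).2 (by linarith [h5.1])).trans
          (mul_le_mul_right (ex_mono (by linarith [h5.1])) _)) _
      · rw [k1, indicator_of_notMem h5, zero_mul, zero_mul]

lemma lim_top (hp : 2 ≤ p) (hu : Measurable u) {C α : ℝ≥0∞} (hC : C ≠ ∞) (hd : Dom p C u)
    (h : Tendsto (fun s => ex (-s) * u s) atBot (𝓝 α)) :
    Tendsto (fun s => ex (p * s) * T p u s) atTop (𝓝 (cB p * α ^ p)) := by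
  have h1 : ∀ s, ex (p * s) * T p u s =
      ∫⁻ x, K p x * ex (p * x) * (ex (-(x - s)) * u (x - s)) ^ p := by
    intro s
    rw [T_alt, ← lintegral_const_mul _ (by fun_prop)]
    refine lintegral_congr fun x => ?_
    rw [mul_pow, ex_pow, show (p:ℝ) * s = p * x + p * -(x - s) by ring, ex_add]
    ring
  simp_rw [h1]
  rw [cB, ← lintegral_mul_const _ (by fun_prop)]
  refine tendsto_lintegral_filter_of_dominated_convergence (fun x => K p x * ex (p * x) * C ^ p)
    (Eventually.of_forall fun s => by fun_prop)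
    (Eventually.of_forall fun s => Eventually.of_forall fun x => ?_) ?_
    (Eventually.of_forall fun x => ?_)
  · gcongr
    calc ex (-(x - s)) * u (x - s) ≤ ex (-(x - s)) * (C * ex (x - s)) := by gcongr; exact (hd _).1
      _ = C * (ex (-(x - s)) * ex (x - s)) := by ring
      _ = C := by rw [ex_neg_mul, mul_one]
  · rw [lintegral_mul_const _ (by fun_prop)]
    exact ENNReal.mul_ne_top (cB_ne_top hp) (ENNReal.pow_ne_top hC)
  · exact ENNReal.Tendsto.const_mul (ENNReal.Tendsto.pow (h.comp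
      (tendsto_atBot_add_const_left _ x tendsto_neg_atTop_atBot)))
      (Or.inr (ENNReal.mul_ne_top (K_ne_top _ _) (ex_ne_top _)))

noncomputable def tau (p : ℕ) (x : ℝ) : ℝ := (Real.log x - Real.log (1 - x)) / (2 * (p + 1))

noncomputable def rad (p : ℕ) (w : ℝ → ℝ≥0∞) (x : ℝ) : ℝ :=
  (ex (-tau p x) * w (tau p x)).toReal / √(1 - x)

noncomputable def prof (p : ℕ) (w : ℝ → ℝ≥0∞) (x : ℝ) : ℝ :=
  extendFrom (Ioo 0 1) (rad p w) (max 0 (min 1 x))

lemma exp_tau (p : ℕ) {x : ℝ} (h0 : 0 < x) (h1 : x < 1) :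
    exp ((p + 1) * tau p x) = √x / √(1 - x) := by
  have h2 : 0 < 1 - x := by linarith
  rw [tau, show ((p:ℝ) + 1) * ((Real.log x - Real.log (1 - x)) / (2 * (p + 1))) =
    Real.log x / 2 - Real.log (1 - x) / 2 by field_simp, exp_sub, exp_half, exp_half,
    Real.exp_log h0, Real.exp_log h2]

lemma tau_eq (p : ℕ) (t : ℝ) :
    tau p (exp ((p + 1) * t) ^ 2 / (1 + exp ((p + 1) * t) ^ 2)) = t := by
  have h := exp_pos ((p + 1) * t)
  rw [tau, show 1 - exp ((p + 1) * t) ^ 2 / (1 + exp ((p + 1) * t) ^ 2) =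
    1 / (1 + exp ((p + 1) * t) ^ 2) by field_simp; ring, Real.log_div (by positivity) (by positivity),
    Real.log_div (by positivity) (by positivity), Real.log_pow, Real.log_exp, Real.log_one]
  field_simp
  ring

structure Reg (p : ℕ) (w : ℝ → ℝ≥0∞) (α β : ℝ≥0∞) : Prop where
  cont : Continuous w
  pos : ∀ s, w s ≠ 0
  fin : ∀ s, w s ≠ ∞
  a0 : α ≠ 0
  a1 : α ≠ ∞
  b0 : β ≠ 0
  b1 : β ≠ ∞
  bot : Tendsto (fun s => ex (-s) * w s) atBot (𝓝 α)
  top : Tendsto (fun s => ex (p * s) * w s) atTop (𝓝 β)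

lemma Reg.prof {α β : ℝ≥0∞} (h : Reg p w α β) : Continuous (prof p w) ∧ (∀ x, 0 < prof p w x) ∧
    prof p w 0 = α.toReal ∧ prof p w 1 = β.toReal ∧ ∀ x ∈ Ioo (0:ℝ) 1, prof p w x = rad p w x := by
  have hn : (0:ℝ) < 2 * (p + 1) := by positivity
  have hc : ContinuousOn (rad p w) (Ioo 0 1) := by
    intro x hx
    have h1 : ContinuousAt (tau p) x := by
      unfold tau
      have := hx.1.ne'
      have : 1 - x ≠ 0 := by linarith [hx.2]
      fun_prop (disch := assumption)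
    have h2 : ContinuousAt (fun x => ex (-tau p x) * w (tau p x)) x :=
      ENNReal.Tendsto.mul (continuous_ex.continuousAt.comp h1.neg) (Or.inr (h.fin _))
        (h.cont.continuousAt.comp h1) (Or.inr (ex_ne_top _))
    exact (((ENNReal.tendsto_toReal (ENNReal.mul_ne_top (ex_ne_top _) (h.fin _))).comp h2).div
      (by fun_prop : ContinuousAt (fun x : ℝ => √(1 - x)) x)
      (Real.sqrt_pos.2 (by linarith [hx.2])).ne').mono_left nhdsWithin_le_nhds
  have h0 : Tendsto (rad p w) (𝓝[>] 0) (𝓝 α.toReal) := by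
    have h1 : Tendsto (fun x : ℝ => -Real.log (1 - x)) (𝓝[>] 0) (𝓝 (-Real.log (1 - 0))) :=
      (ContinuousAt.tendsto (by fun_prop (disch := norm_num))).mono_left nhdsWithin_le_nhds
    have h2 : Tendsto (tau p) (𝓝[>] 0) atBot :=
      (Real.tendsto_log_nhdsGT_zero.atBot_add h1).atBot_div_const hn
    have h3 : Tendsto (fun x : ℝ => √(1 - x)) (𝓝[>] 0) (𝓝 (√(1 - 0))) :=
      (Continuous.tendsto (by fun_prop) 0).mono_left nhdsWithin_le_nhds
    have h4 := ((ENNReal.tendsto_toReal h.a1).comp (h.bot.comp h2)).div h3 (by simp)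
    rw [sub_zero, Real.sqrt_one, div_one] at h4
    exact h4
  have h1 : Tendsto (rad p w) (𝓝[<] 1) (𝓝 β.toReal) := by
    have h1 : Tendsto Real.log (𝓝[<] 1) (𝓝 (Real.log 1)) :=
      (Real.continuousAt_log one_ne_zero).tendsto.mono_left nhdsWithin_le_nhds
    have h4 : Tendsto (fun x : ℝ => 1 - x) (𝓝[<] 1) (𝓝[>] 0) :=
      tendsto_nhdsWithin_iff.2 ⟨by
        simpa using ((tendsto_id (x := 𝓝 (1:ℝ))).const_sub 1).mono_left nhdsWithin_le_nhds,
        eventually_nhdsWithin_of_forall fun x hx => show 0 < 1 - x from sub_pos.2 hx⟩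
    have h2 : Tendsto (tau p) (𝓝[<] 1) atTop :=
      (h1.add_atTop (tendsto_neg_atBot_atTop.comp
        (Real.tendsto_log_nhdsGT_zero.comp h4))).atTop_div_const hn
    have h3 : Tendsto (fun x : ℝ => √x) (𝓝[<] 1) (𝓝 (√1)) :=
      (Continuous.tendsto (by fun_prop) 1).mono_left nhdsWithin_le_nhds
    have h5 := ((ENNReal.tendsto_toReal h.b1).comp (h.top.comp h2)).div h3 (by simp)
    rw [Real.sqrt_one, div_one] at h5
    refine h5.congr' ?_
    filter_upwards [Ioo_mem_nhdsLT (show (0:ℝ) < 1 by norm_num)] with x hx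
    have h6 := exp_tau p hx.1 hx.2
    have h7 := Real.sqrt_pos.2 hx.1
    have h8 := Real.sqrt_pos.2 (sub_pos.2 hx.2)
    simp only [Function.comp, Pi.div_apply, rad]
    rw [show (p:ℝ) * tau p x = (p + 1) * tau p x + -tau p x by ring, ex_add, mul_assoc,
      ENNReal.toReal_mul, ex, ENNReal.toReal_ofReal (exp_pos _).le, h6]
    field_simp
  have e0 : extendFrom (Ioo 0 1) (rad p w) 0 = α.toReal :=
    eq_lim_at_left_extendFrom_Ioo zero_lt_one h0
  have e1 : extendFrom (Ioo 0 1) (rad p w) 1 = β.toReal :=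
    eq_lim_at_right_extendFrom_Ioo zero_lt_one h1
  have e2 := extendFrom_extends hc
  have hm : ∀ x : ℝ, max 0 (min 1 x) ∈ Icc (0:ℝ) 1 := fun x =>
    ⟨le_max_left _ _, max_le zero_le_one (min_le_left _ _)⟩
  refine ⟨(continuousOn_Icc_extendFrom_Ioo hc h0 h1).comp_continuous (by fun_prop) hm,
    fun x => ?_, by simpa [Z.prof] using e0, by simpa [Z.prof] using e1, fun x hx => ?_⟩
  · unfold Z.prof
    rcases eq_endpoints_or_mem_Ioo_of_mem_Icc (hm x) with h2 | h2 | h2
    · rw [h2, e0]; exact ENNReal.toReal_pos h.a0 h.a1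
    · rw [h2, e1]; exact ENNReal.toReal_pos h.b0 h.b1
    · rw [e2 _ h2]
      exact div_pos (ENNReal.toReal_pos (mul_ne_zero (ex_pos _).ne' (h.pos _))
        (ENNReal.mul_ne_top (ex_ne_top _) (h.fin _))) (Real.sqrt_pos.2 (by linarith [h2.2]))
  · unfold Z.prof
    rw [min_eq_right hx.2.le, max_eq_right hx.1.le, e2 _ hx]

lemma Reg.prof_exp {α β : ℝ≥0∞} (h : Reg p w α β) (t : ℝ) :
    Z.prof p w (exp ((p + 1) * t) ^ 2 / (1 + exp ((p + 1) * t) ^ 2)) =
      (ex (-t) * w t).toReal * √(1 + exp ((p + 1) * t) ^ 2) := by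
  have h1 := exp_pos ((p + 1) * t)
  rw [h.prof.2.2.2.2 _ ⟨by positivity, by rw [div_lt_one (by positivity)]; linarith⟩, rad, tau_eq,
    show 1 - exp ((p + 1) * t) ^ 2 / (1 + exp ((p + 1) * t) ^ 2) =
      (1 + exp ((p + 1) * t) ^ 2)⁻¹ by field_simp; ring, Real.sqrt_inv, div_inv_eq_mul]

noncomputable def k0 (q : ℕ) : ℝ≥0∞ :=
  cs q * ENNReal.ofReal (2 / (q + 2)) * ENNReal.ofReal (q + 3)

lemma k0_ne_zero (q : ℕ) : k0 q ≠ 0 :=
  mul_ne_zero (mul_ne_zero (cs_ne_zero q) (ENNReal.ofReal_pos.2 (by positivity)).ne')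
    (ENNReal.ofReal_pos.2 (by positivity)).ne'

lemma k0_ne_top (q : ℕ) : k0 q ≠ ∞ :=
  ENNReal.mul_ne_top (ENNReal.mul_ne_top (cs_ne_top q) ENNReal.ofReal_ne_top) ENNReal.ofReal_ne_top

theorem inter_body (q : ℕ) {α β : ℝ≥0∞} (h : Reg (q + 2) w α β)
    (h' : Reg (q + 2) (fun s => k0 q * T (q + 2) w s) (k0 q * al (q + 2) w)
      (k0 q * (cB (q + 2) * α ^ (q + 2)))) :
    interBody (body (q + 2) (prof (q + 2) w)) =
      body (q + 2) (prof (q + 2) fun s => k0 q * T (q + 2) w s) := by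
  obtain ⟨c1, c2, c3, -, -⟩ := h.prof
  obtain ⟨-, -, d3, d4, d5⟩ := h'.prof
  have hm := h.cont.measurable
  have hcast : ((q + 2 : ℕ) : ℝ) + 1 = q + 3 := by push_cast; ring
  rw [interBody_eq]
  refine starSet_congr fun ξ hξ => ?_
  have hξ1 : ‖ξ‖ = 1 := by simpa using hξ
  have hb1 : ξ 0 ^ 2 ≤ 1 := by
    have := EuclideanSpace.norm_sq_eq ξ ▸ Finset.single_le_sum (f := fun i => ‖ξ i‖ ^ 2)
      (fun i _ => sq_nonneg _) (Finset.mem_univ 0)
    simpa [hξ1] using this
  unfold sectionVol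
  rw [section_body q c1 c2 ξ hξ1]
  rcases hb1.eq_or_lt with hb | hb
  · rw [hb, d4, subst (q + 2) one_pos zero_le_one (f := fun _ => α ^ (q + 2)) measurable_const
      fun t y hy hy2 => ?_]
    · rw [k0, cB, lintegral_mul_const _ (by have := measurable_kb (q + 2) (1 / 1); fun_prop),
        div_one, div_one, hcast, mul_assoc, mul_assoc, mul_assoc]
      congr 5
      refine lintegral_congr fun t => ?_
      rw [K, mul_right_comm, ← ex_add]
      congr 2
      push_cast; ring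
    · rw [sub_self, zero_mul, zero_div, c3, show 1 + (exp (((q + 2 : ℕ) + 1) * t) / y) ^ 2 =
        (y⁻¹) ^ 2 by field_simp; linarith, Real.sqrt_sq (by positivity), div_inv_eq_mul, div_one,
        mul_pow, mul_comm, ENNReal.ofReal_mul (by positivity),
        ENNReal.ofReal_pow ENNReal.toReal_nonneg, ENNReal.ofReal_toReal h.a1]
  · set a := √(1 - ξ 0 ^ 2) with ha
    have ha0 : 0 < a := Real.sqrt_pos.2 (by linarith)
    have ha2 : a ^ 2 = 1 - ξ 0 ^ 2 := Real.sq_sqrt (by linarith)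
    rw [subst (q + 2) ha0 (abs_nonneg (ξ 0)) (f := fun t => (ex (-t) * w t) ^ (q + 2))
      (by fun_prop) fun t y hy hy2 => ?_]
    · have e1 : ∀ t, ex (((q + 2 : ℕ) + 1) * t) * kb (q + 2) (|ξ 0| / a) t *
          (ex (-t) * w t) ^ (q + 2) = kb (q + 2) (|ξ 0| / a) t * (ex t * w t ^ (q + 2)) := by
        intro t
        rw [mul_pow, ex_pow, show ((q + 2 : ℕ) + 1) * t = t + -(((q + 2 : ℕ) : ℝ) * -t) by ring,
          ex_add]
        calc _ = (ex (-((q + 2 : ℕ) * -t)) * ex ((q + 2 : ℕ) * -t)) *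
            (kb (q + 2) (|ξ 0| / a) t * (ex t * w t ^ (q + 2))) := by ring
          _ = _ := by rw [ex_neg_mul, one_mul]
      simp_rw [e1]
      have e2 : ∀ X : ℝ≥0∞, (cs q * ENNReal.ofReal (2 / (q + 2)) *
          (ENNReal.ofReal ((((q + 2 : ℕ) : ℝ) + 1) / a) * X)).toReal = (k0 q * X).toReal / a := by
        intro X
        rw [hcast, k0, div_eq_mul_inv _ a, ENNReal.ofReal_mul (p := (q:ℝ) + 3) (by positivity),
          div_eq_mul_inv _ a, ← ENNReal.toReal_ofReal (inv_pos.2 ha0).le, ← ENNReal.toReal_mul,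
          ENNReal.toReal_ofReal (inv_pos.2 ha0).le]
        congr 1; ring
      rw [e2]
      rcases (sq_nonneg (ξ 0)).eq_or_lt with hb0 | hb0
      · have h1 : ξ 0 = 0 := pow_eq_zero_iff two_ne_zero |>.1 hb0.symm
        have h2 : a = 1 := by rw [ha, h1]; simp
        rw [← hb0, d3, h1, h2, abs_zero, zero_div, div_one]
        simp_rw [kb_zero, one_mul]
        rfl
      · rw [d5 _ ⟨hb0, hb⟩, rad, ← ha, mul_left_comm, T_eq w hm]
        have h1 := exp_tau (q + 2) hb0 hb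
        rw [Real.sqrt_sq_eq_abs, ← ha] at h1
        simp_rw [← h1, kb_shift]
    · have h1 := exp_pos (((q + 2 : ℕ) + 1) * t)
      have h2 := h.prof_exp t
      set E := exp (((q + 2 : ℕ) + 1) * t)
      rw [mul_pow, sq_abs] at hy2
      have h3 : y ^ 2 + E ^ 2 = a ^ 2 * (1 + E ^ 2) := by rw [hy2, ha2]; ring
      have h4 : 0 < √(1 + E ^ 2) := Real.sqrt_pos.2 (by positivity)
      have h5 : 1 + (E / y) ^ 2 = (a / y) ^ 2 * (1 + E ^ 2) := by
        field_simp; linarith
      rw [← ha2, h5, show a ^ 2 * (E / y) ^ 2 / ((a / y) ^ 2 * (1 + E ^ 2)) =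
        E ^ 2 / (1 + E ^ 2) by field_simp, h2, Real.sqrt_mul (sq_nonneg _),
        Real.sqrt_sq (by positivity), show (ex (-t) * w t).toReal * √(1 + E ^ 2) /
          (a / y * √(1 + E ^ 2)) = y / a * (ex (-t) * w t).toReal by field_simp, mul_pow,
        ENNReal.ofReal_mul (by positivity), ENNReal.ofReal_pow ENNReal.toReal_nonneg,
        ENNReal.ofReal_toReal (ENNReal.mul_ne_top (ex_ne_top _) (h.fin _))]

end Pool.Agent.Lib.MP_242fd5_gt.Z
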